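import Pool.Agent.Helper60.BinLie

/-!
A finite binary-Lie ring without a finite basis of identities: evaluation of polynomials and
the infinite family of models.
-/

namespace Pool.Agent.Helper60.BinLie

/-- the value of a nonassociative polynomial -/
def pev {A : Type} [NonUnitalNonAssocRing A] (f : ℕ → A) (p : FreeMagma ℕ →₀ ℤ) : A :=
  Finsupp.sum p (fun m c => c • FreeMagma.lift f m)

/-- a bound for the variables of a monomial -/
def mbound : FreeMagma ℕ → ℕ
  | .of i => i + 1
  | .mul s t => max (mbound s) (mbound t)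

theorem lift_mul {A : Type} [NonUnitalNonAssocRing A] (f : ℕ → A) (s t : FreeMagma ℕ) :
    FreeMagma.lift f (s * t) = FreeMagma.lift f s * FreeMagma.lift f t := map_mul _ _ _

theorem lift_congr {A : Type} [NonUnitalNonAssocRing A] (f g : ℕ → A) (m : FreeMagma ℕ)
    (h : ∀ i < mbound m, f i = g i) : FreeMagma.lift f m = FreeMagma.lift g m := by
  induction m with
  | ih1 i => exact h i (Nat.lt_succ_self i)
  | ih2 s t ihs iht =>
    rw [lift_mul, lift_mul, ihs (fun i hi => h i (lt_of_lt_of_le hi (le_max_left _ _))),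
      iht (fun i hi => h i (lt_of_lt_of_le hi (le_max_right _ _)))]

theorem pev_congr {A : Type} [NonUnitalNonAssocRing A] (f g : ℕ → A) (p : FreeMagma ℕ →₀ ℤ)
    (n : ℕ) (hn : ∀ m ∈ p.support, mbound m ≤ n) (h : ∀ i < n, f i = g i) :
    pev f p = pev g p := by
  unfold pev
  apply Finsupp.sum_congr
  intro m hm
  rw [lift_congr f g m (fun i hi => h i (lt_of_lt_of_le hi (hn m hm)))]

theorem pev_add {A : Type} [NonUnitalNonAssocRing A] (f : ℕ → A) (p q : FreeMagma ℕ →₀ ℤ) :
    pev f (p + q) = pev f p + pev f q :=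
  Finsupp.sum_add_index' (fun m => by simp) (fun m a b => add_smul a b _)

theorem pev_single {A : Type} [NonUnitalNonAssocRing A] (f : ℕ → A) (m : FreeMagma ℕ) :
    pev f (Finsupp.single m 1) = FreeMagma.lift f m := by
  unfold pev
  rw [Finsupp.sum_single_index (by simp), one_smul]

section rel

variable {I L : Type} [Fintype I] [AddCommGroup L] [Ev I L]

/-- the small algebra -/
abbrev Gm : Type := Alg Unit T

/-- `x` is glued from the elements `g i` -/
def Rel (x : Alg I L) (g : I → Gm) : Prop :=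
  (∀ i, Ev.ev i x.1 = (g i).1) ∧ (∀ i, x.2.1 i = (g i).2.1 ()) ∧ x.2.2 = ∑ i, (g i).2.2

theorem Rel.add {x y : Alg I L} {g h : I → Gm} (hx : Rel x g) (hy : Rel y h) :
    Rel (x + y) (fun i => g i + h i) := by
  refine ⟨fun i => ?_, fun i => ?_, ?_⟩
  · rw [add_fst, map_add, hx.1, hy.1, add_fst]
  · rw [add_snd, hx.2.1, hy.2.1, add_snd]
  · rw [add_thd, hx.2.2, hy.2.2, ← Finset.sum_add_distrib]
    exact Finset.sum_congr rfl (fun i _ => (add_thd _ _).symm)

theorem Rel.zero : Rel (0 : Alg I L) (fun _ => 0) := by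
  refine ⟨fun i => ?_, fun i => rfl, ?_⟩
  · change Ev.ev i (0 : L) = (0 : T)
    rw [map_zero]
  · change (0 : ZMod 2) = ∑ i : I, (0 : ZMod 2)
    simp

theorem Rel.neg {x : Alg I L} {g : I → Gm} (hx : Rel x g) :
    Rel (-x) (fun i => - g i) := by
  refine ⟨fun i => ?_, fun i => ?_, ?_⟩
  · change Ev.ev i (-x.1) = -(g i).1
    rw [map_neg, hx.1]
  · change -(x.2.1 i) = -(g i).2.1 ()
    rw [hx.2.1]
  · change -x.2.2 = ∑ i, -(g i).2.2
    rw [hx.2.2, Finset.sum_neg_distrib]

theorem Rel.mul {x y : Alg I L} {g h : I → Gm} (hx : Rel x g) (hy : Rel y h) :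
    Rel (x * y) (fun i => g i * h i) := by
  refine ⟨fun i => ?_, fun i => ?_, ?_⟩
  · rw [mul_fst, map_zero, mul_fst]
  · rw [mul_snd, mul_snd', hx.1, hx.2.1, hy.1, hy.2.1]
  · rw [mul_thd]
    apply Finset.sum_congr rfl
    intro i _
    rw [mul_thd, Finset.univ_unique, Finset.sum_singleton, hx.2.1, hy.2.1]

theorem Rel.zsmul {x : Alg I L} {g : I → Gm} (hx : Rel x g) (c : ℤ) :
    Rel (c • x) (fun i => c • g i) := by
  induction c with
  | zero => simpa using Rel.zero
  | succ n ih =>
    have := ih.add hx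
    convert this using 1
    · rw [add_smul, one_smul]
    · funext i
      rw [add_smul, one_smul]
  | pred n ih =>
    have := ih.add hx.neg
    convert this using 1
    · rw [sub_smul, one_smul, sub_eq_add_neg]
    · funext i
      rw [sub_smul, one_smul, sub_eq_add_neg]

theorem Rel.lift {a : ℕ → Alg I L} {g : I → ℕ → Gm} (h : ∀ j, Rel (a j) (fun i => g i j))
    (m : FreeMagma ℕ) : Rel (FreeMagma.lift a m) (fun i => FreeMagma.lift (g i) m) := by
  induction m with
  | ih1 i => exact h i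
  | ih2 s t ihs iht =>
    simp only [lift_mul]
    exact ihs.mul iht

theorem Rel.pev {a : ℕ → Alg I L} {g : I → ℕ → Gm} (h : ∀ j, Rel (a j) (fun i => g i j))
    (p : FreeMagma ℕ →₀ ℤ) : Rel (pev a p) (fun i => pev (g i) p) := by
  unfold BinLie.pev Finsupp.sum
  classical
  induction p.support using Finset.induction_on with
  | empty => simpa using Rel.zero
  | insert m s hm ih =>
    simp only [Finset.sum_insert hm]
    exact ((Rel.lift h m).zsmul _).add ih

/-- every element is glued from elements of the small algebra -/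
theorem exists_rel [Nonempty I] (x : Alg I L) : ∃ g : I → Gm, Rel x g := by
  classical
  obtain ⟨i0⟩ := ‹Nonempty I›
  refine ⟨fun i => (Ev.ev i x.1, fun _ => x.2.1 i, if i = i0 then x.2.2 else 0),
    fun i => rfl, fun i => rfl, ?_⟩
  simp

end rel

/-- the finite binary-Lie ring -/
abbrev GG : Type := Alg (Fin 2) T

instance : Finite GG := inferInstanceAs (Finite (T × (Fin 2 → K) × ZMod 2))

/-- An identity of the finite ring, read in the small algebra. -/
theorem identity_Gm (p : FreeMagma ℕ →₀ ℤ) (hp : ∀ f : ℕ → GG, pev f p = 0)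
    (g h : ℕ → Gm) (hgh : ∀ j, (g j).1 = (h j).1) :
    (pev g p).1 = 0 ∧ (pev g p).2.1 () = 0 ∧ (pev g p).2.2 = (pev h p).2.2 := by
  let G : Fin 2 → ℕ → Gm := fun i j => if i = 0 then g j else h j
  have hG0 : G 0 = g := rfl
  have hG1 : G 1 = h := rfl
  have hrel : ∀ j, Rel (((g j).1, (fun i => (G i j).2.1 ()), (g j).2.2 + (h j).2.2) : GG)
      (fun i => G i j) := by
    intro j
    refine ⟨fun i => ?_, fun i => rfl, ?_⟩
    · fin_cases i
      · rfl
      · exact hgh j
    · rw [Fin.sum_univ_two]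
      rfl
  have h1 := Rel.pev hrel p
  rw [hp] at h1
  obtain ⟨a, b, c⟩ := h1
  refine ⟨?_, ?_, ?_⟩
  · exact (a 0).symm
  · exact (b 0).symm
  · rw [Fin.sum_univ_two] at c
    change (0 : ZMod 2) = (pev g p).2.2 + (pev h p).2.2 at c
    have key : ∀ u v : ZMod 2, 0 = u + v → u = v := by decide
    exact key _ _ c

/-! ### The models -/

/-- affine functions on the cube with values in the top -/
abbrev LL (M : ℕ) : Type := T × (Fin M → T)

instance (M : ℕ) : Ev (Fin M → ZMod 2) (LL M) where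
  ev e :=
    { toFun := fun l => l.1 + ∑ j, e j • l.2 j
      map_zero' := by simp
      map_add' := by
        intro l l'
        simp only [Prod.fst_add, Prod.snd_add, Pi.add_apply, smul_add, Finset.sum_add_distrib]
        abel }

theorem ev_def {M : ℕ} (e : Fin M → ZMod 2) (l : LL M) :
    Ev.ev e l = l.1 + ∑ j, e j • l.2 j := rfl

/-- the model -/
abbrev HH (M : ℕ) : Type := Alg (Fin M → ZMod 2) (LL M)

theorem ev_inj {M : ℕ} (l : LL M) (h : ∀ e : Fin M → ZMod 2, Ev.ev e l = (0 : T)) : l = 0 := by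
  classical
  have h0 : l.1 = 0 := by
    have := h 0
    rw [ev_def] at this
    simpa using this
  apply Prod.ext h0
  funext j
  have := h (Pi.single j 1)
  rw [ev_def, h0, zero_add, Finset.sum_eq_single j] at this
  · simpa using this
  · intro k _ hk
    rw [Pi.single_eq_of_ne hk, zero_smul]
  · intro hj
    exact absurd (Finset.mem_univ j) hj

theorem exists_period (n M : ℕ) (h : 4 * n < M) (l : ℕ → LL M) :
    ∃ v : Fin M → ZMod 2, v ≠ 0 ∧ ∀ i < n, ∀ e : Fin M → ZMod 2,
      Ev.ev (e + v) (l i) = (Ev.ev e (l i) : T) := by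
  classical
  have hcard : Fintype.card (Fin n → T) < Fintype.card (Fin M → ZMod 2) := by
    simp only [Fintype.card_pi, ZMod.card, Finset.prod_const, Finset.card_univ, Fintype.card_fin]
    rw [← pow_mul]
    exact Nat.pow_lt_pow_right (by norm_num) h
  obtain ⟨x, y, hxy, he⟩ := Fintype.exists_ne_map_eq_of_card_lt
    (fun (x : Fin M → ZMod 2) (i : Fin n) => ∑ j, x j • (l i).2 j) hcard
  refine ⟨x - y, sub_ne_zero.mpr hxy, fun i hi e => ?_⟩
  have := congrFun he ⟨i, hi⟩
  simp only at this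
  rw [ev_def, ev_def]
  simp only [Pi.add_apply, Pi.sub_apply, add_smul, sub_smul, Finset.sum_add_distrib,
    Finset.sum_sub_distrib, this, sub_self, add_zero]

theorem sum_zero_of_period {N : ℕ} (v : Fin N → ZMod 2) (hv : v ≠ 0)
    (z : (Fin N → ZMod 2) → ZMod 2) (hz : ∀ e, z (e + v) = z e) : ∑ e, z e = 0 := by
  classical
  have two : ∀ x : ZMod 2, x + x = 0 := by decide
  have h2 : v + v = 0 := by
    funext i
    exact two _
  apply Finset.sum_involution (fun e _ => e + v)
  · intro e _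
    rw [hz, two]
  · intro e _ _ h
    exact hv (by simpa using h)
  · intro e _
    exact Finset.mem_univ _
  · intro e _
    rw [add_assoc, h2, add_zero]

/-- identities of the finite ring in few variables hold in the model -/
theorem model_holds (n M : ℕ) (h : 4 * n < M) (p : FreeMagma ℕ →₀ ℤ)
    (hn : ∀ m ∈ p.support, mbound m ≤ n) (hp : ∀ f : ℕ → GG, pev f p = 0)
    (a : ℕ → HH M) : pev a p = 0 := by
  classical
  choose g hg using fun j => exists_rel (a j)
  have hrel := Rel.pev (g := fun e j => g j e) hg p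
  obtain ⟨h1, h2, h3⟩ := hrel
  obtain ⟨v, hv, hper⟩ := exists_period n M h (fun j => (a j).1)
  apply alg_ext
  · apply ev_inj
    intro e
    rw [h1]
    exact (identity_Gm p hp (fun j => g j e) (fun j => g j e) (fun _ => rfl)).1
  · intro e
    rw [h2]
    exact (identity_Gm p hp (fun j => g j e) (fun j => g j e) (fun _ => rfl)).2.1
  · rw [h3]
    change _ = (0 : ZMod 2)
    apply sum_zero_of_period v hv
    intro e
    -- replace the irrelevant variables
    let g' : ℕ → Gm := fun j => if j < n then g j (e + v) else g j e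
    have e1 : pev (fun j => g j (e + v)) p = pev g' p := by
      apply pev_congr _ _ p n hn
      intro i hi
      simp only [g', if_pos hi]
    change (pev (fun j => g j (e + v)) p).2.2 = (pev (fun j => g j e) p).2.2
    rw [e1]
    refine (identity_Gm p hp g' (fun j => g j e) ?_).2.2
    intro j
    by_cases hj : j < n
    · simp only [g', if_pos hj]
      rw [← (hg j).1, ← (hg j).1]
      exact hper j hj e
    · simp only [g', if_neg hj]

/-! ### The words -/

/-- Jacobian -/
def Jac {A : Type} [NonUnitalNonAssocRing A] (x y z : A) : A :=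
  (x * y) * z + (y * z) * x + (z * x) * y

/-- repeated double multiplications -/
def chn {A : Type} [Mul A] (f : ℕ → A) (x : A) : ℕ → A
  | 0 => x
  | k + 1 => (chn f x k * f (7 + k)) * f (7 + k)

/-- the monomials -/
def mon (M : ℕ) (s t : FreeMagma ℕ) : FreeMagma ℕ :=
  (chn FreeMagma.of s M * .of 6) * (t * .of 6)

/-- the polynomial -/
noncomputable def poly (M : ℕ) : FreeMagma ℕ →₀ ℤ :=
  let a : FreeMagma ℕ := .of 0
  let b : FreeMagma ℕ := .of 1
  let c : FreeMagma ℕ := .of 2
  let d : FreeMagma ℕ := .of 3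
  let e : FreeMagma ℕ := .of 4
  let f : FreeMagma ℕ := .of 5
  let S (t : FreeMagma ℕ) : FreeMagma ℕ →₀ ℤ :=
    Finsupp.single (mon M ((a * b) * c) t) 1 + Finsupp.single (mon M ((b * c) * a) t) 1
      + Finsupp.single (mon M ((c * a) * b) t) 1
  S ((d * e) * f) + S ((e * f) * d) + S ((f * d) * e)

theorem lift_chn {A : Type} [NonUnitalNonAssocRing A] (f : ℕ → A) (s : FreeMagma ℕ) (M : ℕ) :
    FreeMagma.lift f (chn FreeMagma.of s M) = chn f (FreeMagma.lift f s) M := by
  induction M with
  | zero => rfl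
  | succ M ih => simp only [chn, lift_mul, ih]; rfl

theorem chn_add {A : Type} [NonUnitalNonAssocRing A] (f : ℕ → A) (x y : A) (M : ℕ) :
    chn f (x + y) M = chn f x M + chn f y M := by
  induction M with
  | zero => rfl
  | succ M ih => simp only [chn, ih, add_mul]

theorem pev_poly {A : Type} [NonUnitalNonAssocRing A] (f : ℕ → A) (M : ℕ) :
    pev f (poly M) = (chn f (Jac (f 0) (f 1) (f 2)) M * f 6) * (Jac (f 3) (f 4) (f 5) * f 6) := by
  unfold poly mon Jac
  simp only [pev_add, pev_single, lift_mul, lift_chn, FreeMagma.lift_of, chn_add, add_mul, mul_add]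

/-! ### Values in the small algebra -/

/-- the Jacobian on the top -/
def DJ (x y z : T) : K :=
  ![z 0 * (x 1 * y 2 + x 2 * y 1) + x 0 * (y 1 * z 2 + y 2 * z 1) + y 0 * (z 1 * x 2 + z 2 * x 1),
    z 0 * (x 1 * y 3 + x 3 * y 1) + x 0 * (y 1 * z 3 + y 3 * z 1) + y 0 * (z 1 * x 3 + z 3 * x 1),
    0, 0]

theorem jac_fst (x y z : Gm) : (Jac x y z).1 = 0 := rfl

theorem jac_snd (x y z : Gm) : (Jac x y z).2.1 () = DJ x.1 y.1 z.1 := by
  unfold Jac
  rw [add_snd, add_snd, mul_snd', mul_snd', mul_snd', mul_snd', mul_snd', mul_snd']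
  funext j
  fin_cases j
  · simp [mid, Bv, Aop, mul_fst, DJ]; grind
  · simp [mid, Bv, Aop, mul_fst, DJ]; grind
  · simp [mid, Bv, Aop, mul_fst, DJ]; grind
  · simp [mid, Bv, Aop, mul_fst, DJ]; grind

theorem chn_fst (f : ℕ → Gm) (x : Gm) (hx : x.1 = 0) (M : ℕ) : (chn f x M).1 = 0 := by
  cases M with
  | zero => exact hx
  | succ M => rfl

theorem chn_snd (f : ℕ → Gm) (x : Gm) (hx : x.1 = 0) (u v : ZMod 2)
    (hx2 : x.2.1 () = ![u, v, 0, 0]) (M : ℕ) :
    (chn f x M).2.1 () = ![(∏ i ∈ Finset.range M, (f (7 + i)).1 0) * u,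
      (∏ i ∈ Finset.range M, (f (7 + i)).1 0) * v, 0, 0] := by
  induction M with
  | zero => simp [chn, hx2]
  | succ M ih =>
    rw [chn, mul_snd', mul_snd', ih, mul_fst, chn_fst f x hx, Finset.prod_range_succ]
    generalize (∏ i ∈ Finset.range M, (f (7 + i)).1 0) = q
    generalize (f (7 + M)).1 = w
    generalize (f (7 + M)).2.1 () = k
    have sq : ∀ a : ZMod 2, a * a = a := by decide
    funext j
    fin_cases j
    · simp [mid, Bv, Aop]
      rw [← mul_assoc, ← mul_assoc, sq]
      ring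
    · simp [mid, Bv, Aop]
      rw [← mul_assoc, ← mul_assoc, sq]
      ring
    · simp [mid, Bv, Aop]
    · simp [mid, Bv, Aop]

/-- the value of the word on the top -/
def val (x y z x' y' z' w : T) (q : ZMod 2) : ZMod 2 :=
  q * w 0 * ((DJ x y z 0) * (DJ x' y' z' 1) + (DJ x y z 1) * (DJ x' y' z' 0))

theorem poly_Gm (f : ℕ → Gm) (M : ℕ) :
    (pev f (poly M)).1 = 0 ∧ (pev f (poly M)).2.1 () = 0 ∧ (pev f (poly M)).2.2
      = val (f 0).1 (f 1).1 (f 2).1 (f 3).1 (f 4).1 (f 5).1 (f 6).1
        (∏ i ∈ Finset.range M, (f (7 + i)).1 0) := by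
  have sq : ∀ a : ZMod 2, a * a = a := by decide
  have hJ1 := jac_snd (f 0) (f 1) (f 2)
  have hJ2 := jac_snd (f 3) (f 4) (f 5)
  have hJ1' : (Jac (f 0) (f 1) (f 2)).2.1 () = ![DJ (f 0).1 (f 1).1 (f 2).1 0,
      DJ (f 0).1 (f 1).1 (f 2).1 1, 0, 0] := by
    rw [hJ1]
    funext j
    fin_cases j <;> simp [DJ]
  have hc := chn_snd f _ (jac_fst (f 0) (f 1) (f 2)) _ _ hJ1' M
  have hc1 := chn_fst f _ (jac_fst (f 0) (f 1) (f 2)) M
  rw [pev_poly]
  set X := chn f (Jac (f 0) (f 1) (f 2)) M with hX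
  set Y := Jac (f 3) (f 4) (f 5) with hY
  have hYf : Y.1 = 0 := rfl
  refine ⟨rfl, ?_, ?_⟩
  · rw [mul_snd', mul_fst, mul_fst]
    funext j
    change _ = (0 : ZMod 2)
    fin_cases j <;> simp [mid, Bv, Aop]
  · rw [mul_thd, Finset.univ_unique, Finset.sum_singleton]
    change om ((X * f 6).2.1 ()) ((Y * f 6).2.1 ()) = _
    rw [mul_snd', mul_snd', hc1, hc, hYf, hJ2]
    generalize (∏ i ∈ Finset.range M, (f (7 + i)).1 0) = q
    have e0 : DJ (f 3).1 (f 4).1 (f 5).1 2 = 0 := rfl
    have e1 : DJ (f 3).1 (f 4).1 (f 5).1 3 = 0 := rfl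
    unfold val
    have hw := sq ((f 6).1 0)
    simp only [om, mid, Pi.add_apply, Pi.smul_apply, smul_eq_mul]
    have A0 : ∀ s : K, Aop s 0 = s 2 := fun s => rfl
    have A1 : ∀ s : K, Aop s 1 = s 3 := fun s => rfl
    have A2 : ∀ s : K, Aop s 2 = s 0 := fun s => rfl
    have A3 : ∀ s : K, Aop s 3 = s 1 := fun s => rfl
    simp only [A2, A3]
    generalize DJ (f 0).1 (f 1).1 (f 2).1 0 = d0
    generalize DJ (f 0).1 (f 1).1 (f 2).1 1 = d1
    generalize DJ (f 3).1 (f 4).1 (f 5).1 0 = d0'
    generalize DJ (f 3).1 (f 4).1 (f 5).1 1 = d1'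
    generalize (f 6).1 = w at *
    simp [Bv]
    linear_combination (q * d0 * d1' + q * d1 * d0') * hw

/-- the words are identities of the finite ring -/
theorem poly_identity (M : ℕ) (a : ℕ → GG) : pev a (poly M) = 0 := by
  choose g hg using fun j => exists_rel (a j)
  obtain ⟨h1, h2, h3⟩ := Rel.pev (g := fun e j => g j e) hg (poly M)
  apply alg_ext
  · have := h1 0
    rw [(poly_Gm _ M).1] at this
    exact this
  · intro i
    rw [h2, (poly_Gm _ M).2.1]
    rfl
  · rw [h3, Fin.sum_univ_two, (poly_Gm _ M).2.2, (poly_Gm _ M).2.2]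
    have hT : ∀ j, (g j 0).1 = (g j 1).1 := by
      intro j
      rw [← (hg j).1, ← (hg j).1]
      rfl
    simp only [hT]
    have two : ∀ x : ZMod 2, x + x = 0 := by decide
    exact two _

/-- the words fail in the models -/
theorem poly_fails (M : ℕ) : ∃ a : ℕ → HH M, pev a (poly M) ≠ 0 := by
  classical
  let e0 : T := ![1, 0, 0, 0]
  let e1 : T := ![0, 1, 0, 0]
  let e2 : T := ![0, 0, 1, 0]
  let e3 : T := ![0, 0, 0, 1]
  let a : ℕ → HH M := fun j =>
    if j = 0 then ((e0, 0), 0) else if j = 1 then ((e1, 0), 0) else if j = 2 then ((e2, 0), 0)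
    else if j = 3 then ((e0, 0), 0) else if j = 4 then ((e1, 0), 0)
    else if j = 5 then ((e3, 0), 0) else if j = 6 then ((e0, 0), 0)
    else ((0, fun i => if 7 + (i : ℕ) = j then e0 else 0), 0)
  refine ⟨a, ?_⟩
  intro hzero
  choose g hg using fun j => exists_rel (a j)
  obtain ⟨h1, h2, h3⟩ := Rel.pev (g := fun e j => g j e) hg (poly M)
  rw [hzero] at h3
  change (0 : ZMod 2) = _ at h3
  have hval : ∀ e : Fin M → ZMod 2, (pev (fun j => g j e) (poly M)).2.2
      = if e = (fun _ => 1) then 1 else 0 := by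
    intro e
    rw [(poly_Gm _ M).2.2]
    have q : ∀ (l : LL M), l.2 = 0 → (Ev.ev e l : T) = l.1 := by
      intro l hl
      rw [ev_def, hl]
      simp
    have f0 : (g 0 e).1 = e0 := by rw [← (hg 0).1]; exact q _ rfl
    have f1 : (g 1 e).1 = e1 := by rw [← (hg 1).1]; exact q _ rfl
    have f2 : (g 2 e).1 = e2 := by rw [← (hg 2).1]; exact q _ rfl
    have f3 : (g 3 e).1 = e0 := by rw [← (hg 3).1]; exact q _ rfl
    have f4 : (g 4 e).1 = e1 := by rw [← (hg 4).1]; exact q _ rfl
    have f5 : (g 5 e).1 = e3 := by rw [← (hg 5).1]; exact q _ rfl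
    have f6 : (g 6 e).1 = e0 := by rw [← (hg 6).1]; exact q _ rfl
    have f7 : ∀ i : Fin M, (g (7 + i) e).1 0 = e i := by
      intro i
      rw [← (hg (7 + i)).1]
      have ha : a (7 + i) = (((0 : T), fun k : Fin M => if 7 + (k : ℕ) = 7 + (i : ℕ) then e0
          else 0), (0 : ((Fin M → ZMod 2) → K) × ZMod 2)) := by
        simp only [a]
        rw [if_neg (by omega), if_neg (by omega), if_neg (by omega), if_neg (by omega),
          if_neg (by omega), if_neg (by omega), if_neg (by omega)]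
      rw [ha, ev_def]
      simp only [zero_add]
      rw [Finset.sum_eq_single i]
      · simp [e0]
      · intro k _ hk
        rw [if_neg (by
          intro h
          apply hk
          apply Fin.ext
          omega), smul_zero]
      · intro hi
        exact absurd (Finset.mem_univ i) hi
    rw [f0, f1, f2, f3, f4, f5, f6]
    rw [← Fin.prod_univ_eq_prod_range (fun i => (g (7 + i) e).1 0) M]
    rw [Finset.prod_congr rfl (fun i _ => f7 i)]
    have hv : ∀ q : ZMod 2, val e0 e1 e2 e0 e1 e3 e0 q = q := by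
      intro q
      simp [val, DJ, e0, e1, e2, e3]
    rw [hv]
    by_cases hc : e = fun _ => 1
    · rw [if_pos hc, hc]; simp
    · rw [if_neg hc]
      obtain ⟨i, hi⟩ : ∃ i, e i ≠ 1 := by
        by_contra hcon
        push Not at hcon
        exact hc (funext hcon)
      apply Finset.prod_eq_zero (Finset.mem_univ i)
      have : ∀ a : ZMod 2, a ≠ 1 → a = 0 := by decide
      exact this _ hi
  rw [Finset.sum_congr rfl (fun e _ => hval e), Finset.sum_ite_eq' Finset.univ] at h3
  simp at h3

end Pool.Agent.Helper60.BinLie
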