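import Mathlib

noncomputable section

namespace Pool.Agent.Helper60

/-- the free associative ring (no unit) on countably many variables -/
abbrev FR := FreeAbelianGroup (FreeSemigroup ℕ)

def Xv (i : ℕ) : FR := FreeAbelianGroup.of (FreeSemigroup.of i)

section
variable {R S : Type*} [NonUnitalRing R] [NonUnitalRing S]

/-- evaluation -/
def ev (v : ℕ → R) : FR →ₙ+* R where
  toFun := FreeAbelianGroup.lift (fun w => FreeSemigroup.lift v w)
  map_zero' := map_zero _
  map_add' := map_add _
  map_mul' := by
    intro x y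
    induction y using FreeAbelianGroup.induction_on with
    | zero => simp only [mul_zero, map_zero]
    | of L2 =>
      induction x using FreeAbelianGroup.induction_on with
      | zero => simp only [zero_mul, map_zero]
      | of L1 =>
        rw [FreeAbelianGroup.of_mul_of, FreeAbelianGroup.lift_apply_of, FreeAbelianGroup.lift_apply_of,
          FreeAbelianGroup.lift_apply_of, map_mul]
      | neg L1 ih => rw [neg_mul, map_neg, ih, map_neg, neg_mul]
      | add x1 x2 ih1 ih2 => rw [add_mul, map_add, ih1, ih2, map_add, add_mul]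
    | neg L2 ih => rw [mul_neg, map_neg, ih, map_neg, mul_neg]
    | add y1 y2 ih1 ih2 => rw [mul_add, map_add, ih1, ih2, map_add, mul_add]

theorem ev_of (v : ℕ → R) (w : FreeSemigroup ℕ) :
    ev v (FreeAbelianGroup.of w) = FreeSemigroup.lift v w := FreeAbelianGroup.lift_apply_of _ _

@[simp] theorem ev_X (v : ℕ → R) (i : ℕ) : ev v (Xv i) = v i := by
  rw [Xv, ev_of]; rfl

theorem FR_hom_ext {f g : FR →ₙ+* R} (h : ∀ i, f (Xv i) = g (Xv i)) (x : FR) : f x = g x := by
  induction x using FreeAbelianGroup.induction_on with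
  | zero => rw [map_zero, map_zero]
  | of w =>
    induction w using FreeSemigroup.recOnMul with
    | ih1 x => exact h x
    | ih2 x y h1 h2 =>
      rw [FreeAbelianGroup.of_mul, map_mul, map_mul, h1, h2]
  | neg w ih => rw [map_neg, map_neg, ih]
  | add x y h1 h2 => rw [map_add, map_add, h1, h2]

theorem map_ev (f : R →ₙ+* S) (v : ℕ → R) (x : FR) : f (ev v x) = ev (fun i => f (v i)) x := by
  have := FR_hom_ext (f := f.comp (ev v)) (g := ev (fun i => f (v i))) (fun i => by simp) x
  exact this

theorem ev_ev (v : ℕ → R) (w : ℕ → FR) (x : FR) : ev v (ev w x) = ev (fun i => ev v (w i)) x :=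
  map_ev (ev v) w x

theorem ev_Xv (x : FR) : ev Xv x = x := by
  have := FR_hom_ext (f := ev Xv) (g := NonUnitalRingHom.id FR) (fun i => by simp) x
  exact this

end

theorem ev_list {A : Type*} [Ring A] (v : ℕ → A) (w : FreeSemigroup ℕ) :
    ev v (FreeAbelianGroup.of w) = ((w.head :: w.tail).map v).prod := by
  induction w using FreeSemigroup.recOnMul with
  | ih1 x =>
    rw [ev_of, FreeSemigroup.lift_of]
    simp [FreeSemigroup.of]
  | ih2 x y h1 h2 =>
    rw [FreeAbelianGroup.of_mul, map_mul, h1, h2, FreeSemigroup.head_mul, FreeSemigroup.tail_mul]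
    simp [mul_assoc]

/-- inclusion in the unitization -/
def inrH (R : Type*) [NonUnitalRing R] : R →ₙ+* Unitization ℤ R where
  toFun := Unitization.inr
  map_mul' := Unitization.inr_mul ℤ
  map_zero' := Unitization.inr_zero ℤ
  map_add' := Unitization.inr_add ℤ

theorem inrH_inj {R : Type*} [NonUnitalRing R] : Function.Injective (inrH R) := Unitization.inr_injective

section InclExcl

variable {A : Type*} [Ring A] {ι : Type*} [Fintype ι] [DecidableEq ι] (l : ℕ → A) (n : ℕ → ι → A)

/-- the part of a word in which exactly the markers in `U` occur -/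
def part : List ℕ → Finset ι → A
  | [], U => if U = ∅ then 1 else 0
  | k :: w, U => l k * part w U + ∑ i ∈ U, n k i * (part w U + part w (U.erase i))

def vT (T : Finset ι) (k : ℕ) : A := l k + ∑ i ∈ T, n k i

theorem sum_part_aux (a : Finset ι → A) (T : Finset ι) {i : ι} (hi : i ∈ T) :
    ∑ U ∈ T.powerset, (if i ∈ U then a U + a (U.erase i) else 0) = ∑ U ∈ T.powerset, a U := by
  obtain ⟨T', hT', rfl⟩ : ∃ T', i ∉ T' ∧ insert i T' = T :=
    ⟨T.erase i, Finset.notMem_erase i T, Finset.insert_erase hi⟩
  rw [Finset.sum_powerset_insert hT', Finset.sum_powerset_insert hT']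
  have h1 : ∑ U ∈ T'.powerset, (if i ∈ U then a U + a (U.erase i) else 0) = 0 := by
    refine Finset.sum_eq_zero (fun U hU => ?_)
    rw [if_neg (fun h => hT' (Finset.mem_powerset.mp hU h))]
  rw [h1, zero_add, ← Finset.sum_add_distrib]
  refine Finset.sum_congr rfl (fun U hU => ?_)
  have hiU : i ∉ U := fun h => hT' (Finset.mem_powerset.mp hU h)
  rw [if_pos (Finset.mem_insert_self _ _), Finset.erase_insert hiU, add_comm]

theorem sum_part (w : List ℕ) (T : Finset ι) :
    (w.map (vT l n T)).prod = ∑ U ∈ T.powerset, part l n w U := by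
  induction w with
  | nil =>
    rw [List.map_nil, List.prod_nil]
    simp only [part]
    rw [Finset.sum_ite_eq' T.powerset ∅]
    simp
  | cons k w ih =>
    rw [List.map_cons, List.prod_cons, ih]
    simp only [part]
    rw [Finset.sum_add_distrib, vT, add_mul, ← Finset.mul_sum]
    congr 1
    have h1 : ∀ U ∈ T.powerset, ∑ i ∈ U, n k i * (part l n w U + part l n w (U.erase i)) =
        ∑ i ∈ T, n k i * (if i ∈ U then part l n w U + part l n w (U.erase i) else 0) := by
      intro U hU
      rw [← Finset.sum_subset (Finset.mem_powerset.mp hU)]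
      · refine Finset.sum_congr rfl (fun i hi => by rw [if_pos hi])
      · intro i _ hi; rw [if_neg hi, mul_zero]
    rw [Finset.sum_congr rfl h1, Finset.sum_comm, Finset.sum_mul]
    refine Finset.sum_congr rfl (fun i hi => ?_)
    rw [← Finset.mul_sum, sum_part_aux _ _ hi]

/-- additive extension -/
def partF (U : Finset ι) : FR →+ A := FreeAbelianGroup.lift (fun w => part l n (w.head :: w.tail) U)

theorem sum_partF (f : FR) (T : Finset ι) : ev (vT l n T) f = ∑ U ∈ T.powerset, partF l n U f := by
  induction f using FreeAbelianGroup.induction_on with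
  | zero => simp
  | of w =>
    rw [ev_list, sum_part]
    refine Finset.sum_congr rfl (fun U _ => ?_)
    rw [partF, FreeAbelianGroup.lift_apply_of]
  | neg w ih => simp only [map_neg, ih, Finset.sum_neg_distrib]
  | add x y h1 h2 => simp only [map_add, h1, h2, Finset.sum_add_distrib]

theorem part_mem (K : Finset ι → AddSubgroup A) (h1 : (1 : A) ∈ K ∅)
    (hl : ∀ k U x, x ∈ K U → l k * x ∈ K U)
    (hn : ∀ k U i x, i ∈ U → x ∈ K U → n k i * x ∈ K U)
    (hn' : ∀ k U i x, i ∈ U → x ∈ K (U.erase i) → n k i * x ∈ K U) (w : List ℕ) (U : Finset ι) :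
    part l n w U ∈ K U := by
  induction w generalizing U with
  | nil =>
    simp only [part]
    split_ifs with h
    · rw [h]; exact h1
    · exact AddSubgroup.zero_mem _
  | cons k w ih =>
    simp only [part]
    refine AddSubgroup.add_mem _ (hl k U _ (ih U)) (AddSubgroup.sum_mem _ (fun i hi => ?_))
    rw [mul_add]
    exact AddSubgroup.add_mem _ (hn k U i _ hi (ih U)) (hn' k U i _ hi (ih _))

theorem partF_mem (K : Finset ι → AddSubgroup A) (h1 : (1 : A) ∈ K ∅)
    (hl : ∀ k U x, x ∈ K U → l k * x ∈ K U)
    (hn : ∀ k U i x, i ∈ U → x ∈ K U → n k i * x ∈ K U)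
    (hn' : ∀ k U i x, i ∈ U → x ∈ K (U.erase i) → n k i * x ∈ K U) (f : FR) (U : Finset ι) :
    partF l n U f ∈ K U := by
  induction f using FreeAbelianGroup.induction_on with
  | zero => rw [map_zero]; exact AddSubgroup.zero_mem _
  | of w =>
    rw [partF, FreeAbelianGroup.lift_apply_of]
    exact part_mem l n K h1 hl hn hn' _ U
  | neg w ih => rw [map_neg]; exact AddSubgroup.neg_mem _ ih
  | add x y h1 h2 => rw [map_add]; exact AddSubgroup.add_mem _ h1 h2

theorem incl_excl (K : Finset ι → AddSubgroup A) (h1 : (1 : A) ∈ K ∅)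
    (hl : ∀ k U x, x ∈ K U → l k * x ∈ K U)
    (hn : ∀ k U i x, i ∈ U → x ∈ K U → n k i * x ∈ K U)
    (hn' : ∀ k U i x, i ∈ U → x ∈ K (U.erase i) → n k i * x ∈ K U)
    (Z : AddSubgroup A) (hKZ : K Finset.univ ≤ Z) (f : FR)
    (hT : ∀ T : Finset ι, T ≠ Finset.univ → ev (vT l n T) f ∈ Z) :
    ev (vT l n Finset.univ) f ∈ Z := by
  have key : ∀ U : Finset ι, U ≠ Finset.univ → partF l n U f ∈ Z := by
    intro U
    induction U using Finset.strongInduction with
    | H U ih =>
      intro hU
      have h2 := hT U hU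
      rw [sum_partF, ← Finset.insert_erase (Finset.mem_powerset_self U),
        Finset.sum_insert (Finset.notMem_erase _ _)] at h2
      have h3 : ∑ V ∈ U.powerset.erase U, partF l n V f ∈ Z := by
        refine AddSubgroup.sum_mem _ (fun V hV => ?_)
        rw [Finset.mem_erase, Finset.mem_powerset] at hV
        have hlt : V ⊂ U := lt_of_le_of_ne hV.2 hV.1
        refine ih V hlt ?_
        rintro rfl
        exact hV.1 (Finset.univ_subset_iff.mp hV.2).symm
      have := AddSubgroup.sub_mem _ h2 h3
      rwa [add_sub_cancel_right] at this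
  rw [sum_partF]
  refine AddSubgroup.sum_mem _ (fun U _ => ?_)
  by_cases hU : U = Finset.univ
  · subst hU; exact hKZ (partF_mem l n K h1 hl hn hn' f _)
  · exact key U hU

end InclExcl

end Pool.Agent.Helper60
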