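import Pool.Agent.Helper60.LocFin
import Pool.Agent.Helper60.Free

noncomputable section

namespace Pool.Agent.Helper60

section Blocks

variable {R : Type} [NonUnitalRing R]

def PrimeI (P : TwoSidedIdeal R) : Prop := P ≠ ⊤ ∧ ∀ a b, (∀ r, a * r * b ∈ P) → a ∈ P ∨ b ∈ P

def OneMod (P : TwoSidedIdeal R) (b : R) : Prop := ∀ x, b * x - x ∈ P ∧ x * b - x ∈ P

theorem OneMod.mul {P : TwoSidedIdeal R} {b c : R} (hb : OneMod P b) (hc : OneMod P c) : OneMod P (b * c) := by
  intro x
  constructor
  · have e : b * c * x - x = b * (c * x - x) + (b * x - x) := by simp only [mul_sub, mul_assoc]; abel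
    rw [e]; exact P.add_mem (P.mul_mem_left _ _ (hc x).1) (hb x).1
  · have e : x * (b * c) - x = (x * b - x) * c + (x * c - x) := by simp only [sub_mul, mul_assoc]; abel
    rw [e]; exact P.add_mem (P.mul_mem_right _ _ (hb x).2) (hc x).2

theorem OneMod.pw {P : TwoSidedIdeal R} {b : R} (hb : OneMod P b) (k : ℕ) : OneMod P (pw b k) := by
  induction k with
  | zero => exact hb
  | succ k ih => exact ih.mul hb

theorem OneMod.add {P : TwoSidedIdeal R} {b c : R} (hb : OneMod P b) (hc : c ∈ P) : OneMod P (b + c) := by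
  intro x
  constructor
  · have e : (b + c) * x - x = (b * x - x) + c * x := by simp only [add_mul]; abel
    rw [e]; exact P.add_mem (hb x).1 (P.mul_mem_right _ _ hc)
  · have e : x * (b + c) - x = (x * b - x) + x * c := by simp only [mul_add]; abel
    rw [e]; exact P.add_mem (hb x).2 (P.mul_mem_left _ _ hc)

theorem pw_mem {P : TwoSidedIdeal R} {b : R} (hb : b ∈ P) (k : ℕ) : pw b k ∈ P := by
  induction k with
  | zero => exact hb
  | succ k ih => exact P.mul_mem_left _ _ hb

variable {p m : ℕ} (hp : p.Prime) (hm : 1 ≤ m) (hc : ∀ x : R, (p : ℤ) • x = 0)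
  (hper : ∀ x : R, pw x 2 = pw x (2 + m))

include hp hm hc hper

theorem prime_max {P : TwoSidedIdeal R} (hP : PrimeI P) {I : TwoSidedIdeal R} (hI : ¬ I ≤ P) :
    ∃ b ∈ I, OneMod P b := by
  obtain ⟨Q, _, π, hs, hk⟩ := quot_pkg P
  have hQP : ∀ a b : Q, (∀ x, a * x * b = 0) → a = 0 ∨ b = 0 := by
    intro q q' h
    obtain ⟨a, rfl⟩ := hs q
    obtain ⟨b, rfl⟩ := hs q'
    rw [hk, hk]
    apply hP.2
    intro r
    have := h (π r)
    rwa [← map_mul, ← map_mul, hk] at this
  have hQc : ∀ q : Q, (p : ℤ) • q = 0 := by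
    intro q; obtain ⟨x, rfl⟩ := hs q; rw [← map_zsmul, hc, map_zero]
  have hQper : ∀ q : Q, pw q 2 = pw q (2 + m) := by
    intro q; obtain ⟨x, rfl⟩ := hs q; rw [← pw_map, ← pw_map, hper]
  let I' : NonUnitalSubring Q :=
    { carrier := {q | ∃ x ∈ I, π x = q}
      add_mem' := by
        rintro _ _ ⟨a, ha, rfl⟩ ⟨b, hb, rfl⟩
        exact ⟨a + b, I.add_mem ha hb, map_add _ _ _⟩
      zero_mem' := ⟨0, I.zero_mem, map_zero _⟩
      neg_mem' := by
        rintro _ ⟨a, ha, rfl⟩
        exact ⟨-a, I.neg_mem ha, map_neg _ _⟩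
      mul_mem' := by
        rintro _ _ ⟨a, ha, rfl⟩ ⟨b, _, rfl⟩
        exact ⟨a * b, I.mul_mem_right _ _ ha, map_mul _ _ _⟩ }
  have hIl : ∀ (x q : Q), q ∈ I' → x * q ∈ I' := by
    rintro x _ ⟨a, ha, rfl⟩
    obtain ⟨y, rfl⟩ := hs x
    exact ⟨y * a, I.mul_mem_left _ _ ha, map_mul _ _ _⟩
  have hIr : ∀ (x q : Q), q ∈ I' → q * x ∈ I' := by
    rintro x _ ⟨a, ha, rfl⟩
    obtain ⟨y, rfl⟩ := hs x
    exact ⟨a * y, I.mul_mem_right _ _ ha, map_mul _ _ _⟩
  let inc : I' →ₙ+* Q :=
    { toFun := fun x => x.1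
      map_mul' := fun _ _ => rfl
      map_zero' := rfl
      map_add' := fun _ _ => rfl }
  have hinc : Function.Injective inc := fun x y h => Subtype.ext h
  obtain ⟨_, _, s, hs1⟩ := prime_finite (R := I') hp hm
    (fun x => hinc (by rw [map_zsmul, hQc, map_zero]))
    (fun x => hinc (by rw [pw_map, pw_map, hQper])) (by
      intro a b hab
      by_cases hb : b = 0
      · right; exact hb
      · left
        have hb' : (b : Q) ≠ 0 := fun h => hb (Subtype.ext h)
        have h1 : ∀ c : I', (a : Q) * c = 0 := by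
          intro c
          have h2 : ∀ x, ((a : Q) * c) * x * b = 0 := by
            intro x
            have := congrArg Subtype.val (hab ⟨(c : Q) * x, hIr x c c.2⟩)
            change (a : Q) * ((c : Q) * x) * b = 0 at this
            rw [mul_assoc (a : Q)]; exact this
          rcases hQP _ _ h2 with h | h
          · exact h
          · exact absurd h hb'
        have h2 : ∀ x, (a : Q) * x * b = 0 := by
          intro x
          rw [mul_assoc]
          exact h1 ⟨_, hIl x b b.2⟩
        rcases hQP _ _ h2 with h | h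
        · exact Subtype.ext h
        · exact absurd h hb')
  have hs2 : ∀ y ∈ I', (s : Q) * y = y ∧ y * s = y := by
    intro y hy
    exact ⟨congrArg Subtype.val (hs1 ⟨y, hy⟩).1, congrArg Subtype.val (hs1 ⟨y, hy⟩).2⟩
  have hs0 : (s : Q) ≠ 0 := by
    intro h0
    apply hI
    intro x hx
    rw [← hk]
    have := (hs2 (π x) ⟨x, hx, rfl⟩).1
    rw [h0, zero_mul] at this
    exact this.symm
  have hcomm : ∀ q : Q, (s : Q) * q = q * s := by
    intro q
    have h1 := (hs2 _ (hIr q s s.2)).2
    have h2 := (hs2 _ (hIl q s s.2)).1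
    rw [← h1, mul_assoc, h2]
  have hone : ∀ q : Q, (s : Q) * q = q := by
    intro q
    have h1 : ∀ x, (s : Q) * x * (q - s * q) = 0 := by
      intro x
      have h2 := (hs2 _ (hIr x s s.2)).2
      rw [mul_sub, ← mul_assoc ((s : Q) * x), h2, sub_self]
    rcases hQP _ _ h1 with h | h
    · exact absurd h hs0
    · exact (sub_eq_zero.mp h).symm
  obtain ⟨b, hb, hb'⟩ := s.2
  refine ⟨b, hb, fun x => ⟨?_, ?_⟩⟩
  · rw [← hk, map_sub, map_mul, hb', hone, sub_self]
  · rw [← hk, map_sub, map_mul, hb', ← hcomm, hone, sub_self]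

theorem exists_sep {P P' : TwoSidedIdeal R} (hP : PrimeI P) (hP' : PrimeI P') (hne : P ≠ P') :
    ∃ b ∈ P', OneMod P b := by
  by_cases h : P' ≤ P
  · exfalso
    have h1 : ¬ P ≤ P' := fun h' => hne (le_antisymm h' h)
    obtain ⟨b, hb, hb'⟩ := prime_max hp hm hc hper hP' h1
    apply hP.1
    ext x
    refine ⟨fun _ => trivial, fun _ => ?_⟩
    have h2 := h (hb' x).1
    have h3 := P.sub_mem (P.mul_mem_right _ x hb) h2
    rwa [sub_sub_cancel] at h3
  · exact prime_max hp hm hc hper hP h

theorem exists_xi {P : Fin 4 → TwoSidedIdeal R} (hP : ∀ i, PrimeI (P i)) (hne : ∀ i j, i ≠ j → P i ≠ P j)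
    (i : Fin 4) (S : Finset (Fin 4)) (hi : i ∉ S) : ∃ x, (∀ j ∈ S, x ∈ P j) ∧ OneMod (P i) x := by
  induction S using Finset.induction_on with
  | empty =>
    obtain ⟨b, _, hb⟩ := prime_max hp hm hc hper (hP i) (I := ⊤)
      (fun h => (hP i).1 (top_le_iff.mp h))
    exact ⟨b, by simp, hb⟩
  | insert a S _ ih =>
    have hia : i ≠ a := fun h => hi (by rw [h]; exact Finset.mem_insert_self _ _)
    obtain ⟨x, hx1, hx2⟩ := ih (fun h => hi (Finset.mem_insert_of_mem h))
    obtain ⟨b, hb1, hb2⟩ := exists_sep hp hm hc hper (hP i) (hP a) (hne i a hia)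
    refine ⟨x * b, ?_, hx2.mul hb2⟩
    intro j hj
    rcases Finset.mem_insert.mp hj with rfl | hj
    · exact (P j).mul_mem_left _ _ hb1
    · exact (P j).mul_mem_right _ _ (hx1 j hj)

theorem exists_orth {P : Fin 4 → TwoSidedIdeal R} (hP : ∀ i, PrimeI (P i)) (hne : ∀ i j, i ≠ j → P i ≠ P j)
    (S : Finset (Fin 4)) : ∃ e : Fin 4 → R,
      (∀ i ∈ S, e i * e i = e i ∧ OneMod (P i) (e i) ∧ ∀ j, j ≠ i → e i ∈ P j) ∧
      ∀ i ∈ S, ∀ j ∈ S, i ≠ j → e i * e j = 0 := by
  induction S using Finset.induction_on with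
  | empty => exact ⟨fun _ => 0, by simp, by simp⟩
  | insert a S ha ih =>
    obtain ⟨e, he1, he2⟩ := ih
    obtain ⟨x, hx1, hx2⟩ := exists_xi hp hm hc hper hP hne a (Finset.univ.erase a) (Finset.notMem_erase _ _)
    set s := ∑ i ∈ S, e i with hs
    have hse : ∀ i ∈ S, s * e i = e i := by
      intro i hi
      rw [hs, Finset.sum_mul, Finset.sum_eq_single i]
      · exact (he1 i hi).1
      · intro j hj hji; exact he2 j hj i hi hji
      · intro h; exact absurd hi h
    have hes : ∀ i ∈ S, e i * s = e i := by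
      intro i hi
      rw [hs, Finset.mul_sum, Finset.sum_eq_single i]
      · exact (he1 i hi).1
      · intro j hj hji; exact he2 i hi j hj (Ne.symm hji)
      · intro h; exact absurd hi h
    have hsP : s ∈ P a := by
      rw [hs]
      refine _root_.sum_mem (fun i hi => (he1 i hi).2.2 a ?_)
      rintro rfl; exact ha hi
    set y := x - s * x - x * s + s * x * s with hy
    have hy1 : OneMod (P a) y := by
      have e1 : y = x + (-(s * x) - x * s + s * x * s) := by rw [hy]; abel
      rw [e1]
      refine hx2.add ?_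
      exact (P a).add_mem ((P a).sub_mem ((P a).neg_mem ((P a).mul_mem_right _ _ hsP))
        ((P a).mul_mem_left _ _ hsP)) ((P a).mul_mem_left _ _ hsP)
    have hy2 : ∀ j, j ≠ a → y ∈ P j := by
      intro j hj
      have hxj : x ∈ P j := hx1 j (Finset.mem_erase.mpr ⟨hj, Finset.mem_univ _⟩)
      exact (P j).add_mem ((P j).sub_mem ((P j).sub_mem hxj ((P j).mul_mem_left _ _ hxj))
        ((P j).mul_mem_right _ _ hxj)) ((P j).mul_mem_right _ _ ((P j).mul_mem_left _ _ hxj))
    have hye : ∀ i ∈ S, y * e i = 0 ∧ e i * y = 0 := by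
      intro i hi
      constructor
      · have : y * e i = x * e i - s * x * e i - x * (s * e i) + s * x * (s * e i) := by
          rw [hy]; simp only [add_mul, sub_mul, mul_assoc]
        rw [this, hse i hi]; abel
      · have : e i * y = e i * x - (e i * s) * x - e i * x * s + (e i * s) * x * s := by
          rw [hy]; simp only [mul_add, mul_sub, mul_assoc]
        rw [this, hes i hi]; abel
    refine ⟨Function.update e a (idp m y), ?_, ?_⟩
    · intro i hi
      rcases Finset.mem_insert.mp hi with hi | hi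
      · rw [hi, Function.update_self]
        exact ⟨idp_idem hm (hper y), hy1.pw _, fun j hj => pw_mem (hy2 j hj) _⟩
      · have hia : i ≠ a := fun h => ha (h ▸ hi)
        rw [Function.update_of_ne hia]
        exact he1 i hi
    · intro i hi j hj hij
      rcases Finset.mem_insert.mp hi with hi' | hi'
      · rcases Finset.mem_insert.mp hj with hj' | hj'
        · exact absurd (hi'.trans hj'.symm) hij
        · have hja : j ≠ a := fun h => ha (h ▸ hj')
          rw [hi', Function.update_self, Function.update_of_ne hja]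
          exact pw_mul_zero (hye j hj').1 _
      · have hia : i ≠ a := fun h => ha (h ▸ hi')
        rw [Function.update_of_ne hia]
        rcases Finset.mem_insert.mp hj with hj' | hj'
        · rw [hj', Function.update_self]
          exact mul_pw_zero (hye i hi').2 _
        · have hja : j ≠ a := fun h => ha (h ▸ hj')
          rw [Function.update_of_ne hja]
          exact he2 i hi' j hj' hij

omit hp hm hc hper in
theorem inr_mid {a b : R} (hab : a * b = 0) (q : Unitization ℤ R) :
    inrH R a * q * inrH R b = inrH R (a * q.snd * b) := by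
  have h1 : ∀ x : R, inrH R x = Unitization.inr x := fun _ => rfl
  rw [h1, h1, h1]
  ext
  · simp
  · simp [add_mul, smul_mul_assoc, hab]

/-- at most three blocks matter -/
theorem blocks_aux {A : Type*} [Ring A] (ι : R →ₙ+* A) (hinj : ∀ x, ι x = 0 → x = 0)
    (hmid : ∀ a b : R, a * b = 0 → ∀ q : A, ∃ r : R, ι a * q * ι b = ι (a * r * b)) {P : Fin 4 → TwoSidedIdeal R} (hP : ∀ i, PrimeI (P i)) (hne : ∀ i j, i ≠ j → P i ≠ P j)
    (f : FR) (hf : ∀ K : TwoSidedIdeal R, K ≠ ⊤ → ∀ v : ℕ → R, (∀ i, v i ∈ K) → ev v f = 0)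
    (v : ℕ → R) : ev v f = 0 := by
  classical
  obtain ⟨e, he1, he2⟩ := exists_orth hp hm hc hper hP hne Finset.univ
  have hid : ∀ i, e i * e i = e i := fun i => (he1 i (Finset.mem_univ _)).1
  have hone : ∀ i, OneMod (P i) (e i) := fun i => (he1 i (Finset.mem_univ _)).2.1
  have hin : ∀ i j, j ≠ i → e i ∈ P j := fun i => (he1 i (Finset.mem_univ _)).2.2
  have hort : ∀ i j, i ≠ j → e i * e j = 0 := fun i j => he2 i (Finset.mem_univ _) j (Finset.mem_univ _)
  let l0 : ℕ → R := fun k => v k - ∑ i, v k * e i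
  let n0 : ℕ → Fin 4 → R := fun k i => v k * e i
  let l : ℕ → A := fun k => ι (l0 k)
  let n : ℕ → Fin 4 → A := fun k i => ι (n0 k i)
  have hv : ∀ T k, vT l n T k = ι (l0 k + ∑ i ∈ T, n0 k i) := by
    intro T k
    simp only [vT, l, n, map_add, map_sum]
  have hev : ∀ T, ev (vT l n T) f = ι (ev (fun k => l0 k + ∑ i ∈ T, n0 k i) f) := by
    intro T
    rw [map_ev]
    congr 1
    congr 1
    funext k
    exact hv T k
  have hl0 : ∀ k i, l0 k ∈ P i := by
    intro k i
    have h1 : l0 k = -(v k * e i - v k) - ∑ j ∈ Finset.univ.erase i, v k * e j := by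
      simp only [l0]
      rw [← Finset.add_sum_erase Finset.univ (fun j => v k * e j) (Finset.mem_univ i)]; abel
    rw [h1]
    refine (P i).sub_mem ((P i).neg_mem (hone i (v k)).2) (_root_.sum_mem (fun j hj => ?_))
    exact (P i).mul_mem_left _ _ (hin j i (Finset.ne_of_mem_erase hj).symm)
  let K : Finset (Fin 4) → AddSubgroup A := fun U =>
    { carrier := {x | ∀ c : List (Fin 4 × A), (c.map Prod.fst).Nodup → (∀ i ∈ c.map Prod.fst, i ∉ U) →
        c.length + U.card = 4 → (c.map (fun q => ι (e q.1) * q.2)).prod * x = 0}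
      add_mem' := by
        intro a b ha hb c h1 h2 h3
        rw [mul_add, ha c h1 h2 h3, hb c h1 h2 h3, add_zero]
      zero_mem' := by intro c _ _ _; rw [mul_zero]
      neg_mem' := by
        intro a ha c h1 h2 h3
        rw [mul_neg, ha c h1 h2 h3, neg_zero] }
  have hKmul : ∀ (b x : A) (U : Finset (Fin 4)), x ∈ K U → b * x ∈ K U := by
    intro b x U hx c h1 h2 h3
    rcases List.eq_nil_or_concat c with rfl | ⟨c', q, rfl⟩
    · have := hx [] (by simp) (by simp) h3
      simp only [List.map_nil, List.prod_nil, one_mul] at this ⊢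
      rw [this, mul_zero]
    · rw [List.concat_eq_append] at h1 h2 h3 ⊢
      have := hx (c' ++ [(q.1, q.2 * b)]) (by simpa using h1) (by simpa using h2) (by simpa using h3)
      simp only [List.map_append, List.map_cons, List.map_nil, List.prod_append, List.prod_cons,
        List.prod_nil, mul_one] at this ⊢
      rw [← this]; noncomm_ring
  have hK1 : (1 : A) ∈ K ∅ := by
    intro c h1 _ h3
    rw [mul_one]
    simp only [Finset.card_empty, add_zero] at h3
    match c, h1, h3 with
    | [q1, q2, q3, q4], h1, _ =>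
      simp only [List.map_cons, List.map_nil, List.nodup_cons, List.mem_cons, List.not_mem_nil, or_false,
        not_or] at h1
      obtain ⟨⟨h12, h13, h14⟩, ⟨h23, h24⟩, h34, _⟩ := h1
      have e1 : ([q1, q2, q3, q4].map (fun q => ι (e q.1) * q.2)).prod =
          (ι (e q1.1) * q1.2 * ι (e q2.1)) * (ι (e q2.1) * q2.2 * ι (e q3.1)) *
          (ι (e q3.1) * q3.2 * ι (e q4.1)) * q4.2 := by
        have i2 : ι (e q2.1) * ι (e q2.1) = ι (e q2.1) := by rw [← map_mul, hid]
        have i3 : ι (e q3.1) * ι (e q3.1) = ι (e q3.1) := by rw [← map_mul, hid]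
        simp only [List.map_cons, List.map_nil, List.prod_cons, List.prod_nil, mul_one]
        calc _ = ι (e q1.1) * q1.2 * (ι (e q2.1)) * q2.2 * (ι (e q3.1)) * q3.2 *
              ι (e q4.1) * q4.2 := by noncomm_ring
          _ = ι (e q1.1) * q1.2 * (ι (e q2.1) * ι (e q2.1)) * q2.2 *
              (ι (e q3.1) * ι (e q3.1)) * q3.2 * ι (e q4.1) * q4.2 := by rw [i2, i3]
          _ = _ := by noncomm_ring
      obtain ⟨r1, hr1⟩ := hmid _ _ (hort _ _ h12) q1.2
      obtain ⟨r2, hr2⟩ := hmid _ _ (hort _ _ h23) q2.2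
      obtain ⟨r3, hr3⟩ := hmid _ _ (hort _ _ h34) q3.2
      rw [e1, hr1, hr2, hr3, ← map_mul, ← map_mul]
      have e2 : e q1.1 * r1 * e q2.1 * (e q2.1 * r2 * e q3.1) * (e q3.1 * r3 * e q4.1) =
          e q1.1 * r1 * e q2.1 * r2 * e q3.1 * r3 * e q4.1 := by
        calc _ = e q1.1 * r1 * (e q2.1 * e q2.1) * r2 * (e q3.1 * e q3.1) * r3 * e q4.1 := by
              simp only [mul_assoc]
          _ = _ := by rw [hid, hid]
      rw [e2, nil_prod hm hper (hid _) (hid _) (hort _ _ (Ne.symm h12)) (hort _ _ (Ne.symm h13))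
        (hort _ _ (Ne.symm h23)) (hort _ _ h23) (hort _ _ (Ne.symm h14)) (hort _ _ (Ne.symm h24))
        (hort _ _ (Ne.symm h34)), map_zero, zero_mul]
  have hmain := incl_excl l n K hK1 (fun k U x hx => hKmul _ x U hx) (fun k U i x _ hx => hKmul _ x U hx)
    (by
      intro k U i x hi hx
      have h1 : n k i * x = ι (v k) * (ι (e i) * x) := by
        simp only [n, n0, map_mul, mul_assoc]
      rw [h1]
      refine hKmul _ _ _ ?_
      intro c h1 h2 h3
      have := hx (c ++ [(i, 1)]) (by
        rw [List.map_append, List.nodup_append]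
        refine ⟨h1, by simp, ?_⟩
        intro a ha b hb
        simp only [List.map_cons, List.map_nil, List.mem_singleton] at hb
        rw [hb]; rintro rfl; exact h2 a ha hi) (by
        intro j hj
        rw [List.map_append, List.mem_append] at hj
        rcases hj with hj | hj
        · exact fun h => h2 j hj (Finset.mem_of_mem_erase h)
        · simp only [List.map_cons, List.map_nil, List.mem_singleton] at hj
          rw [hj]; exact Finset.notMem_erase _ _) (by
        rw [List.length_append, List.length_singleton, Finset.card_erase_of_mem hi]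
        have := Finset.card_pos.mpr ⟨i, hi⟩
        omega)
      simp only [List.map_append, List.map_cons, List.map_nil, List.prod_append, List.prod_cons,
        List.prod_nil, mul_one] at this
      rw [← this]; noncomm_ring)
    ⊥ (by
      intro x hx
      have := hx [] (by simp) (by simp) (by simp)
      simpa using this) f (by
      intro T hT
      rw [AddSubgroup.mem_bot, hev]
      obtain ⟨i0, hi0⟩ : ∃ i0, i0 ∉ T := by
        by_contra h
        push Not at h
        exact hT (Finset.eq_univ_of_forall h)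
      rw [hf (P i0) (hP i0).1, map_zero]
      intro k
      refine (P i0).add_mem (hl0 k i0) (_root_.sum_mem (fun i hi => (P i0).mul_mem_left _ _ (hin i i0 ?_)))
      rintro rfl; exact hi0 hi)
  rw [AddSubgroup.mem_bot, hev] at hmain
  have h2 := hinj _ hmain
  have h3 : (fun k => l0 k + ∑ i, n0 k i) = v := by
    funext k
    simp only [l0, n0, sub_add_cancel]
  rwa [h3] at h2

theorem blocks {P : Fin 4 → TwoSidedIdeal R} (hP : ∀ i, PrimeI (P i)) (hne : ∀ i j, i ≠ j → P i ≠ P j)
    (f : FR) (hf : ∀ K : TwoSidedIdeal R, K ≠ ⊤ → ∀ v : ℕ → R, (∀ i, v i ∈ K) → ev v f = 0)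
    (v : ℕ → R) : ev v f = 0 :=
  blocks_aux hp hm hc hper (inrH R) (fun _ h => inrH_inj (h.trans (map_zero (inrH R)).symm))
    (fun _ _ h q => ⟨q.snd, inr_mid h q⟩) hP hne f hf v

end Blocks

end Pool.Agent.Helper60
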