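import Pool.Agent.Helper60.Sys

noncomputable section

namespace Pool.Agent.Helper60.Sys

open Pool.Agent.Helper60

variable {A L : Type} [Ring A] [Fintype L] [DecidableEq L] (X : Sys A L)

/-- generators of the ideal of squares -/
def s (t u : ℕ × L) : A := if t = u then X.y t * X.y t else X.y t * X.y u + X.y u * X.y t

def Sq : AddSubgroup A := AddSubgroup.closure {z | ∃ a ∈ X.N, z = a * a}

theorem s_mem_Sq (t u : ℕ × L) : X.s t u ∈ X.Sq := by
  unfold s
  split_ifs with h
  · exact AddSubgroup.subset_closure ⟨X.y t, X.hy t, rfl⟩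
  · have : X.y t * X.y u + X.y u * X.y t =
        (X.y t + X.y u) * (X.y t + X.y u) - X.y t * X.y t - X.y u * X.y u := by noncomm_ring
    rw [this]
    refine AddSubgroup.sub_mem _ (AddSubgroup.sub_mem _ ?_ ?_) ?_
    · exact AddSubgroup.subset_closure ⟨_, X.N.add_mem (X.hy t) (X.hy u), rfl⟩
    · exact AddSubgroup.subset_closure ⟨_, X.hy t, rfl⟩
    · exact AddSubgroup.subset_closure ⟨_, X.hy u, rfl⟩

theorem s_mem_N (t u : ℕ × L) : X.s t u ∈ X.N := by
  unfold s
  split_ifs with h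
  · exact X.mulL _ _ (X.hy t)
  · exact X.N.add_mem (X.mulL _ _ (X.hy _)) (X.mulL _ _ (X.hy _))

theorem sq_mul_sq (h2 : ∀ x : A, x + x = 0) {a b c : A} (ha : a ∈ X.N) (hc : c ∈ X.N) (hb : b ∈ X.N) :
    a * a * c * (b * b) = 0 := by
  have := nil_char_two (R := X.NS) (fun x => Subtype.ext (h2 x)) (fun x => Subtype.ext (X.cube x x.2))
    ⟨a, ha⟩ ⟨c, hc⟩ ⟨b, hb⟩
  exact congrArg Subtype.val this

theorem Sq_mul_Sq (h2 : ∀ x : A, x + x = 0) {x y c : A} (hx : x ∈ X.Sq) (hc : c ∈ X.N) (hy : y ∈ X.Sq) :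
    x * c * y = 0 := by
  refine AddSubgroup.closure_induction (p := fun x _ => x * c * y = 0) ?_ ?_ ?_ ?_ hx
  · rintro _ ⟨a, ha, rfl⟩
    refine AddSubgroup.closure_induction (p := fun y _ => a * a * c * y = 0) ?_ ?_ ?_ ?_ hy
    · rintro _ ⟨b, hb, rfl⟩
      exact X.sq_mul_sq h2 ha hc hb
    · simp
    · intro u v _ _ h1 h2; rw [mul_add, h1, h2, add_zero]
    · intro u _ h1; rw [mul_neg, h1, neg_zero]
  · simp
  · intro u v _ _ h1 h2; rw [add_mul, add_mul, h1, h2, add_zero]
  · intro u _ h1; rw [neg_mul, neg_mul, h1, neg_zero]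

theorem s_mul_s (h2 : ∀ x : A, x + x = 0) {c : A} (hc : c ∈ X.N) (t u t' u' : ℕ × L) :
    X.s t u * c * X.s t' u' = 0 := X.Sq_mul_Sq h2 (X.s_mem_Sq _ _) hc (X.s_mem_Sq _ _)

def B : AddSubgroup A := AddSubgroup.closure {z | ∃ l t u m, z = X.P l * X.s t u * X.P m}
def B2 : AddSubgroup A :=
  AddSubgroup.closure {z | ∃ l t u t' u' m, z = X.P l * (X.s t u * X.s t' u') * X.P m}

theorem P_mul_B (l : List (ℕ × L)) {x : A} (hx : x ∈ X.B) : X.P l * x ∈ X.B := by
  refine AddSubgroup.closure_induction (p := fun x _ => X.P l * x ∈ X.B) ?_ ?_ ?_ ?_ hx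
  · rintro _ ⟨l', t, u, m, rfl⟩
    exact AddSubgroup.subset_closure ⟨l ++ l', t, u, m, by rw [P_append]; noncomm_ring⟩
  · simpa using X.B.zero_mem
  · intro u v _ _ h1 h2; rw [mul_add]; exact X.B.add_mem h1 h2
  · intro u _ h1; rw [mul_neg]; exact X.B.neg_mem h1

theorem B_mul_P (l : List (ℕ × L)) {x : A} (hx : x ∈ X.B) : x * X.P l ∈ X.B := by
  refine AddSubgroup.closure_induction (p := fun x _ => x * X.P l ∈ X.B) ?_ ?_ ?_ ?_ hx
  · rintro _ ⟨l', t, u, m, rfl⟩
    exact AddSubgroup.subset_closure ⟨l', t, u, m ++ l, by rw [P_append]; noncomm_ring⟩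
  · simpa using X.B.zero_mem
  · intro u v _ _ h1 h2; rw [add_mul]; exact X.B.add_mem h1 h2
  · intro u _ h1; rw [neg_mul]; exact X.B.neg_mem h1

theorem P_mul_B2 (l : List (ℕ × L)) {x : A} (hx : x ∈ X.B2) : X.P l * x ∈ X.B2 := by
  refine AddSubgroup.closure_induction (p := fun x _ => X.P l * x ∈ X.B2) ?_ ?_ ?_ ?_ hx
  · rintro _ ⟨l', t, u, t', u', m, rfl⟩
    exact AddSubgroup.subset_closure ⟨l ++ l', t, u, t', u', m, by rw [P_append]; noncomm_ring⟩
  · simpa using X.B2.zero_mem
  · intro u v _ _ h1 h2; rw [mul_add]; exact X.B2.add_mem h1 h2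
  · intro u _ h1; rw [mul_neg]; exact X.B2.neg_mem h1

theorem B2_mul_P (l : List (ℕ × L)) {x : A} (hx : x ∈ X.B2) : x * X.P l ∈ X.B2 := by
  refine AddSubgroup.closure_induction (p := fun x _ => x * X.P l ∈ X.B2) ?_ ?_ ?_ ?_ hx
  · rintro _ ⟨l', t, u, t', u', m, rfl⟩
    exact AddSubgroup.subset_closure ⟨l', t, u, t', u', m ++ l, by rw [P_append]; noncomm_ring⟩
  · simpa using X.B2.zero_mem
  · intro u v _ _ h1 h2; rw [add_mul]; exact X.B2.add_mem h1 h2
  · intro u _ h1; rw [neg_mul]; exact X.B2.neg_mem h1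

theorem B2_le_B : X.B2 ≤ X.B := by
  rw [B2, AddSubgroup.closure_le]
  rintro _ ⟨l, t, u, t', u', m, rfl⟩
  -- expand s t u
  have h : X.s t u * X.s t' u' * X.P m ∈ X.B := by
    unfold s
    split_ifs with h1 h2 h2
    · subst h1; subst h2
      exact AddSubgroup.subset_closure ⟨[], t, t, t' :: t' :: m, by simp [s]; noncomm_ring⟩
    · subst h1
      have : X.y t * X.y t * (X.y t' * X.y u' + X.y u' * X.y t') * X.P m =
          X.P [] * X.s t t * X.P (t' :: u' :: m) + X.P [] * X.s t t * X.P (u' :: t' :: m) := by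
        simp [s]; noncomm_ring
      rw [this]
      exact X.B.add_mem (AddSubgroup.subset_closure ⟨_, _, _, _, rfl⟩)
        (AddSubgroup.subset_closure ⟨_, _, _, _, rfl⟩)
    · subst h2
      have : (X.y t * X.y u + X.y u * X.y t) * (X.y t' * X.y t') * X.P m =
          X.P [t, u] * X.s t' t' * X.P m + X.P [u, t] * X.s t' t' * X.P m := by
        simp [s]; noncomm_ring
      rw [this]
      exact X.B.add_mem (AddSubgroup.subset_closure ⟨_, _, _, _, rfl⟩)
        (AddSubgroup.subset_closure ⟨_, _, _, _, rfl⟩)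
    · have : (X.y t * X.y u + X.y u * X.y t) * (X.y t' * X.y u' + X.y u' * X.y t') * X.P m =
          X.P [t, u] * X.s t' u' * X.P m + X.P [u, t] * X.s t' u' * X.P m := by
        simp [s, h2]; noncomm_ring
      rw [this]
      exact X.B.add_mem (AddSubgroup.subset_closure ⟨_, _, _, _, rfl⟩)
        (AddSubgroup.subset_closure ⟨_, _, _, _, rfl⟩)
  have := X.P_mul_B l h
  show X.P l * (X.s t u * X.s t' u') * X.P m ∈ X.B
  rw [mul_assoc]; exact this

theorem rho_s {σ : ℕ → ℕ} (hσ : StrictMono σ) (t u : ℕ × L) :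
    X.rho σ (X.s t u) = X.s (σ t.1, t.2) (σ u.1, u.2) := by
  unfold s
  by_cases h : t = u
  · subst h; simp [X.hrho σ hσ]
  · have h' : ¬ ((σ t.1, t.2) = (σ u.1, u.2)) := by
      intro h'
      apply h
      rw [Prod.mk.injEq] at h'
      exact Prod.ext (hσ.injective h'.1) h'.2
    simp [h, h', X.hrho σ hσ]

theorem rho_B {σ : ℕ → ℕ} (hσ : StrictMono σ) {x : A} (hx : x ∈ X.B) : X.rho σ x ∈ X.B := by
  refine AddSubgroup.closure_induction (p := fun x _ => X.rho σ x ∈ X.B) ?_ ?_ ?_ ?_ hx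
  · rintro _ ⟨l, t, u, m, rfl⟩
    exact AddSubgroup.subset_closure ⟨_, _, _, _, by rw [map_mul, map_mul, X.rho_P hσ, X.rho_P hσ, X.rho_s hσ]⟩
  · simpa using X.B.zero_mem
  · intro u v _ _ h1 h2; rw [map_add]; exact X.B.add_mem h1 h2
  · intro u _ h1; rw [map_neg]; exact X.B.neg_mem h1

theorem rho_B2 {σ : ℕ → ℕ} (hσ : StrictMono σ) {x : A} (hx : x ∈ X.B2) : X.rho σ x ∈ X.B2 := by
  refine AddSubgroup.closure_induction (p := fun x _ => X.rho σ x ∈ X.B2) ?_ ?_ ?_ ?_ hx
  · rintro _ ⟨l, t, u, t', u', m, rfl⟩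
    exact AddSubgroup.subset_closure ⟨_, _, _, _, _, _, by
      rw [map_mul, map_mul, map_mul, X.rho_P hσ, X.rho_P hσ, X.rho_s hσ, X.rho_s hσ]⟩
  · simpa using X.B2.zero_mem
  · intro u v _ _ h1 h2; rw [map_add]; exact X.B2.add_mem h1 h2
  · intro u _ h1; rw [map_neg]; exact X.B2.neg_mem h1

theorem B_mul_s (h2 : ∀ x : A, x + x = 0) {x : A} (hx : x ∈ X.B) (t' u' : ℕ × L) :
    x * X.s t' u' ∈ X.B2 := by
  refine AddSubgroup.closure_induction (p := fun x _ => x * X.s t' u' ∈ X.B2) ?_ ?_ ?_ ?_ hx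
  · rintro _ ⟨l, t, u, m, rfl⟩
    by_cases hm : m = []
    · subst hm
      exact AddSubgroup.subset_closure ⟨l, t, u, t', u', [], by simp [mul_assoc]⟩
    · have : X.P l * X.s t u * X.P m * X.s t' u' = X.P l * (X.s t u * X.P m * X.s t' u') := by noncomm_ring
      rw [this, X.s_mul_s h2 (X.P_mem hm)]
      simpa using X.B2.zero_mem
  · simpa using X.B2.zero_mem
  · intro u v _ _ h1 h2; rw [add_mul]; exact X.B2.add_mem h1 h2
  · intro u _ h1; rw [neg_mul]; exact X.B2.neg_mem h1

theorem s_mul_B (h2 : ∀ x : A, x + x = 0) {x : A} (hx : x ∈ X.B) (t' u' : ℕ × L) :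
    X.s t' u' * x ∈ X.B2 := by
  refine AddSubgroup.closure_induction (p := fun x _ => X.s t' u' * x ∈ X.B2) ?_ ?_ ?_ ?_ hx
  · rintro _ ⟨l, t, u, m, rfl⟩
    by_cases hl : l = []
    · subst hl
      exact AddSubgroup.subset_closure ⟨[], t', u', t, u, m, by simp [mul_assoc]⟩
    · have : X.s t' u' * (X.P l * X.s t u * X.P m) = (X.s t' u' * X.P l * X.s t u) * X.P m := by noncomm_ring
      rw [this, X.s_mul_s h2 (X.P_mem hl)]
      simpa using X.B2.zero_mem
  · simpa using X.B2.zero_mem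
  · intro u v _ _ h1 h2; rw [mul_add]; exact X.B2.add_mem h1 h2
  · intro u _ h1; rw [mul_neg]; exact X.B2.neg_mem h1

theorem B_mul_ss (h2 : ∀ x : A, x + x = 0) {x : A} (hx : x ∈ X.B) (t u t' u' : ℕ × L) :
    x * (X.s t u * X.s t' u') = 0 := by
  refine AddSubgroup.closure_induction (p := fun x _ => x * (X.s t u * X.s t' u') = 0) ?_ ?_ ?_ ?_ hx
  · rintro _ ⟨l, a, b, m, rfl⟩
    have : X.P l * X.s a b * X.P m * (X.s t u * X.s t' u') =
      X.P l * (X.s a b * (X.P m * X.s t u) * X.s t' u') := by noncomm_ring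
    rw [this, X.s_mul_s h2 (X.mulL _ _ (X.s_mem_N _ _)), mul_zero]
  · simp
  · intro u v _ _ h1 h2; rw [add_mul, h1, h2, add_zero]
  · intro u _ h1; rw [neg_mul, h1, neg_zero]

theorem ss_mul_B (h2 : ∀ x : A, x + x = 0) {x : A} (hx : x ∈ X.B) (t u t' u' : ℕ × L) :
    (X.s t u * X.s t' u') * x = 0 := by
  refine AddSubgroup.closure_induction (p := fun x _ => (X.s t u * X.s t' u') * x = 0) ?_ ?_ ?_ ?_ hx
  · rintro _ ⟨l, a, b, m, rfl⟩
    have : (X.s t u * X.s t' u') * (X.P l * X.s a b * X.P m) =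
      (X.s t u * (X.s t' u' * X.P l) * X.s a b) * X.P m := by noncomm_ring
    rw [this, X.s_mul_s h2 (X.mulR _ _ (X.s_mem_N _ _)), zero_mul]
  · simp
  · intro u v _ _ h1 h2; rw [mul_add, h1, h2, add_zero]
  · intro u _ h1; rw [mul_neg, h1, neg_zero]

/-- sorting modulo `B` -/
theorem perm_B (h2 : ∀ x : A, x + x = 0) {l l' : List (ℕ × L)} (h : l.Perm l') : X.P l - X.P l' ∈ X.B := by
  induction h with
  | nil => simpa using X.B.zero_mem
  | cons x _ ih =>
    rename_i l1 l2 _
    have := X.P_mul_B [x] ih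
    simpa [mul_sub] using this
  | swap x z l =>
    by_cases hxz : x = z
    · subst hxz; simpa using X.B.zero_mem
    · have : X.P (z :: x :: l) - X.P (x :: z :: l) = X.P [] * X.s z x * X.P l := by
        have e : X.y x * X.y z * X.P l + X.y x * X.y z * X.P l = 0 := h2 _
        simp [s, Ne.symm hxz]
        have : X.y z * (X.y x * X.P l) - X.y x * (X.y z * X.P l) =
          (X.y z * X.y x + X.y x * X.y z) * X.P l - (X.y x * X.y z * X.P l + X.y x * X.y z * X.P l) := by
          noncomm_ring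
        rw [this, e, sub_zero]
      rw [this]
      exact AddSubgroup.subset_closure ⟨_, _, _, _, rfl⟩
  | trans _ _ ih1 ih2 =>
    have := X.B.add_mem ih1 ih2
    simpa using this

theorem dup_perm {l : List (ℕ × L)} (h : ¬ l.Nodup) : ∃ t l', l.Perm (t :: t :: l') := by
  rw [List.nodup_iff_count_le_one] at h
  push Not at h
  obtain ⟨t, ht⟩ := h
  have h1 : (List.replicate 2 t).Sublist l := List.replicate_sublist_iff.mpr ht
  obtain ⟨l', hl'⟩ := h1.exists_perm_append
  exact ⟨t, l', hl'⟩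

theorem dup_B (h2 : ∀ x : A, x + x = 0) {l : List (ℕ × L)} (h : ¬ l.Nodup) : X.P l ∈ X.B := by
  obtain ⟨t, l', hl⟩ := dup_perm h
  have h1 := X.perm_B h2 hl
  have h3 : X.P (t :: t :: l') ∈ X.B :=
    AddSubgroup.subset_closure ⟨[], t, t, l', by simp [s, mul_assoc]⟩
  have := X.B.add_mem h1 h3
  simpa using this


/-- word values, level zero -/
def m0 (w : List (Ltr (Fin 6) L)) : A := X.P (flat 0 w)

def m1 (w : List (Ltr (Fin 6) L)) : A :=
  match flat 2 w, flat 3 w with
  | [t], [u] => X.P (flat 0 w) * X.s t u * X.P (flat 1 w)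
  | _, _ => 0

def m2 (w : List (Ltr (Fin 6) L)) : A :=
  match flat 2 w, flat 3 w, flat 4 w, flat 5 w with
  | [t], [u], [t'], [u'] => X.P (flat 0 w) * (X.s t u * X.s t' u') * X.P (flat 1 w)
  | _, _, _, _ => 0

theorem index_bound (l : List (ℕ × L)) : ∃ k, ∀ t ∈ l, t.1 < k := by
  induction l with
  | nil => exact ⟨0, by simp⟩
  | cons a l ih =>
    obtain ⟨k, hk⟩ := ih
    refine ⟨max (a.1 + 1) k, ?_⟩
    intro t ht
    rcases List.mem_cons.mp ht with rfl | h
    · exact lt_of_lt_of_le (Nat.lt_succ_self _) (le_max_left _ _)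
    · exact lt_of_lt_of_le (hk t h) (le_max_right _ _)

theorem index_bound' {C : Type} [Finite C] (l : C → List (ℕ × L)) : ∃ k, ∀ c, ∀ t ∈ l c, t.1 < k := by
  choose k hk using fun c => index_bound (l c)
  cases nonempty_fintype C
  refine ⟨Finset.univ.sup k, ?_⟩
  intro c t ht
  exact lt_of_lt_of_le (hk c t ht) (Finset.le_sup (Finset.mem_univ c))

theorem word_of_lists {C : Type} [Finite C] (l : C → List (ℕ × L)) (h : ∀ c, (l c).Nodup) :
    ∃ (w : List (Ltr C L)), ∀ c, (flat c w).Perm (l c) := by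
  obtain ⟨k, hk⟩ := index_bound' l
  obtain ⟨w, _, hw⟩ := exists_word k l hk (fun c t => le_trans (List.nodup_iff_count_le_one.mp (h c) t) (by norm_num))
  exact ⟨w, hw⟩

theorem level0 (h2 : ∀ x : A, x + x = 0) : ∃ K, ∀ k, K ≤ k → X.U k ⊔ X.B = X.U K ⊔ X.B := by
  have hM : ∀ x : A, ((2 : ℕ) : ℤ) • x = 0 := fun x => by rw [Nat.cast_ofNat, two_smul]; exact h2 x
  refine engine_words (Ch := Fin 6) (L := L) Nat.prime_two hM X.m0 X.B (fun _ => ()) (fun k => X.U k ⊔ X.B)
    (fun a b h => sup_le_sup_right (X.mono h) _) (fun k => le_sup_right) ?_ ?_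
  · intro k x hx
    have hpad : ∀ w, X.m0 (w ++ [fun _ _ => 0]) = X.m0 w := fun w => by simp only [m0, flat_append_zero]
    refine hspan_of_gens X.m0 hpad X.B {z | ∃ l : List (ℕ × L), l ≠ [] ∧ z = (l.map X.y).prod} ?_ x ?_
    · rintro z ⟨l, hl, rfl⟩
      change ∃ k, X.P l ∈ _
      by_cases hn : l.Nodup
      · obtain ⟨w, hw⟩ := word_of_lists (C := Fin 6) (fun c => if c = 0 then l else []) (by
          intro c; split_ifs <;> simp [hn])
        refine ⟨w.length, ?_⟩
        have h0 : (flat 0 w).Perm l := by simpa using hw 0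
        have h1 := X.perm_B h2 h0.symm
        have h3 := AddSubgroup.add_mem _ (AddSubgroup.mem_sup_left h1 : _ ∈ X.B ⊔
          AddSubgroup.closure (X.m0 '' {w' | w'.length = w.length}))
          (AddSubgroup.mem_sup_right (AddSubgroup.subset_closure ⟨w, rfl, rfl⟩))
        simpa [m0] using h3
      · exact ⟨0, AddSubgroup.mem_sup_left (X.dup_B h2 hn)⟩
    · obtain ⟨a, ha, b, hb, rfl⟩ := AddSubgroup.mem_sup.mp hx
      exact AddSubgroup.add_mem _ (AddSubgroup.mem_sup_right (X.gen a (X.UN k ha)))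
        (AddSubgroup.mem_sup_left hb)
  · intro pat w hw _
    have key : ∀ v : List (Ltr (Fin 6) L), v.length = holes pat →
        X.rho (sig pat) (X.m0 v) * X.P (ins 0 pat) - X.m0 (fill pat v) ∈ X.B := by
      intro v hv
      rw [m0, m0, X.rho_P_sig, ← P_append]
      exact X.perm_B h2 (flat_fill 0 pat v hv).symm
    refine ⟨(AddMonoidHom.mulRight (X.P (ins 0 pat))).comp (X.rho (sig pat)).toAddMonoidHom, ?_, ?_, ?_, ?_⟩
    · intro k x hx
      obtain ⟨a, ha, b, hb, rfl⟩ := AddSubgroup.mem_sup.mp hx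
      rw [map_add]
      exact AddSubgroup.add_mem _
        (AddSubgroup.mem_sup_left (X.UR k _ _ (X.Urho k _ (sig_strictMono pat) a ha)))
        (AddSubgroup.mem_sup_right (X.B_mul_P _ (X.rho_B (sig_strictMono pat) hb)))
    · intro x hx
      exact X.B_mul_P _ (X.rho_B (sig_strictMono pat) hx)
    · intro v hv
      exact Or.inr (key v hv)
    · exact key w hw

def kap (w : List (Ltr (Fin 6) L)) : Fin 6 → Fin 3 :=
  fun c => if c = 0 ∨ c = 1 then 0 else ⟨min (flat c w).length 2, by omega⟩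

theorem kap_one {w w' : List (Ltr (Fin 6) L)} (h : kap w = kap w') {c : Fin 6} (hc : ¬ (c = 0 ∨ c = 1))
    (h1 : (flat c w).length = 1) : (flat c w').length = 1 := by
  have := congrFun h c
  simp only [kap, if_neg hc, Fin.mk.injEq] at this
  omega

theorem ins_of_kap {pat : List (Option (Ltr (Fin 6) L))} {w : List (Ltr (Fin 6) L)}
    (hw : w.length = holes pat) (h : kap w = kap (fill pat w)) {c : Fin 6} (hc : ¬ (c = 0 ∨ c = 1))
    (h1 : (flat c w).length = 1) : ins c pat = [] :=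
  ins_nil_of_length c pat w hw (by rw [h1, kap_one h hc h1])

theorem m1_of_not {w : List (Ltr (Fin 6) L)} (h : ¬ ((flat 2 w).length = 1 ∧ (flat 3 w).length = 1)) :
    X.m1 w = 0 := by
  unfold m1
  split
  · rename_i t u e1 e2
    exact absurd ⟨by rw [e1]; rfl, by rw [e2]; rfl⟩ h
  · rfl

theorem m2_of_not {w : List (Ltr (Fin 6) L)} (h : ¬ ((flat 2 w).length = 1 ∧ (flat 3 w).length = 1 ∧
    (flat 4 w).length = 1 ∧ (flat 5 w).length = 1)) :
    X.m2 w = 0 := by
  unfold m2
  split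
  · rename_i t u t' u' e1 e2 e3 e4
    exact absurd ⟨by rw [e1]; rfl, by rw [e2]; rfl, by rw [e3]; rfl, by rw [e4]; rfl⟩ h
  · rfl

theorem m1_eq {w : List (Ltr (Fin 6) L)} {t u} (e1 : flat 2 w = [t]) (e2 : flat 3 w = [u]) :
    X.m1 w = X.P (flat 0 w) * X.s t u * X.P (flat 1 w) := by
  unfold m1; rw [e1, e2]

theorem m2_eq {w : List (Ltr (Fin 6) L)} {t u t' u'} (e1 : flat 2 w = [t]) (e2 : flat 3 w = [u])
    (e3 : flat 4 w = [t']) (e4 : flat 5 w = [u']) :
    X.m2 w = X.P (flat 0 w) * (X.s t u * X.s t' u') * X.P (flat 1 w) := by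
  unfold m2; rw [e1, e2, e3, e4]

theorem level1 (h2 : ∀ x : A, x + x = 0) :
    ∃ K, ∀ k, K ≤ k → (X.U k ⊓ X.B) ⊔ X.B2 = (X.U K ⊓ X.B) ⊔ X.B2 := by
  have hM : ∀ x : A, ((2 : ℕ) : ℤ) • x = 0 := fun x => by rw [Nat.cast_ofNat, two_smul]; exact h2 x
  refine engine_words (Ch := Fin 6) (L := L) Nat.prime_two hM X.m1 X.B2 kap (fun k => (X.U k ⊓ X.B) ⊔ X.B2)
    (fun a b h => sup_le_sup_right (inf_le_inf_right _ (X.mono h)) _) (fun k => le_sup_right) ?_ ?_
  · intro k x hx
    have hpad : ∀ w, X.m1 (w ++ [fun _ _ => 0]) = X.m1 w := fun w => by simp only [m1, flat_append_zero]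
    refine hspan_of_gens X.m1 hpad X.B2 {z | ∃ l t u m, z = X.P l * X.s t u * X.P m} ?_ x ?_
    · rintro z ⟨l, t, u, m, rfl⟩
      by_cases hn : l.Nodup
      · by_cases hm : m.Nodup
        · obtain ⟨w, hw⟩ := word_of_lists (C := Fin 6)
            ![l, m, [t], [u], [], []] (by
            intro c; fin_cases c <;> simp [hn, hm])
          refine ⟨w.length, ?_⟩
          have h0 : (flat 0 w).Perm l := by simpa using hw 0
          have h1 : (flat 1 w).Perm m := by simpa using hw 1
          have e2 : flat 2 w = [t] := List.perm_singleton.mp (by simpa using hw 2)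
          have e3 : flat 3 w = [u] := List.perm_singleton.mp (by simpa using hw 3)
          have e := X.m1_eq e2 e3
          have d : X.P l * X.s t u * X.P m - X.m1 w ∈ X.B2 := by
            rw [e]
            have d1 : X.P l * X.s t u * X.P m - X.P (flat 0 w) * X.s t u * X.P (flat 1 w) =
              ((X.P l - X.P (flat 0 w)) * X.s t u) * X.P m +
              X.P (flat 0 w) * (X.s t u * (X.P m - X.P (flat 1 w))) := by noncomm_ring
            rw [d1]
            exact X.B2.add_mem (X.B2_mul_P _ (X.B_mul_s h2 (X.perm_B h2 h0.symm) _ _))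
              (X.P_mul_B2 _ (X.s_mul_B h2 (X.perm_B h2 h1.symm) _ _))
          have h3 := AddSubgroup.add_mem _ (AddSubgroup.mem_sup_left d : _ ∈ X.B2 ⊔
            AddSubgroup.closure (X.m1 '' {w' | w'.length = w.length}))
            (AddSubgroup.mem_sup_right (AddSubgroup.subset_closure ⟨w, rfl, rfl⟩))
          rwa [sub_add_cancel] at h3
        · refine ⟨0, AddSubgroup.mem_sup_left ?_⟩
          rw [mul_assoc]
          exact X.P_mul_B2 _ (X.s_mul_B h2 (X.dup_B h2 hm) _ _)
      · refine ⟨0, AddSubgroup.mem_sup_left ?_⟩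
        exact X.B2_mul_P _ (X.B_mul_s h2 (X.dup_B h2 hn) _ _)
    · obtain ⟨a, ha, b, hb, rfl⟩ := AddSubgroup.mem_sup.mp hx
      exact AddSubgroup.add_mem _ (AddSubgroup.mem_sup_right ha.2) (AddSubgroup.mem_sup_left hb)
  · intro pat w hw hk
    by_cases hnd : (flat 2 w).length = 1 ∧ (flat 3 w).length = 1
    · have i2 := ins_of_kap hw hk (c := 2) (by decide) hnd.1
      have i3 := ins_of_kap hw hk (c := 3) (by decide) hnd.2
      have key : ∀ v : List (Ltr (Fin 6) L), v.length = holes pat →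
          X.P (ins 0 pat) * X.rho (sig pat) (X.m1 v) * X.P (ins 1 pat) - X.m1 (fill pat v) ∈ X.B2 := by
        intro v hv
        have f2 := flat_fill_of_ins_nil 2 pat v hv i2
        have f3 := flat_fill_of_ins_nil 3 pat v hv i3
        by_cases hv2 : (flat 2 v).length = 1 ∧ (flat 3 v).length = 1
        · obtain ⟨t, ht⟩ := List.length_eq_one_iff.mp hv2.1
          obtain ⟨u, hu⟩ := List.length_eq_one_iff.mp hv2.2
          rw [X.m1_eq ht hu]
          rw [ht] at f2; rw [hu] at f3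
          rw [X.m1_eq f2 f3, map_mul, map_mul, X.rho_P_sig, X.rho_P_sig, X.rho_s (sig_strictMono pat)]
          have p0 := X.perm_B h2 ((flat_fill 0 pat v hv).trans List.perm_append_comm).symm
          have p1 := X.perm_B h2 (flat_fill 1 pat v hv).symm
          rw [P_append] at p0 p1
          have d1 : X.P (ins 0 pat) * (X.P ((flat 0 v).map (mapSig pat)) * X.s (sig pat t.1, t.2) (sig pat u.1, u.2) *
              X.P ((flat 1 v).map (mapSig pat))) * X.P (ins 1 pat) -
              X.P (flat 0 (fill pat v)) * X.s (mapSig pat t) (mapSig pat u) * X.P (flat 1 (fill pat v)) =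
            ((X.P (ins 0 pat) * X.P ((flat 0 v).map (mapSig pat)) - X.P (flat 0 (fill pat v))) *
              X.s (mapSig pat t) (mapSig pat u)) * (X.P ((flat 1 v).map (mapSig pat)) * X.P (ins 1 pat)) +
            X.P (flat 0 (fill pat v)) * (X.s (mapSig pat t) (mapSig pat u) *
              (X.P ((flat 1 v).map (mapSig pat)) * X.P (ins 1 pat) - X.P (flat 1 (fill pat v)))) := by
            simp only [mapSig]
            noncomm_ring
          rw [d1]
          refine X.B2.add_mem ?_ (X.P_mul_B2 _ (X.s_mul_B h2 p1 _ _))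
          rw [← P_append X ((flat 1 v).map (mapSig pat))]
          exact X.B2_mul_P _ (X.B_mul_s h2 p0 _ _)
        · have hv2' : ¬ ((flat 2 (fill pat v)).length = 1 ∧ (flat 3 (fill pat v)).length = 1) := by
            rw [f2, f3, List.length_map, List.length_map]; exact hv2
          rw [X.m1_of_not hv2, X.m1_of_not hv2']
          simpa using X.B2.zero_mem
      refine ⟨((AddMonoidHom.mulRight (X.P (ins 1 pat))).comp (AddMonoidHom.mulLeft (X.P (ins 0 pat)))).comp
        (X.rho (sig pat)).toAddMonoidHom, ?_, ?_, ?_, ?_⟩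
      · intro k x hx
        obtain ⟨a, ha, b, hb, rfl⟩ := AddSubgroup.mem_sup.mp hx
        rw [map_add]
        refine AddSubgroup.add_mem _ (AddSubgroup.mem_sup_left ⟨?_, ?_⟩) (AddSubgroup.mem_sup_right ?_)
        · exact X.UR k _ _ (X.UL k _ _ (X.Urho k _ (sig_strictMono pat) a ha.1))
        · exact X.B_mul_P _ (X.P_mul_B _ (X.rho_B (sig_strictMono pat) ha.2))
        · exact X.B2_mul_P _ (X.P_mul_B2 _ (X.rho_B2 (sig_strictMono pat) hb))
      · intro x hx
        exact X.B2_mul_P _ (X.P_mul_B2 _ (X.rho_B2 (sig_strictMono pat) hx))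
      · intro v hv
        exact Or.inr (key v hv)
      · exact key w hw
    · refine ⟨0, ?_, ?_, ?_, ?_⟩
      · intro k x _; exact AddSubgroup.zero_mem _
      · intro x _; exact AddSubgroup.zero_mem _
      · intro v _; exact Or.inl (AddSubgroup.zero_mem _)
      · have hnd' : ¬ ((flat 2 (fill pat w)).length = 1 ∧ (flat 3 (fill pat w)).length = 1) := by
          rintro ⟨h1, h3⟩
          exact hnd ⟨kap_one hk.symm (by decide) h1, kap_one hk.symm (by decide) h3⟩
        rw [X.m1_of_not hnd, X.m1_of_not hnd']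
        simpa using X.B2.zero_mem

theorem level2 (h2 : ∀ x : A, x + x = 0) :
    ∃ K, ∀ k, K ≤ k → X.U k ⊓ X.B2 = X.U K ⊓ X.B2 := by
  have hM : ∀ x : A, ((2 : ℕ) : ℤ) • x = 0 := fun x => by rw [Nat.cast_ofNat, two_smul]; exact h2 x
  have hl : ∀ {l l' : List (ℕ × L)} (t u t' u' : ℕ × L), l.Perm l' →
      X.P l * (X.s t u * X.s t' u') = X.P l' * (X.s t u * X.s t' u') := by
    intro l l' t u t' u' h
    have := X.B_mul_ss h2 (X.perm_B h2 h) t u t' u'
    rwa [sub_mul, sub_eq_zero] at this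
  have hr : ∀ {l l' : List (ℕ × L)} (t u t' u' : ℕ × L), l.Perm l' →
      (X.s t u * X.s t' u') * X.P l = (X.s t u * X.s t' u') * X.P l' := by
    intro l l' t u t' u' h
    have := X.ss_mul_B h2 (X.perm_B h2 h) t u t' u'
    rwa [mul_sub, sub_eq_zero] at this
  refine engine_words (Ch := Fin 6) (L := L) Nat.prime_two hM X.m2 ⊥ kap (fun k => X.U k ⊓ X.B2)
    (fun a b h => inf_le_inf_right _ (X.mono h)) (fun k => bot_le) ?_ ?_
  · intro k x hx
    have hpad : ∀ w, X.m2 (w ++ [fun _ _ => 0]) = X.m2 w := fun w => by simp only [m2, flat_append_zero]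
    refine hspan_of_gens X.m2 hpad ⊥ {z | ∃ l t u t' u' m, z = X.P l * (X.s t u * X.s t' u') * X.P m} ?_ x
      (AddSubgroup.mem_sup_right hx.2)
    rintro z ⟨l, t, u, t', u', m, rfl⟩
    by_cases hn : l.Nodup
    · by_cases hm : m.Nodup
      · obtain ⟨w, hw⟩ := word_of_lists (C := Fin 6)
          ![l, m, [t], [u], [t'], [u']] (by
          intro c; fin_cases c <;> simp [hn, hm])
        refine ⟨w.length, AddSubgroup.mem_sup_right (AddSubgroup.subset_closure ⟨w, rfl, ?_⟩)⟩
        have h0 : (flat 0 w).Perm l := by simpa using hw 0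
        have h1 : (flat 1 w).Perm m := by simpa using hw 1
        have e2 : flat 2 w = [t] := List.perm_singleton.mp (by simpa using hw 2)
        have e3 : flat 3 w = [u] := List.perm_singleton.mp (by simpa using hw 3)
        have e4 : flat 4 w = [t'] := List.perm_singleton.mp (by simpa using hw 4)
        have e5 : flat 5 w = [u'] := List.perm_singleton.mp (by simpa using hw 5)
        rw [X.m2_eq e2 e3 e4 e5, hl _ _ _ _ h0, mul_assoc (X.P l), hr _ _ _ _ h1, ← mul_assoc (X.P l)]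
      · refine ⟨0, AddSubgroup.mem_sup_left ?_⟩
        rw [mul_assoc, X.ss_mul_B h2 (X.dup_B h2 hm), mul_zero]
        exact AddSubgroup.zero_mem _
    · refine ⟨0, AddSubgroup.mem_sup_left ?_⟩
      rw [X.B_mul_ss h2 (X.dup_B h2 hn), zero_mul]
      exact AddSubgroup.zero_mem _
  · intro pat w hw hk
    by_cases hnd : (flat 2 w).length = 1 ∧ (flat 3 w).length = 1 ∧ (flat 4 w).length = 1 ∧ (flat 5 w).length = 1
    · have i2 := ins_of_kap hw hk (c := 2) (by decide) hnd.1
      have i3 := ins_of_kap hw hk (c := 3) (by decide) hnd.2.1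
      have i4 := ins_of_kap hw hk (c := 4) (by decide) hnd.2.2.1
      have i5 := ins_of_kap hw hk (c := 5) (by decide) hnd.2.2.2
      have key : ∀ v : List (Ltr (Fin 6) L), v.length = holes pat →
          X.P (ins 0 pat) * X.rho (sig pat) (X.m2 v) * X.P (ins 1 pat) = X.m2 (fill pat v) := by
        intro v hv
        have f2 := flat_fill_of_ins_nil 2 pat v hv i2
        have f3 := flat_fill_of_ins_nil 3 pat v hv i3
        have f4 := flat_fill_of_ins_nil 4 pat v hv i4
        have f5 := flat_fill_of_ins_nil 5 pat v hv i5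
        by_cases hv2 : (flat 2 v).length = 1 ∧ (flat 3 v).length = 1 ∧ (flat 4 v).length = 1 ∧ (flat 5 v).length = 1
        · obtain ⟨t, ht⟩ := List.length_eq_one_iff.mp hv2.1
          obtain ⟨u, hu⟩ := List.length_eq_one_iff.mp hv2.2.1
          obtain ⟨t', ht'⟩ := List.length_eq_one_iff.mp hv2.2.2.1
          obtain ⟨u', hu'⟩ := List.length_eq_one_iff.mp hv2.2.2.2
          rw [X.m2_eq ht hu ht' hu']
          rw [ht] at f2; rw [hu] at f3; rw [ht'] at f4; rw [hu'] at f5
          rw [X.m2_eq f2 f3 f4 f5, map_mul, map_mul, map_mul, X.rho_P_sig, X.rho_P_sig,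
            X.rho_s (sig_strictMono pat), X.rho_s (sig_strictMono pat)]
          have p0 := hl (mapSig pat t) (mapSig pat u) (mapSig pat t') (mapSig pat u')
            ((flat_fill 0 pat v hv).trans List.perm_append_comm)
          have p1 := hr (mapSig pat t) (mapSig pat u) (mapSig pat t') (mapSig pat u') (flat_fill 1 pat v hv)
          rw [P_append] at p0 p1
          simp only [mapSig] at p0 p1 ⊢
          rw [p0, mul_assoc _ _ (X.P (flat 1 (fill pat v))), p1]
          noncomm_ring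
        · have hv2' : ¬ ((flat 2 (fill pat v)).length = 1 ∧ (flat 3 (fill pat v)).length = 1 ∧
              (flat 4 (fill pat v)).length = 1 ∧ (flat 5 (fill pat v)).length = 1) := by
            rw [f2, f3, f4, f5, List.length_map, List.length_map, List.length_map, List.length_map]; exact hv2
          rw [X.m2_of_not hv2, X.m2_of_not hv2']
          simp
      refine ⟨((AddMonoidHom.mulRight (X.P (ins 1 pat))).comp (AddMonoidHom.mulLeft (X.P (ins 0 pat)))).comp
        (X.rho (sig pat)).toAddMonoidHom, ?_, ?_, ?_, ?_⟩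
      · intro k x hx
        exact ⟨X.UR k _ _ (X.UL k _ _ (X.Urho k _ (sig_strictMono pat) x hx.1)),
          X.B2_mul_P _ (X.P_mul_B2 _ (X.rho_B2 (sig_strictMono pat) hx.2))⟩
      · intro x hx
        rw [AddSubgroup.mem_bot] at hx
        rw [hx, map_zero]; exact AddSubgroup.zero_mem _
      · intro v hv
        refine Or.inr ?_
        have := key v hv
        change X.P (ins 0 pat) * X.rho (sig pat) (X.m2 v) * X.P (ins 1 pat) - X.m2 (fill pat v) ∈ _
        rw [this, sub_self]; exact AddSubgroup.zero_mem _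
      · have := key w hw
        change X.P (ins 0 pat) * X.rho (sig pat) (X.m2 w) * X.P (ins 1 pat) - X.m2 (fill pat w) ∈ _
        rw [this, sub_self]; exact AddSubgroup.zero_mem _
    · refine ⟨0, ?_, ?_, ?_, ?_⟩
      · intro k x _; exact AddSubgroup.zero_mem _
      · intro x _; exact AddSubgroup.zero_mem _
      · intro v _; exact Or.inl (AddSubgroup.zero_mem _)
      · have hnd' : ¬ ((flat 2 (fill pat w)).length = 1 ∧ (flat 3 (fill pat w)).length = 1 ∧
            (flat 4 (fill pat w)).length = 1 ∧ (flat 5 (fill pat w)).length = 1) := by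
          rintro ⟨h1, h3, h4, h5⟩
          exact hnd ⟨kap_one hk.symm (by decide) h1, kap_one hk.symm (by decide) h3,
            kap_one hk.symm (by decide) h4, kap_one hk.symm (by decide) h5⟩
        rw [X.m2_of_not hnd, X.m2_of_not hnd']
        simp

/-- Noetherianity in characteristic two. -/
theorem noeth_two (h2 : ∀ x : A, x + x = 0) : ∃ K, ∀ k, K ≤ k → X.U k = X.U K := by
  refine chain_modular X.U X.mono X.B (X.level0 h2) ?_
  refine chain_modular (fun k => X.U k ⊓ X.B) (fun a b h => inf_le_inf_right _ (X.mono h)) X.B2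
    (X.level1 h2) ?_
  obtain ⟨K, hK⟩ := X.level2 h2
  refine ⟨K, fun k hk => ?_⟩
  have e : ∀ j, (X.U j ⊓ X.B) ⊓ X.B2 = X.U j ⊓ X.B2 := by
    intro j
    rw [inf_assoc, inf_eq_right.mpr X.B2_le_B]
  simp only [e]
  exact hK k hk

end Pool.Agent.Helper60.Sys
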