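import Pool.Agent.Helper60.Char2

noncomputable section

namespace Pool.Agent.Helper60

section Facts

variable {R : Type*} [NonUnitalRing R]

def cm (x y : R) : R := x * y - y * x

theorem cm_swap (x y : R) : cm y x = - cm x y := by simp [cm]

theorem cm_add_left (x x' y : R) : cm (x + x') y = cm x y + cm x' y := by
  simp only [cm, mul_add, add_mul]; abel

theorem cm_add_right (x y y' : R) : cm x (y + y') = cm x y + cm x y' := by
  simp only [cm, mul_add, add_mul]; abel

theorem cm_neg_left (x y : R) : cm (-x) y = - cm x y := by simp [cm]; abel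

theorem cm_neg_right (x y : R) : cm x (-y) = - cm x y := by simp [cm]; abel

variable (hc : ∀ x : R, x + x + x = 0) (h3 : ∀ x : R, x * x * x = 0)

include hc in
theorem eq_zero_of_two {x : R} (h : x + x = 0) : x = 0 := by
  have := hc x
  rw [h, zero_add] at this
  exact this

include hc in
theorem eq_zero_of_eq_neg {x : R} (h : x = -x) : x = 0 := by
  refine eq_zero_of_two hc ?_
  nth_rw 1 [h]; simp

include hc h3

theorem sand (x y : R) : x * x * y + x * y * x + y * x * x = 0 := by
  have h := nil_two_a h3 x y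
  rw [two_zsmul] at h
  exact eq_zero_of_two hc h

theorem cm_F1 (x y : R) : cm (cm x y) y = 0 := by
  have h := sand hc h3 y x
  have h2 := hc (y * x * y)
  have e : cm (cm x y) y = (y * y * x + y * x * y + x * y * y) - (y * x * y + y * x * y + y * x * y) := by
    simp only [cm, mul_sub, sub_mul, mul_assoc]; abel
  rw [e, h, h2]; simp

theorem cm_F2 (x y u : R) : cm x y * cm u y = 0 := by
  have h1 := sand hc h3 y (x * u)
  have h2 := sand hc h3 y x
  have h4 := sand hc h3 y u
  have h5 := hc (x * y * y * u)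
  have e : cm x y * cm u y = (y * y * x + y * x * y + x * y * y) * u + x * (y * y * u + y * u * y + u * y * y)
      - (y * y * (x * u) + y * (x * u) * y + (x * u) * y * y) - (x * y * y * u + x * y * y * u + x * y * y * u) := by
    simp only [cm, mul_sub, sub_mul, mul_add, add_mul, mul_assoc]; abel
  rw [e, h1, h2, h4, h5]; simp

theorem cm_A1 (x y z : R) : cm (cm x y) z = - cm (cm x z) y := by
  have h := cm_F1 hc h3 x (y + z)
  have h1 := cm_F1 hc h3 x y
  have h2 := cm_F1 hc h3 x z
  rw [cm_add_right, cm_add_right, cm_add_left, cm_add_left, h1, h2] at h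
  have : cm (cm x y) z + cm (cm x z) y = 0 := by
    rw [← h]; abel
  exact eq_neg_of_add_eq_zero_left this

theorem cm_A2 (x y u z : R) : cm x y * cm u z = - (cm x z * cm u y) := by
  have h := cm_F2 hc h3 x (y + z) u
  have h1 := cm_F2 hc h3 x y u
  have h2 := cm_F2 hc h3 x z u
  rw [cm_add_right, cm_add_right, add_mul, mul_add, mul_add, h1, h2] at h
  have : cm x y * cm u z + cm x z * cm u y = 0 := by
    rw [← h]; abel
  exact eq_neg_of_add_eq_zero_left this

theorem cm_cyc (x y z : R) : cm (cm x y) z = cm (cm z x) y := by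
  rw [cm_A1 hc h3 x y z, cm_swap z x, cm_neg_left, neg_neg]

theorem cm_Q (x y z t : R) : cm (cm (cm x y) z) t = 0 := by
  have q12 : ∀ a b c d : R, cm (cm (cm a b) c) d = - cm (cm (cm b a) c) d := by
    intro a b c d; rw [cm_swap a b, cm_neg_left, cm_neg_left, neg_neg]
  have q23 : ∀ a b c d : R, cm (cm (cm a b) c) d = - cm (cm (cm a c) b) d := by
    intro a b c d; rw [cm_A1 hc h3 a b c, cm_neg_left]
  have q34 : ∀ a b c d : R, cm (cm (cm a b) c) d = - cm (cm (cm a b) d) c := by
    intro a b c d; exact cm_A1 hc h3 _ _ _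
  have e1 : cm (cm (cm x y) z) t = cm (cm z t) (cm x y) := by
    rw [cm_cyc hc h3 (cm x y) z t, cm_cyc hc h3 t (cm x y) z]
  have e2 : cm (cm z t) (cm x y) = cm (cm (cm z t) x) y - cm (cm (cm z t) y) x := by
    simp only [cm, mul_sub, sub_mul, mul_assoc]; abel
  have e3 : cm (cm (cm z t) x) y = cm (cm (cm x y) z) t := by
    rw [q23 z t x y, q12 z x t y, q34 x z t y, q23 x z y t]; simp
  have e4 : cm (cm (cm z t) y) x = - cm (cm (cm x y) z) t := by
    rw [q34 z t y x, e3]
  rw [e2, e3, e4] at e1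
  have : cm (cm (cm x y) z) t = 0 := by
    have h := e1
    rw [sub_neg_eq_add] at h
    exact (left_eq_add.mp h)
  exact this

theorem cm_comm_cm (x y z t : R) : cm x y * cm z t = cm z t * cm x y := by
  have e2 : cm (cm x y) (cm z t) = cm (cm (cm x y) z) t - cm (cm (cm x y) t) z := by
    simp only [cm, mul_sub, sub_mul, mul_assoc]; abel
  rw [cm_Q hc h3, cm_Q hc h3, sub_zero] at e2
  exact sub_eq_zero.mp e2

theorem tr_comm (x y z t : R) : cm (cm x y) z * t = t * cm (cm x y) z :=
  sub_eq_zero.mp (cm_Q hc h3 x y z t)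

theorem tr_mul_tr (x y z u v w : R) : cm (cm x y) z * cm (cm u v) w = 0 := by
  have sw : ∀ a b c d e f : R, cm (cm a b) c * cm (cm d e) f = - (cm (cm a b) f * cm (cm d e) c) :=
    fun a b c d e f => cm_A2 hc h3 _ _ _ _
  have e1 : cm (cm x y) z * cm (cm u v) w = - (cm (cm u v) w * cm (cm x y) z) := by
    rw [sw x y z u v w, cm_cyc hc h3 x y w, cm_cyc hc h3 u v z, sw w x y z u v, cm_cyc hc h3 w x v,
      cm_cyc hc h3 z u y, sw v w x y z u, cm_cyc hc h3 v w u, cm_cyc hc h3 y z x]
    simp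
  rw [tr_comm hc h3 u v w (cm (cm x y) z)] at e1
  exact eq_zero_of_eq_neg hc e1

theorem cm_pair (x a b c : R) : cm x a * cm b c = - (cm x b * cm a c) := by
  rw [cm_swap c b, mul_neg, cm_A2 hc h3 x a c b, cm_swap a c, mul_neg, neg_neg]

theorem cm_pair3 (x a b c d : R) : cm x a * cm (cm b c) d = - (cm x b * cm (cm a c) d) := by
  have h1 : cm (cm b c) d = cm (cm c d) b := by rw [cm_cyc hc h3 b c d, cm_cyc hc h3 d b c]
  have h2 : cm (cm a c) d = cm (cm c d) a := by rw [cm_cyc hc h3 a c d, cm_cyc hc h3 d a c]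
  rw [h1, h2, cm_A2 hc h3]

end Facts

namespace Sys

open Pool.Agent.Helper60

variable {A L : Type} [Ring A] [Fintype L] [DecidableEq L] (X : Sys A L)

def tau : List (ℕ × L) → A
  | [] => 1
  | [_] => 0
  | [a, b, c] => cm (cm (X.y a) (X.y b)) (X.y c)
  | a :: b :: l => cm (X.y a) (X.y b) * tau l

theorem tau_cons2 (a b : ℕ × L) {l : List (ℕ × L)} (h : l.length ≠ 1) :
    X.tau (a :: b :: l) = cm (X.y a) (X.y b) * X.tau l := by
  rw [tau]
  intro c hc
  subst hc
  simp at h

theorem tau_of_len1 {l : List (ℕ × L)} (h : l.length = 1) : X.tau l = 0 := by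
  obtain ⟨a, rfl⟩ := List.length_eq_one_iff.mp h
  simp [tau]

structure Wd (B : Type) where
  l : List B

section three

variable (hc : ∀ x : A, x + x + x = 0)
include hc

theorem NS_hc : ∀ x : X.NS, x + x + x = 0 := fun x => Subtype.ext (hc x)

omit hc in
theorem NS_h3 : ∀ x : X.NS, x * x * x = 0 := fun x => Subtype.ext (X.cube x x.2)

theorem L_A1 {x y z : A} (hx : x ∈ X.N) (hy : y ∈ X.N) (hz : z ∈ X.N) :
    cm (cm x y) z = - cm (cm x z) y :=
  congrArg Subtype.val (cm_A1 (X.NS_hc hc) X.NS_h3 ⟨x, hx⟩ ⟨y, hy⟩ ⟨z, hz⟩)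

theorem L_comm {x y z t : A} (hx : x ∈ X.N) (hy : y ∈ X.N) (hz : z ∈ X.N) (ht : t ∈ X.N) :
    cm x y * cm z t = cm z t * cm x y :=
  congrArg Subtype.val (cm_comm_cm (X.NS_hc hc) X.NS_h3 ⟨x, hx⟩ ⟨y, hy⟩ ⟨z, hz⟩ ⟨t, ht⟩)

theorem L_tr {x y z t : A} (hx : x ∈ X.N) (hy : y ∈ X.N) (hz : z ∈ X.N) (ht : t ∈ X.N) :
    cm (cm x y) z * t = t * cm (cm x y) z :=
  congrArg Subtype.val (tr_comm (X.NS_hc hc) X.NS_h3 ⟨x, hx⟩ ⟨y, hy⟩ ⟨z, hz⟩ ⟨t, ht⟩)

theorem L_tt {x y z u v w : A} (hx : x ∈ X.N) (hy : y ∈ X.N) (hz : z ∈ X.N)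
    (hu : u ∈ X.N) (hv : v ∈ X.N) (hw : w ∈ X.N) :
    cm (cm x y) z * cm (cm u v) w = 0 :=
  congrArg Subtype.val (tr_mul_tr (X.NS_hc hc) X.NS_h3 ⟨x, hx⟩ ⟨y, hy⟩ ⟨z, hz⟩ ⟨u, hu⟩ ⟨v, hv⟩ ⟨w, hw⟩)

theorem L_pair {x a b c : A} (hx : x ∈ X.N) (ha : a ∈ X.N) (hb : b ∈ X.N) (hcc : c ∈ X.N) :
    cm x a * cm b c = - (cm x b * cm a c) :=
  congrArg Subtype.val (cm_pair (X.NS_hc hc) X.NS_h3 ⟨x, hx⟩ ⟨a, ha⟩ ⟨b, hb⟩ ⟨c, hcc⟩)

theorem L_pair3 {x a b c d : A} (hx : x ∈ X.N) (ha : a ∈ X.N) (hb : b ∈ X.N) (hcc : c ∈ X.N)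
    (hd : d ∈ X.N) :
    cm x a * cm (cm b c) d = - (cm x b * cm (cm a c) d) :=
  congrArg Subtype.val (cm_pair3 (X.NS_hc hc) X.NS_h3 ⟨x, hx⟩ ⟨a, ha⟩ ⟨b, hb⟩ ⟨c, hcc⟩ ⟨d, hd⟩)

theorem tau_swap : ∀ (l1 : List (ℕ × L)) (a b : ℕ × L) (l2 : List (ℕ × L)),
    X.tau (l1 ++ a :: b :: l2) = - X.tau (l1 ++ b :: a :: l2)
  | [], a, b, l2 => by
    by_cases h : l2.length = 1
    · obtain ⟨c, rfl⟩ := List.length_eq_one_iff.mp h
      simp only [List.nil_append, tau]
      rw [cm_swap (X.y b) (X.y a), cm_neg_left]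
    · simp only [List.nil_append]
      rw [X.tau_cons2 _ _ h, X.tau_cons2 _ _ h, cm_swap (X.y b) (X.y a), neg_mul]
  | [x], a, b, [] => by
    simp only [List.singleton_append, tau]
    exact X.L_A1 hc (X.hy _) (X.hy _) (X.hy _)
  | [x], a, b, [c, d] => by
    simp only [List.singleton_append, tau]
    exact X.L_pair3 hc (X.hy _) (X.hy _) (X.hy _) (X.hy _) (X.hy _)
  | [x], a, b, [c] => by
    simp only [List.singleton_append, tau, mul_one]
    exact X.L_pair hc (X.hy _) (X.hy _) (X.hy _) (X.hy _)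
  | [x], a, b, c :: d :: e :: l3 => by
    have h : (d :: e :: l3).length ≠ 1 := by simp
    simp only [List.singleton_append]
    rw [X.tau_cons2 x a (by simp), X.tau_cons2 b c h, X.tau_cons2 x b (by simp), X.tau_cons2 a c h,
      ← mul_assoc, ← mul_assoc, X.L_pair hc (X.hy x) (X.hy a) (X.hy b) (X.hy c), neg_mul]
  | x :: y :: l1, a, b, l2 => by
    simp only [List.cons_append]
    rw [X.tau_cons2 x y (by simp; omega), X.tau_cons2 x y (by simp; omega), tau_swap l1 a b l2, mul_neg]

theorem tau_perm {l l' : List (ℕ × L)} (h : l.Perm l') :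
    ∀ l1, X.tau (l1 ++ l) = X.tau (l1 ++ l') ∨ X.tau (l1 ++ l) = - X.tau (l1 ++ l') := by
  induction h with
  | nil => intro l1; exact Or.inl rfl
  | cons a _ ih =>
    intro l1
    have := ih (l1 ++ [a])
    simpa using this
  | swap a b l =>
    intro l1
    exact Or.inr (X.tau_swap hc l1 b a l)
  | trans _ _ ih1 ih2 =>
    intro l1
    rcases ih1 l1 with h1 | h1 <;> rcases ih2 l1 with h2 | h2 <;> rw [h1, h2] <;> simp

theorem tau_perm' {l l' : List (ℕ × L)} (h : l.Perm l') :
    X.tau l = X.tau l' ∨ X.tau l = - X.tau l' := X.tau_perm hc h []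

theorem tau_dup {l : List (ℕ × L)} (h : ¬ l.Nodup) : X.tau l = 0 := by
  obtain ⟨t, l', hl⟩ := dup_perm h
  have h0 : X.tau (t :: t :: l') = 0 := by
    by_cases h : l'.length = 1
    · obtain ⟨c, rfl⟩ := List.length_eq_one_iff.mp h
      simp [tau, cm]
    · rw [X.tau_cons2 _ _ h]; simp [cm]
  rcases X.tau_perm' hc hl with h1 | h1 <;> rw [h1, h0]
  simp

theorem tau_comm_cm : ∀ (l : List (ℕ × L)) (a b : ℕ × L),
    X.tau l * cm (X.y a) (X.y b) = cm (X.y a) (X.y b) * X.tau l
  | [], a, b => by simp [tau]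
  | [_], a, b => by simp [tau]
  | [x, y], a, b => by
    simp only [tau, mul_one]; exact X.L_comm hc (X.hy _) (X.hy _) (X.hy _) (X.hy _)
  | [x, y, z], a, b => by
    simp only [tau]
    have h : cm (X.y a) (X.y b) ∈ X.N := X.N.sub_mem (X.mulL _ _ (X.hy _)) (X.mulL _ _ (X.hy _))
    exact X.L_tr hc (X.hy _) (X.hy _) (X.hy _) h
  | x :: y :: z :: t :: l, a, b => by
    have h : (z :: t :: l).length ≠ 1 := by simp
    rw [X.tau_cons2 x y h, mul_assoc, tau_comm_cm (z :: t :: l) a b, ← mul_assoc, ← mul_assoc,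
      X.L_comm hc (X.hy _) (X.hy _) (X.hy _) (X.hy _)]

theorem tau_even_mul : ∀ (l l' : List (ℕ × L)), Even l.length → l'.length ≠ 1 →
    X.tau l * X.tau l' = X.tau (l ++ l')
  | [], l', _, _ => by simp [tau]
  | [_], l', h, _ => by simp at h
  | x :: y :: l, l', h, h' => by
    have hl : Even l.length := by
      have h' := h
      simp only [List.length_cons] at h'
      rwa [add_assoc, Nat.even_add, iff_true_right (by decide)] at h'
    have h1 : l.length ≠ 1 := by intro h1; rw [h1] at hl; simp at hl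
    have h2 : (l ++ l').length ≠ 1 := by
      rw [List.length_append]
      intro h3
      have : l.length = 0 := by omega
      omega
    rw [X.tau_cons2 x y h1, List.cons_append, List.cons_append, X.tau_cons2 x y h2, mul_assoc,
      tau_even_mul l l' hl h']

theorem tau_comm_even : ∀ (l l' : List (ℕ × L)), Even l'.length →
    X.tau l * X.tau l' = X.tau l' * X.tau l
  | l, [], _ => by simp [tau]
  | l, [_], h => by simp at h
  | l, x :: y :: l', h => by
    have hl : Even l'.length := by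
      have h' := h
      simp only [List.length_cons] at h'
      rwa [add_assoc, Nat.even_add, iff_true_right (by decide)] at h'
    have h1 : l'.length ≠ 1 := by intro h1; rw [h1] at hl; simp at hl
    rw [X.tau_cons2 x y h1, ← mul_assoc, X.tau_comm_cm hc, mul_assoc, tau_comm_even l l' hl, mul_assoc]

theorem tau_odd_tr : ∀ (l : List (ℕ × L)), Odd l.length → ∀ a b c : ℕ × L,
    X.tau l * X.tau [a, b, c] = 0
  | [], h, _, _, _ => by simp at h
  | [_], _, _, _, _ => by simp [tau]
  | [x, y], h, _, _, _ => by simp at h; exact absurd h (by decide)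
  | [x, y, z], _, a, b, c => by
    simp only [tau]
    exact X.L_tt hc (X.hy _) (X.hy _) (X.hy _) (X.hy _) (X.hy _) (X.hy _)
  | x :: y :: z :: t :: l, h, a, b, c => by
    have hl : Odd (z :: t :: l).length := by
      simp only [List.length_cons] at h ⊢
      rw [Nat.odd_iff] at h ⊢
      omega
    have h1 : (z :: t :: l).length ≠ 1 := by simp
    rw [X.tau_cons2 x y h1, mul_assoc, tau_odd_tr _ hl, mul_zero]

theorem tau_odd_odd : ∀ (l l' : List (ℕ × L)), Odd l.length → Odd l'.length → X.tau l * X.tau l' = 0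
  | l, [], _, h => by simp at h
  | l, [_], _, _ => by simp [tau]
  | l, [x, y], _, h => by simp at h; exact absurd h (by decide)
  | l, [x, y, z], h, _ => X.tau_odd_tr hc l h x y z
  | l, x :: y :: z :: t :: l', h, h' => by
    have hl : Odd (z :: t :: l').length := by
      simp only [List.length_cons] at h' ⊢
      rw [Nat.odd_iff] at h' ⊢
      omega
    have h1 : (z :: t :: l').length ≠ 1 := by simp
    rw [X.tau_cons2 x y h1, ← mul_assoc, X.tau_comm_cm hc, mul_assoc, tau_odd_odd l _ h hl, mul_zero]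

theorem tau_mul (l l' : List (ℕ × L)) : X.tau l * X.tau l' = 0 ∨ X.tau l * X.tau l' = X.tau (l ++ l')
    ∨ X.tau l * X.tau l' = - X.tau (l ++ l') := by
  by_cases h1 : l.length = 1
  · left; rw [X.tau_of_len1 h1, zero_mul]
  by_cases h2 : l'.length = 1
  · left; rw [X.tau_of_len1 h2, mul_zero]
  rcases Nat.even_or_odd l.length with he | ho
  · right; left; exact X.tau_even_mul hc l l' he h2
  rcases Nat.even_or_odd l'.length with he' | ho'
  · right
    rw [X.tau_comm_even hc l l' he', X.tau_even_mul hc l' l he' h1]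
    rcases X.tau_perm' hc (List.perm_append_comm (l₁ := l') (l₂ := l)) with h | h <;> rw [h]
    · left; rfl
    · right; rfl
  · left; exact X.tau_odd_odd hc l l' ho ho'

end three

/-- all indices below `k` -/
def Bd (k : ℕ) (l : List (ℕ × L)) : Prop := ∀ t ∈ l, t.1 < k

theorem Bd.append {k : ℕ} {l l' : List (ℕ × L)} (h : Bd k l) (h' : Bd k l') : Bd k (l ++ l') := by
  intro t ht
  rcases List.mem_append.mp ht with h1 | h1
  · exact h t h1
  · exact h' t h1

def E (k n : ℕ) : AddSubgroup A := AddSubgroup.closure {z | ∃ l, l.length = n ∧ Bd k l ∧ z = X.tau l}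

def D (k j : ℕ) : AddSubgroup A :=
  AddSubgroup.closure {z | ∃ v l, Bd k v ∧ Bd k l ∧ j ≤ l.length ∧ z = X.P v * X.tau l}

theorem D_anti (k : ℕ) {j j' : ℕ} (h : j ≤ j') : X.D k j' ≤ X.D k j := by
  apply AddSubgroup.closure_mono
  rintro z ⟨v, l, h1, h2, h3, h4⟩
  exact ⟨v, l, h1, h2, h.trans h3, h4⟩

theorem P_mul_D {k j : ℕ} {v : List (ℕ × L)} (hv : Bd k v) {x : A} (hx : x ∈ X.D k j) :
    X.P v * x ∈ X.D k j := by
  refine AddSubgroup.closure_induction (p := fun x _ => X.P v * x ∈ X.D k j) ?_ ?_ ?_ ?_ hx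
  · rintro _ ⟨v', l, h1, h2, h3, rfl⟩
    exact AddSubgroup.subset_closure ⟨v ++ v', l, hv.append h1, h2, h3, by rw [P_append, mul_assoc]⟩
  · simpa using (X.D k j).zero_mem
  · intro u v _ _ h1 h2; rw [mul_add]; exact (X.D k j).add_mem h1 h2
  · intro u _ h1; rw [mul_neg]; exact (X.D k j).neg_mem h1

theorem E_le_D {k n j : ℕ} (h : j ≤ n) : X.E k n ≤ X.D k j := by
  rw [E, AddSubgroup.closure_le]
  rintro _ ⟨l, h1, h2, rfl⟩
  exact AddSubgroup.subset_closure ⟨[], l, by simp [Bd], h2, by omega, by simp⟩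

theorem cm_mul_E {k n : ℕ} (hn : n ≠ 1) {a b : ℕ × L} (ha : a.1 < k) (hb : b.1 < k) {x : A}
    (hx : x ∈ X.E k n) : cm (X.y a) (X.y b) * x ∈ X.E k (n + 2) := by
  refine AddSubgroup.closure_induction (p := fun x _ => cm (X.y a) (X.y b) * x ∈ X.E k (n+2)) ?_ ?_ ?_ ?_ hx
  · rintro _ ⟨l, h1, h2, rfl⟩
    refine AddSubgroup.subset_closure ⟨a :: b :: l, by simp [h1], ?_, ?_⟩
    · intro t ht
      simp only [List.mem_cons] at ht
      rcases ht with rfl | rfl | ht
      · exact ha
      · exact hb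
      · exact h2 t ht
    · rw [X.tau_cons2 a b (by rw [h1]; exact hn)]
  · simpa using (X.E k (n+2)).zero_mem
  · intro u v _ _ h1 h2; rw [mul_add]; exact (X.E k (n+2)).add_mem h1 h2
  · intro u _ h1; rw [mul_neg]; exact (X.E k (n+2)).neg_mem h1

theorem tau_mem_E {k : ℕ} {l : List (ℕ × L)} (h : Bd k l) : X.tau l ∈ X.E k l.length :=
  AddSubgroup.subset_closure ⟨l, rfl, h, rfl⟩

section three

variable (hc : ∀ x : A, x + x + x = 0)
include hc

theorem tau_cm_letter {k : ℕ} : ∀ (l : List (ℕ × L)) (u : ℕ × L), Bd k l → u.1 < k →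
    cm (X.tau l) (X.y u) ∈ X.E k (l.length + 1)
  | [], u, _, _ => by simpa [tau, cm] using (X.E k _).zero_mem
  | [_], u, _, _ => by simpa [tau, cm] using (X.E k _).zero_mem
  | [x, y], u, h, hu => by
    simp only [tau, mul_one]
    refine AddSubgroup.subset_closure ⟨[x, y, u], rfl, ?_, rfl⟩
    intro t ht
    simp only [List.mem_cons, List.not_mem_nil, or_false] at ht
    rcases ht with rfl | rfl | rfl
    · exact h _ (by simp)
    · exact h _ (by simp)
    · exact hu
  | [x, y, z], u, _, _ => by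
    have : cm (X.tau [x, y, z]) (X.y u) = 0 := by
      simp only [tau]
      exact sub_eq_zero.mpr (X.L_tr hc (X.hy _) (X.hy _) (X.hy _) (X.hy _))
    rw [this]; exact AddSubgroup.zero_mem _
  | x :: y :: z :: t :: l, u, h, hu => by
    have h1 : (z :: t :: l).length ≠ 1 := by simp
    have hx : x.1 < k := h _ (by simp)
    have hy : y.1 < k := h _ (by simp)
    have hl : Bd k (z :: t :: l) := fun a ha => h a (by simp at ha ⊢; tauto)
    have ih := tau_cm_letter (z :: t :: l) u hl hu
    rw [X.tau_cons2 x y h1]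
    have e : cm (cm (X.y x) (X.y y) * X.tau (z :: t :: l)) (X.y u) =
        cm (X.y x) (X.y y) * cm (X.tau (z :: t :: l)) (X.y u) + X.tau [x, y, u] * X.tau (z :: t :: l) := by
      simp only [tau, cm]; noncomm_ring
    rw [e]
    refine AddSubgroup.add_mem _ ?_ ?_
    · have := X.cm_mul_E (n := (z :: t :: l).length + 1) (by simp) hx hy ih
      simpa using this
    · have hb : Bd k ([x, y, u] ++ (z :: t :: l)) := by
        refine Bd.append ?_ hl
        intro a ha
        simp only [List.mem_cons, List.not_mem_nil, or_false] at ha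
        rcases ha with rfl | rfl | rfl <;> assumption
      have hm := X.tau_mem_E hb
      have hlen : ([x, y, u] ++ (z :: t :: l)).length = (x :: y :: z :: t :: l).length + 1 := by simp
      rw [hlen] at hm
      rcases X.tau_mul hc [x, y, u] (z :: t :: l) with h' | h' | h' <;> rw [h']
      · exact AddSubgroup.zero_mem _
      · exact hm
      · exact AddSubgroup.neg_mem _ hm

theorem D_mul_tau {k j : ℕ} {x : A} (hx : x ∈ X.D k j) {l : List (ℕ × L)} (hl : Bd k l) :
    x * X.tau l ∈ X.D k (j + l.length) := by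
  refine AddSubgroup.closure_induction (p := fun x _ => x * X.tau l ∈ X.D k (j + l.length)) ?_ ?_ ?_ ?_ hx
  · rintro _ ⟨v, l', h1, h2, h3, rfl⟩
    rw [mul_assoc]
    have hm : X.P v * X.tau (l' ++ l) ∈ X.D k (j + l.length) :=
      AddSubgroup.subset_closure ⟨v, l' ++ l, h1, h2.append hl, by simp; omega, rfl⟩
    rcases X.tau_mul hc l' l with h' | h' | h' <;> rw [h']
    · rw [mul_zero]; exact AddSubgroup.zero_mem _
    · exact hm
    · rw [mul_neg]; exact AddSubgroup.neg_mem _ hm
  · rw [zero_mul]; exact AddSubgroup.zero_mem _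
  · intro u v _ _ h1 h2; rw [add_mul]; exact AddSubgroup.add_mem _ h1 h2
  · intro u _ h1; rw [neg_mul]; exact AddSubgroup.neg_mem _ h1

theorem D_mul_y {k j : ℕ} {x : A} (hx : x ∈ X.D k j) {u : ℕ × L} (hu : u.1 < k) :
    x * X.y u ∈ X.D k j := by
  refine AddSubgroup.closure_induction (p := fun x _ => x * X.y u ∈ X.D k j) ?_ ?_ ?_ ?_ hx
  · rintro _ ⟨v, l, h1, h2, h3, rfl⟩
    have e : X.P v * X.tau l * X.y u = X.P (v ++ [u]) * X.tau l + X.P v * cm (X.tau l) (X.y u) := by
      rw [P_append, cm, P_cons, P_nil]; noncomm_ring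
    rw [e]
    refine AddSubgroup.add_mem _ ?_ ?_
    · refine AddSubgroup.subset_closure ⟨v ++ [u], l, h1.append ?_, h2, h3, rfl⟩
      intro t ht
      rw [List.mem_singleton] at ht
      rw [ht]; exact hu
    · exact X.P_mul_D h1 (X.E_le_D (by omega) (X.tau_cm_letter hc l u h2 hu))
  · rw [zero_mul]; exact AddSubgroup.zero_mem _
  · intro u v _ _ h1 h2; rw [add_mul]; exact AddSubgroup.add_mem _ h1 h2
  · intro u _ h1; rw [neg_mul]; exact AddSubgroup.neg_mem _ h1

theorem D_mul_P {k j : ℕ} (v : List (ℕ × L)) (hv : Bd k v) : ∀ {x : A}, x ∈ X.D k j →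
    x * X.P v ∈ X.D k j := by
  induction v with
  | nil => intro x hx; simpa using hx
  | cons a v ih =>
    intro x hx
    rw [P_cons, ← mul_assoc]
    exact ih (fun t ht => hv t (List.mem_cons_of_mem _ ht)) (X.D_mul_y hc hx (hv a (List.mem_cons_self)))

theorem perm_D {k : ℕ} {l l' : List (ℕ × L)} (h : l.Perm l') (hl : Bd k l) :
    X.P l - X.P l' ∈ X.D k 2 := by
  induction h with
  | nil => simpa using (X.D k 2).zero_mem
  | cons x hp ih =>
    rename_i l1 l2
    have hl1 : Bd k l1 := fun t ht => hl t (List.mem_cons_of_mem _ ht)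
    have hx : Bd k [x] := by
      intro t ht
      rw [List.mem_singleton] at ht
      rw [ht]; exact hl x (List.mem_cons_self)
    have := X.P_mul_D hx (ih hl1)
    simpa [mul_sub] using this
  | swap x z l =>
    have e : X.P (z :: x :: l) - X.P (x :: z :: l) = X.tau [z, x] * X.P l := by
      simp only [P_cons, tau, cm]; noncomm_ring
    rw [e]
    refine X.D_mul_P hc l (fun t ht => hl t (by simp [ht])) (X.E_le_D le_rfl (X.tau_mem_E (l := [z, x]) ?_))
    intro t ht
    simp only [List.mem_cons, List.not_mem_nil, or_false] at ht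
    rcases ht with rfl | rfl
    · exact hl _ (by simp)
    · exact hl _ (by simp)
  | trans h1 h2 ih1 ih2 =>
    have := (X.D k 2).add_mem (ih1 hl) (ih2 (fun t ht => hl t (h1.mem_iff.mpr ht)))
    simpa using this

omit hc in
theorem not_nodup_of_long {k : ℕ} {l : List (ℕ × L)} (hl : Bd k l) (h : k * Fintype.card L < l.length) :
    ¬ l.Nodup := by
  intro hn
  have h1 : l.toFinset ⊆ Finset.range k ×ˢ (Finset.univ : Finset L) := by
    intro t ht
    simp only [Finset.mem_product, Finset.mem_range, Finset.mem_univ, and_true]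
    exact hl t (List.mem_toFinset.mp ht)
  have h2 := Finset.card_le_card h1
  rw [List.toFinset_card_of_nodup hn, Finset.card_product, Finset.card_range, Finset.card_univ] at h2
  omega

/-- word values -/
def m3 (w : List (Ltr (Fin 2) L)) : A := X.P (flat 0 w) * X.tau (flat 1 w)

omit hc in
theorem flat_Bd {Ch : Type} (c : Ch) (w : List (Ltr Ch L)) : Bd w.length (flat c w) := by
  intro t ht
  have h := List.count_pos_iff.mpr ht
  rw [count_flat] at h
  by_contra hcon
  push Not at hcon
  rw [List.getElem?_eq_none hcon] at h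
  simp at h

theorem span3 (k : ℕ) : ∀ (n j : ℕ), k * Fintype.card L < j + n →
    X.D k j ≤ AddSubgroup.closure (X.m3 '' {w | w.length = k ∧ j ≤ (flat 1 w).length}) := by
  intro n
  induction n with
  | zero =>
    intro j hj
    rw [D, AddSubgroup.closure_le]
    rintro _ ⟨v, l, h1, h2, h3, rfl⟩
    rw [X.tau_dup hc (not_nodup_of_long h2 (by omega)), mul_zero]
    exact AddSubgroup.zero_mem _
  | succ n ih =>
    intro j hj
    have ih' : X.D k (j + 1) ≤ AddSubgroup.closure (X.m3 '' {w | w.length = k ∧ j ≤ (flat 1 w).length}) := by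
      refine (ih (j + 1) (by omega)).trans (AddSubgroup.closure_mono (Set.image_mono ?_))
      rintro w ⟨hw1, hw2⟩
      exact ⟨hw1, by omega⟩
    conv_lhs => rw [D]
    rw [AddSubgroup.closure_le]
    rintro _ ⟨v, l, h1, h2, h3, rfl⟩
    by_cases hn : l.Nodup
    swap
    · rw [X.tau_dup hc hn, mul_zero]; exact AddSubgroup.zero_mem _
    by_cases hcount : ∀ t, v.count t ≤ 2
    · obtain ⟨w, hwk, hw⟩ := exists_word (Ch := Fin 2) k ![v, l] (by
        intro c; fin_cases c
        · exact h1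
        · exact h2) (by
        intro c; fin_cases c
        · exact hcount
        · intro t; exact (List.nodup_iff_count_le_one.mp hn t).trans (by norm_num))
      have w0 : (flat 0 w).Perm v := hw 0
      have w1 : (flat 1 w).Perm l := hw 1
      have hmem : X.m3 w ∈ AddSubgroup.closure (X.m3 '' {w | w.length = k ∧ j ≤ (flat 1 w).length}) :=
        AddSubgroup.subset_closure ⟨w, ⟨hwk, by rw [w1.length_eq]; exact h3⟩, rfl⟩
      have hd : (X.P v - X.P (flat 0 w)) * X.tau (flat 1 w) ∈
          AddSubgroup.closure (X.m3 '' {w | w.length = k ∧ j ≤ (flat 1 w).length}) := by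
        refine ih' (X.D_anti k ?_ (X.D_mul_tau hc (X.perm_D hc w0.symm h1) (l := flat 1 w) ?_))
        · rw [w1.length_eq]; omega
        · intro t ht; exact h2 t (w1.mem_iff.mp ht)
      have e : X.P v * X.tau (flat 1 w) = (X.P v - X.P (flat 0 w)) * X.tau (flat 1 w) + X.m3 w := by
        rw [m3, sub_mul, sub_add_cancel]
      have hm2 : X.P v * X.tau (flat 1 w) ∈ AddSubgroup.closure (X.m3 '' {w | w.length = k ∧ j ≤ (flat 1 w).length}) := by
        rw [e]; exact AddSubgroup.add_mem _ hd hmem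
      rcases X.tau_perm' hc w1 with h | h
      · rw [← h]; exact hm2
      · have h' : X.tau l = - X.tau (flat 1 w) := by rw [h, neg_neg]
        rw [h', mul_neg]; exact AddSubgroup.neg_mem _ hm2
    · push Not at hcount
      obtain ⟨t, ht⟩ := hcount
      have hs : (List.replicate 3 t).Sublist v := List.replicate_sublist_iff.mpr ht
      obtain ⟨v', hv'⟩ := hs.exists_perm_append
      have hz : X.P (List.replicate 3 t ++ v') = 0 := by
        have := X.cube _ (X.hy t)
        simp only [List.replicate_succ, List.replicate_zero, List.cons_append, List.nil_append, P_cons]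
        rw [← mul_assoc, ← mul_assoc, this, zero_mul]
      have hd := X.D_mul_tau hc (X.perm_D hc hv' h1) h2
      rw [hz, sub_zero] at hd
      exact ih' (X.D_anti k (by omega) hd)

theorem tau_mul_even {l l' : List (ℕ × L)} (h : l.length ≠ 1) (h' : Even l'.length) :
    X.tau l * X.tau l' = X.tau (l ++ l') ∨ X.tau l * X.tau l' = - X.tau (l ++ l') := by
  rw [X.tau_comm_even hc l l' h', X.tau_even_mul hc l' l h' h]
  exact X.tau_perm' hc List.perm_append_comm

omit hc in
theorem rho_tau {σ : ℕ → ℕ} (hσ : StrictMono σ) : ∀ (l : List (ℕ × L)),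
    X.rho σ (X.tau l) = X.tau (l.map (fun t => (σ t.1, t.2)))
  | [] => by simp [tau]
  | [a] => by simp [tau]
  | [a, b, c] => by simp [tau, cm, X.hrho σ hσ]
  | [a, b] => by simp [tau, cm, X.hrho σ hσ]
  | a :: b :: c :: d :: l => by
    have h : (c :: d :: l).length ≠ 1 := by simp
    have h' : ((c :: d :: l).map (fun t => (σ t.1, t.2))).length ≠ 1 := by simp
    rw [X.tau_cons2 a b h, map_mul, rho_tau hσ (c :: d :: l)]
    rw [show (a :: b :: c :: d :: l).map (fun t => (σ t.1, t.2)) =
      (σ a.1, a.2) :: (σ b.1, b.2) :: ((c :: d :: l).map (fun t => (σ t.1, t.2))) from rfl,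
      X.tau_cons2 _ _ h']
    simp only [cm, map_sub, map_mul, X.hrho σ hσ]

theorem op3 (pat : List (Option (Ltr (Fin 2) L))) (hins : Even (ins 1 pat).length)
    (v : List (Ltr (Fin 2) L)) (hv : v.length = holes pat) :
    ∃ ε : ℤ, (ε = 1 ∨ ε = -1 ∨ (ε = 0 ∧ (flat 1 v).length = 1)) ∧
      X.P (ins 0 pat) * X.rho (sig pat) (X.m3 v) * X.tau (ins 1 pat) - ε • X.m3 (fill pat v) ∈
      AddSubgroup.closure (X.m3 '' {w | w.length = pat.length ∧
        (flat 1 (fill pat v)).length + 1 ≤ (flat 1 w).length}) := by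
  have e1 : X.P (ins 0 pat) * X.rho (sig pat) (X.m3 v) * X.tau (ins 1 pat) =
      X.P (ins 0 pat ++ (flat 0 v).map (mapSig pat)) *
      (X.tau ((flat 1 v).map (mapSig pat)) * X.tau (ins 1 pat)) := by
    rw [m3, map_mul, X.rho_P_sig, X.rho_tau (sig_strictMono pat), P_append]
    change _ = _ * (X.tau ((flat 1 v).map (mapSig pat)) * _)
    unfold mapSig
    noncomm_ring
  by_cases h1 : (flat 1 v).length = 1
  · refine ⟨0, Or.inr (Or.inr ⟨rfl, h1⟩), ?_⟩
    rw [e1, X.tau_of_len1 (l := (flat 1 v).map (mapSig pat)) (by rw [List.length_map]; exact h1)]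
    simpa using AddSubgroup.zero_mem _
  · have hb : Bd pat.length (flat 0 (fill pat v)) := by
      rw [← fill_length pat v hv]; exact flat_Bd 0 _
    have hb1 : Bd pat.length (flat 1 (fill pat v)) := by
      rw [← fill_length pat v hv]; exact flat_Bd 1 _
    have hp0 : (flat 0 (fill pat v)).Perm (ins 0 pat ++ (flat 0 v).map (mapSig pat)) :=
      (flat_fill 0 pat v hv).trans List.perm_append_comm
    have hp1 := flat_fill 1 pat v hv
    obtain ⟨δ, hδ, hδ'⟩ : ∃ δ : ℤ, (δ = 1 ∨ δ = -1) ∧
        X.tau ((flat 1 v).map (mapSig pat)) * X.tau (ins 1 pat) = δ • X.tau (flat 1 (fill pat v)) := by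
      rcases X.tau_mul_even hc (l := (flat 1 v).map (mapSig pat)) (by rw [List.length_map]; exact h1) hins
        with h | h <;> rcases X.tau_perm' hc hp1 with h' | h'
      · exact ⟨1, Or.inl rfl, by rw [h, h']; simp⟩
      · exact ⟨-1, Or.inr rfl, by rw [h, h']; simp⟩
      · exact ⟨-1, Or.inr rfl, by rw [h, h']; simp⟩
      · exact ⟨1, Or.inl rfl, by rw [h, h']; simp⟩
    refine ⟨δ, by tauto, ?_⟩
    have hd := X.D_mul_tau hc (X.perm_D hc hp0 hb) hb1
    have hd' := X.span3 hc pat.length (pat.length * Fintype.card L + 1) ((flat 1 (fill pat v)).length + 1)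
      (by omega) (X.D_anti _ (by omega) hd)
    have e2 : X.P (ins 0 pat) * X.rho (sig pat) (X.m3 v) * X.tau (ins 1 pat) - δ • X.m3 (fill pat v) =
        (-δ) • ((X.P (flat 0 (fill pat v)) - X.P (ins 0 pat ++ (flat 0 v).map (mapSig pat))) *
          X.tau (flat 1 (fill pat v))) := by
      rw [e1, hδ', m3, sub_mul, mul_smul_comm, smul_sub, neg_smul, neg_smul]; abel
    rw [e2]
    exact AddSubgroup.zsmul_mem _ hd' _

end three

omit [Fintype L] [DecidableEq L] in
theorem Wd_ext {B : Type} {v w : Wd B} (h : v.l = w.l) : v = w := by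
  cases v; cases w; cases h; rfl

@[reducible] def wdOrder {B : Type} [LinearOrder B] (c : List B → ℕ) : LinearOrder (Wd B) :=
  LinearOrder.lift' (fun w => (toLex (OrderDual.toDual (c w.l), w.l) : ℕᵒᵈ ×ₗ List B)) (by
    intro v w h
    have h1 := congrArg (fun x => (ofLex x).2) h
    exact Wd_ext h1)

theorem wd_lt {B : Type} [LinearOrder B] (c : List B → ℕ) (v w : Wd B) :
    (wdOrder c).lt v w ↔ (c w.l < c v.l ∨ (c v.l = c w.l ∧ v.l < w.l)) := by
  change (toLex (OrderDual.toDual (c v.l), v.l) : ℕᵒᵈ ×ₗ List B) < toLex (OrderDual.toDual (c w.l), w.l) ↔ _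
  rw [Prod.Lex.toLex_lt_toLex]
  simp only [OrderDual.toDual_lt_toDual]
  simp only [EmbeddingLike.apply_eq_iff_eq]

def kap3 (w : List (Ltr (Fin 2) L)) : Bool × Bool :=
  (decide (Even (flat 1 w).length), decide ((flat 1 w).length = 1))

theorem noeth_three (hc : ∀ x : A, x + x + x = 0) : ∃ K, ∀ k, K ≤ k → X.U k = X.U K := by
  classical
  have hM : ∀ x : A, ((3 : ℕ) : ℤ) • x = 0 := fun x => by
    have : ((3 : ℕ) : ℤ) • x = x + x + x := by
      rw [Nat.cast_ofNat, show (3 : ℤ) = 1 + 1 + 1 by norm_num, add_smul, add_smul, one_smul]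
    rw [this]; exact hc x
  haveI i0 : LinearOrder (Ltr (Fin 2) L) := LinearOrder.lift' (Fintype.equivFin _) (Equiv.injective _)
  letI i1 : LinearOrder (Wd (Ltr (Fin 2) L)) := @wdOrder _ i0 (fun l => (flat 1 l).length)
  have hlt := @wd_lt _ i0 (fun l : List (Ltr (Fin 2) L) => (flat 1 l).length)
  have hlow : ∀ (w' : Wd (Ltr (Fin 2) L)) (n : ℕ), (flat 1 w'.l).length ≤ n →
      AddSubgroup.closure (X.m3 '' {w | w.length = w'.l.length ∧ n + 1 ≤ (flat 1 w).length}) ≤
      lowSpan (fun w : Wd (Ltr (Fin 2) L) => w.l.length) (fun w => X.m3 w.l) ⊥ w' := by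
    intro w' n hn
    rw [AddSubgroup.closure_le]
    rintro _ ⟨w, ⟨hw1, hw2⟩, rfl⟩
    refine AddSubgroup.mem_sup_right (AddSubgroup.subset_closure ⟨⟨w⟩, ⟨hw1, (hlt _ _).mpr ?_⟩, rfl⟩)
    left; simp only; omega
  refine engine (W := Wd (Ltr (Fin 2) L)) Nat.prime_three hM (fun w => w.l.length) (fun w => X.m3 w.l) ?_ ⊥
    (fun w w' => w.l.Sublist w'.l ∧ kap3 w.l = kap3 w'.l) ?_ X.U X.mono (fun _ => bot_le) ?_ ?_
  · intro k
    exact (finite_words (A := Ltr (Fin 2) L) k).preimage (f := Wd.l) (fun v _ w _ h => Wd_ext h)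
  · intro g
    exact higman_class kap3 (fun n => (g n).l)
  · intro k x hx
    have hpad : ∀ w, X.m3 (w ++ [fun _ _ => 0]) = X.m3 w := fun w => by simp only [m3, flat_append_zero]
    obtain ⟨K, hK⟩ := hspan_of_gens X.m3 hpad ⊥ {z | ∃ l : List (ℕ × L), l ≠ [] ∧ z = (l.map X.y).prod} (by
      rintro z ⟨l, hl, rfl⟩
      obtain ⟨k, hk⟩ := index_bound l
      refine ⟨k, AddSubgroup.mem_sup_right ?_⟩
      have h1 : X.P l ∈ X.D k 0 := AddSubgroup.subset_closure ⟨l, [], hk, by simp [Bd], by simp, by simp [tau]⟩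
      have h2 := X.span3 hc k (k * Fintype.card L + 1) 0 (by omega) h1
      refine AddSubgroup.closure_mono (Set.image_mono ?_) h2
      rintro w ⟨hw1, _⟩
      exact hw1) x (AddSubgroup.mem_sup_right (X.gen x (X.UN k hx)))
    refine ⟨K, ?_⟩
    have e : (fun w : Wd (Ltr (Fin 2) L) => X.m3 w.l) '' {w | w.l.length = K} = X.m3 '' {w | w.length = K} := by
      ext z
      constructor
      · rintro ⟨w, hw, rfl⟩; exact ⟨w.l, hw, rfl⟩
      · rintro ⟨w, hw, rfl⟩; exact ⟨⟨w⟩, hw, rfl⟩
    rw [e]; exact hK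
  · rintro w w' ⟨hsub, hk⟩
    obtain ⟨pat, h1, h2⟩ := exists_pat hsub
    by_cases hw1 : (flat 1 w.l).length = 1
    · have hw1' : (flat 1 w'.l).length = 1 := by
        have := (Prod.mk.inj hk).2
        simpa [hw1] using this.symm
      refine ⟨0, ?_, ?_, ?_, 1, ?_, ?_⟩
      · intro k x _; exact AddSubgroup.zero_mem _
      · intro x _; exact AddSubgroup.zero_mem _
      · intro v _ _; exact AddSubgroup.zero_mem _
      · decide
      · have e1 : X.m3 w.l = 0 := by rw [m3, X.tau_of_len1 hw1, mul_zero]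
        have e2 : X.m3 w'.l = 0 := by rw [m3, X.tau_of_len1 hw1', mul_zero]
        simp only [e1, e2, AddMonoidHom.zero_apply, smul_zero, sub_zero]
        exact AddSubgroup.zero_mem _
    · have hlenfill : ∀ v : List (Ltr (Fin 2) L), v.length = holes pat →
          (flat 1 (fill pat v)).length = (flat 1 v).length + (ins 1 pat).length := by
        intro v hv
        have := (flat_fill 1 pat v hv).length_eq
        rw [List.length_append, List.length_map] at this
        exact this
      have hins : Even (ins 1 pat).length := by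
        have e1 := (Prod.mk.inj hk).1
        rw [decide_eq_decide] at e1
        rw [← h2, hlenfill w.l h1.symm, Nat.even_add] at e1
        tauto
      have hw'len : w'.l.length = pat.length := by rw [← h2]; exact fill_length pat w.l h1.symm
      refine ⟨((AddMonoidHom.mulRight (X.tau (ins 1 pat))).comp (AddMonoidHom.mulLeft (X.P (ins 0 pat)))).comp
        (X.rho (sig pat)).toAddMonoidHom, ?_, ?_, ?_, ?_⟩
      · intro k x hx
        exact X.UR k _ _ (X.UL k _ _ (X.Urho k _ (sig_strictMono pat) x hx))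
      · intro x hx
        rw [AddSubgroup.mem_bot] at hx ⊢
        rw [hx, map_zero]
      · intro v hv hvw
        have hv' : v.l.length = holes pat := by rw [hv, h1]
        obtain ⟨ε, _, hε⟩ := X.op3 hc pat hins v.l hv'
        have hfv := hlenfill v.l hv'
        have hfw := hlenfill w.l h1.symm
        rw [h2] at hfw
        replace hvw := (hlt _ _).mp hvw
        have hcount : (flat 1 w'.l).length ≤ (flat 1 (fill pat v.l)).length := by
          rcases hvw with h | ⟨h, _⟩ <;> omega
        rw [← hw'len] at hε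
        have h3 := hlow w' _ hcount hε
        have h4 : X.m3 (fill pat v.l) ∈ lowSpan (fun w : Wd (Ltr (Fin 2) L) => w.l.length) (fun w => X.m3 w.l) ⊥ w' := by
          refine AddSubgroup.mem_sup_right (AddSubgroup.subset_closure ⟨⟨fill pat v.l⟩, ⟨?_, ?_⟩, rfl⟩)
          · change (fill pat v.l).length = w'.l.length
            rw [hw'len]; exact fill_length pat v.l hv'
          · refine (hlt _ _).mpr ?_
            rcases hvw with h | ⟨h, h'⟩
            · left; change _ < (flat 1 (fill pat v.l)).length; omega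
            · right
              refine ⟨by change (flat 1 (fill pat v.l)).length = _; omega, ?_⟩
              have := fill_lt pat v.l w.l hv' h1.symm h'
              rw [h2] at this
              exact this
        have h5 := AddSubgroup.add_mem _ h3 (AddSubgroup.zsmul_mem _ h4 ε)
        rw [sub_add_cancel] at h5
        exact h5
      · obtain ⟨ε, hε1, hε⟩ := X.op3 hc pat hins w.l h1.symm
        rw [h2, ← hw'len] at hε
        refine ⟨ε, ?_, hlow w' _ le_rfl hε⟩
        rcases hε1 with h | h | h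
        · rw [h]; decide
        · rw [h]; decide
        · exact absurd h.2 hw1

end Sys

end Pool.Agent.Helper60
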