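import Pool.Agent.Helper60.Char3

noncomputable section

namespace Pool.Agent.Helper60.Sys

open Pool.Agent.Helper60

variable {A L : Type} [Ring A] [Fintype L] [DecidableEq L] (X : Sys A L)

def all6 (w : List (Ltr (Fin 6) L)) : List (ℕ × L) :=
  flat 0 w ++ flat 1 w ++ flat 2 w ++ flat 3 w ++ flat 4 w ++ flat 5 w

open Classical in
def m5 (w : List (Ltr (Fin 6) L)) : A :=
  if ∀ c, (flat c w).length ≤ 1 then X.P (all6 w) else 0

def kap5 (w : List (Ltr (Fin 6) L)) : Fin 6 → Fin 3 :=
  fun c => ⟨min (flat c w).length 2, by omega⟩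

theorem kap5_eq {w w' : List (Ltr (Fin 6) L)} (h : kap5 w = kap5 w') (c : Fin 6) :
    min (flat c w).length 2 = min (flat c w').length 2 := by
  have := congrFun h c
  simpa only [kap5, Fin.mk.injEq] using this

theorem noeth_nilp {p : ℕ} (hp : p.Prime) (hM : ∀ x : A, (p : ℤ) • x = 0)
    (h7 : ∀ l : List (ℕ × L), 7 ≤ l.length → X.P l = 0) : ∃ K, ∀ k, K ≤ k → X.U k = X.U K := by
  classical
  refine engine_words (Ch := Fin 6) (L := L) hp hM X.m5 ⊥ kap5 X.U X.mono (fun k => bot_le) ?_ ?_
  · intro k x hx
    have hpad : ∀ w, X.m5 (w ++ [fun _ _ => 0]) = X.m5 w := fun w => by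
      simp only [m5, all6, flat_append_zero]
    refine hspan_of_gens X.m5 hpad ⊥ {z | ∃ l : List (ℕ × L), l ≠ [] ∧ z = (l.map X.y).prod} ?_ x
      (AddSubgroup.mem_sup_right (X.gen x (X.UN k hx)))
    rintro z ⟨l, hl, rfl⟩
    change ∃ k, X.P l ∈ _
    by_cases h : 7 ≤ l.length
    · rw [h7 l h]; exact ⟨0, AddSubgroup.zero_mem _⟩
    · obtain ⟨w, hw⟩ := word_of_lists (C := Fin 6) (fun c => (l[(c : ℕ)]?).toList) (by
        intro c
        cases l[(c : ℕ)]? <;> simp)
      have hw' : ∀ c, flat c w = (l[(c : ℕ)]?).toList := by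
        intro c
        have h1 := hw c
        cases h2 : l[(c : ℕ)]? with
        | none => rw [h2] at h1; simpa using h1
        | some a => rw [h2] at h1; simpa using h1
      refine ⟨w.length, AddSubgroup.mem_sup_right (AddSubgroup.subset_closure ⟨w, rfl, ?_⟩)⟩
      have h1 : ∀ c, (flat c w).length ≤ 1 := by
        intro c; rw [hw' c]; cases l[(c : ℕ)]? <;> simp
      rw [m5, if_pos h1, all6, hw' 0, hw' 1, hw' 2, hw' 3, hw' 4, hw' 5]
      congr 1
      match l, h with
      | [], _ => rfl
      | [a], _ => rfl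
      | [a, b], _ => rfl
      | [a, b, c], _ => rfl
      | [a, b, c, d], _ => rfl
      | [a, b, c, d, e], _ => rfl
      | [a, b, c, d, e, f], _ => rfl
      | a :: b :: c :: d :: e :: f :: g :: l, h => simp at h
  · intro pat w hw hk
    by_cases hnd : ∀ c, (flat c w).length ≤ 1
    · have hi : ∀ c, ins c pat = [] := by
        intro c
        refine ins_nil_of_length c pat w hw ?_
        have h1 := kap5_eq hk c
        have h2 := hnd c
        omega
      have hf : ∀ (v : List (Ltr (Fin 6) L)) (c : Fin 6), v.length = holes pat →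
          flat c (fill pat v) = (flat c v).map (mapSig pat) :=
        fun v c hv => flat_fill_of_ins_nil c pat v hv (hi c)
      have key : ∀ v : List (Ltr (Fin 6) L), v.length = holes pat →
          X.rho (sig pat) (X.m5 v) = X.m5 (fill pat v) := by
        intro v hv
        have e : (∀ c, (flat c (fill pat v)).length ≤ 1) ↔ (∀ c, (flat c v).length ≤ 1) := by
          constructor <;> intro h c
          · have := h c; rw [hf v c hv, List.length_map] at this; exact this
          · rw [hf v c hv, List.length_map]; exact h c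
        by_cases h : ∀ c, (flat c v).length ≤ 1
        · rw [m5, m5, if_pos h, if_pos (e.mpr h), X.rho_P_sig]
          simp only [all6, List.map_append, hf v _ hv]
        · rw [m5, m5, if_neg h, if_neg (fun h' => h (e.mp h')), map_zero]
      refine ⟨(X.rho (sig pat)).toAddMonoidHom, ?_, ?_, ?_, ?_⟩
      · intro k x hx
        exact X.Urho k _ (sig_strictMono pat) x hx
      · intro x hx
        rw [AddSubgroup.mem_bot] at hx ⊢
        rw [hx, map_zero]
      · intro v hv
        refine Or.inr ?_
        have := key v hv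
        change X.rho (sig pat) (X.m5 v) - X.m5 (fill pat v) ∈ _
        rw [this, sub_self]; exact AddSubgroup.zero_mem _
      · have := key w hw
        change X.rho (sig pat) (X.m5 w) - X.m5 (fill pat w) ∈ _
        rw [this, sub_self]; exact AddSubgroup.zero_mem _
    · refine ⟨0, ?_, ?_, ?_, ?_⟩
      · intro k x _; exact AddSubgroup.zero_mem _
      · intro x _; exact AddSubgroup.zero_mem _
      · intro v _; exact Or.inl (AddSubgroup.zero_mem _)
      · have hnd' : ¬ (∀ c, (flat c (fill pat w)).length ≤ 1) := by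
          intro h
          apply hnd
          intro c
          have h1 := kap5_eq hk c
          have h2 := h c
          omega
        rw [m5, m5, if_neg hnd, if_neg hnd']
        simp

theorem P_seven {p : ℕ} (hp : p.Prime) (h5 : 5 ≤ p) (hM : ∀ x : A, (p : ℤ) • x = 0)
    (l : List (ℕ × L)) (h : 7 ≤ l.length) : X.P l = 0 := by
  match l, h with
  | a :: b :: c :: d :: e :: f :: g :: l, _ =>
    have h1 := nil_seven (R := X.NS) X.NS_h3 ⟨_, X.hy a⟩ ⟨_, X.hy b⟩ ⟨_, X.hy c⟩ ⟨_, X.hy d⟩ ⟨_, X.hy e⟩
      ⟨_, X.hy f⟩ ⟨_, X.hy g⟩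
    have h2 : (24 : ℤ) • (X.y a * X.y b * X.y c * X.y d * (X.y e * X.y f * X.y g)) = 0 :=
      congrArg Subtype.val h1
    have h3 : X.P (a :: b :: c :: d :: e :: f :: g :: l) =
        (X.y a * X.y b * X.y c * X.y d * (X.y e * X.y f * X.y g)) * X.P l := by
      simp only [P_cons]; noncomm_ring
    have hnd : ¬ (p : ℤ) ∣ 24 := by
      intro h
      have h' : p ∣ 24 := by exact_mod_cast h
      have h24 : (24 : ℕ) = 2 ^ 3 * 3 := by norm_num
      rw [h24] at h'
      rcases (Nat.Prime.dvd_mul hp).mp h' with h' | h'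
      · have := (Nat.prime_dvd_prime_iff_eq hp Nat.prime_two).mp (hp.dvd_of_dvd_pow h')
        omega
      · have := (Nat.prime_dvd_prime_iff_eq hp Nat.prime_three).mp h'
        omega
    obtain ⟨dd, hd⟩ := exists_inv_mod hp hnd
    rw [h3, ← inv_smul hM hd (X.y a * X.y b * X.y c * X.y d * (X.y e * X.y f * X.y g)), h2]
    simp

/-- Lemma N. -/
theorem noeth {p : ℕ} (hp : p.Prime) (hM : ∀ x : A, (p : ℤ) • x = 0) :
    ∃ K, ∀ k, K ≤ k → X.U k = X.U K := by
  by_cases h5 : 5 ≤ p
  · exact X.noeth_nilp hp hM (X.P_seven hp h5 hM)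
  · have h2 := hp.two_le
    have : p = 2 ∨ p = 3 ∨ p = 4 := by omega
    rcases this with h | h | h
    · subst h
      refine X.noeth_two (fun x => ?_)
      have := hM x
      rwa [Nat.cast_ofNat, two_smul] at this
    · subst h
      refine X.noeth_three (fun x => ?_)
      have := hM x
      rwa [Nat.cast_ofNat, show (3 : ℤ) = 1 + 1 + 1 by norm_num, add_smul, add_smul, one_smul] at this
    · subst h; exact absurd hp (by decide)

end Pool.Agent.Helper60.Sys
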