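import Pool.Agent.Helper60.Blocks

noncomputable section

namespace Pool.Agent.Helper60

section Crit

variable {R : Type} [NonUnitalRing R]

def toAdd (P : TwoSidedIdeal R) : AddSubgroup R where
  carrier := P
  add_mem' := P.add_mem
  zero_mem' := P.zero_mem
  neg_mem' := P.neg_mem

theorem mem_toAdd {P : TwoSidedIdeal R} {x : R} : x ∈ toAdd P ↔ x ∈ P := Iff.rfl

variable {p m : ℕ} (hp : p.Prime) (hm : 1 ≤ m) (hc : ∀ x : R, (p : ℤ) • x = 0)
  (hper : ∀ x : R, pw x 2 = pw x (2 + m))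

include hp hm hc hper

theorem prime_index {P : TwoSidedIdeal R} (hP : PrimeI P) : (toAdd P).index ≤ ((m + 1) ^ m) ^ 9 := by
  obtain ⟨Q, _, π, hs, hk⟩ := quot_pkg P
  have h1 := (prime_finite (R := Q) hp hm
    (by intro q; obtain ⟨x, rfl⟩ := hs q; rw [← map_zsmul, hc, map_zero])
    (by intro q; obtain ⟨x, rfl⟩ := hs q; rw [← pw_map, ← pw_map, hper])
    (by
      intro q q' h
      obtain ⟨a, rfl⟩ := hs q
      obtain ⟨b, rfl⟩ := hs q'
      rw [hk, hk]
      apply hP.2
      intro r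
      have := h (π r)
      rwa [← map_mul, ← map_mul, hk] at this)).2.1
  have h2 : toAdd P = (π : R →+ Q).ker := by
    ext x
    rw [mem_toAdd, AddMonoidHom.mem_ker, ← hk]; rfl
  have h3 : (π : R →+ Q).range = ⊤ := AddMonoidHom.range_eq_top.mpr hs
  rw [h2, AddSubgroup.index_ker, h3]
  refine le_trans (le_of_eq ?_) h1
  exact Nat.card_congr (Equiv.Set.univ Q)

omit hp hc in
theorem rad_nil [Finite R] {x : R} (hx : ∀ P : TwoSidedIdeal R, PrimeI P → x ∈ P) : x * x * x = 0 := by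
  refine idp_zero hm (hper x) ?_
  by_contra he0
  set e := idp m x with he
  have hee : e * e = e := idp_idem hm (hper x)
  have hfin : Finite (TwoSidedIdeal R) := by
    have : Function.Injective (fun I : TwoSidedIdeal R => (I : Set R)) := SetLike.coe_injective
    exact Finite.of_injective _ this
  obtain ⟨P, hP⟩ := (Set.toFinite {I : TwoSidedIdeal R | e ∉ I}).exists_maximal
    ⟨⊥, by simpa [TwoSidedIdeal.mem_bot] using he0⟩
  have hPe : e ∉ P := hP.1
  have hmax : ∀ I : TwoSidedIdeal R, P ≤ I → ¬ I ≤ P → e ∈ I := by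
    intro I hPI hIP
    by_contra h
    exact hIP (hP.2 h hPI)
  have hprime : PrimeI P := by
    refine ⟨fun h => hPe (by rw [h]; trivial), ?_⟩
    intro a b hab
    by_contra hcon
    push Not at hcon
    obtain ⟨ha, hb⟩ := hcon
    let L : TwoSidedIdeal R := TwoSidedIdeal.mk' {x | ∀ r, x * r * b ∈ P}
      (by intro r; rw [zero_mul, zero_mul]; exact P.zero_mem)
      (by intro x y hx hy r; rw [add_mul, add_mul]; exact P.add_mem (hx r) (hy r))
      (by intro x hx r; rw [neg_mul, neg_mul]; exact P.neg_mem (hx r))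
      (by intro x y hy r; rw [mul_assoc x, mul_assoc x]; exact P.mul_mem_left _ _ (hy r))
      (by intro x y hx r; rw [mul_assoc x]; exact hx _)
    have hL : ∀ x, x ∈ L ↔ ∀ r, x * r * b ∈ P := fun x => by simp [L]
    have h1 : e ∈ L := hmax L (fun y hy => (hL y).mpr (fun r => P.mul_mem_right _ _ (P.mul_mem_right _ _ hy)))
      (fun h => ha (h ((hL a).mpr hab)))
    let B : TwoSidedIdeal R := TwoSidedIdeal.mk' {y | ∀ r, e * r * y ∈ P}
      (by intro r; rw [mul_zero]; exact P.zero_mem)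
      (by intro y z hy hz r; rw [mul_add]; exact P.add_mem (hy r) (hz r))
      (by intro y hy r; rw [mul_neg]; exact P.neg_mem (hy r))
      (by intro z y hy r; rw [← mul_assoc, mul_assoc e r z]; exact hy _)
      (by intro y z hy r; rw [← mul_assoc]; exact P.mul_mem_right _ _ (hy r))
    have hB : ∀ y, y ∈ B ↔ ∀ r, e * r * y ∈ P := fun y => by simp [B]
    have h2 : e ∈ B := hmax B (fun y hy => (hB y).mpr (fun r => P.mul_mem_left _ _ hy))
      (fun h => hb (h ((hB b).mpr ((hL e).mp h1))))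
    have h3 := (hB e).mp h2 e
    rw [hee, hee] at h3
    exact hPe h3
  exact hPe (pw_mem (hx P hprime) _)

/-- the radical has bounded index -/
theorem radical_bound [Finite R]
    (hno4 : ¬ ∃ P : Fin 4 → TwoSidedIdeal R, (∀ i, PrimeI (P i)) ∧ ∀ i j, i ≠ j → P i ≠ P j) :
    ∃ J : TwoSidedIdeal R, (∀ x ∈ J, x * x * x = 0) ∧
      ∃ r : Fin ((((m + 1) ^ m) ^ 9) ^ 3) → R, ∀ x, ∃ s, x - r s ∈ J := by
  classical
  have hfin : Finite (TwoSidedIdeal R) := by
    have : Function.Injective (fun I : TwoSidedIdeal R => (I : Set R)) := SetLike.coe_injective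
    exact Finite.of_injective _ this
  let PP := {P : TwoSidedIdeal R // PrimeI P}
  haveI : Finite PP := inferInstance
  haveI := Fintype.ofFinite PP
  have hcard : Fintype.card PP ≤ 3 := by
    by_contra h
    apply hno4
    let φ : Fin 4 → PP := fun i => (Fintype.equivFin PP).symm (Fin.castLE (by omega) i)
    have hφ : Function.Injective φ :=
      (Fintype.equivFin PP).symm.injective.comp (Fin.castLE_injective _)
    exact ⟨fun i => (φ i).1, fun i => (φ i).2, fun i j hij h => hij (hφ (Subtype.ext h))⟩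
  let J : TwoSidedIdeal R := sInf {P | PrimeI P}
  have hJ : ∀ x, x ∈ J ↔ ∀ P, PrimeI P → x ∈ P := fun x => TwoSidedIdeal.mem_sInf R
  refine ⟨J, fun x hx => rad_nil hm hper ((hJ x).mp hx), ?_⟩
  have hB : 1 ≤ ((m + 1) ^ m) ^ 9 := Nat.one_le_pow _ _ (Nat.pos_of_ne_zero (by positivity))
  have h1 : toAdd J = ⨅ P : PP, toAdd P.1 := by
    ext x
    rw [mem_toAdd, hJ, AddSubgroup.mem_iInf]
    exact ⟨fun h P => h P.1 P.2, fun h P hP => h ⟨P, hP⟩⟩
  have h2 : (toAdd J).index ≤ (((m + 1) ^ m) ^ 9) ^ 3 := by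
    rw [h1]
    calc (⨅ P : PP, toAdd P.1).index ≤ ∏ P : PP, (toAdd P.1).index := AddSubgroup.index_iInf_le _
      _ ≤ ∏ _P : PP, ((m + 1) ^ m) ^ 9 := Finset.prod_le_prod' (fun P _ => prime_index hp hm hc hper P.2)
      _ = (((m + 1) ^ m) ^ 9) ^ (Fintype.card PP) := by simp
      _ ≤ _ := Nat.pow_le_pow_right hB hcard
  have h3 : Nat.card (R ⧸ toAdd J) ≤ (((m + 1) ^ m) ^ 9) ^ 3 := h2
  haveI : Finite (R ⧸ toAdd J) := inferInstance
  haveI := Fintype.ofFinite (R ⧸ toAdd J)
  have hpos : 0 < Fintype.card (R ⧸ toAdd J) := Fintype.card_pos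
  rw [Nat.card_eq_fintype_card] at h3
  let ψ := Fintype.equivFin (R ⧸ toAdd J)
  refine ⟨fun s => if h : (s : ℕ) < Fintype.card (R ⧸ toAdd J) then (ψ.symm ⟨s, h⟩).out else 0, ?_⟩
  intro x
  refine ⟨Fin.castLE h3 (ψ (QuotientAddGroup.mk x)), ?_⟩
  have h4 : ((Fin.castLE h3 (ψ (QuotientAddGroup.mk x)) : Fin _) : ℕ) < Fintype.card (R ⧸ toAdd J) := by
    simp
  simp only
  rw [dif_pos h4]
  have h5 : (⟨((Fin.castLE h3 (ψ (QuotientAddGroup.mk x)) : Fin _) : ℕ), h4⟩ : Fin (Fintype.card (R ⧸ toAdd J))) =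
      ψ (QuotientAddGroup.mk x) := by
    ext; simp
  rw [h5, Equiv.symm_apply_apply]
  rw [← mem_toAdd, ← QuotientAddGroup.eq_iff_sub_mem]
  exact (QuotientAddGroup.out_eq' _).symm

end Crit

end Pool.Agent.Helper60
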