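import Mathlib

noncomputable section

namespace Pool.Agent.Helper60

open Polynomial

theorem dom_card {K : Type} [CommRing K] [IsDomain K] {m : ℕ} (hm : 1 ≤ m)
    (h : ∀ x : K, x ^ (m + 1) = x) : Finite K ∧ Nat.card K ≤ m + 1 := by
  classical
  let f : K[X] := X ^ (m + 1) - X
  have hdeg : f.natDegree = m + 1 := by
    have : (X : K[X]).natDegree < (X ^ (m + 1) : K[X]).natDegree := by
      rw [natDegree_X, natDegree_X_pow]; omega
    rw [natDegree_sub_eq_left_of_natDegree_lt this, natDegree_X_pow]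
  have hf : f ≠ 0 := by
    intro h0; rw [h0, natDegree_zero] at hdeg; omega
  have hall : ∀ x : K, x ∈ f.roots.toFinset := by
    intro x
    rw [Multiset.mem_toFinset, mem_roots hf]
    simp [f, h x]
  have hfin : Finite K := by
    have : (Set.univ : Set K).Finite := f.roots.toFinset.finite_toSet.subset (fun x _ => hall x)
    exact Set.finite_univ_iff.mp this
  refine ⟨hfin, ?_⟩
  haveI := Fintype.ofFinite K
  rw [Nat.card_eq_fintype_card, ← Finset.card_univ]
  calc (Finset.univ : Finset K).card ≤ f.roots.toFinset.card := Finset.card_le_card (fun x _ => hall x)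
    _ ≤ Multiset.card f.roots := Multiset.toFinset_card_le _
    _ ≤ f.natDegree := card_roots' f
    _ = m + 1 := hdeg

section Div

variable {D : Type} [DivisionRing D] {m : ℕ} (hm : 1 ≤ m) (hD : ∀ x : D, x ≠ 0 → x ^ m = 1)

include hm hD

theorem comm_subring (L : Subring D) (hL : ∀ x ∈ L, ∀ y ∈ L, x * y = y * x) :
    Finite L ∧ Nat.card L ≤ m + 1 ∧ ∃ g ∈ L, g ≠ 0 ∧ ∀ x ∈ L, x ≠ 0 → ∃ k : ℕ, x = g ^ k := by
  letI : CommRing L := { (inferInstance : Ring L) with
    mul_comm := fun x y => Subtype.ext (hL x x.2 y y.2) }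
  haveI : IsDomain L := inferInstance
  have hpow : ∀ x : L, x ^ (m + 1) = x := by
    intro x
    by_cases hx : x = 0
    · subst hx; rw [zero_pow (by omega)]
    · have : (x : D) ^ m = 1 := hD x (fun h => hx (Subtype.ext h))
      apply Subtype.ext
      rw [pow_succ]
      push_cast
      rw [this, one_mul]
  obtain ⟨hfin, hcard⟩ := dom_card hm hpow
  refine ⟨hfin, hcard, ?_⟩
  have hcyc : IsCyclic Lˣ := inferInstance
  obtain ⟨u, hu⟩ := hcyc.exists_generator
  have hunit : ∀ x : L, x ≠ 0 → ∃ v : Lˣ, (v : L) = x := by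
    intro x hx
    have h1 : x ^ m = 1 := by
      have := hpow x
      rw [pow_succ] at this
      exact mul_right_cancel₀ hx (by rw [this, one_mul])
    obtain ⟨k, rfl⟩ : ∃ k, m = k + 1 := ⟨m - 1, by omega⟩
    exact ⟨⟨x, x ^ k, by rw [mul_comm, ← pow_succ]; exact h1, by rw [← pow_succ]; exact h1⟩, rfl⟩
  refine ⟨((u : L) : D), (u : L).2, ?_, ?_⟩
  · intro h
    have : (u : L) = 0 := Subtype.ext h
    exact u.ne_zero this
  · intro x hx hx0
    obtain ⟨v, hv⟩ := hunit ⟨x, hx⟩ (fun h => hx0 (congrArg Subtype.val h))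
    have hv2 : v ∈ Submonoid.powers u := mem_powers_iff_mem_zpowers.mpr (hu v)
    obtain ⟨k, hk⟩ := hv2
    refine ⟨k, ?_⟩
    have h3 : (v : L) = (u : L) ^ k := by rw [← hk]; rfl
    rw [hv] at h3
    have := congrArg Subtype.val h3
    simpa using this

theorem div_finite {p : ℕ} (hp : p.Prime) (hchar : (p : D) = 0) :
    Finite D ∧ Nat.card D ≤ (m + 1) ^ m := by
  classical
  haveI : Fact p.Prime := ⟨hp⟩
  haveI : CharP D p := (CharP.charP_iff_prime_eq_zero hp).mpr hchar
  -- commutative closures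
  have hc1 : ∀ a : D, ∀ x ∈ Subring.closure {a}, ∀ y ∈ Subring.closure {a}, x * y = y * x := by
    intro a x hx y hy
    letI := Subring.closureCommRingOfComm (s := {a}) (by
      intro b hb c hc
      rw [Set.mem_singleton_iff] at hb hc; rw [hb, hc])
    exact congrArg Subtype.val (mul_comm (⟨x, hx⟩ : Subring.closure {a}) ⟨y, hy⟩)
  have hbd : ∀ a : D, Nat.card (Subring.closure {a}) ≤ m + 1 :=
    fun a => (comm_subring hm hD _ (hc1 a)).2.1
  obtain ⟨g0, hg0⟩ : ∃ g0 : D, ∀ a : D, Nat.card (Subring.closure {a}) ≤ Nat.card (Subring.closure {g0}) := by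
    have hne : (Set.range (fun a : D => Nat.card (Subring.closure {a}))).Nonempty := ⟨_, 0, rfl⟩
    have hb : BddAbove (Set.range (fun a : D => Nat.card (Subring.closure {a}))) := by
      refine ⟨m + 1, ?_⟩
      rintro _ ⟨a, rfl⟩; exact hbd a
    obtain ⟨g0, hg0⟩ := Nat.sSup_mem hne hb
    refine ⟨g0, fun a => ?_⟩
    change _ ≤ (fun a : D => Nat.card (Subring.closure {a})) g0
    rw [hg0]
    exact le_csSup hb ⟨a, rfl⟩
  set K := Subring.closure {g0} with hK
  obtain ⟨hKfin, hKcard, g, hgK, hg0', hgen⟩ := comm_subring hm hD K (hc1 g0)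
  have hgm : g ^ m = 1 := hD g hg0'
  have hgord : 0 < orderOf g := orderOf_pos_iff.mpr (isOfFinOrder_iff_pow_eq_one.mpr ⟨m, by omega, hgm⟩)
  set N := orderOf g with hN
  have hgN : g ^ N = 1 := pow_orderOf_eq_one g
  have hNm : N ≤ m := Nat.le_of_dvd (by omega) (orderOf_dvd_of_pow_eq_one hgm)
  -- N invertible
  have hNne : (N : D) ≠ 0 := by
    intro h0
    have hdvd : p ∣ N := (CharP.cast_eq_zero_iff D p N).mp h0
    obtain ⟨N', hN'⟩ := hdvd
    have h1 : (g ^ N' - 1) ^ p = 0 := by
      rw [sub_pow_char_of_commute (R := D) p (Commute.one_right (g ^ N')), one_pow, ← pow_mul, mul_comm N' p, ← hN',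
        hgN, sub_self]
    have h2 : g ^ N' = 1 := sub_eq_zero.mp (pow_eq_zero_iff hp.ne_zero |>.mp h1)
    have h3 : N ∣ N' := orderOf_dvd_of_pow_eq_one h2
    have h4 : 0 < N' := Nat.pos_of_ne_zero (by rintro rfl; simp at hN'; omega)
    have h5 := Nat.le_of_dvd h4 h3
    have h6 := hp.two_le
    nlinarith
  -- components
  let F : ℕ → D → ℕ → D := fun j y i => (g⁻¹) ^ (j * i) * g ^ i * y * (g⁻¹) ^ i
  let E : ℕ → D → D := fun j y => ∑ i ∈ Finset.range N, F j y i
  have hginv : (g⁻¹) ^ N = 1 := by rw [inv_pow, hgN, inv_one]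
  have hE : ∀ j y, g * E j y * g⁻¹ = g ^ j * E j y := by
    intro j y
    have h1 : ∀ i, g * F j y i * g⁻¹ = g ^ j * F j y (i + 1) := by
      intro i
      have hcomm : ∀ a b : ℕ, g ^ a * (g⁻¹) ^ b = (g⁻¹) ^ b * g ^ a := by
        intro a b
        exact ((Commute.refl g).inv_right₀).pow_pow a b
      simp only [F]
      rw [mul_add, mul_one, pow_add, pow_succ g i, pow_succ (g⁻¹) i]
      have e1 : g ^ j * ((g⁻¹) ^ (j * i) * (g⁻¹) ^ j * (g ^ i * g) * y * ((g⁻¹) ^ i * g⁻¹)) =
        (g ^ j * (g⁻¹) ^ (j * i) * (g⁻¹) ^ j) * (g ^ i * g) * y * ((g⁻¹) ^ i * g⁻¹) := by noncomm_ring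
      have e2 : g ^ j * (g⁻¹) ^ (j * i) * (g⁻¹) ^ j = (g⁻¹) ^ (j * i) := by
        rw [mul_assoc, ← pow_add, add_comm, pow_add, ← mul_assoc, inv_pow g j, mul_inv_cancel₀ (pow_ne_zero _ hg0'),
          one_mul]
      rw [e1, e2]
      have e3 : g * ((g⁻¹) ^ (j * i) * g ^ i * y * (g⁻¹) ^ i) * g⁻¹ =
        (g ^ 1 * (g⁻¹) ^ (j * i)) * g ^ i * y * ((g⁻¹) ^ i * g⁻¹) := by noncomm_ring
      rw [e3, hcomm 1 (j * i)]
      have e4 : g ^ 1 * g ^ i = g ^ i * g := by rw [← pow_add, add_comm, pow_succ]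
      rw [mul_assoc ((g⁻¹) ^ (j * i)) (g ^ 1) (g ^ i), e4]
    simp only [E]
    rw [Finset.mul_sum, Finset.sum_mul, Finset.mul_sum]
    simp only [h1]
    rw [← Finset.mul_sum, ← Finset.mul_sum]
    congr 1
    have h2 := Finset.sum_range_succ (F j y) N
    have h3 := Finset.sum_range_succ' (F j y) N
    have h4 : F j y N = F j y 0 := by
      simp only [F]
      rw [mul_comm j N, pow_mul, hginv, hgN, one_pow]; simp
    rw [h2, h4] at h3
    exact (add_right_cancel h3).symm
  have hsum : ∀ y, ∑ j ∈ Finset.range N, E j y = (N : D) * y := by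
    intro y
    simp only [E]
    rw [Finset.sum_comm]
    have h1 : ∀ i ∈ Finset.range N, ∑ j ∈ Finset.range N, F j y i = if i = 0 then (N : D) * y else 0 := by
      intro i hi
      have e1 : ∑ j ∈ Finset.range N, F j y i = (∑ j ∈ Finset.range N, ((g⁻¹) ^ i) ^ j) * (g ^ i * y * (g⁻¹) ^ i) := by
        rw [Finset.sum_mul]
        refine Finset.sum_congr rfl (fun j _ => ?_)
        simp only [F]
        rw [← pow_mul, mul_comm i j]; noncomm_ring
      rw [e1]
      split_ifs with h0
      · subst h0; simp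
      · have hne : (g⁻¹) ^ i ≠ 1 := by
          intro h
          rw [inv_pow, inv_eq_one] at h
          have := Nat.le_of_dvd (Nat.pos_of_ne_zero h0) (orderOf_dvd_of_pow_eq_one h)
          rw [Finset.mem_range] at hi
          omega
        have h2 : (∑ j ∈ Finset.range N, ((g⁻¹) ^ i) ^ j) * ((g⁻¹) ^ i - 1) = 0 := by
          rw [geom_sum_mul, ← pow_mul, mul_comm, pow_mul, hginv, one_pow, sub_self]
        rcases mul_eq_zero.mp h2 with h3 | h3
        · rw [h3, zero_mul]
        · exact absurd (sub_eq_zero.mp h3) hne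
    rw [Finset.sum_congr rfl h1, Finset.sum_ite_eq' (Finset.range N) 0]
    rw [if_pos (Finset.mem_range.mpr hgord)]
  -- eigenspaces
  have heig : ∀ j : ℕ, ∃ z1 : D, ∀ z : D, g * z * g⁻¹ = g ^ j * z → ∃ k ∈ K, z = z1 * k := by
    intro j
    by_cases hex : ∃ z1 : D, z1 ≠ 0 ∧ g * z1 * g⁻¹ = g ^ j * z1
    · obtain ⟨z1, hz1, hz1'⟩ := hex
      refine ⟨z1, fun z hz => ⟨z1⁻¹ * z, ?_, by rw [← mul_assoc, mul_inv_cancel₀ hz1, one_mul]⟩⟩
      set w := z1⁻¹ * z with hw
      have hwz : z = z1 * w := by rw [hw, ← mul_assoc, mul_inv_cancel₀ hz1, one_mul]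
      have hcomm : g * w = w * g := by
        have h1 : g ^ j * z1 * (g * w * g⁻¹) = g ^ j * z1 * w := by
          rw [← hz1']
          have : g * z1 * g⁻¹ * (g * w * g⁻¹) = g * (z1 * w) * g⁻¹ := by
            have e : g * z1 * g⁻¹ * (g * w * g⁻¹) = g * z1 * (g⁻¹ * g) * w * g⁻¹ := by noncomm_ring
            rw [e, inv_mul_cancel₀ hg0']; noncomm_ring
          rw [this, ← hwz, hz, hz1', hwz]; noncomm_ring
        have h2 := mul_left_cancel₀ (mul_ne_zero (pow_ne_zero _ hg0') hz1) h1
        have h3 : g * w * g⁻¹ * g = w * g := by rw [h2]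
        rw [mul_assoc, inv_mul_cancel₀ hg0', mul_one] at h3
        exact h3
      have hL : ∀ x ∈ Subring.closure {g, w}, ∀ y ∈ Subring.closure {g, w}, x * y = y * x := by
        intro x hx y hy
        letI := Subring.closureCommRingOfComm (s := {g, w}) (by
          intro b hb c hc
          simp only [Set.mem_insert_iff, Set.mem_singleton_iff] at hb hc
          rcases hb with rfl | rfl <;> rcases hc with rfl | rfl
          · rfl
          · exact hcomm
          · exact hcomm.symm
          · rfl)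
        exact congrArg Subtype.val (mul_comm (⟨x, hx⟩ : Subring.closure {g, w}) ⟨y, hy⟩)
      obtain ⟨hLfin, _, a, haL, ha0, hagen⟩ := comm_subring hm hD _ hL
      have hLa : Subring.closure {g, w} ≤ Subring.closure {a} := by
        intro x hx
        by_cases hx0 : x = 0
        · subst hx0; exact Subring.zero_mem _
        · obtain ⟨k, rfl⟩ := hagen x hx hx0
          exact Subring.pow_mem _ (Subring.subset_closure (Set.mem_singleton a)) k
      have hKL : K ≤ Subring.closure {g, w} := by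
        intro x hx
        by_cases hx0 : x = 0
        · subst hx0; exact Subring.zero_mem _
        · obtain ⟨k, rfl⟩ := hgen x hx hx0
          exact Subring.pow_mem _ (Subring.subset_closure (by simp)) k
      have haL' : Subring.closure {a} ≤ Subring.closure {g, w} := by
        rw [Subring.closure_le]; intro x hx; rw [Set.mem_singleton_iff] at hx; rw [hx]; exact haL
      have heq : Subring.closure {a} = Subring.closure {g, w} := le_antisymm haL' hLa
      have hcard := hg0 a
      rw [heq] at hcard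
      have hfinset : ((Subring.closure {g, w} : Subring D) : Set D).Finite := hLfin
      have := Set.eq_of_subset_of_ncard_le (s := (K : Set D)) (t := (Subring.closure {g, w} : Subring D))
        hKL hcard hfinset
      have hwL : w ∈ (Subring.closure {g, w} : Subring D) := Subring.subset_closure (by simp)
      have hwK : w ∈ (K : Set D) := by rw [this]; exact hwL
      exact hwK
    · push Not at hex
      refine ⟨0, fun z hz => ⟨0, K.zero_mem, ?_⟩⟩
      by_contra hz0
      rw [mul_zero] at hz0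
      exact hex z hz0 hz
  choose z hz using heig
  have hsurj : Function.Surjective (fun k : Fin N → K => (N : D)⁻¹ * ∑ j : Fin N, z j * (k j : D)) := by
    intro y
    have h1 : ∀ j : Fin N, ∃ k : K, E j y = z j * (k : D) := by
      intro j
      obtain ⟨k, hk, hk'⟩ := hz j (E j y) (hE j y)
      exact ⟨⟨k, hk⟩, hk'⟩
    choose k hk using h1
    refine ⟨k, ?_⟩
    simp only
    rw [← Finset.sum_congr rfl (fun j _ => hk j), Finset.sum_range (fun j => E j y) |>.symm, hsum y, ← mul_assoc,
      inv_mul_cancel₀ hNne, one_mul]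
  haveI : Finite (Fin N → K) := inferInstance
  refine ⟨Finite.of_surjective _ hsurj, ?_⟩
  calc Nat.card D ≤ Nat.card (Fin N → K) := Nat.card_le_card_of_surjective _ hsurj
    _ = (Nat.card K) ^ N := by simp [Nat.card_pi]
    _ ≤ (m + 1) ^ N := Nat.pow_le_pow_left hKcard N
    _ ≤ (m + 1) ^ m := Nat.pow_le_pow_right (by omega) hNm

end Div

end Pool.Agent.Helper60
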