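import Mathlib

namespace Pool.Agent.Helper60

open Set

section Engine

variable {M : Type*} [AddCommGroup M] {W : Type*} [LinearOrder W]

/-- additive span of the values `m x` over words `x` of the same length as `w` below `w`, together with `N0` -/
def lowSpan (len : W → ℕ) (m : W → M) (N0 : AddSubgroup M) (w : W) : AddSubgroup M :=
  N0 ⊔ AddSubgroup.closure (m '' {x | len x = len w ∧ x < w})

def leadSet (len : W → ℕ) (m : W → M) (N0 : AddSubgroup M) (U : AddSubgroup M) : Set W :=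
  {w | ∃ u ∈ U, u - m w ∈ lowSpan len m N0 w}

theorem exists_inv_mod {p : ℕ} (hp : p.Prime) {c : ℤ} (hc : ¬ (p : ℤ) ∣ c) :
    ∃ d : ℤ, (p : ℤ) ∣ d * c - 1 := by
  have h : IsCoprime (p : ℤ) c := (Nat.prime_iff_prime_int.mp hp).coprime_iff_not_dvd.mpr hc
  obtain ⟨a, b, hab⟩ := h
  refine ⟨b, -a, ?_⟩
  linarith

theorem smul_eq_of_dvd {p : ℕ} (hM : ∀ x : M, (p : ℤ) • x = 0) {a : ℤ} (h : (p : ℤ) ∣ a) (x : M) :
    a • x = 0 := by
  obtain ⟨b, rfl⟩ := h
  rw [mul_comm, mul_smul, hM, smul_zero]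

theorem inv_smul {p : ℕ} (hM : ∀ x : M, (p : ℤ) • x = 0) {c d : ℤ} (h : (p : ℤ) ∣ d * c - 1) (x : M) :
    d • (c • x) = x := by
  have := smul_eq_of_dvd hM h x
  rw [sub_smul, mul_smul, one_smul] at this
  exact sub_eq_zero.mp this

theorem engine_eq {p : ℕ} (hp : p.Prime) (hM : ∀ x : M, (p : ℤ) • x = 0)
    (len : W → ℕ) (m : W → M) (hfin : ∀ k, {w | len w = k}.Finite) (N0 U V : AddSubgroup M)
    (hUV : U ≤ V) (hN : N0 ≤ U)
    (hspan : ∀ x ∈ V, ∃ l, x ∈ N0 ⊔ AddSubgroup.closure (m '' {w | len w = l}))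
    (hlead : leadSet len m N0 V ⊆ leadSet len m N0 U) : V ≤ U := by
  classical
  have key : ∀ (l : ℕ) (n : ℕ) (s : Finset W), s.card = n → (∀ w ∈ s, len w = l) →
      (∀ w ∈ s, ∀ x, len x = l → x < w → x ∈ s) →
      ∀ x ∈ V, x ∈ N0 ⊔ AddSubgroup.closure (m '' (s : Set W)) → x ∈ U := by
    intro l n
    induction n with
    | zero =>
      intro s hs _ _ x _ hx
      rw [Finset.card_eq_zero] at hs
      subst hs
      simp at hx
      exact hN hx
    | succ n ih =>
      intro s hs hl hdown x hxV hx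
      have hne : s.Nonempty := by
        rw [← Finset.card_pos]; omega
      set w := s.max' hne with hw
      have hws : w ∈ s := Finset.max'_mem s hne
      have hlow : ((s.erase w : Finset W) : Set W) = {x | len x = len w ∧ x < w} := by
        ext y
        simp only [Finset.coe_erase, Set.mem_diff, Finset.mem_coe, Set.mem_singleton_iff,
          Set.mem_setOf_eq]
        constructor
        · rintro ⟨hy, hyw⟩
          refine ⟨by rw [hl y hy, hl w hws], lt_of_le_of_ne (Finset.le_max' s y hy) hyw⟩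
        · rintro ⟨hy, hyw⟩
          exact ⟨hdown w hws y (by rw [hy, hl w hws]) hyw, ne_of_lt hyw⟩
      -- decompose x
      obtain ⟨a, ha, b, hb, rfl⟩ := AddSubgroup.mem_sup.mp hx
      have hb' : ∃ (c : ℤ) (r : M), r ∈ AddSubgroup.closure (m '' ((s.erase w : Finset W) : Set W)) ∧
          b = c • m w + r := by
        refine AddSubgroup.closure_induction (p := fun b _ => ∃ (c : ℤ) (r : M), r ∈ AddSubgroup.closure
          (m '' ((s.erase w : Finset W) : Set W)) ∧ b = c • m w + r) ?_ ?_ ?_ ?_ hb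
        · rintro _ ⟨y, hy, rfl⟩
          by_cases hyw : y = w
          · refine ⟨1, 0, AddSubgroup.zero_mem _, by simp [hyw]⟩
          · refine ⟨0, m y, AddSubgroup.subset_closure ⟨y, by simpa using ⟨hy, hyw⟩, rfl⟩, by simp⟩
        · exact ⟨0, 0, AddSubgroup.zero_mem _, by simp⟩
        · rintro _ _ _ _ ⟨c1, r1, h1, rfl⟩ ⟨c2, r2, h2, rfl⟩
          exact ⟨c1 + c2, r1 + r2, AddSubgroup.add_mem _ h1 h2, by rw [add_smul]; abel⟩
        · rintro _ _ ⟨c1, r1, h1, rfl⟩
          exact ⟨-c1, -r1, AddSubgroup.neg_mem _ h1, by rw [neg_smul]; abel⟩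
      obtain ⟨c, r, hr, rfl⟩ := hb'
      have hcard : (s.erase w).card = n := by
        rw [Finset.card_erase_of_mem hws, hs]; rfl
      have hl' : ∀ y ∈ s.erase w, len y = l := fun y hy => hl y (Finset.mem_of_mem_erase hy)
      have hdown' : ∀ y ∈ s.erase w, ∀ z, len z = l → z < y → z ∈ s.erase w := by
        intro y hy z hz hzy
        have hys := Finset.mem_of_mem_erase hy
        refine Finset.mem_erase.mpr ⟨?_, hdown y hys z hz hzy⟩
        exact ne_of_lt (lt_of_lt_of_le hzy (Finset.le_max' s y hys))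
      by_cases hc : (p : ℤ) ∣ c
      · refine ih (s.erase w) hcard hl' hdown' _ hxV ?_
        rw [smul_eq_of_dvd hM hc, zero_add]
        exact AddSubgroup.add_mem_sup ha hr
      · obtain ⟨d, hd⟩ := exists_inv_mod hp hc
        have hmem : w ∈ leadSet len m N0 V := by
          refine ⟨d • (a + (c • m w + r)), AddSubgroup.zsmul_mem _ hxV d, ?_⟩
          have : d • (a + (c • m w + r)) - m w = d • a + d • r := by
            rw [smul_add, smul_add, inv_smul hM hd]; abel
          rw [this, lowSpan, ← hlow]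
          exact AddSubgroup.add_mem_sup (AddSubgroup.zsmul_mem _ ha d) (AddSubgroup.zsmul_mem _ hr d)
        obtain ⟨u, huU, hu⟩ := hlead hmem
        rw [lowSpan, ← hlow] at hu
        have h1 : (a + (c • m w + r)) - c • u ∈ U := by
          refine ih (s.erase w) hcard hl' hdown' _ ?_ ?_
          · exact AddSubgroup.sub_mem _ hxV (AddSubgroup.zsmul_mem _ (hUV huU) c)
          · have : (a + (c • m w + r)) - c • u = (a + r) - c • (u - m w) := by
              rw [smul_sub]; abel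
            rw [this]
            exact AddSubgroup.sub_mem _ (AddSubgroup.add_mem_sup ha hr) (AddSubgroup.zsmul_mem _ hu c)
        have h2 := AddSubgroup.add_mem _ h1 (AddSubgroup.zsmul_mem _ huU c)
        simpa using h2
  intro x hx
  obtain ⟨l, hl⟩ := hspan x hx
  refine key l _ (hfin l).toFinset rfl (by simp) ?_ x hx ?_
  · intro w hw y hy _
    simpa using hy
  · simpa using hl

/-- The Noetherian engine. -/
theorem engine {p : ℕ} (hp : p.Prime) (hM : ∀ x : M, (p : ℤ) • x = 0)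
    (len : W → ℕ) (m : W → M) (hfin : ∀ k, {w | len w = k}.Finite) (N0 : AddSubgroup M)
    (rel : W → W → Prop) (hwqo : WellQuasiOrdered rel)
    (U : ℕ → AddSubgroup M) (hmono : Monotone U) (hN : ∀ k, N0 ≤ U k)
    (hspan : ∀ k, ∀ x ∈ U k, ∃ l, x ∈ N0 ⊔ AddSubgroup.closure (m '' {w | len w = l}))
    (hop : ∀ w w', rel w w' → ∃ O : M →+ M, (∀ k, ∀ x ∈ U k, O x ∈ U k) ∧ (∀ x ∈ N0, O x ∈ N0) ∧
      (∀ v, len v = len w → v < w → O (m v) ∈ lowSpan len m N0 w') ∧
      ∃ c : ℤ, ¬ (p : ℤ) ∣ c ∧ O (m w) - c • m w' ∈ lowSpan len m N0 w') :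
    ∃ K, ∀ k, K ≤ k → U k = U K := by
  by_contra hcon
  push Not at hcon
  -- next index
  have hnext : ∀ K, ∃ k, K < k ∧ ¬ (leadSet len m N0 (U k) ⊆ leadSet len m N0 (U K)) := by
    intro K
    obtain ⟨k, hk, hne⟩ := hcon K
    refine ⟨k, lt_of_le_of_ne hk (by rintro rfl; exact hne rfl), ?_⟩
    intro hsub
    exact hne (le_antisymm (engine_eq hp hM len m hfin N0 (U K) (U k) (hmono hk) (hN K) (hspan k) hsub)
      (hmono hk))
  choose g hg1 hg2 using hnext
  let a : ℕ → ℕ := fun i => g^[i] 0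
  have ha : ∀ i, a (i + 1) = g (a i) := fun i => Function.iterate_succ_apply' g i 0
  have hamono : StrictMono a := strictMono_nat_of_lt_succ (fun i => by rw [ha]; exact hg1 _)
  have hw : ∀ i, ∃ w, w ∈ leadSet len m N0 (U (a (i + 1))) ∧ w ∉ leadSet len m N0 (U (a i)) := by
    intro i
    have := hg2 (a i)
    rw [Set.not_subset] at this
    rw [ha]
    exact this
  choose w hw1 hw2 using hw
  obtain ⟨i, j, hij, hrel⟩ := hwqo w
  apply hw2 j
  have hmonoL : leadSet len m N0 (U (a (i+1))) ⊆ leadSet len m N0 (U (a j)) := by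
    rintro x ⟨u, hu, hx⟩
    exact ⟨u, hmono (hamono.monotone hij) hu, hx⟩
  obtain ⟨u, hu, hx⟩ := hmonoL (hw1 i)
  obtain ⟨O, hOU, hON, hOlow, c, hc, hOc⟩ := hop _ _ hrel
  obtain ⟨d, hd⟩ := exists_inv_mod hp hc
  refine ⟨d • O u, AddSubgroup.zsmul_mem _ (hOU _ _ hu) d, ?_⟩
  have hlow : O (u - m (w i)) ∈ lowSpan len m N0 (w j) := by
    have : lowSpan len m N0 (w i) ≤ (lowSpan len m N0 (w j)).comap O := by
      rw [lowSpan]
      refine sup_le ?_ ?_
      · intro x hx
        exact AddSubgroup.mem_sup_left (hON x hx)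
      · rw [AddSubgroup.closure_le]
        rintro _ ⟨v, ⟨hv1, hv2⟩, rfl⟩
        exact hOlow v hv1 hv2
    exact this hx
  have h3 : d • O u - m (w j) = d • (O (u - m (w i))) + d • (O (m (w i)) - c • m (w j)) := by
    rw [map_sub, smul_sub, smul_sub, inv_smul hM hd]; abel
  rw [h3]
  exact AddSubgroup.add_mem _ (AddSubgroup.zsmul_mem _ hlow d) (AddSubgroup.zsmul_mem _ hOc d)

/-- Modular law for chains: if `U k ⊔ B` and `U k ⊓ B` stabilise then so does `U k`. -/
theorem chain_modular (U : ℕ → AddSubgroup M) (hmono : Monotone U) (B : AddSubgroup M)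
    (h1 : ∃ K, ∀ k, K ≤ k → U k ⊔ B = U K ⊔ B) (h2 : ∃ K, ∀ k, K ≤ k → U k ⊓ B = U K ⊓ B) :
    ∃ K, ∀ k, K ≤ k → U k = U K := by
  obtain ⟨K1, h1⟩ := h1
  obtain ⟨K2, h2⟩ := h2
  refine ⟨max K1 K2, fun k hk => le_antisymm ?_ (hmono hk)⟩
  intro x hx
  have e1 : U k ⊔ B = U (max K1 K2) ⊔ B := by
    rw [h1 k (le_trans (le_max_left _ _) hk), h1 _ (le_max_left _ _)]
  have e2 : U k ⊓ B = U (max K1 K2) ⊓ B := by
    rw [h2 k (le_trans (le_max_right _ _) hk), h2 _ (le_max_right _ _)]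
  have hx1 : x ∈ U (max K1 K2) ⊔ B := by
    rw [← e1]; exact AddSubgroup.mem_sup_left hx
  obtain ⟨a, ha, b, hb, rfl⟩ := AddSubgroup.mem_sup.mp hx1
  have hb' : b ∈ U k ⊓ B := by
    refine ⟨?_, hb⟩
    have := AddSubgroup.sub_mem _ hx (hmono hk ha)
    simpa using this
  rw [e2] at hb'
  exact AddSubgroup.add_mem _ ha hb'.1

end Engine

end Pool.Agent.Helper60
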