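import Pool.Agent.Helper60.Free

noncomputable section

namespace Pool.Agent.Helper60

theorem unit_pkg (R : Type) [NonUnitalRing R] : ∃ (B : Type) (_ : Ring B) (ι : R →ₙ+* B),
    (∀ b, ∃ (n : ℤ) (f : R), b = n • 1 + ι f) ∧ (∀ (n : ℤ) (f : R), n • 1 + ι f = 0 → n = 0 ∧ f = 0) ∧
    ∀ (S : Type) [Ring S] (φ : R →ₙ+* S), ∃ φ' : B →+* S, ∀ x, φ' (ι x) = φ x := by
  let fa : Unitization ℤ R →+ ℤ :=
    { toFun := fun x => x.toProd.1
      map_zero' := rfl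
      map_add' := fun _ _ => rfl }
  let sa : Unitization ℤ R →+ R :=
    { toFun := fun x => x.toProd.2
      map_zero' := rfl
      map_add' := fun _ _ => rfl }
  have hfa1 : fa 1 = 1 := rfl
  have hsa1 : sa 1 = 0 := rfl
  have hext : ∀ x y, fa x = fa y → sa x = sa y → x = y := by
    intro x y h1 h2
    apply Unitization.toProd_injective
    exact Prod.ext h1 h2
  have h1 : ∀ n : ℤ, (n • (1 : Unitization ℤ R)) = Unitization.inl n := by
    intro n
    apply hext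
    · rw [map_zsmul, hfa1]; simp [fa]
    · rw [map_zsmul, hsa1]; simp [sa]
  refine ⟨Unitization ℤ R, inferInstance, inrH R, ?_, ?_, ?_⟩
  · intro b
    refine ⟨b.fst, b.snd, ?_⟩
    rw [h1]
    exact (Unitization.inl_fst_add_inr_snd_eq b).symm
  · intro n f h
    rw [h1] at h
    have h2 := congrArg fa h
    have h3 := congrArg sa h
    rw [map_add, map_zero] at h2 h3
    have e1 : fa (inrH R f) = 0 := rfl
    have e2 : sa (inrH R f) = f := rfl
    rw [e1, add_zero] at h2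
    rw [e2] at h3
    simp [fa] at h2
    simp [sa] at h3
    exact ⟨h2, h3⟩
  · intro S _ φ
    let φ1 : R →ₙₐ[ℤ] S := { φ with
      map_smul' := fun n x => map_zsmul φ n x }
    refine ⟨(NonUnitalAlgHom.toAlgHom φ1).toRingHom, fun x => ?_⟩
    change NonUnitalAlgHom.toAlgHom φ1 (Unitization.inr x) = φ x
    rw [NonUnitalAlgHom.toAlgHom_apply]
    simp
    rfl

theorem quot_ring_pkg {B : Type} [Ring B] (K : TwoSidedIdeal B) : ∃ (A : Type) (_ : Ring A) (π : B →+* A),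
    Function.Surjective π ∧ ∀ x, π x = 0 ↔ x ∈ K := by
  refine ⟨K.ringCon.Quotient, inferInstance, K.ringCon.mk', RingCon.mk'_surjective _, fun x => ?_⟩
  have := TwoSidedIdeal.ker_ringCon_mk' K
  rw [← TwoSidedIdeal.mem_ker, this]

theorem lift_surj {B A S : Type} [Ring B] [Ring A] [Ring S] (π : B →+* A) (hs : Function.Surjective π)
    (φ : B →+* S) (hker : ∀ x, π x = 0 → φ x = 0) : ∃ φ' : A →+* S, ∀ x, φ' (π x) = φ x := by
  refine ⟨RingHom.liftOfRightInverse π (Function.surjInv hs) (Function.rightInverse_surjInv hs)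
    ⟨φ, fun x hx => hker x hx⟩, fun x => ?_⟩
  exact RingHom.liftOfRightInverse_comp_apply π _ _ _ x

/-- a nonunital ring of characteristic `p` embeds in a unital one -/
theorem char_pkg (R : Type) [NonUnitalRing R] (p : ℤ) (hc : ∀ x : R, p • x = 0) :
    ∃ (S : Type) (_ : Ring S) (ι : R →ₙ+* S), (∀ s : S, p • s = 0) ∧ ∀ x, ι x = 0 → x = 0 := by
  obtain ⟨B, _, ι, hb, hinj, _⟩ := unit_pkg R
  let K : TwoSidedIdeal B := TwoSidedIdeal.mk' {x | ∃ y, x = p • y} ⟨0, by simp⟩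
    (by rintro x y ⟨a, rfl⟩ ⟨b, rfl⟩; exact ⟨a + b, by rw [smul_add]⟩)
    (by rintro x ⟨a, rfl⟩; exact ⟨-a, by rw [smul_neg]⟩)
    (by rintro x y ⟨a, rfl⟩; exact ⟨x * a, by rw [mul_smul_comm]⟩)
    (by rintro x y ⟨a, rfl⟩; exact ⟨a * y, by rw [smul_mul_assoc]⟩)
  have hK : ∀ x, x ∈ K ↔ ∃ y, x = p • y := fun x => by simp [K]
  obtain ⟨S, _, π, hs, hk⟩ := quot_ring_pkg K
  refine ⟨S, inferInstance, (π : B →ₙ+* S).comp ι, ?_, ?_⟩
  · intro s
    obtain ⟨b, rfl⟩ := hs s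
    rw [← map_zsmul, hk, hK]
    exact ⟨b, rfl⟩
  · intro x hx
    have h1 : π (ι x) = 0 := hx
    rw [hk, hK] at h1
    obtain ⟨y, hy⟩ := h1
    obtain ⟨n, f, rfl⟩ := hb y
    have h2 : (-(p * n)) • (1 : B) + ι x = 0 := by
      rw [hy, smul_add, smul_smul, ← map_zsmul, hc, map_zero, neg_smul]; abel
    exact (hinj _ _ h2).2

/-- the universal ring for generalised identities -/
theorem univ_pkg (p : ℤ) (I0 : TwoSidedIdeal FR) (J : Set FR) :
    ∃ (A : Type) (_ : Ring A) (j : FR →ₙ+* A),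
      (∀ a, ∃ (n : ℤ) (f : FR), a = n • 1 + j f) ∧ (∀ a : A, p • a = 0) ∧ (∀ f ∈ I0, j f = 0) ∧
      (∀ g ∈ J, j g * j g * j g = 0) ∧
      ∀ (S : Type) [Ring S] (φ : FR →ₙ+* S), (∀ s : S, p • s = 0) → (∀ f ∈ I0, φ f = 0) →
        (∀ g ∈ J, φ g * φ g * φ g = 0) → ∃ φ' : A →+* S, ∀ x, φ' (j x) = φ x := by
  obtain ⟨B, _, ι, hb, hinj, hlift⟩ := unit_pkg FR
  let G : Set B := {x | x = p • 1 ∨ (∃ f ∈ I0, x = ι f) ∨ ∃ g ∈ J, x = ι g * ι g * ι g}
  obtain ⟨A, _, π, hs, hk⟩ := quot_ring_pkg (TwoSidedIdeal.span G)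
  have hG : ∀ x ∈ G, π x = 0 := fun x hx => (hk x).mpr (TwoSidedIdeal.subset_span hx)
  refine ⟨A, inferInstance, (π : B →ₙ+* A).comp ι, ?_, ?_, ?_, ?_, ?_⟩
  · intro a
    obtain ⟨b, rfl⟩ := hs a
    obtain ⟨n, f, rfl⟩ := hb b
    refine ⟨n, f, ?_⟩
    rw [map_add, map_zsmul, map_one]; rfl
  · intro a
    have h1 : p • (1 : A) = 0 := by
      have := hG (p • 1) (Or.inl rfl)
      rwa [map_zsmul, map_one] at this
    rw [← mul_one a, ← mul_smul_comm, h1, mul_zero]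
  · intro f hf
    exact hG _ (Or.inr (Or.inl ⟨f, hf, rfl⟩))
  · intro g hg
    have := hG _ (Or.inr (Or.inr ⟨g, hg, rfl⟩))
    rwa [map_mul, map_mul] at this
  · intro S _ φ h1 h2 h3
    obtain ⟨φ1, hφ1⟩ := hlift S φ
    have hker : ∀ x, π x = 0 → φ1 x = 0 := by
      intro x hx
      rw [hk] at hx
      have h4 : TwoSidedIdeal.span G ≤ TwoSidedIdeal.ker φ1 := by
        rw [TwoSidedIdeal.span_le]
        rintro y (rfl | ⟨f, hf, rfl⟩ | ⟨g, hg, rfl⟩)
        · change _ ∈ TwoSidedIdeal.ker φ1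
          rw [TwoSidedIdeal.mem_ker, map_zsmul, h1]
        · change _ ∈ TwoSidedIdeal.ker φ1
          rw [TwoSidedIdeal.mem_ker, hφ1, h2 f hf]
        · change _ ∈ TwoSidedIdeal.ker φ1
          rw [TwoSidedIdeal.mem_ker, map_mul, map_mul, hφ1, h3 g hg]
      exact TwoSidedIdeal.mem_ker _ |>.mp (h4 hx)
    obtain ⟨φ', hφ'⟩ := lift_surj π hs φ1 hker
    refine ⟨φ', fun x => ?_⟩
    change φ' (π (ι x)) = φ x
    rw [hφ', hφ1]

end Pool.Agent.Helper60
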