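import Pool.Agent.Helper60.Char5
import Pool.Agent.Helper60.Crit
import Pool.Agent.Helper60.UnitPkg

noncomputable section

namespace Pool.Agent.Helper60

def IsT (I : TwoSidedIdeal FR) : Prop := ∀ (v : ℕ → FR), ∀ f ∈ I, ev v f ∈ I

/-- kill the variables with index at least `d` -/
def eps (d : ℕ) : FR →ₙ+* FR := ev (fun i => if i < d then Xv i else 0)

/-- move the variables with index at least `d` -/
def tht (d : ℕ) (σ : ℕ → ℕ) : FR →ₙ+* FR := ev (fun i => if i < d then Xv i else Xv (d + σ (i - d)))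

def Fd (d : ℕ) : NonUnitalSubring FR := NonUnitalSubring.closure (Xv '' {i | i < d})

theorem eps_tht (d : ℕ) (σ : ℕ → ℕ) (x : FR) : eps d (tht d σ x) = eps d x := by
  rw [tht, map_ev]
  congr 2
  funext i
  split_ifs with h
  · simp [eps, h]
  · simp [eps]

theorem tht_Fd {d : ℕ} (σ : ℕ → ℕ) {x : FR} (hx : x ∈ Fd d) : tht d σ x = x := by
  refine NonUnitalSubring.closure_induction (p := fun x _ => tht d σ x = x) ?_ ?_ ?_ ?_ ?_ hx
  · rintro _ ⟨i, hi, rfl⟩
    have hi' : i < d := hi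
    simp [tht, hi']
  · exact map_zero _
  · intro a b _ _ ha hb; rw [map_add, ha, hb]
  · intro a _ ha; rw [map_neg, ha]
  · intro a b _ _ ha hb; rw [map_mul, ha, hb]

theorem locfin_sub {Q : Type} [NonUnitalRing Q] {S : Set Q} (hS : S.Finite)
    {p m : ℕ} (hp : p.Prime) (hm : 1 ≤ m) (hc : ∀ x : Q, (p : ℤ) • x = 0)
    (hper : ∀ x : Q, pw x 2 = pw x (2 + m)) : Finite (NonUnitalSubring.closure S) := by
  let inc : NonUnitalSubring.closure S →ₙ+* Q :=
    { toFun := fun x => x.1
      map_mul' := fun _ _ => rfl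
      map_zero' := rfl
      map_add' := fun _ _ => rfl }
  have hinc : Function.Injective inc := fun x y h => Subtype.ext h
  refine locfin (R := NonUnitalSubring.closure S) (S := {x | (x : Q) ∈ S})
    (hS.preimage (fun x _ y _ h => Subtype.ext h)) ?_ hp hm
    (fun x => hinc (by rw [map_zsmul, hc, map_zero])) (fun x => hinc (by rw [pw_map, pw_map, hper]))
  rintro ⟨x, hx⟩
  refine NonUnitalSubring.closure_induction (p := fun x hx => (⟨x, hx⟩ : NonUnitalSubring.closure S) ∈
    NonUnitalSubring.closure {x : NonUnitalSubring.closure S | (x : Q) ∈ S}) ?_ ?_ ?_ ?_ ?_ hx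
  · intro s hs; exact NonUnitalSubring.subset_closure hs
  · exact NonUnitalSubring.zero_mem _
  · intro a b ha hb h1 h2; exact NonUnitalSubring.add_mem _ h1 h2
  · intro a ha h1; exact NonUnitalSubring.neg_mem _ h1
  · intro a b ha hb h1 h2; exact NonUnitalSubring.mul_mem _ h1 h2

section

variable {p m : ℕ} (hp : p.Prime) (hm : 1 ≤ m) (I : ℕ → TwoSidedIdeal FR) (hmono : Monotone I)
  (hT : ∀ k, IsT (I k)) (hpI : ∀ f, (p : ℤ) • f ∈ I 0) (hperI : ∀ f, pw f 2 - pw f (2 + m) ∈ I 0)

include hp hm hpI hperI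

omit hp hm in
theorem quot_facts {Q : Type} [NonUnitalRing Q] (π : FR →ₙ+* Q) (hs : Function.Surjective π)
    (hk : ∀ f ∈ I 0, π f = 0) : (∀ x : Q, (p : ℤ) • x = 0) ∧ ∀ x : Q, pw x 2 = pw x (2 + m) := by
  constructor
  · intro q
    obtain ⟨x, rfl⟩ := hs q
    rw [← map_zsmul]; exact hk _ (hpI x)
  · intro q
    obtain ⟨x, rfl⟩ := hs q
    have := hk _ (hperI x)
    rw [map_sub, sub_eq_zero, pw_map, pw_map] at this
    exact this

theorem Fd_reps (d : ℕ) : ∃ T : Finset FR, (∀ t ∈ T, t ∈ Fd d) ∧ ∀ f ∈ Fd d, ∃ t ∈ T, f - t ∈ I 0 := by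
  classical
  obtain ⟨Q, _, π, hs, hk⟩ := quot_pkg (I 0)
  obtain ⟨hc, hper⟩ := quot_facts I hpI hperI π hs (fun f hf => (hk f).mpr hf)
  have hfinS : (π '' (Xv '' {i | i < d})).Finite := ((Set.finite_lt_nat d).image _).image _
  have hfin := locfin_sub hfinS hp hm hc hper
  have himg : ∀ f ∈ Fd d, π f ∈ NonUnitalSubring.closure (π '' (Xv '' {i | i < d})) := by
    intro f hf
    refine NonUnitalSubring.closure_induction
      (p := fun f _ => π f ∈ NonUnitalSubring.closure (π '' (Xv '' {i | i < d}))) ?_ ?_ ?_ ?_ ?_ hf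
    · intro x hx; exact NonUnitalSubring.subset_closure ⟨x, hx, rfl⟩
    · rw [map_zero]; exact NonUnitalSubring.zero_mem _
    · intro a b _ _ h1 h2; rw [map_add]; exact NonUnitalSubring.add_mem _ h1 h2
    · intro a _ h1; rw [map_neg]; exact NonUnitalSubring.neg_mem _ h1
    · intro a b _ _ h1 h2; rw [map_mul]; exact NonUnitalSubring.mul_mem _ h1 h2
  have hfin2 : (π '' (Fd d : Set FR)).Finite := by
    refine Set.Finite.subset (s := (NonUnitalSubring.closure (π '' (Xv '' {i | i < d})) : Set Q)) hfin ?_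
    rintro _ ⟨f, hf, rfl⟩
    exact himg f hf
  have hch : ∀ q : π '' (Fd d : Set FR), ∃ f, f ∈ Fd d ∧ π f = q := fun q => q.2
  choose g hg1 hg2 using hch
  haveI : Finite (π '' (Fd d : Set FR)) := hfin2
  haveI := Fintype.ofFinite (π '' (Fd d : Set FR))
  refine ⟨Finset.univ.image g, ?_, ?_⟩
  · intro t ht
    rw [Finset.mem_image] at ht
    obtain ⟨q, _, rfl⟩ := ht
    exact hg1 q
  · intro f hf
    refine ⟨g ⟨π f, f, hf, rfl⟩, Finset.mem_image_of_mem _ (Finset.mem_univ _), ?_⟩
    rw [← hk, map_sub, hg2, sub_self]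

/-- the intersections with a finitely generated free subring stabilise -/
theorem Fd_noeth (hmono : Monotone I) (d : ℕ) : ∃ K, ∀ k, K ≤ k → ∀ f ∈ I k, f ∈ Fd d → f ∈ I K := by
  classical
  obtain ⟨T, hT1, hT2⟩ := Fd_reps hp hm I hpI hperI d
  -- the sets of representatives lying in `I k`
  let W : ℕ → Finset FR := fun k => T.filter (fun t => t ∈ I k)
  have hW : Monotone W := by
    intro a b hab t ht
    simp only [W, Finset.mem_filter] at ht ⊢
    exact ⟨ht.1, hmono hab ht.2⟩
  have hstab : ∃ K, ∀ k, K ≤ k → W k = W K := by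
    by_contra hcon
    push Not at hcon
    have hcard : ∀ n, ∃ k, n ≤ (W k).card := by
      intro n
      induction n with
      | zero => exact ⟨0, Nat.zero_le _⟩
      | succ n ih =>
        obtain ⟨k, hk⟩ := ih
        obtain ⟨k', hk', hne⟩ := hcon k
        refine ⟨k', Nat.succ_le_of_lt (lt_of_le_of_lt hk (Finset.card_lt_card ?_))⟩
        exact lt_of_le_of_ne (hW hk') (Ne.symm hne)
    obtain ⟨k, hk⟩ := hcard (T.card + 1)
    have := Finset.card_filter_le T (fun t => t ∈ I k)
    have h2 : (W k).card ≤ T.card := this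
    omega
  obtain ⟨K, hK⟩ := hstab
  refine ⟨K, fun k hk f hf hfd => ?_⟩
  obtain ⟨t, ht, hft⟩ := hT2 f hfd
  have h1 : t ∈ I k := by
    have := (I k).sub_mem hf (hmono (Nat.zero_le k) hft)
    rwa [sub_sub_cancel] at this
  have h2 : t ∈ W k := by simp only [W, Finset.mem_filter]; exact ⟨ht, h1⟩
  rw [hK k hk] at h2
  simp only [W, Finset.mem_filter] at h2
  have := (I K).add_mem (hmono (Nat.zero_le K) hft) h2.2
  rwa [sub_add_cancel] at this

include hmono hT

/-- generalised identities with values in a nil ideal stabilise -/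
theorem genid (d : ℕ) : ∃ K, ∀ k, K ≤ k → ∀ g ∈ I k, eps d g = 0 → ∃ g1 ∈ I K, eps d g1 = 0 ∧
    ∀ (R : Type) [NonUnitalRing R], (∀ x : R, (p : ℤ) • x = 0) → ∀ V : ℕ → R, (∀ f ∈ I 0, ev V f = 0) →
      (∀ h, eps d h = 0 → ev V h * ev V h * ev V h = 0) → ev V g = ev V g1 := by
  classical
  obtain ⟨T, hT1, hT2⟩ := Fd_reps hp hm I hpI hperI d
  obtain ⟨A, _, j, hA1, hAp, hjI, hjJ, huniv⟩ := univ_pkg p (I 0) {g | eps d g = 0}
  let L := (Fin p × T) × (Fin p × T)
  let c : Fin p × T → A := fun q => ((q.1 : ℕ) : ℤ) • 1 + j q.2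
  let y : ℕ × L → A := fun t => c t.2.1 * j (Xv (d + t.1)) * c t.2.2
  -- multiplication facts
  have hmulL : ∀ (a : A) (g : FR), ∃ h : FR, a * j g = j h ∧ (∀ J : TwoSidedIdeal FR, g ∈ J → h ∈ J) ∧
      (eps d g = 0 → eps d h = 0) := by
    intro a g
    obtain ⟨n, f, rfl⟩ := hA1 a
    refine ⟨n • g + f * g, ?_, ?_, ?_⟩
    · rw [add_mul, smul_mul_assoc, one_mul, map_add, map_zsmul, map_mul]
    · intro J hg; exact J.add_mem (J.zsmul_mem _ hg) (J.mul_mem_left _ _ hg)
    · intro hg; rw [map_add, map_zsmul, map_mul, hg, smul_zero, mul_zero, add_zero]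
  have hmulR : ∀ (a : A) (g : FR), ∃ h : FR, j g * a = j h ∧ (∀ J : TwoSidedIdeal FR, g ∈ J → h ∈ J) ∧
      (eps d g = 0 → eps d h = 0) := by
    intro a g
    obtain ⟨n, f, rfl⟩ := hA1 a
    refine ⟨n • g + g * f, ?_, ?_, ?_⟩
    · rw [mul_add, mul_smul_comm, mul_one, map_add, map_zsmul, map_mul]
    · intro J hg; exact J.add_mem (J.zsmul_mem _ hg) (J.mul_mem_right _ _ hg)
    · intro hg; rw [map_add, map_zsmul, map_mul, hg, smul_zero, zero_mul, add_zero]
  let N : AddSubgroup A :=
    { carrier := {x | ∃ g, eps d g = 0 ∧ j g = x}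
      add_mem' := by
        rintro _ _ ⟨a, ha, rfl⟩ ⟨b, hb, rfl⟩
        exact ⟨a + b, by rw [map_add, ha, hb, add_zero], map_add _ _ _⟩
      zero_mem' := ⟨0, map_zero _, map_zero _⟩
      neg_mem' := by
        rintro _ ⟨a, ha, rfl⟩
        exact ⟨-a, by rw [map_neg, ha, neg_zero], map_neg _ _⟩ }
  have hNL : ∀ a x, x ∈ N → a * x ∈ N := by
    rintro a _ ⟨g, hg, rfl⟩
    obtain ⟨h, h1, _, h3⟩ := hmulL a g
    exact ⟨h, h3 hg, h1.symm⟩
  have hNR : ∀ a x, x ∈ N → x * a ∈ N := by
    rintro a _ ⟨g, hg, rfl⟩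
    obtain ⟨h, h1, _, h3⟩ := hmulR a g
    exact ⟨h, h3 hg, h1.symm⟩
  have hepsX : ∀ i, eps d (Xv (d + i)) = 0 := by
    intro i
    simp [eps]
  have hy : ∀ t, y t ∈ N := by
    intro t
    exact hNR _ _ (hNL _ _ ⟨Xv (d + t.1), hepsX _, rfl⟩)
  -- shifts
  have hrho : ∀ σ : ℕ → ℕ, ∃ r : A →+* A, ∀ x, r (j x) = j (tht d σ x) := by
    intro σ
    refine huniv A (j.comp (tht d σ)) hAp ?_ ?_
    · intro f hf
      exact hjI _ (hT 0 _ f hf)
    · intro g hg
      exact hjJ _ (by
        change eps d (tht d σ g) = 0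
        rw [eps_tht]; exact hg)
  choose rho hrho using hrho
  have hrc : ∀ σ q, rho σ (c q) = c q := by
    intro σ q
    change rho σ (((q.1 : ℕ) : ℤ) • 1 + j q.2) = _
    rw [map_add, map_zsmul, map_one, hrho, tht_Fd σ (hT1 _ q.2.2)]
  -- coefficients
  let WW : Set A := {x | ∃ n : ℤ, ∃ f ∈ Fd d, x = n • 1 + j f}
  have hWrep : ∀ x ∈ WW, ∃ q, x = c q := by
    rintro _ ⟨n, f, hf, rfl⟩
    obtain ⟨t, ht, hft⟩ := hT2 f hf
    have hp0 : (0 : ℤ) < p := by exact_mod_cast hp.pos
    have h1 : n • (1 : A) = (n % p) • 1 := by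
      conv_lhs => rw [← Int.emod_add_mul_ediv n p]
      rw [add_smul, mul_smul, hAp, add_zero]
    have h2 : j f = j t := by
      have := hjI _ hft
      rwa [map_sub, sub_eq_zero] at this
    have h3 := Int.emod_lt_of_pos n hp0
    have h4 := Int.emod_nonneg n (ne_of_gt hp0)
    refine ⟨(⟨(n % p).toNat, by omega⟩, ⟨t, ht⟩), ?_⟩
    change _ = (((n % p).toNat : ℕ) : ℤ) • 1 + j t
    rw [Int.toNat_of_nonneg h4, h1, h2]
  have hW1 : (1 : A) ∈ WW := ⟨1, 0, (Fd d).zero_mem, by rw [map_zero, one_smul, add_zero]⟩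
  have hWX : ∀ x ∈ WW, ∀ i, i < d → x * j (Xv i) ∈ WW := by
    rintro _ ⟨n, f, hf, rfl⟩ i hi
    have hXi : Xv i ∈ Fd d := NonUnitalSubring.subset_closure ⟨i, hi, rfl⟩
    refine ⟨0, n • Xv i + f * Xv i, (Fd d).add_mem (zsmul_mem hXi n) ((Fd d).mul_mem hf hXi), ?_⟩
    rw [zero_smul, zero_add, map_add, map_zsmul, map_mul, add_mul, smul_mul_assoc, one_mul]
  let jX : ℕ → A := fun i => j (Xv i)
  have hWlist : ∀ w : List ℕ, (∀ i ∈ w, i < d) → ∀ x ∈ WW, x * (w.map jX).prod ∈ WW := by
    intro w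
    induction w with
    | nil => intro _ x hx; simpa using hx
    | cons i w ih =>
      intro h x hx
      rw [List.map_cons, List.prod_cons, ← mul_assoc]
      exact ih (fun k hk => h k (List.mem_cons_of_mem _ hk)) _ (hWX x hx i (h i List.mem_cons_self))
  set G := AddSubgroup.closure {z | ∃ l : List (ℕ × L), l ≠ [] ∧ z = (l.map y).prod} with hG
  have hGlist : ∀ w : List ℕ, (∃ i ∈ w, d ≤ i) → ∀ x ∈ WW, x * (w.map jX).prod ∈ G := by
    intro w
    induction w with
    | nil => rintro ⟨i, hi, _⟩; simp at hi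
    | cons i w ih =>
      intro h x hx
      rw [List.map_cons, List.prod_cons, ← mul_assoc]
      by_cases hi : i < d
      · refine ih ?_ _ (hWX x hx i hi)
        obtain ⟨k, hk, hdk⟩ := h
        rcases List.mem_cons.mp hk with rfl | hk
        · omega
        · exact ⟨k, hk, hdk⟩
      · obtain ⟨q, rfl⟩ := hWrep x hx
        have hid : d + (i - d) = i := by omega
        by_cases hw : ∃ k ∈ w, d ≤ k
        · have h1 := ih hw 1 hW1
          rw [one_mul] at h1
          obtain ⟨q1, hq1⟩ := hWrep 1 hW1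
          refine AddSubgroup.closure_induction (p := fun z _ => c q * jX i * z ∈ G) ?_ ?_ ?_ ?_ h1
          · rintro _ ⟨l, hl, rfl⟩
            refine AddSubgroup.subset_closure ⟨(i - d, (q, q1)) :: l, by simp, ?_⟩
            rw [List.map_cons, List.prod_cons]
            change _ = c q * j (Xv (d + (i - d))) * c q1 * _
            rw [hid, ← hq1, mul_one]
          · rw [mul_zero]; exact AddSubgroup.zero_mem _
          · intro u v _ _ h1 h2; rw [mul_add]; exact AddSubgroup.add_mem _ h1 h2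
          · intro u _ h1; rw [mul_neg]; exact AddSubgroup.neg_mem _ h1
        · push Not at hw
          have h1 := hWlist w hw 1 hW1
          rw [one_mul] at h1
          obtain ⟨q1, hq1⟩ := hWrep _ h1
          refine AddSubgroup.subset_closure ⟨[(i - d, (q, q1))], by simp, ?_⟩
          rw [List.map_cons, List.map_nil, List.prod_cons, List.prod_nil, mul_one]
          change _ = c q * j (Xv (d + (i - d))) * c q1
          rw [hid, ← hq1]
  have hjw : ∀ w : FreeSemigroup ℕ, j (FreeAbelianGroup.of w) = ((w.head :: w.tail).map jX).prod := by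
    intro w
    rw [← ev_list jX w, ← map_ev j Xv, ev_Xv]
  have hGall : ∀ g : FR, j (g - eps d g) ∈ G := by
    intro g
    induction g using FreeAbelianGroup.induction_on with
    | zero => rw [map_zero, sub_zero, map_zero]; exact AddSubgroup.zero_mem _
    | of w =>
      have h1 : j (eps d (FreeAbelianGroup.of w)) =
          ((w.head :: w.tail).map (fun i => j (if i < d then Xv i else 0))).prod := by
        rw [← ev_list, eps, map_ev]
      rw [map_sub, h1, hjw]
      by_cases hw : ∃ k ∈ (w.head :: w.tail), d ≤ k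
      · have h2 : ((w.head :: w.tail).map (fun i => j (if i < d then Xv i else 0))).prod = 0 := by
          obtain ⟨k, hk, hdk⟩ := hw
          refine List.prod_eq_zero (List.mem_map.mpr ⟨k, hk, ?_⟩)
          rw [if_neg (by omega), map_zero]
        rw [h2, sub_zero]
        have := hGlist _ hw 1 hW1
        rwa [one_mul] at this
      · push Not at hw
        have h2 : (w.head :: w.tail).map (fun i => j (if i < d then Xv i else 0)) =
            (w.head :: w.tail).map jX := by
          refine List.map_congr_left (fun i hi => ?_)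
          rw [if_pos (hw i hi)]
        rw [h2, sub_self]; exact AddSubgroup.zero_mem _
    | neg w ih =>
      have e : j (-FreeAbelianGroup.of w - eps d (-FreeAbelianGroup.of w)) =
          - j (FreeAbelianGroup.of w - eps d (FreeAbelianGroup.of w)) := by
        simp only [map_neg, map_sub]; abel
      rw [e]; exact AddSubgroup.neg_mem _ ih
    | add a b h1 h2 =>
      have e : j (a + b - eps d (a + b)) = j (a - eps d a) + j (b - eps d b) := by
        simp only [map_add, map_sub]; abel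
      rw [e]; exact AddSubgroup.add_mem _ h1 h2
  -- the system
  let X : Sys A L :=
    { N := N
      mulL := hNL
      mulR := hNR
      cube := by rintro _ ⟨g, hg, rfl⟩; exact hjJ g hg
      y := y
      hy := hy
      gen := by
        rintro _ ⟨g, hg, rfl⟩
        have := hGall g
        rwa [hg, sub_zero] at this
      rho := rho
      hrho := by
        intro σ _ t
        change rho σ (c t.2.1 * j (Xv (d + t.1)) * c t.2.2) = c t.2.1 * j (Xv (d + σ t.1)) * c t.2.2
        rw [map_mul, map_mul, hrc, hrc, hrho]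
        congr 3
        simp [tht]
      U := fun k =>
        { carrier := {x | ∃ g ∈ I k, eps d g = 0 ∧ j g = x}
          add_mem' := by
            rintro _ _ ⟨a, ha, ha', rfl⟩ ⟨b, hb, hb', rfl⟩
            exact ⟨a + b, (I k).add_mem ha hb, by rw [map_add, ha', hb', add_zero], map_add _ _ _⟩
          zero_mem' := ⟨0, (I k).zero_mem, map_zero _, map_zero _⟩
          neg_mem' := by
            rintro _ ⟨a, ha, ha', rfl⟩
            exact ⟨-a, (I k).neg_mem ha, by rw [map_neg, ha', neg_zero], map_neg _ _⟩ }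
      mono := by
        rintro a b hab _ ⟨g, hg, hg', rfl⟩
        exact ⟨g, hmono hab hg, hg', rfl⟩
      UN := by
        rintro k _ ⟨g, _, hg', rfl⟩
        exact ⟨g, hg', rfl⟩
      UL := by
        rintro k a _ ⟨g, hg, hg', rfl⟩
        obtain ⟨h, h1, h2, h3⟩ := hmulL a g
        exact ⟨h, h2 _ hg, h3 hg', h1.symm⟩
      UR := by
        rintro k a _ ⟨g, hg, hg', rfl⟩
        obtain ⟨h, h1, h2, h3⟩ := hmulR a g
        exact ⟨h, h2 _ hg, h3 hg', h1.symm⟩
      Urho := by
        rintro k σ _ _ ⟨g, hg, hg', rfl⟩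
        exact ⟨tht d σ g, hT k _ g hg, by rw [eps_tht, hg'], (hrho σ g).symm⟩ }
  obtain ⟨K, hK⟩ := X.noeth hp hAp
  refine ⟨K, fun k hk g hg hg0 => ?_⟩
  have h1 : j g ∈ X.U k := ⟨g, hg, hg0, rfl⟩
  rw [hK k hk] at h1
  obtain ⟨g1, hg1, hg10, hjg⟩ := h1
  refine ⟨g1, hg1, hg10, ?_⟩
  intro R _ hc V hV hJV
  obtain ⟨S, _, ι, hS, hι⟩ := char_pkg R p hc
  obtain ⟨φ', hφ'⟩ := huniv S (ι.comp (ev V)) hS
    (fun f hf => by change ι (ev V f) = 0; rw [hV f hf, map_zero])
    (fun h hh => by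
      change ι (ev V h) * ι (ev V h) * ι (ev V h) = 0
      rw [← map_mul, ← map_mul, hJV h hh, map_zero])
  have h2 : ι (ev V g) = ι (ev V g1) := by
    have e1 := hφ' g
    have e2 := hφ' g1
    rw [← hjg] at e1
    exact e1.symm.trans e2
  have h3 : ι (ev V g - ev V g1) = 0 := by rw [map_sub, h2, sub_self]
  exact sub_eq_zero.mp (hι _ h3)

end

end Pool.Agent.Helper60
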