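import Pool.Agent.Helper60.PrimeFin

noncomputable section

namespace Pool.Agent.Helper60

section Quot

variable {R : Type} [NonUnitalRing R]

theorem quot_pkg (I : TwoSidedIdeal R) : ∃ (Q : Type) (_ : NonUnitalRing Q) (π : R →ₙ+* Q),
    Function.Surjective π ∧ ∀ x, π x = 0 ↔ x ∈ I := by
  refine ⟨I.ringCon.Quotient, inferInstance,
    { toFun := fun x => (x : I.ringCon.Quotient)
      map_mul' := fun x y => rfl
      map_zero' := rfl
      map_add' := fun x y => rfl }, ?_, ?_⟩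
  · intro q
    induction q using Quotient.inductionOn' with
    | h x => exact ⟨x, rfl⟩
  · intro x
    change (x : I.ringCon.Quotient) = ((0 : R) : I.ringCon.Quotient) ↔ _
    rw [RingCon.eq]
    exact Iff.rfl

/-- finite quotient -/
def FinQ (I : TwoSidedIdeal R) : Prop := ∃ T : Finset R, ∀ x, ∃ t ∈ T, x - t ∈ I

theorem finite_of_FinQ_quot {I : TwoSidedIdeal R} {Q : Type} [NonUnitalRing Q] (π : R →ₙ+* Q)
    (hs : Function.Surjective π) (hk : ∀ x, π x = 0 ↔ x ∈ I) (hfin : Finite Q) : FinQ I := by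
  classical
  haveI := Fintype.ofFinite Q
  choose f hf using hs
  refine ⟨Finset.univ.image f, fun x => ⟨f (π x), Finset.mem_image_of_mem _ (Finset.mem_univ _), ?_⟩⟩
  rw [← hk, map_sub, hf, sub_self]

/-- finite index ideals of a finitely generated ring are determined by finitely many relations -/
theorem FI {S : Set R} (hS : S.Finite) (hgen : ∀ x : R, x ∈ NonUnitalSubring.closure S) (I : TwoSidedIdeal R)
    (hI : FinQ I) : ∃ E : Finset R, (∀ x ∈ E, x ∈ I) ∧ ∃ T : Finset R, (∀ x, ∃ t ∈ T, x - t ∈ I) ∧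
      ∀ I' : TwoSidedIdeal R, (∀ x ∈ E, x ∈ I') → ∀ x, ∃ t ∈ T, x - t ∈ I' := by
  classical
  obtain ⟨T, hT⟩ := hI
  choose τ hτ1 hτ2 using hT
  refine ⟨(hS.toFinset.image (fun s => s - τ s)) ∪ ((T ×ˢ T).image (fun q => q.1 + q.2 - τ (q.1 + q.2))) ∪
    ((T ×ˢ T).image (fun q => q.1 * q.2 - τ (q.1 * q.2))) ∪ (T.image (fun t => -t - τ (-t))) ∪ {0 - τ 0}, ?_,
    T, fun x => ⟨τ x, hτ1 x, hτ2 x⟩, ?_⟩
  · intro x hx
    simp only [Finset.mem_union, Finset.mem_image, Finset.mem_singleton] at hx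
    rcases hx with (((⟨a, _, rfl⟩ | ⟨a, _, rfl⟩) | ⟨a, _, rfl⟩) | ⟨a, _, rfl⟩) | rfl <;> exact hτ2 _
  · intro I' hI' x
    have h1 : ∀ s ∈ S, s - τ s ∈ I' := fun s hs => hI' _ (by
      simp only [Finset.mem_union, Finset.mem_image]
      exact Or.inl (Or.inl (Or.inl (Or.inl ⟨s, by simpa using hs, rfl⟩))))
    have h2 : ∀ a ∈ T, ∀ b ∈ T, a + b - τ (a + b) ∈ I' := fun a ha b hb => hI' _ (by
      simp only [Finset.mem_union, Finset.mem_image]
      exact Or.inl (Or.inl (Or.inl (Or.inr ⟨(a, b), by simp [ha, hb], rfl⟩))))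
    have h3 : ∀ a ∈ T, ∀ b ∈ T, a * b - τ (a * b) ∈ I' := fun a ha b hb => hI' _ (by
      simp only [Finset.mem_union, Finset.mem_image]
      exact Or.inl (Or.inl (Or.inr ⟨(a, b), by simp [ha, hb], rfl⟩)))
    have h4 : ∀ a ∈ T, -a - τ (-a) ∈ I' := fun a ha => hI' _ (by
      simp only [Finset.mem_union, Finset.mem_image]
      exact Or.inl (Or.inr ⟨a, ha, rfl⟩))
    have h5 : 0 - τ 0 ∈ I' := hI' _ (by simp)
    refine NonUnitalSubring.closure_induction (p := fun x _ => ∃ t ∈ T, x - t ∈ I') ?_ ?_ ?_ ?_ ?_ (hgen x)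
    · intro s hs; exact ⟨τ s, hτ1 _, h1 s hs⟩
    · exact ⟨τ 0, hτ1 _, h5⟩
    · rintro a b _ _ ⟨t, ht, ht'⟩ ⟨u, hu, hu'⟩
      refine ⟨τ (t + u), hτ1 _, ?_⟩
      have := I'.add_mem (I'.add_mem ht' hu') (h2 t ht u hu)
      have e : a + b - τ (t + u) = (a - t) + (b - u) + (t + u - τ (t + u)) := by abel
      rw [e]; exact this
    · rintro a _ ⟨t, ht, ht'⟩
      refine ⟨τ (-t), hτ1 _, ?_⟩
      have := I'.add_mem (I'.neg_mem ht') (h4 t ht)
      have e : -a - τ (-t) = -(a - t) + (-t - τ (-t)) := by abel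
      rw [e]; exact this
    · rintro a b _ _ ⟨t, ht, ht'⟩ ⟨u, hu, hu'⟩
      refine ⟨τ (t * u), hτ1 _, ?_⟩
      have := I'.add_mem (I'.add_mem (I'.mul_mem_left a _ hu') (I'.mul_mem_right _ u ht')) (h3 t ht u hu)
      have e : a * b - τ (t * u) = a * (b - u) + (a - t) * u + (t * u - τ (t * u)) := by
        simp only [mul_sub, sub_mul]; abel
      rw [e]; exact this

theorem finite_closure {p : ℕ} (hp : 0 < p) (hc : ∀ x : R, (p : ℤ) • x = 0) {G : Set R} (hG : G.Finite) :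
    Finite (AddSubgroup.closure G) := by
  haveI : Finite G := hG
  haveI h1 : AddGroup.FG (AddSubgroup.closure G) := AddGroup.closure_finite_fg G
  haveI : Module.Finite ℤ (AddSubgroup.closure G) := Module.Finite.iff_addGroup_fg.mpr h1
  refine AddCommGroup.finite_of_fg_torsion _ ?_
  intro g
  rw [isOfFinAddOrder_iff_nsmul_eq_zero]
  refine ⟨p, hp, ?_⟩
  apply Subtype.ext
  have := hc (g : R)
  rw [natCast_zsmul] at this
  simpa using this

theorem FinQ_mono {I J : TwoSidedIdeal R} (h : I ≤ J) (hI : FinQ I) : FinQ J := by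
  obtain ⟨T, hT⟩ := hI
  refine ⟨T, fun x => ?_⟩
  obtain ⟨t, ht, ht'⟩ := hT x
  exact ⟨t, ht, h ht'⟩

theorem FinQ_inf {I J : TwoSidedIdeal R} (hI : FinQ I) (hJ : FinQ J) : FinQ (I ⊓ J) := by
  classical
  obtain ⟨T, hT⟩ := hI
  obtain ⟨T', hT'⟩ := hJ
  choose τ h1 h2 using hT
  choose σ h3 h4 using hT'
  let f : R → R × R := fun x => (τ x, σ x)
  have hfin : (Set.range f).Finite := by
    refine ((T ×ˢ T').finite_toSet).subset ?_
    rintro _ ⟨x, rfl⟩
    simp [f, h1, h3]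
  have : ∀ q : Set.range f, ∃ x, f x = q := fun q => q.2
  choose g hg using this
  haveI : Finite (Set.range f) := hfin
  haveI := Fintype.ofFinite (Set.range f)
  refine ⟨Finset.univ.image g, fun x => ⟨g ⟨f x, x, rfl⟩, Finset.mem_image_of_mem _ (Finset.mem_univ _), ?_⟩⟩
  have h5 := hg ⟨f x, x, rfl⟩
  simp only [f, Prod.mk.injEq] at h5
  set y := g ⟨f x, x, rfl⟩
  rw [TwoSidedIdeal.mem_inf]
  constructor
  · have := I.sub_mem (h2 x) (h2 y)
    rw [h5.1] at this
    have e : x - y = x - τ x - (y - τ x) := by abel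
    rw [e]; exact this
  · have := J.sub_mem (h4 x) (h4 y)
    rw [h5.2] at this
    have e : x - y = x - σ x - (y - σ x) := by abel
    rw [e]; exact this

theorem semiprime_step {S : Set R} (hS : S.Finite) (hgen : ∀ x : R, x ∈ NonUnitalSubring.closure S)
    {p : ℕ} (hp : 0 < p) (hc : ∀ x : R, (p : ℤ) • x = 0) (M A : TwoSidedIdeal R)
    (hA : FinQ A) (hAA : ∀ a ∈ A, ∀ b ∈ A, a * b ∈ M) : FinQ M := by
  classical
  obtain ⟨E, hE, T, hT, hFI⟩ := FI hS hgen A hA
  choose τ hτ1 hτ2 using hT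
  let G : Finset R := E ∪ (T ×ˢ E).image (fun q => q.1 * q.2) ∪ (E ×ˢ T).image (fun q => q.1 * q.2) ∪
    (T ×ˢ E ×ˢ T).image (fun q => q.1 * (q.2.1 * q.2.2))
  have hG1 : ∀ e ∈ E, e ∈ G := fun e he => by simp [G, he]
  have hG2 : ∀ t ∈ T, ∀ e ∈ E, t * e ∈ G := fun t ht e he => by
    simp only [G, Finset.mem_union, Finset.mem_image]
    exact Or.inl (Or.inl (Or.inr ⟨(t, e), by simp [ht, he], rfl⟩))
  have hG3 : ∀ t ∈ T, ∀ e ∈ E, e * t ∈ G := fun t ht e he => by
    simp only [G, Finset.mem_union, Finset.mem_image]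
    exact Or.inl (Or.inr ⟨(e, t), by simp [ht, he], rfl⟩)
  have hG4 : ∀ t ∈ T, ∀ e ∈ E, ∀ u ∈ T, t * (e * u) ∈ G := fun t ht e he u hu => by
    simp only [G, Finset.mem_union, Finset.mem_image]
    exact Or.inr ⟨(t, e, u), by simp [ht, he, hu], rfl⟩
  have hGcases : ∀ g ∈ G, g ∈ E ∨ (∃ t ∈ T, ∃ e ∈ E, g = t * e) ∨ (∃ e ∈ E, ∃ t ∈ T, g = e * t) ∨
      (∃ t ∈ T, ∃ e ∈ E, ∃ u ∈ T, g = t * (e * u)) := by
    intro g hg
    simp only [G, Finset.mem_union, Finset.mem_image, Finset.mem_product] at hg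
    rcases hg with ((h | ⟨⟨t, e⟩, ⟨h1, h2⟩, rfl⟩) | ⟨⟨e, t⟩, ⟨h1, h2⟩, rfl⟩) | ⟨⟨t, e, u⟩, ⟨h1, h2, h3⟩, rfl⟩
    · exact Or.inl h
    · exact Or.inr (Or.inl ⟨t, h1, e, h2, rfl⟩)
    · exact Or.inr (Or.inr (Or.inl ⟨e, h1, t, h2, rfl⟩))
    · exact Or.inr (Or.inr (Or.inr ⟨t, h1, e, h2, u, h3, rfl⟩))
  let Hc := AddSubgroup.closure (G : Set R)
  let MA : AddSubgroup R :=
    { carrier := M
      add_mem' := M.add_mem
      zero_mem' := M.zero_mem
      neg_mem' := M.neg_mem }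
  have hsub : ∀ g ∈ G, g ∈ MA ⊔ Hc := fun g hg => AddSubgroup.mem_sup_right (AddSubgroup.subset_closure hg)
  have hM : ∀ x ∈ M, x ∈ MA ⊔ Hc := fun x hx => AddSubgroup.mem_sup_left hx
  have hleft : ∀ r, ∀ x ∈ MA ⊔ Hc, r * x ∈ MA ⊔ Hc := by
    intro r x hx
    obtain ⟨a, ha, b, hb, rfl⟩ := AddSubgroup.mem_sup.mp hx
    rw [mul_add]
    refine AddSubgroup.add_mem _ (hM _ (M.mul_mem_left _ _ ha)) ?_
    refine AddSubgroup.closure_induction (p := fun b _ => r * b ∈ MA ⊔ Hc) ?_ ?_ ?_ ?_ hb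
    · intro g hg
      rcases hGcases g hg with he | ⟨t, ht, e, he, rfl⟩ | ⟨e, he, t, ht, rfl⟩ | ⟨t, ht, e, he, u, hu, rfl⟩
      · have e1 : r * g = (r - τ r) * g + τ r * g := by rw [sub_mul]; abel
        rw [e1]
        exact AddSubgroup.add_mem _ (hM _ (hAA _ (hτ2 r) _ (hE g he))) (hsub _ (hG2 _ (hτ1 r) _ he))
      · have e1 : r * (t * e) = (r * t - τ (r * t)) * e + τ (r * t) * e := by
          simp only [sub_mul, mul_assoc]; abel
        rw [e1]
        exact AddSubgroup.add_mem _ (hM _ (hAA _ (hτ2 _) _ (hE e he))) (hsub _ (hG2 _ (hτ1 _) _ he))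
      · have e1 : r * (e * t) = (r - τ r) * (e * t) + τ r * (e * t) := by rw [sub_mul]; abel
        rw [e1]
        exact AddSubgroup.add_mem _ (hM _ (hAA _ (hτ2 r) _ (A.mul_mem_right _ _ (hE e he))))
          (hsub _ (hG4 _ (hτ1 r) _ he _ ht))
      · have e1 : r * (t * (e * u)) = (r * t - τ (r * t)) * (e * u) + τ (r * t) * (e * u) := by
          simp only [sub_mul, mul_assoc]; abel
        rw [e1]
        exact AddSubgroup.add_mem _ (hM _ (hAA _ (hτ2 _) _ (A.mul_mem_right _ _ (hE e he))))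
          (hsub _ (hG4 _ (hτ1 _) _ he _ hu))
    · rw [mul_zero]; exact AddSubgroup.zero_mem _
    · intro u v _ _ h1 h2; rw [mul_add]; exact AddSubgroup.add_mem _ h1 h2
    · intro u _ h1; rw [mul_neg]; exact AddSubgroup.neg_mem _ h1
  have hright : ∀ r, ∀ x ∈ MA ⊔ Hc, x * r ∈ MA ⊔ Hc := by
    intro r x hx
    obtain ⟨a, ha, b, hb, rfl⟩ := AddSubgroup.mem_sup.mp hx
    rw [add_mul]
    refine AddSubgroup.add_mem _ (hM _ (M.mul_mem_right _ _ ha)) ?_
    refine AddSubgroup.closure_induction (p := fun b _ => b * r ∈ MA ⊔ Hc) ?_ ?_ ?_ ?_ hb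
    · intro g hg
      rcases hGcases g hg with he | ⟨t, ht, e, he, rfl⟩ | ⟨e, he, t, ht, rfl⟩ | ⟨t, ht, e, he, u, hu, rfl⟩
      · have e1 : g * r = g * (r - τ r) + g * τ r := by rw [mul_sub]; abel
        rw [e1]
        exact AddSubgroup.add_mem _ (hM _ (hAA _ (hE g he) _ (hτ2 r))) (hsub _ (hG3 _ (hτ1 r) _ he))
      · have e1 : t * e * r = (t * e) * (r - τ r) + t * (e * τ r) := by
          simp only [mul_sub, mul_assoc]; abel
        rw [e1]
        exact AddSubgroup.add_mem _ (hM _ (hAA _ (A.mul_mem_left _ _ (hE e he)) _ (hτ2 _)))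
          (hsub _ (hG4 _ ht _ he _ (hτ1 r)))
      · have e1 : e * t * r = e * (t * r - τ (t * r)) + e * τ (t * r) := by
          simp only [mul_sub, mul_assoc]; abel
        rw [e1]
        exact AddSubgroup.add_mem _ (hM _ (hAA _ (hE e he) _ (hτ2 _))) (hsub _ (hG3 _ (hτ1 _) _ he))
      · have e1 : t * (e * u) * r = t * e * (u * r - τ (u * r)) + t * (e * τ (u * r)) := by
          simp only [mul_sub, mul_assoc]; abel
        rw [e1]
        exact AddSubgroup.add_mem _ (hM _ (hAA _ (A.mul_mem_left _ _ (hE e he)) _ (hτ2 _)))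
          (hsub _ (hG4 _ ht _ he _ (hτ1 _)))
    · rw [zero_mul]; exact AddSubgroup.zero_mem _
    · intro u v _ _ h1 h2; rw [add_mul]; exact AddSubgroup.add_mem _ h1 h2
    · intro u _ h1; rw [neg_mul]; exact AddSubgroup.neg_mem _ h1
  let H : TwoSidedIdeal R := TwoSidedIdeal.mk' ((MA ⊔ Hc : AddSubgroup R) : Set R) (AddSubgroup.zero_mem _)
    (fun h1 h2 => AddSubgroup.add_mem _ h1 h2) (fun h => AddSubgroup.neg_mem _ h)
    (fun {x y} h => hleft x y h) (fun {x y} h => hright y x h)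
  have hH : ∀ x, x ∈ H ↔ x ∈ MA ⊔ Hc := fun x => by simp [H]
  haveI : Finite Hc := finite_closure hp hc G.finite_toSet
  have hfinHc : (Hc : Set R).Finite := this
  refine ⟨(T ×ˢ hfinHc.toFinset).image (fun q => q.1 + q.2), fun x => ?_⟩
  obtain ⟨t, ht, htx⟩ := hFI H (fun e he => (hH e).mpr (hsub _ (hG1 e he))) x
  rw [hH] at htx
  obtain ⟨a, ha, b, hb, hab⟩ := AddSubgroup.mem_sup.mp htx
  refine ⟨t + b, ?_, ?_⟩
  · rw [Finset.mem_image]
    exact ⟨(t, b), by simp [ht, hb], rfl⟩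
  · have : x - (t + b) = a := by rw [sub_add_eq_sub_sub, ← hab]; abel
    rw [this]; exact ha

theorem exists_max_notFinQ {S : Set R} (hS : S.Finite) (hgen : ∀ x : R, x ∈ NonUnitalSubring.closure S)
    (hinf : ¬ FinQ (⊥ : TwoSidedIdeal R)) :
    ∃ M : TwoSidedIdeal R, ¬ FinQ M ∧ ∀ I, M ≤ I → ¬ FinQ I → I ≤ M := by
  obtain ⟨M, _, hM⟩ := zorn_le_nonempty₀ {I : TwoSidedIdeal R | ¬ FinQ I} (by
    intro c hc hchain y hy
    let U : TwoSidedIdeal R := TwoSidedIdeal.mk' {x | ∃ I ∈ c, x ∈ I} ⟨y, hy, y.zero_mem⟩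
      (by
        rintro a b ⟨I, hI, ha⟩ ⟨J, hJ, hb⟩
        rcases hchain.total hI hJ with h | h
        · exact ⟨J, hJ, J.add_mem (h ha) hb⟩
        · exact ⟨I, hI, I.add_mem ha (h hb)⟩)
      (by
        rintro a ⟨I, hI, ha⟩
        exact ⟨I, hI, I.neg_mem ha⟩)
      (by
        rintro a b ⟨I, hI, hb⟩
        exact ⟨I, hI, I.mul_mem_left _ _ hb⟩)
      (by
        rintro a b ⟨I, hI, ha⟩
        exact ⟨I, hI, I.mul_mem_right _ _ ha⟩)
    have hU : ∀ x, x ∈ U ↔ ∃ I ∈ c, x ∈ I := fun x => by simp [U]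
    refine ⟨U, ?_, ?_⟩
    · intro hfin
      obtain ⟨E, hE, T, _, hFI⟩ := FI hS hgen U hfin
      have : ∀ F : Finset R, (∀ x ∈ F, x ∈ U) → ∃ I ∈ c, ∀ x ∈ F, x ∈ I := by
        classical
        intro F
        induction F using Finset.induction_on with
        | empty => intro _; exact ⟨y, hy, by simp⟩
        | insert a F _ ih =>
          intro h
          obtain ⟨I, hI, h1⟩ := ih (fun x hx => h x (Finset.mem_insert_of_mem hx))
          obtain ⟨J, hJ, h2⟩ := (hU a).mp (h a (Finset.mem_insert_self _ _))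
          rcases hchain.total hI hJ with h' | h'
          · refine ⟨J, hJ, fun x hx => ?_⟩
            rcases Finset.mem_insert.mp hx with rfl | hx
            · exact h2
            · exact h' (h1 x hx)
          · refine ⟨I, hI, fun x hx => ?_⟩
            rcases Finset.mem_insert.mp hx with rfl | hx
            · exact h' h2
            · exact h1 x hx
      obtain ⟨I, hI, h1⟩ := this E hE
      exact hc hI ⟨T, hFI I h1⟩
    · intro I hI x hx
      exact (hU x).mpr ⟨I, hI, hx⟩) ⊥ hinf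
  refine ⟨M, hM.1, fun I hI hI' => hM.2 hI' hI⟩

/-- local finiteness -/
theorem locfin {S : Set R} (hS : S.Finite) (hgen : ∀ x : R, x ∈ NonUnitalSubring.closure S)
    {p m : ℕ} (hp : p.Prime) (hm : 1 ≤ m) (hc : ∀ x : R, (p : ℤ) • x = 0)
    (hper : ∀ x : R, pw x 2 = pw x (2 + m)) : Finite R := by
  classical
  by_contra hinf
  have hbot : ¬ FinQ (⊥ : TwoSidedIdeal R) := by
    rintro ⟨T, hT⟩
    apply hinf
    have : (Set.univ : Set R) ⊆ (T : Set R) := by
      intro x _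
      obtain ⟨t, ht, hx⟩ := hT x
      rw [TwoSidedIdeal.mem_bot, sub_eq_zero] at hx
      rw [hx]; exact ht
    exact Set.finite_univ_iff.mp (T.finite_toSet.subset this)
  obtain ⟨M, hM, hmax⟩ := exists_max_notFinQ hS hgen hbot
  have hsp : ∀ A : TwoSidedIdeal R, M ≤ A → (∀ a ∈ A, ∀ b ∈ A, a * b ∈ M) → A ≤ M := by
    intro A hMA hAA
    by_cases hA : FinQ A
    · exact absurd (semiprime_step hS hgen hp.pos hc M A hA hAA) hM
    · exact hmax A hMA hA
  have hprime : ∀ a b : R, (∀ r, a * r * b ∈ M) → a ∈ M ∨ b ∈ M := by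
    intro a b hab
    by_contra hcon
    push Not at hcon
    obtain ⟨ha, hb⟩ := hcon
    let L : TwoSidedIdeal R := TwoSidedIdeal.mk' {x | ∀ r, x * r * b ∈ M}
      (by intro r; rw [zero_mul, zero_mul]; exact M.zero_mem)
      (by intro x y hx hy r; rw [add_mul, add_mul]; exact M.add_mem (hx r) (hy r))
      (by intro x hx r; rw [neg_mul, neg_mul]; exact M.neg_mem (hx r))
      (by intro x y hy r; rw [mul_assoc x, mul_assoc x]; exact M.mul_mem_left _ _ (hy r))
      (by intro x y hx r; rw [mul_assoc x]; exact hx _)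
    have hL : ∀ x, x ∈ L ↔ ∀ r, x * r * b ∈ M := fun x => by simp [L]
    let B : TwoSidedIdeal R := TwoSidedIdeal.mk' {y | ∀ x ∈ L, ∀ r, x * r * y ∈ M}
      (by intro x _ r; rw [mul_zero]; exact M.zero_mem)
      (by intro y z hy hz x hx r; rw [mul_add]; exact M.add_mem (hy x hx r) (hz x hx r))
      (by intro y hy x hx r; rw [mul_neg]; exact M.neg_mem (hy x hx r))
      (by intro z y hy x hx r; rw [← mul_assoc, mul_assoc x r z]; exact hy x hx _)
      (by intro y z hy x hx r; rw [← mul_assoc]; exact M.mul_mem_right _ _ (hy x hx r))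
    have hB : ∀ y, y ∈ B ↔ ∀ x ∈ L, ∀ r, x * r * y ∈ M := fun y => by simp [B]
    have hML : M ≤ L := fun x hx => (hL x).mpr (fun r => M.mul_mem_right _ _ (M.mul_mem_right _ _ hx))
    have hMB : M ≤ B := fun y hy => (hB y).mpr (fun x _ r => M.mul_mem_left _ _ hy)
    have hLfin : FinQ L := by
      by_contra h
      exact ha (hmax L hML h ((hL a).mpr hab))
    have hBfin : FinQ B := by
      by_contra h
      exact hb (hmax B hMB h ((hB b).mpr (fun x hx r => (hL x).mp hx r)))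
    have hCfin := FinQ_inf hLfin hBfin
    set C := L ⊓ B with hC
    have hMC : M ≤ C := le_inf hML hMB
    let Dd : TwoSidedIdeal R := TwoSidedIdeal.mk' {x | x ∈ C ∧ ∀ c ∈ C, x * c ∈ M}
      ⟨C.zero_mem, fun c _ => by rw [zero_mul]; exact M.zero_mem⟩
      (by rintro x y ⟨h1, h2⟩ ⟨h3, h4⟩
          exact ⟨C.add_mem h1 h3, fun c hc => by rw [add_mul]; exact M.add_mem (h2 c hc) (h4 c hc)⟩)
      (by rintro x ⟨h1, h2⟩
          exact ⟨C.neg_mem h1, fun c hc => by rw [neg_mul]; exact M.neg_mem (h2 c hc)⟩)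
      (by rintro x y ⟨h1, h2⟩
          exact ⟨C.mul_mem_left _ _ h1, fun c hc => by rw [mul_assoc]; exact M.mul_mem_left _ _ (h2 c hc)⟩)
      (by rintro x y ⟨h1, h2⟩
          exact ⟨C.mul_mem_right _ _ h1, fun c hc => by rw [mul_assoc]; exact h2 _ (C.mul_mem_left _ _ hc)⟩)
    have hD : ∀ x, x ∈ Dd ↔ x ∈ C ∧ ∀ c ∈ C, x * c ∈ M := fun x => by simp [Dd]
    have hDM : Dd ≤ M := by
      refine hsp Dd (fun x hx => (hD x).mpr ⟨hMC hx, fun c _ => M.mul_mem_right _ _ hx⟩) ?_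
      intro x hx y hy
      exact ((hD x).mp hx).2 y ((hD y).mp hy).1
    have hCM : C ≤ M := by
      refine hsp C hMC ?_
      intro x hx y hy
      apply hDM
      rw [hD]
      refine ⟨C.mul_mem_left _ _ hy, fun z hz => ?_⟩
      rw [hC, TwoSidedIdeal.mem_inf] at hx hz
      exact (hB z).mp hz.2 x hx.1 y
    exact hM (FinQ_mono hCM hCfin)
  obtain ⟨Q, _, π, hs, hk⟩ := quot_pkg M
  have hfin : Finite Q := by
    refine (prime_finite (R := Q) hp hm ?_ ?_ ?_).1
    · intro q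
      obtain ⟨x, rfl⟩ := hs q
      rw [← map_zsmul, hc, map_zero]
    · intro q
      obtain ⟨x, rfl⟩ := hs q
      rw [← pw_map, ← pw_map, hper]
    · intro q q' h
      obtain ⟨a, rfl⟩ := hs q
      obtain ⟨b, rfl⟩ := hs q'
      rw [hk, hk]
      apply hprime
      intro r
      have := h (π r)
      rwa [← map_mul, ← map_mul, hk] at this
  exact hM (finite_of_FinQ_quot π hs hk hfin)

end Quot

end Pool.Agent.Helper60
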