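import Pool.Agent.Helper60.GenId

noncomputable section

namespace Pool.Agent.Helper60

theorem ev_mem_sub {R : Type} [NonUnitalRing R] (S : NonUnitalSubring R) {v : ℕ → R} (h : ∀ i, v i ∈ S)
    (f : FR) : ev v f ∈ S := by
  induction f using FreeAbelianGroup.induction_on with
  | zero => rw [map_zero]; exact S.zero_mem
  | of w =>
    induction w using FreeSemigroup.recOnMul with
    | ih1 x =>
      have : ev v (FreeAbelianGroup.of (FreeSemigroup.of x)) = v x := ev_X v x
      rw [this]; exact h x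
    | ih2 x y h1 h2 => rw [FreeAbelianGroup.of_mul, map_mul]; exact S.mul_mem h1 h2
  | neg w ih => rw [map_neg]; exact S.neg_mem ih
  | add x y h1 h2 => rw [map_add]; exact S.add_mem h1 h2

theorem Fd_mono {a b : ℕ} (h : a ≤ b) : Fd a ≤ Fd b :=
  NonUnitalSubring.closure_mono (Set.image_mono (fun _ hi => lt_of_lt_of_le hi h))

theorem exists_Fd (f : FR) : ∃ N, f ∈ Fd N := by
  induction f using FreeAbelianGroup.induction_on with
  | zero => exact ⟨0, (Fd 0).zero_mem⟩
  | of w =>
    induction w using FreeSemigroup.recOnMul with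
    | ih1 x => exact ⟨x + 1, NonUnitalSubring.subset_closure ⟨x, Nat.lt_succ_self x, rfl⟩⟩
    | ih2 x y h1 h2 =>
      obtain ⟨a, ha⟩ := h1
      obtain ⟨b, hb⟩ := h2
      rw [FreeAbelianGroup.of_mul]
      exact ⟨max a b, (Fd _).mul_mem (Fd_mono (le_max_left _ _) ha) (Fd_mono (le_max_right _ _) hb)⟩
  | neg w ih => obtain ⟨a, ha⟩ := ih; exact ⟨a, (Fd a).neg_mem ha⟩
  | add x y h1 h2 =>
    obtain ⟨a, ha⟩ := h1
    obtain ⟨b, hb⟩ := h2
    exact ⟨max a b, (Fd _).add_mem (Fd_mono (le_max_left _ _) ha) (Fd_mono (le_max_right _ _) hb)⟩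

theorem ev_congr_Fd {R : Type} [NonUnitalRing R] {N : ℕ} {v w : ℕ → R} (h : ∀ i, i < N → v i = w i)
    {f : FR} (hf : f ∈ Fd N) : ev v f = ev w f := by
  refine NonUnitalSubring.closure_induction (p := fun f _ => ev v f = ev w f) ?_ ?_ ?_ ?_ ?_ hf
  · rintro _ ⟨i, hi, rfl⟩
    rw [ev_X, ev_X]; exact h i hi
  · rw [map_zero, map_zero]
  · intro a b _ _ h1 h2; rw [map_add, map_add, h1, h2]
  · intro a _ h1; rw [map_neg, map_neg, h1]
  · intro a b _ _ h1 h2; rw [map_mul, map_mul, h1, h2]

/-- `R` satisfies all the identities in `J` -/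
def Mod (R : Type) [NonUnitalRing R] (J : TwoSidedIdeal FR) : Prop := ∀ f ∈ J, ∀ v : ℕ → R, ev v f = 0

def subHom {R : Type} [NonUnitalRing R] (S : NonUnitalSubring R) : S →ₙ+* R where
  toFun := fun x => x.1
  map_mul' := fun _ _ => rfl
  map_zero' := rfl
  map_add' := fun _ _ => rfl

theorem Mod_sub {R : Type} [NonUnitalRing R] {J : TwoSidedIdeal FR} (h : Mod R J) (S : NonUnitalSubring R) :
    Mod S J := by
  intro f hf v
  have h1 := h f hf (fun i => subHom S (v i))
  rw [← map_ev] at h1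
  exact Subtype.ext h1

theorem Mod_quot {J : TwoSidedIdeal FR} (hJ : IsT J) {Q : Type} [NonUnitalRing Q] (π : FR →ₙ+* Q)
    (hs : Function.Surjective π) (hk : ∀ x, π x = 0 ↔ x ∈ J) : Mod Q J := by
  intro f hf v
  choose u hu using fun i => hs (v i)
  have : v = fun i => π (u i) := by funext i; exact (hu i).symm
  rw [this, ← map_ev, hk]
  exact hJ u f hf

section

variable {p m : ℕ} (hp : p.Prime) (hm : 1 ≤ m) (I : ℕ → TwoSidedIdeal FR) (hmono : Monotone I)
  (hT : ∀ k, IsT (I k)) (hpI : ∀ f, (p : ℤ) • f ∈ I 0) (hperI : ∀ f, pw f 2 - pw f (2 + m) ∈ I 0)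

include hp hm hmono hT hpI hperI

theorem prime_case : ∃ K, ∀ k, K ≤ k → I k = I K := by
  classical
  set d := (((m + 1) ^ m) ^ 9) ^ 3 with hd
  obtain ⟨K1, hK1⟩ := Fd_noeth hp hm I hpI hperI hmono d
  obtain ⟨K2, hK2⟩ := genid hp hm I hmono hT hpI hperI d
  refine ⟨max K1 K2, fun k hk => le_antisymm ?_ (hmono hk)⟩
  set K := max K1 K2 with hKdef
  have hK1k : K1 ≤ K := le_max_left _ _
  have hK2k : K2 ≤ K := le_max_right _ _
  by_contra hcon
  obtain ⟨f0, hf0, hf0'⟩ : ∃ f, f ∈ I k ∧ f ∉ I K := by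
    by_contra h
    push Not at h
    exact hcon (fun x hx => h x hx)
  -- facts about models
  have hcR : ∀ (R : Type) [NonUnitalRing R], Mod R (I K) → (∀ x : R, (p : ℤ) • x = 0) ∧
      (∀ x : R, pw x 2 = pw x (2 + m)) := by
    intro R _ hR
    constructor
    · intro x
      have := hR _ (hmono (Nat.zero_le K) (hpI (Xv 0))) (fun _ => x)
      rwa [map_zsmul, ev_X] at this
    · intro x
      have := hR _ (hmono (Nat.zero_le K) (hperI (Xv 0))) (fun _ => x)
      rwa [map_sub, pw_map, pw_map, ev_X, sub_eq_zero] at this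
  -- a bad finite ring exists
  have hbad : ∃ n : ℕ, ∃ (R : Type) (_ : NonUnitalRing R), Finite R ∧ Nat.card R = n ∧ Mod R (I K) ∧
      ∃ f ∈ I k, ∃ v : ℕ → R, ev v f ≠ 0 := by
    obtain ⟨Q, _, π, hs, hk'⟩ := quot_pkg (I K)
    have hQ : Mod Q (I K) := Mod_quot (hT K) π hs hk'
    obtain ⟨N, hN⟩ := exists_Fd f0
    have hfinS : (π '' (Xv '' {i | i < N})).Finite := ((Set.finite_lt_nat N).image _).image _
    obtain ⟨hc, hper⟩ := hcR Q hQ
    have hfin := locfin_sub hfinS hp hm hc hper
    set S := NonUnitalSubring.closure (π '' (Xv '' {i | i < N})) with hS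
    let v0 : ℕ → S := fun i => if h : i < N then ⟨π (Xv i), NonUnitalSubring.subset_closure ⟨_, ⟨i, h, rfl⟩, rfl⟩⟩
      else 0
    refine ⟨Nat.card S, S, inferInstance, hfin, rfl, Mod_sub hQ S, f0, hf0, v0, ?_⟩
    intro h0
    have h1 := congrArg (subHom S) h0
    rw [map_ev, map_zero] at h1
    have h2 : ev (fun i => subHom S (v0 i)) f0 = ev (fun i => π (Xv i)) f0 := by
      refine ev_congr_Fd (fun i hi => ?_) hN
      change ((v0 i : S) : Q) = _
      simp only [v0, dif_pos hi]
    rw [h2, ← map_ev, ev_Xv, hk'] at h1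
    exact hf0' h1
  obtain ⟨R, _, hfinR, hcard, hModR, f, hf, v, hv⟩ := Nat.find_spec hbad
  obtain ⟨hc, hper⟩ := hcR R hModR
  -- proper ideals are good
  have hgood : ∀ g ∈ I k, ∀ P : TwoSidedIdeal R, P ≠ ⊤ → ∀ v : ℕ → R, (∀ i, v i ∈ P) → ev v g = 0 := by
    intro g hg P hP v hv
    by_contra hne
    let S : NonUnitalSubring R :=
      { carrier := P
        add_mem' := P.add_mem
        zero_mem' := P.zero_mem
        neg_mem' := P.neg_mem
        mul_mem' := fun _ hb => P.mul_mem_left _ _ hb }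
    have hlt : Nat.card S < Nat.card R := by
      have h1 : ((P : Set R)) ≠ Set.univ := by
        intro h
        apply hP
        ext x
        refine ⟨fun _ => trivial, fun _ => ?_⟩
        change x ∈ (P : Set R)
        rw [h]; trivial
      have h2 := Set.ncard_lt_ncard (Set.ssubset_univ_iff.mpr h1) (Set.toFinite _)
      rw [Set.ncard_univ] at h2
      exact h2
    have := Nat.find_min hbad (m := Nat.card S) (by rw [← hcard]; exact hlt)
    apply this
    refine ⟨S, inferInstance, inferInstance, rfl, Mod_sub hModR S, g, hg, fun i => ⟨v i, hv i⟩, ?_⟩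
    intro h0
    apply hne
    have h1 := congrArg (subHom S) h0
    rw [map_ev, map_zero] at h1
    exact h1
  apply hv
  by_cases h4 : ∃ P : Fin 4 → TwoSidedIdeal R, (∀ i, PrimeI (P i)) ∧ ∀ i j, i ≠ j → P i ≠ P j
  · obtain ⟨P, hP, hne⟩ := h4
    exact blocks hp hm hc hper hP hne f (hgood f hf) v
  · obtain ⟨J, hJ, r, hr⟩ := radical_bound hp hm hc hper h4
    choose s hs using hr
    let V : ℕ → R := fun i => if h : i < d then r ⟨i, h⟩ else v (i - d) - r (s (v (i - d)))
    have hV1 : ∀ t : Fin d, V t = r t := by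
      intro t
      have h1 : (t : ℕ) < d := t.2
      change (if h : (t : ℕ) < d then r ⟨t, h⟩ else v (t - d) - r (s (v (t - d)))) = r t
      rw [dif_pos h1]
    have hV2 : ∀ i, V (d + i) = v i - r (s (v i)) := by
      intro i
      have h1 : ¬ d + i < d := by omega
      simp only [V, dif_neg h1, Nat.add_sub_cancel_left]
    let w : ℕ → FR := fun i => Xv (s (v i) : ℕ) + Xv (d + i)
    let w0 : ℕ → FR := fun i => Xv (s (v i) : ℕ)
    have e1 : ev V (ev w f) = ev v f := by
      rw [ev_ev]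
      congr 2
      funext i
      simp only [w, map_add, ev_X]
      rw [hV1, hV2]; abel
    have hf0I : ev w0 f ∈ I k := hT k w0 f hf
    have hf0F : ev w0 f ∈ Fd d := ev_mem_sub (Fd d)
      (fun i => NonUnitalSubring.subset_closure ⟨(s (v i) : ℕ), (s (v i)).2, rfl⟩) f
    have hf0K : ev w0 f ∈ I K := hmono hK1k (hK1 k (hK1k.trans hk) _ hf0I hf0F)
    have hgI : ev w f - ev w0 f ∈ I k := (I k).sub_mem (hT k w f hf) hf0I
    have hg0 : eps d (ev w f - ev w0 f) = 0 := by
      rw [map_sub, map_ev, map_ev, sub_eq_zero]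
      congr 2
      funext i
      simp only [w, w0, map_add]
      have h1 : eps d (Xv (d + i)) = 0 := by simp [eps]
      rw [h1, add_zero]
    obtain ⟨g1, hg1, hg10, hg1e⟩ := hK2 k (hK2k.trans hk) _ hgI hg0
    have hVJ : ∀ h, eps d h = 0 → ev V h ∈ J := by
      intro h hh
      obtain ⟨Q, _, π, _, hπ⟩ := quot_pkg J
      have h1 := FR_hom_ext (f := π.comp (ev V)) (g := (π.comp (ev V)).comp (eps d)) (by
        intro i
        by_cases hi : i < d
        · simp [eps, hi]
        · have h2 : eps d (Xv i) = 0 := by simp [eps, hi]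
          change π (ev V (Xv i)) = π (ev V (eps d (Xv i)))
          rw [h2, map_zero, map_zero, ev_X, hπ]
          have h3 : i = d + (i - d) := by omega
          rw [h3, hV2]
          exact hs _) h
      change π (ev V h) = π (ev V (eps d h)) at h1
      rw [hh, map_zero, map_zero, hπ] at h1
      exact h1
    have h5 := hg1e R hc V (fun f hf => hModR f (hmono (Nat.zero_le K) hf) V)
      (fun h hh => hJ _ (hVJ h hh))
    have h6 : ev V g1 = 0 := hModR g1 (hmono hK2k hg1) V
    have h7 : ev V (ev w0 f) = 0 := hModR _ hf0K V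
    rw [h6, map_sub, h7, sub_zero, e1] at h5
    exact h5

end

end Pool.Agent.Helper60
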