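import Pool.Agent.Helper60.MainA

noncomputable section

namespace Pool.Agent.Helper60

def SevenIn (I : TwoSidedIdeal FR) : Prop := ∀ a b c d e f g : FR, a * b * c * d * (e * f * g) ∈ I

def FSS (s : Set ℕ) : NonUnitalSubring FR := NonUnitalSubring.closure (Xv '' s)

theorem ev_congr_S {R : Type} [NonUnitalRing R] {s : Set ℕ} {v w : ℕ → R} (h : ∀ i ∈ s, v i = w i)
    {f : FR} (hf : f ∈ FSS s) : ev v f = ev w f := by
  refine NonUnitalSubring.closure_induction (p := fun f _ => ev v f = ev w f) ?_ ?_ ?_ ?_ ?_ hf
  · rintro _ ⟨i, hi, rfl⟩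
    rw [ev_X, ev_X]; exact h i hi
  · rw [map_zero, map_zero]
  · intro a b _ _ h1 h2; rw [map_add, map_add, h1, h2]
  · intro a _ h1; rw [map_neg, map_neg, h1]
  · intro a b _ _ h1 h2; rw [map_mul, map_mul, h1, h2]

theorem FSS_mono {s t : Set ℕ} (h : s ⊆ t) : FSS s ≤ FSS t := NonUnitalSubring.closure_mono (Set.image_mono h)

theorem of_mem (w : FreeSemigroup ℕ) : FreeAbelianGroup.of w ∈ FSS {i | i ∈ w.head :: w.tail} := by
  induction w using FreeSemigroup.recOnMul with
  | ih1 x => exact NonUnitalSubring.subset_closure ⟨x, by simp [FreeSemigroup.of], rfl⟩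
  | ih2 x y h1 h2 =>
    rw [FreeAbelianGroup.of_mul]
    refine (FSS _).mul_mem (FSS_mono ?_ h1) (FSS_mono ?_ h2)
    · intro i hi
      simp only [Set.mem_setOf_eq, FreeSemigroup.head_mul, FreeSemigroup.tail_mul, List.mem_cons,
        List.mem_append] at hi ⊢
      tauto
    · intro i hi
      simp only [Set.mem_setOf_eq, FreeSemigroup.head_mul, FreeSemigroup.tail_mul, List.mem_cons,
        List.mem_append] at hi ⊢
      tauto

theorem long_mem {I : TwoSidedIdeal FR} (h7 : SevenIn I) (w : FreeSemigroup ℕ) (h : 6 ≤ w.tail.length) :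
    FreeAbelianGroup.of w ∈ I := by
  obtain ⟨a, l⟩ := w
  match l, h with
  | b :: c :: d :: e :: f :: g :: l, _ =>
    have := h7 (Xv a) (Xv b) (Xv c) (Xv d) (Xv e) (Xv f) (FreeAbelianGroup.of ⟨g, l⟩)
    simp only [Xv, FreeAbelianGroup.of_mul_of] at this
    exact this

/-- support decomposition -/
theorem seven_support (I I' : TwoSidedIdeal FR) (hT : IsT I) (hT' : IsT I') (h7 : SevenIn I)
    (h6 : ∀ f ∈ I', f ∈ Fd 6 → f ∈ I) :
    ∀ (n : ℕ) (S : Finset ℕ), S.card = n → ∀ f ∈ I', f ∈ FSS (S : Set ℕ) → f ∈ I := by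
  classical
  obtain ⟨B, _, ι, hB, hinj, _⟩ := unit_pkg FR
  have hinj' : ∀ x, ι x = 0 → x = 0 := by
    intro x hx
    exact (hinj 0 x (by rw [zero_smul, zero_add, hx])).2
  let Z : AddSubgroup B :=
    { carrier := {x | ∃ g ∈ I, ι g = x}
      add_mem' := by
        rintro _ _ ⟨a, ha, rfl⟩ ⟨b, hb, rfl⟩
        exact ⟨a + b, I.add_mem ha hb, map_add _ _ _⟩
      zero_mem' := ⟨0, I.zero_mem, map_zero _⟩
      neg_mem' := by
        rintro _ ⟨a, ha, rfl⟩
        exact ⟨-a, I.neg_mem ha, map_neg _ _⟩ }
  have hZr : ∀ x ∈ Z, ∀ b : B, x * b ∈ Z := by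
    rintro _ ⟨g, hg, rfl⟩ b
    obtain ⟨n, f, rfl⟩ := hB b
    refine ⟨n • g + g * f, I.add_mem (I.zsmul_mem _ hg) (I.mul_mem_right _ _ hg), ?_⟩
    rw [mul_add, mul_smul_comm, mul_one, map_add, map_zsmul, map_mul]
  have hlong : ∀ c : List FR, 7 ≤ c.length → (c.map ι).prod ∈ Z := by
    intro c hc
    match c, hc with
    | a :: b :: c :: d :: e :: f :: g :: l, _ =>
      have h1 : ((a :: b :: c :: d :: e :: f :: g :: l).map ι).prod =
          ι (a * b * c * d * (e * f * g)) * (l.map ι).prod := by
        simp only [List.map_cons, List.prod_cons, map_mul, mul_assoc]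
      rw [h1]
      exact hZr _ ⟨_, h7 a b c d e f g, rfl⟩ _
  intro n
  induction n using Nat.strong_induction_on with
  | _ n ih =>
    intro S hS f hf hfS
    by_cases hn : n ≤ 6
    · -- rename the variables
      let τ : ℕ → ℕ := fun i => if h : i ∈ S then (S.equivFin ⟨i, h⟩ : ℕ) else 0
      let τ' : ℕ → ℕ := fun j => if h : j < S.card then (S.equivFin.symm ⟨j, h⟩ : ℕ) else 0
      have h1 : ∀ i, τ i < 6 := by
        intro i
        simp only [τ]
        split_ifs with h
        · have := (S.equivFin ⟨i, h⟩).2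
          omega
        · omega
      have h2 : ∀ i ∈ S, τ' (τ i) = i := by
        intro i hi
        have e1 : τ i = (S.equivFin ⟨i, hi⟩ : ℕ) := by simp only [τ, dif_pos hi]
        rw [e1]
        have e2 : ((S.equivFin ⟨i, hi⟩ : Fin S.card) : ℕ) < S.card := (S.equivFin ⟨i, hi⟩).2
        simp only [τ', dif_pos e2, Fin.eta, Equiv.symm_apply_apply]
      have h3 : ev (fun i => Xv (τ i)) f ∈ I :=
        h6 _ (hT' _ f hf) (ev_mem_sub (Fd 6) (fun i => NonUnitalSubring.subset_closure ⟨_, h1 i, rfl⟩) f)
      have h4 := hT (fun i => Xv (τ' i)) _ h3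
      rw [ev_ev] at h4
      have h5 : ev (fun i => ev (fun i => Xv (τ' i)) (Xv (τ i))) f = f := by
        conv_rhs => rw [← ev_Xv f]
        refine ev_congr_S (s := (S : Set ℕ)) (fun i hi => ?_) hfS
        rw [ev_X, h2 i hi]
      rwa [h5] at h4
    · -- inclusion exclusion
      let l : ℕ → B := fun _ => 0
      let g0 : ℕ → S → FR := fun k i => if k = (i : ℕ) then Xv k else 0
      let nn : ℕ → S → B := fun k i => ι (g0 k i)
      have hv : ∀ (T : Finset S) k, vT l nn T k = ι (if (∃ h : k ∈ S, (⟨k, h⟩ : S) ∈ T) then Xv k else 0) := by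
        intro T k
        simp only [vT, l, zero_add, nn, g0]
        by_cases hk : ∃ h : k ∈ S, (⟨k, h⟩ : S) ∈ T
        · rw [if_pos hk]
          obtain ⟨hkS, hkT⟩ := hk
          rw [Finset.sum_eq_single (⟨k, hkS⟩ : S)]
          · simp
          · intro i _ hi
            rw [if_neg (fun h => hi (Subtype.ext h.symm)), map_zero]
          · intro h; exact absurd hkT h
        · rw [if_neg hk, map_zero]
          refine Finset.sum_eq_zero (fun i hi => ?_)
          rw [if_neg, map_zero]
          intro h
          apply hk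
          refine ⟨by rw [h]; exact i.2, ?_⟩
          have : (⟨k, by rw [h]; exact i.2⟩ : S) = i := Subtype.ext h
          rw [this]; exact hi
      have hev : ∀ T : Finset S, ev (vT l nn T) f =
          ι (ev (fun k => if (∃ h : k ∈ S, (⟨k, h⟩ : S) ∈ T) then Xv k else 0) f) := by
        intro T
        rw [map_ev]
        congr 2
        funext k
        exact hv T k
      let K : Finset S → AddSubgroup B := fun U =>
        { carrier := {x | ∀ c : List FR, 7 ≤ c.length + U.card → (c.map ι).prod * x ∈ Z}
          add_mem' := by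
            intro a b ha hb c hc
            rw [mul_add]; exact Z.add_mem (ha c hc) (hb c hc)
          zero_mem' := by intro c _; rw [mul_zero]; exact Z.zero_mem
          neg_mem' := by
            intro a ha c hc
            rw [mul_neg]; exact Z.neg_mem (ha c hc) }
      have hmain := incl_excl l nn K
        (by
          intro c hc
          rw [mul_one]
          exact hlong c (by simpa using hc))
        (by
          intro k U x _
          simp only [l, zero_mul]
          exact AddSubgroup.zero_mem _)
        (by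
          intro k U i x _ hx c hc
          have := hx (c ++ [g0 k i]) (by rw [List.length_append, List.length_singleton]; omega)
          rw [List.map_append, List.prod_append, List.map_singleton, List.prod_singleton, mul_assoc] at this
          exact this)
        (by
          intro k U i x hi hx c hc
          have hpos := Finset.card_pos.mpr ⟨i, hi⟩
          have := hx (c ++ [g0 k i]) (by
            rw [List.length_append, List.length_singleton, Finset.card_erase_of_mem hi]; omega)
          rw [List.map_append, List.prod_append, List.map_singleton, List.prod_singleton, mul_assoc] at this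
          exact this)
        Z
        (by
          intro x hx
          have := hx [] (by
            rw [List.length_nil, Finset.card_univ, Fintype.card_coe]; omega)
          simpa using this)
        f
        (by
          intro T hTu
          rw [hev]
          refine ⟨_, ?_, rfl⟩
          set S' : Finset ℕ := T.map (Function.Embedding.subtype _) with hS'
          have hcard : S'.card < n := by
            rw [hS', Finset.card_map, ← hS]
            have h1 : T.card < (Finset.univ : Finset S).card :=
              Finset.card_lt_card (Finset.ssubset_univ_iff.mpr hTu)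
            rwa [Finset.card_univ, Fintype.card_coe] at h1
          refine ih _ hcard S' rfl _ (hT' _ f hf) (ev_mem_sub _ (fun k => ?_) f)
          by_cases hk : ∃ h : k ∈ S, (⟨k, h⟩ : S) ∈ T
          · rw [if_pos hk]
            obtain ⟨h1, h2⟩ := hk
            refine NonUnitalSubring.subset_closure ⟨k, ?_, rfl⟩
            rw [Finset.mem_coe, hS', Finset.mem_map]
            exact ⟨⟨k, h1⟩, h2, rfl⟩
          · rw [if_neg hk]; exact NonUnitalSubring.zero_mem _)
      rw [hev] at hmain
      obtain ⟨g, hg, hgf⟩ := hmain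
      have h1 : ev (fun k => if (∃ h : k ∈ S, (⟨k, h⟩ : S) ∈ (Finset.univ : Finset S)) then Xv k else 0) f = f := by
        conv_rhs => rw [← ev_Xv f]
        refine ev_congr_S (s := (S : Set ℕ)) (fun i hi => ?_) hfS
        rw [if_pos ⟨hi, Finset.mem_univ _⟩]
      rw [h1] at hgf
      have h2 : g - f = 0 := hinj' _ (by rw [map_sub, hgf, sub_self])
      rw [← sub_eq_zero.mp h2]; exact hg

theorem seven_case (I : ℕ → TwoSidedIdeal FR) (hmono : Monotone I) (hT : ∀ k, IsT (I k))
    (h7 : SevenIn (I 0)) : ∃ K, ∀ k, K ≤ k → I k = I K := by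
  classical
  obtain ⟨B, _, ι, hB, hinj, _⟩ := unit_pkg FR
  have hinj' : ∀ x, ι x = 0 → x = 0 := by
    intro x hx
    exact (hinj 0 x (by rw [zero_smul, zero_add, hx])).2
  let W : Set FR := (fun q : Fin 6 × List (Fin 6) =>
    (FreeAbelianGroup.of ⟨(q.1 : ℕ), q.2.map (fun i : Fin 6 => (i : ℕ))⟩ : FR)) '' {q | q.2.length ≤ 5}
  have hWfin : W.Finite := by
    refine Set.Finite.image _ ?_
    refine ((Set.finite_univ (α := Fin 6)).prod (List.finite_length_le (Fin 6) 5)).subset ?_
    rintro ⟨a, l⟩ h
    exact ⟨trivial, h⟩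
  let H : AddSubgroup FR := AddSubgroup.closure W
  -- reduction modulo long words
  have hred : ∀ f : FR, ∃ h ∈ H, eps 6 f - h ∈ I 0 := by
    intro f
    induction f using FreeAbelianGroup.induction_on with
    | zero => exact ⟨0, H.zero_mem, by rw [map_zero, sub_zero]; exact (I 0).zero_mem⟩
    | of w =>
      by_cases hw : ∀ i ∈ w.head :: w.tail, i < 6
      · have h1 : eps 6 (FreeAbelianGroup.of w) = FreeAbelianGroup.of w := by
          conv_rhs => rw [← ev_Xv (FreeAbelianGroup.of w)]
          refine ev_congr_S (fun i hi => ?_) (of_mem w)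
          rw [if_pos (hw i hi)]
        rw [h1]
        by_cases hl : 6 ≤ w.tail.length
        · exact ⟨0, H.zero_mem, by rw [sub_zero]; exact long_mem h7 w hl⟩
        · refine ⟨FreeAbelianGroup.of w, AddSubgroup.subset_closure ?_, by rw [sub_self]; exact (I 0).zero_mem⟩
          refine ⟨(⟨w.head, hw _ List.mem_cons_self⟩,
            w.tail.pmap (fun i h => (⟨i, h⟩ : Fin 6)) (fun i hi => hw i (List.mem_cons_of_mem _ hi))), ?_, ?_⟩
          · simp only [Set.mem_setOf_eq, List.length_pmap]; omega
          · simp only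
            rw [List.map_pmap]
            simp
      · push Not at hw
        obtain ⟨k, hk, hk6⟩ := hw
        have h1 : eps 6 (FreeAbelianGroup.of w) = 0 := by
          apply hinj'
          rw [eps, map_ev, ev_list]
          refine List.prod_eq_zero (List.mem_map.mpr ⟨k, hk, ?_⟩)
          rw [if_neg (by omega), map_zero]
        exact ⟨0, H.zero_mem, by rw [h1, sub_zero]; exact (I 0).zero_mem⟩
    | neg w ih =>
      obtain ⟨h, hh, h1⟩ := ih
      refine ⟨-h, H.neg_mem hh, ?_⟩
      have e : eps 6 (-FreeAbelianGroup.of w) - -h = -(eps 6 (FreeAbelianGroup.of w) - h) := by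
        rw [map_neg]; abel
      rw [e]; exact (I 0).neg_mem h1
    | add x y h1 h2 =>
      obtain ⟨a, ha, h1⟩ := h1
      obtain ⟨b, hb, h2⟩ := h2
      refine ⟨a + b, H.add_mem ha hb, ?_⟩
      have e : eps 6 (x + y) - (a + b) = (eps 6 x - a) + (eps 6 y - b) := by rw [map_add]; abel
      rw [e]; exact (I 0).add_mem h1 h2
  have heps : ∀ f ∈ Fd 6, eps 6 f = f := by
    intro f hf
    conv_rhs => rw [← ev_Xv f]
    refine ev_congr_Fd (fun i hi => ?_) hf
    rw [if_pos hi]
  -- Noetherian
  haveI : Finite W := hWfin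
  haveI h1 : AddGroup.FG H := AddGroup.closure_finite_fg W
  haveI : Module.Finite ℤ H := Module.Finite.iff_addGroup_fg.mpr h1
  have hnoeth : IsNoetherian ℤ H := inferInstance
  let N : ℕ →o Submodule ℤ H :=
    { toFun := fun k => AddSubgroup.toIntSubmodule ((toAdd (I k)).comap H.subtype)
      monotone' := by
        intro a b hab x hx
        exact hmono hab hx }
  obtain ⟨K, hK⟩ := monotone_stabilizes_iff_noetherian.mpr hnoeth N
  have hstab : ∀ k, K ≤ k → ∀ f ∈ I k, f ∈ Fd 6 → f ∈ I K := by
    intro k hk f hf hfd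
    obtain ⟨h, hh, hfh⟩ := hred f
    rw [heps f hfd] at hfh
    have h2 : h ∈ I k := by
      have := (I k).sub_mem hf (hmono (Nat.zero_le k) hfh)
      rwa [sub_sub_cancel] at this
    have h3 : (⟨h, hh⟩ : H) ∈ N k := h2
    rw [← hK k hk] at h3
    have h4 : h ∈ I K := h3
    have := (I K).add_mem (hmono (Nat.zero_le K) hfh) h4
    rwa [sub_add_cancel] at this
  refine ⟨K, fun k hk => le_antisymm ?_ (hmono hk)⟩
  intro f hf
  obtain ⟨M, hM⟩ := exists_Fd f
  have h7' : SevenIn (I K) := fun a b c d e f g => hmono (Nat.zero_le K) (h7 a b c d e f g)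
  refine seven_support (I K) (I k) (hT K) (hT k) h7' (hstab k hk) _ (Finset.range M) rfl f hf ?_
  have : ((Finset.range M : Finset ℕ) : Set ℕ) = {i | i < M} := by ext i; simp
  rw [this]; exact hM

end Pool.Agent.Helper60
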