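import Pool.Agent.Helper60.MainB

noncomputable section

namespace Pool.Agent.Helper60

def colon (I : TwoSidedIdeal FR) (u : ℤ) : TwoSidedIdeal FR :=
  TwoSidedIdeal.mk' {f | u • f ∈ I} (by change u • (0 : FR) ∈ I; rw [smul_zero]; exact I.zero_mem)
    (fun {x y} hx hy => by change u • (x + y) ∈ I; rw [smul_add]; exact I.add_mem hx hy)
    (fun {x} hx => by change u • (-x) ∈ I; rw [smul_neg]; exact I.neg_mem hx)
    (fun {x y} hy => by change u • (x * y) ∈ I; rw [← mul_smul_comm]; exact I.mul_mem_left _ _ hy)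
    (fun {x y} hx => by change u • (x * y) ∈ I; rw [← smul_mul_assoc]; exact I.mul_mem_right _ _ hx)

theorem mem_colon {I : TwoSidedIdeal FR} {u : ℤ} {f : FR} : f ∈ colon I u ↔ u • f ∈ I := by
  simp [colon]

def plusm (I : TwoSidedIdeal FR) (u : ℤ) : TwoSidedIdeal FR :=
  TwoSidedIdeal.mk' {f | ∃ a ∈ I, ∃ b : FR, f = a + u • b} ⟨0, I.zero_mem, 0, by simp⟩
    (by rintro x y ⟨a, ha, b, rfl⟩ ⟨a', ha', b', rfl⟩
        exact ⟨a + a', I.add_mem ha ha', b + b', by rw [smul_add]; abel⟩)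
    (by rintro x ⟨a, ha, b, rfl⟩
        exact ⟨-a, I.neg_mem ha, -b, by rw [smul_neg]; abel⟩)
    (by rintro x y ⟨a, ha, b, rfl⟩
        exact ⟨x * a, I.mul_mem_left _ _ ha, x * b, by rw [mul_add, mul_smul_comm]⟩)
    (by rintro x y ⟨a, ha, b, rfl⟩
        exact ⟨a * y, I.mul_mem_right _ _ ha, b * y, by rw [add_mul, smul_mul_assoc]⟩)

theorem mem_plusm {I : TwoSidedIdeal FR} {u : ℤ} {f : FR} : f ∈ plusm I u ↔ ∃ a ∈ I, ∃ b : FR, f = a + u • b := by
  simp [plusm]

theorem IsT_colon {I : TwoSidedIdeal FR} (h : IsT I) (u : ℤ) : IsT (colon I u) := by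
  intro v f hf
  rw [mem_colon] at hf ⊢
  rw [← map_zsmul]; exact h v _ hf

theorem IsT_plusm {I : TwoSidedIdeal FR} (h : IsT I) (u : ℤ) : IsT (plusm I u) := by
  intro v f hf
  rw [mem_plusm] at hf ⊢
  obtain ⟨a, ha, b, rfl⟩ := hf
  exact ⟨ev v a, h v _ ha, ev v b, by rw [map_add, map_zsmul]⟩

theorem colon_mono {I J : TwoSidedIdeal FR} (h : I ≤ J) (u : ℤ) : colon I u ≤ colon J u := by
  intro f hf
  rw [mem_colon] at hf ⊢
  exact h hf

theorem plusm_mono {I J : TwoSidedIdeal FR} (h : I ≤ J) (u : ℤ) : plusm I u ≤ plusm J u := by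
  intro f hf
  rw [mem_plusm] at hf ⊢
  obtain ⟨a, ha, b, rfl⟩ := hf
  exact ⟨a, h ha, b, rfl⟩

theorem colon_plus_stab {I : ℕ → TwoSidedIdeal FR} (hmono : Monotone I) (u : ℤ)
    (h1 : ∃ K, ∀ k, K ≤ k → colon (I k) u = colon (I K) u)
    (h2 : ∃ K, ∀ k, K ≤ k → plusm (I k) u = plusm (I K) u) : ∃ K, ∀ k, K ≤ k → I k = I K := by
  obtain ⟨K1, h1⟩ := h1
  obtain ⟨K2, h2⟩ := h2
  refine ⟨max K1 K2, fun k hk => le_antisymm ?_ (hmono hk)⟩
  set K := max K1 K2
  have e1 : colon (I k) u = colon (I K) u := by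
    rw [h1 k ((le_max_left _ _).trans hk), h1 K (le_max_left _ _)]
  have e2 : plusm (I k) u = plusm (I K) u := by
    rw [h2 k ((le_max_right _ _).trans hk), h2 K (le_max_right _ _)]
  intro f hf
  have h3 : f ∈ plusm (I k) u := mem_plusm.mpr ⟨f, hf, 0, by simp⟩
  rw [e2, mem_plusm] at h3
  obtain ⟨a, ha, b, rfl⟩ := h3
  have h4 : u • b ∈ I k := by
    have := (I k).sub_mem hf (hmono hk ha)
    rwa [add_sub_cancel_left] at this
  rw [← mem_colon, e1, mem_colon] at h4
  exact (I K).add_mem ha h4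

theorem torsion_case (m : ℕ) (hm : 1 ≤ m) : ∀ (u : ℕ), 1 ≤ u → ∀ (I : ℕ → TwoSidedIdeal FR), Monotone I →
    (∀ k, IsT (I k)) → (∀ f, (u : ℤ) • f ∈ I 0) → (∀ f, pw f 2 - pw f (2 + m) ∈ I 0) →
    ∃ K, ∀ k, K ≤ k → I k = I K := by
  intro u
  induction u using Nat.strong_induction_on with
  | _ u ih =>
    intro hu I hmono hT huI hper
    by_cases h1 : u = 1
    · subst h1
      refine ⟨0, fun k _ => le_antisymm (fun f _ => ?_) (hmono (Nat.zero_le k))⟩
      have := huI f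
      rwa [Nat.cast_one, one_smul] at this
    · set p := u.minFac with hp
      have hpp : p.Prime := Nat.minFac_prime h1
      obtain ⟨u', hu'⟩ : p ∣ u := Nat.minFac_dvd u
      have hu'pos : 1 ≤ u' := by
        rcases Nat.eq_zero_or_pos u' with h | h
        · rw [h, mul_zero] at hu'; omega
        · exact h
      have hlt : u' < u := by
        have := hpp.two_le
        nlinarith
      refine colon_plus_stab hmono (p : ℤ) ?_ ?_
      · refine ih u' hlt hu'pos (fun k => colon (I k) p) (fun a b h => colon_mono (hmono h) _)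
          (fun k => IsT_colon (hT k) _) ?_ ?_
        · intro f
          rw [mem_colon, smul_smul, ← Nat.cast_mul, ← hu']
          exact huI f
        · intro f
          rw [mem_colon]
          exact (I 0).zsmul_mem _ (hper f)
      · refine prime_case hpp hm (fun k => plusm (I k) p) (fun a b h => plusm_mono (hmono h) _)
          (fun k => IsT_plusm (hT k) _) ?_ ?_
        · intro f
          exact mem_plusm.mpr ⟨0, (I 0).zero_mem, f, by simp⟩
        · intro f
          exact mem_plusm.mpr ⟨_, hper f, 0, by simp⟩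

theorem pw_smul (c : ℤ) (f : FR) (k : ℕ) : pw (c • f) k = c ^ (k + 1) • pw f k := by
  induction k with
  | zero => simp [pw]
  | succ k ih =>
    rw [pw, ih, pw, smul_mul_assoc, mul_smul_comm, smul_smul, ← pow_succ]

theorem main_chain (m : ℕ) (hm : 1 ≤ m) (I : ℕ → TwoSidedIdeal FR) (hmono : Monotone I)
    (hT : ∀ k, IsT (I k)) (hper : ∀ f, pw f 2 - pw f (2 + m) ∈ I 0) :
    ∃ K, ∀ k, K ≤ k → I k = I K := by
  -- the torsion constant
  let t : ℕ := 2 ^ (3 + m) - 8
  have h16 : 16 ≤ 2 ^ (3 + m) := by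
    calc 16 = 2 ^ 4 := by norm_num
      _ ≤ 2 ^ (3 + m) := Nat.pow_le_pow_right (by norm_num) (by omega)
  have ht : 1 ≤ t := by simp only [t]; omega
  have htI : ∀ f : FR, (t : ℤ) • (f * f * f) ∈ I 0 := by
    intro f
    have h1 := hper ((2 : ℤ) • f)
    rw [pw_smul, pw_smul] at h1
    have h2 := (I 0).sub_mem h1 ((I 0).zsmul_mem ((2 : ℤ) ^ (2 + m + 1)) (hper f))
    have h3 : (2 : ℤ) ^ (2 + 1) • pw f 2 - (2 : ℤ) ^ (2 + m + 1) • pw f (2 + m) -
        (2 : ℤ) ^ (2 + m + 1) • (pw f 2 - pw f (2 + m)) = -((t : ℤ) • (f * f * f)) := by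
      have e1 : ((t : ℕ) : ℤ) = 2 ^ (2 + m + 1) - 2 ^ (2 + 1) := by
        simp only [t]
        rw [Nat.cast_sub (by omega)]
        push_cast
        rw [show 3 + m = 2 + m + 1 by ring]
      have e2 : f * f * f = pw f 2 := rfl
      rw [e1, e2, smul_sub, sub_smul]; abel
    rw [h3] at h2
    have := (I 0).neg_mem h2
    rwa [neg_neg] at this
  let u : ℕ := 24 * t
  have hu : 1 ≤ u := by simp only [u]; omega
  have h7 : SevenIn (colon (I 0) (u : ℤ)) := by
    intro a b c d e f g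
    rw [mem_colon]
    obtain ⟨Q, _, π, hs, hk⟩ := quot_pkg (colon (I 0) (t : ℤ))
    have hQ : ∀ x : Q, x * x * x = 0 := by
      intro q
      obtain ⟨x, rfl⟩ := hs q
      rw [← map_mul, ← map_mul, hk, mem_colon]
      exact htI x
    have h1 := nil_seven hQ (π a) (π b) (π c) (π d) (π e) (π f) (π g)
    rw [← map_mul, ← map_mul, ← map_mul, ← map_mul, ← map_mul, ← map_mul, ← map_zsmul, hk, mem_colon] at h1
    rw [smul_smul] at h1
    have e1 : ((u : ℕ) : ℤ) = (t : ℤ) * 24 := by simp only [u]; push_cast; ring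
    rw [e1]; exact h1
  refine colon_plus_stab hmono (u : ℤ) ?_ ?_
  · exact seven_case (fun k => colon (I k) (u : ℤ)) (fun a b h => colon_mono (hmono h) _)
      (fun k => IsT_colon (hT k) _) h7
  · refine torsion_case m hm u hu (fun k => plusm (I k) (u : ℤ)) (fun a b h => plusm_mono (hmono h) _)
      (fun k => IsT_plusm (hT k) _) ?_ ?_
    · intro f
      exact mem_plusm.mpr ⟨0, (I 0).zero_mem, f, by simp⟩
    · intro f
      exact mem_plusm.mpr ⟨_, hper f, 0, by simp⟩

end Pool.Agent.Helper60
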