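import Mathlib

/-!
Mixed identities of a group: terms with constants, equational derivations, finite bases.
-/

namespace Pool.Agent.Helper60.Mixed

/-- Terms of the signature `(·, ⁻¹, 1, (c_g)_{g ∈ C})` in the variables `x_0, x_1, x_2, …`. -/
inductive MTerm (C : Type) : Type
  | var : ℕ → MTerm C
  | const : C → MTerm C
  | one : MTerm C
  | mul : MTerm C → MTerm C → MTerm C
  | inv : MTerm C → MTerm C

/-- An algebraic system of the signature `(·, ⁻¹, 1, (c_g)_{g ∈ C})` with underlying set `A`
(no axioms are imposed). -/
structure Interp (C A : Type) where
  /-- the interpretation of the constant symbols -/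
  const : C → A
  /-- the interpretation of the symbol `1` -/
  one : A
  /-- the interpretation of the multiplication symbol -/
  mul : A → A → A
  /-- the interpretation of the inversion symbol -/
  inv : A → A

/-- The value of a term in an algebraic system, for the values `ρ i` of the variables `x_i`. -/
def MTerm.eval {C A : Type} (I : Interp C A) (ρ : ℕ → A) : MTerm C → A
  | .var i => ρ i
  | .const c => I.const c
  | .one => I.one
  | .mul s t => I.mul (s.eval I ρ) (t.eval I ρ)
  | .inv s => I.inv (s.eval I ρ)

/-- The identity `e.1 ≈ e.2` holds in the algebraic system `I`. -/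
def Holds {C A : Type} (I : Interp C A) (e : MTerm C × MTerm C) : Prop :=
  ∀ ρ : ℕ → A, e.1.eval I ρ = e.2.eval I ρ

/-- The system `G*`: the group `G` with every element `g` named by the constant symbol `c_g`. -/
def star (G : Type) [Group G] : Interp G G where
  const := fun g => g
  one := 1
  mul := fun a b => a * b
  inv := fun a => a⁻¹

/-- The mixed identities of `G`: the identities `u ≈ v` of the enlarged signature that hold
in `G*`. -/
def mixedIdentities (G : Type) [Group G] : Set (MTerm G × MTerm G) :=
  {e | Holds (star G) e}

/-- Simultaneous substitution of the term `σ i` for the variable `x_i`. -/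
def MTerm.subst {C : Type} (σ : ℕ → MTerm C) : MTerm C → MTerm C
  | .var i => σ i
  | .const c => .const c
  | .one => .one
  | .mul s t => .mul (s.subst σ) (t.subst σ)
  | .inv s => .inv (s.subst σ)

/-- Equational logic in the enlarged signature: `Derives S s t` says that `s ≈ t` is an
equational consequence of the set `S` of identities. -/
inductive Derives {C : Type} (S : Set (MTerm C × MTerm C)) : MTerm C → MTerm C → Prop
  | ax {s t : MTerm C} : (s, t) ∈ S → Derives S s t
  | refl (s : MTerm C) : Derives S s s
  | symm {s t : MTerm C} : Derives S s t → Derives S t s
  | trans {s t u : MTerm C} : Derives S s t → Derives S t u → Derives S s u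
  | mul {s s' t t' : MTerm C} : Derives S s s' → Derives S t t' →
      Derives S (.mul s t) (.mul s' t')
  | inv {s s' : MTerm C} : Derives S s s' → Derives S (.inv s) (.inv s')
  | subst {s t : MTerm C} (σ : ℕ → MTerm C) : Derives S s t →
      Derives S (s.subst σ) (t.subst σ)

/-- The mixed identities of `G` are finitely based: some finite set of them has every mixed
identity of `G` as an equational consequence. -/
def MixedFinitelyBased (G : Type) [Group G] : Prop :=
  ∃ S : Set (MTerm G × MTerm G), S.Finite ∧ S ⊆ mixedIdentities G ∧
    ∀ e ∈ mixedIdentities G, Derives S e.1 e.2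

end Pool.Agent.Helper60.Mixed
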