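import Pool.Agent.Helper60.MixedDefs

/-!
A finite group whose mixed identities are not finitely based.
-/

namespace Pool.Agent.Helper60.Mixed

open Equiv

/-! ### General facts on terms -/

theorem MTerm.eval_hom {C A B : Type} (I : Interp C A) (J : Interp C B) (f : A → B)
    (hc : ∀ c, f (I.const c) = J.const c) (h1 : f I.one = J.one)
    (hm : ∀ a b, f (I.mul a b) = J.mul (f a) (f b)) (hi : ∀ a, f (I.inv a) = J.inv (f a))
    (ρ : ℕ → A) (t : MTerm C) : f (t.eval I ρ) = t.eval J (fun i => f (ρ i)) := by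
  induction t with
  | var i => rfl
  | const c => exact hc c
  | one => exact h1
  | mul s t ihs iht => simp only [MTerm.eval, hm, ihs, iht]
  | inv s ih => simp only [MTerm.eval, hi, ih]

theorem MTerm.eval_subst {C A : Type} (I : Interp C A) (σ : ℕ → MTerm C) (ρ : ℕ → A)
    (t : MTerm C) : (t.subst σ).eval I ρ = t.eval I (fun i => (σ i).eval I ρ) := by
  induction t with
  | var i => rfl
  | const c => rfl
  | one => rfl
  | mul s t ihs iht => simp only [MTerm.subst, MTerm.eval, ihs, iht]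
  | inv s ih => simp only [MTerm.subst, MTerm.eval, ih]

theorem Derives.sound {C A : Type} (I : Interp C A) {S : Set (MTerm C × MTerm C)}
    (hS : ∀ e ∈ S, Holds I e) {s t : MTerm C} (h : Derives S s t) :
    ∀ ρ : ℕ → A, s.eval I ρ = t.eval I ρ := by
  induction h with
  | ax h => exact hS _ h
  | refl s => intro ρ; rfl
  | symm _ ih => intro ρ; exact (ih ρ).symm
  | trans _ _ ih1 ih2 => intro ρ; exact (ih1 ρ).trans (ih2 ρ)
  | mul _ _ ih1 ih2 => intro ρ; simp only [MTerm.eval, ih1 ρ, ih2 ρ]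
  | inv _ ih => intro ρ; simp only [MTerm.eval, ih ρ]
  | subst σ _ ih => intro ρ; rw [MTerm.eval_subst, MTerm.eval_subst, ih]

/-- a bound for the indices of the variables that occur in a term -/
def MTerm.bound {C : Type} : MTerm C → ℕ
  | .var i => i + 1
  | .const _ => 0
  | .one => 0
  | .mul s t => max s.bound t.bound
  | .inv s => s.bound

theorem MTerm.eval_congr {C A : Type} (I : Interp C A) (ρ ρ' : ℕ → A) (t : MTerm C)
    (h : ∀ i < t.bound, ρ i = ρ' i) : t.eval I ρ = t.eval I ρ' := by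
  induction t with
  | var i => exact h i (Nat.lt_succ_self i)
  | const c => rfl
  | one => rfl
  | mul s t ihs iht =>
    simp only [MTerm.eval]
    rw [ihs (fun i hi => h i (lt_of_lt_of_le hi (le_max_left _ _))),
      iht (fun i hi => h i (lt_of_lt_of_le hi (le_max_right _ _)))]
  | inv s ih =>
    simp only [MTerm.eval]
    rw [ih h]

/-- the system given by a group and an interpretation of the constants -/
def gi {C H : Type} [Group H] (k : C → H) : Interp C H where
  const := k
  one := 1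
  mul := fun a b => a * b
  inv := fun a => a⁻¹

/-! ### The group `Gam` -/

/-- A group of order 768: pairs of vectors over the field with two elements, a central
element, and a permutation. -/
@[ext]
structure Gam where
  u : Fin 3 → ZMod 2
  v : Fin 3 → ZMod 2
  m : ZMod 2
  g : Perm (Fin 3)

namespace Gam

instance : Mul Gam :=
  ⟨fun a b => ⟨fun i => a.u i + b.u (a.g⁻¹ i), fun i => a.v i + b.v (a.g⁻¹ i),
    a.m + b.m + ∑ i, a.u i * b.v (a.g⁻¹ i), a.g * b.g⟩⟩

instance : One Gam := ⟨⟨0, 0, 0, 1⟩⟩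

instance : Inv Gam :=
  ⟨fun a => ⟨fun i => a.u (a.g i), fun i => a.v (a.g i),
    a.m + ∑ i, a.u i * a.v i, a.g⁻¹⟩⟩

theorem mul_def (a b : Gam) : a * b = ⟨fun i => a.u i + b.u (a.g⁻¹ i),
    fun i => a.v i + b.v (a.g⁻¹ i), a.m + b.m + ∑ i, a.u i * b.v (a.g⁻¹ i), a.g * b.g⟩ := rfl

theorem one_def : (1 : Gam) = ⟨0, 0, 0, 1⟩ := rfl

theorem inv_def (a : Gam) : a⁻¹ = ⟨fun i => a.u (a.g i), fun i => a.v (a.g i),
    a.m + ∑ i, a.u i * a.v i, a.g⁻¹⟩ := rfl

theorem two_add (x : ZMod 2) : x + x = 0 := by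
  revert x; decide

instance : Group Gam :=
  Group.ofLeftAxioms
    (by
      intro a b c
      simp only [mul_def]
      ext i
      · simp only [add_assoc, mul_inv_rev, Perm.mul_apply]
      · simp only [add_assoc, mul_inv_rev, Perm.mul_apply]
      · simp only [mul_inv_rev, Perm.mul_apply, add_mul, mul_add, Finset.sum_add_distrib]
        have h : ∑ i, b.u (a.g⁻¹ i) * c.v (b.g⁻¹ (a.g⁻¹ i)) = ∑ i, b.u i * c.v (b.g⁻¹ i) :=
          Equiv.sum_comp a.g⁻¹ (fun i => b.u i * c.v (b.g⁻¹ i))
        rw [h]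
        ring
      · simp only [mul_assoc])
    (by
      intro a
      simp only [mul_def, one_def]
      ext i <;> simp)
    (by
      intro a
      simp only [mul_def, one_def, inv_def]
      ext i
      · simp only [inv_inv, two_add, Pi.zero_apply]
      · simp only [inv_inv, two_add, Pi.zero_apply]
      · have h : ∑ i, a.u (a.g i) * a.v ((a.g⁻¹)⁻¹ i) = ∑ i, a.u i * a.v i := by
          simp only [inv_inv]
          exact Equiv.sum_comp a.g (fun i => a.u i * a.v i)
        simp only
        rw [h]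
        have := two_add (∑ i, a.u i * a.v i)
        have h2 := two_add a.m
        linear_combination this + h2
      · simp)

instance : Finite Gam :=
  Finite.of_injective (fun a : Gam => (a.u, a.v, a.m, a.g)) (by
    intro a b h
    simp only [Prod.mk.injEq] at h
    exact Gam.ext h.1 h.2.1 h.2.2.1 h.2.2.2)

/-- the sign of the permutation part, in the field with two elements -/
def sg (g : Perm (Fin 3)) : ZMod 2 := if Perm.sign g = 1 then 0 else 1

theorem sg_mul : ∀ g h : Perm (Fin 3), sg (g * h) = sg g + sg h := by decide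

theorem sg_one : sg 1 = 0 := by decide

theorem sg_inv : ∀ g : Perm (Fin 3), sg g⁻¹ = sg g := by decide

/-- the sign map on `Gam` -/
def eps (a : Gam) : ZMod 2 := sg a.g

theorem eps_mul (a b : Gam) : eps (a * b) = eps a + eps b := sg_mul _ _

theorem eps_one : eps 1 = 0 := sg_one

theorem eps_inv (a : Gam) : eps a⁻¹ = eps a := sg_inv _

/-- the central elements -/
def chi (a : ZMod 2) : Gam := ⟨0, 0, a, 1⟩

theorem chi_add (a b : ZMod 2) : chi (a + b) = chi a * chi b := by
  simp only [chi, mul_def]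
  ext i <;> simp

theorem chi_zero : chi 0 = 1 := rfl

theorem chi_inj {a b : ZMod 2} (h : chi a = chi b) : a = b := congrArg Gam.m h

theorem chi_comm (a : ZMod 2) (x : Gam) : chi a * x = x * chi a := by
  simp only [chi, mul_def]
  ext i <;> simp [add_comm]

theorem chi_inv (a : ZMod 2) : (chi a)⁻¹ = chi a := by
  rw [inv_eq_iff_mul_eq_one, ← chi_add, two_add, chi_zero]

theorem eps_chi (a : ZMod 2) : eps (chi a) = 0 := sg_one

/-- the first noncentral element -/
def c0 : Gam := ⟨Pi.single 0 1, 0, 0, 1⟩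

/-- the second noncentral element -/
def d0 : Gam := ⟨0, Pi.single 2 1, 0, 1⟩

/-- the element of order three -/
def s0 : Gam := ⟨0, 0, 0, finRotate 3⟩

/-- an element of sign one -/
def t0 : Gam := ⟨0, 0, 0, Equiv.swap 0 1⟩

end Gam

/-! ### The words -/

/-- iterated commutators -/
def itc {G : Type} [Group G] (s : G) (x : ℕ → G) : ℕ → G
  | 0 => s
  | k + 1 => x k * itc s x k * (x k)⁻¹ * (itc s x k)⁻¹

/-- the word whose value detects the product of all signs -/
def wf {G : Type} [Group G] (c d s : G) (x : ℕ → G) (N : ℕ) : G :=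
  c * (itc s x N * d * (itc s x N)⁻¹) * c⁻¹ * (itc s x N * d * (itc s x N)⁻¹)⁻¹

theorem map_itc {G H : Type} [Group G] [Group H] (f : G →* H) (s : G) (x : ℕ → G) (k : ℕ) :
    f (itc s x k) = itc (f s) (fun i => f (x i)) k := by
  induction k with
  | zero => rfl
  | succ k ih => simp only [itc, map_mul, map_inv, ih]

theorem map_wf {G H : Type} [Group G] [Group H] (f : G →* H) (c d s : G) (x : ℕ → G) (N : ℕ) :
    f (wf c d s x N) = wf (f c) (f d) (f s) (fun i => f (x i)) N := by
  simp only [wf, map_mul, map_inv, map_itc]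

/-- the iterated commutator as a term -/
def itcT {C : Type} (s : C) : ℕ → MTerm C
  | 0 => .const s
  | k + 1 => .mul (.mul (.mul (.var k) (itcT s k)) (.inv (.var k))) (.inv (itcT s k))

/-- the word as a term -/
def wfT {C : Type} (c d s : C) (N : ℕ) : MTerm C :=
  .mul (.mul (.mul (.const c) (.mul (.mul (itcT s N) (.const d)) (.inv (itcT s N))))
    (.inv (.const c))) (.inv (.mul (.mul (itcT s N) (.const d)) (.inv (itcT s N))))

theorem eval_itcT {C H : Type} [Group H] (k : C → H) (ρ : ℕ → H) (s : C) (N : ℕ) :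
    (itcT s N).eval (gi k) ρ = itc (k s) ρ N := by
  induction N with
  | zero => rfl
  | succ N ih => simp only [itcT, itc, MTerm.eval, ih]; rfl

theorem eval_wfT {C H : Type} [Group H] (k : C → H) (ρ : ℕ → H) (c d s : C) (N : ℕ) :
    (wfT c d s N).eval (gi k) ρ = wf (k c) (k d) (k s) ρ N := by
  simp only [wfT, wf, MTerm.eval, eval_itcT]; rfl

namespace Gam

theorem perm_comm : ∀ g : Perm (Fin 3),
    g * finRotate 3 * g⁻¹ * (finRotate 3)⁻¹ = if sg g = 1 then finRotate 3 else 1 := by
  decide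

theorem itc_g (x : ℕ → Gam) (N : ℕ) :
    (itc s0 x N).g = if (∏ i ∈ Finset.range N, eps (x i)) = 1 then finRotate 3 else 1 := by
  induction N with
  | zero => rfl
  | succ N ih =>
    have h : (itc s0 x (N + 1)).g
        = (x N).g * (itc s0 x N).g * (x N).g⁻¹ * (itc s0 x N).g⁻¹ := rfl
    rw [h, ih, Finset.prod_range_succ]
    have key : ∀ (p : ZMod 2) (g : Perm (Fin 3)),
        g * (if p = 1 then finRotate 3 else 1) * g⁻¹ * (if p = 1 then finRotate 3 else 1)⁻¹
          = if p * sg g = 1 then finRotate 3 else 1 := by decide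
    exact key _ _

theorem comm_c0 (v : Fin 3 → ZMod 2) (m : ZMod 2) :
    c0 * (⟨0, v, m, 1⟩ : Gam) * c0⁻¹ * (⟨0, v, m, 1⟩ : Gam)⁻¹ = chi (v 0) := by
  simp only [c0, chi, mul_def, inv_def]
  ext i
  · simp [two_add]
  · simp [two_add]
  · have h := two_add m
    simp only [Pi.zero_apply, inv_one, Perm.coe_one, id_eq, zero_add, mul_zero, zero_mul,
      add_zero, Finset.sum_const_zero, Fin.sum_univ_three, Pi.single_apply, one_mul, mul_one,
      if_true]
    simp only [show (1 : Fin 3) ≠ 0 by decide, show (2 : Fin 3) ≠ 0 by decide, if_false,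
      zero_mul, add_zero, zero_add]
    have h3 := two_add (v 0)
    linear_combination h + h3
  · simp

theorem conj_d0 (w : Gam) : ∃ m : ZMod 2, w * d0 * w⁻¹
    = (⟨0, fun i => if w.g 2 = i then 1 else 0, m, 1⟩ : Gam) := by
  refine ⟨(w * d0 * w⁻¹).m, ?_⟩
  ext i
  · simp [mul_def, inv_def, d0, two_add]
  · have h2 := two_add (w.v i)
    have h3 : w.g (w.g⁻¹ i) = i := by simp
    have h4 : w.g⁻¹ (w.g 2) = 2 := by simp
    have h5 : (w * d0 * w⁻¹).v i
        = w.v i + (Pi.single 2 1 : Fin 3 → ZMod 2) (w.g⁻¹ i) + w.v (w.g (w.g⁻¹ i)) := by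
      simp only [mul_def, inv_def, d0, mul_one]
    rw [h5, h3, Pi.single_apply, add_right_comm, h2, zero_add]
    by_cases hc : w.g 2 = i
    · rw [if_pos (by rw [← hc, h4])]
      simp [hc]
    · rw [if_neg]
      · simp [hc]
      · intro h
        apply hc
        rw [← h, h3]
  · rfl
  · simp [mul_def, inv_def, d0]

theorem wf_val (x : ℕ → Gam) (N : ℕ) :
    wf c0 d0 s0 x N = chi (∏ i ∈ Finset.range N, eps (x i)) := by
  have hconj : ∀ w : Gam, c0 * (w * d0 * w⁻¹) * c0⁻¹ * (w * d0 * w⁻¹)⁻¹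
      = chi (if w.g 2 = 0 then 1 else 0) := by
    intro w
    obtain ⟨m, hm⟩ := conj_d0 w
    rw [hm, comm_c0]
  unfold wf
  rw [hconj, itc_g]
  congr 1
  have : ∀ p : ZMod 2, (if (if p = 1 then finRotate 3 else 1 : Perm (Fin 3)) 2 = 0
      then (1 : ZMod 2) else 0) = p := by decide
  exact this _

/-! ### The finite group -/

/-- pairs of elements of the same sign -/
def Fib : Subgroup (Gam × Gam) where
  carrier := {p | eps p.1 = eps p.2}
  mul_mem' := by
    intro a b ha hb
    simp only [Set.mem_setOf_eq] at *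
    rw [Prod.fst_mul, Prod.snd_mul, eps_mul, eps_mul, ha, hb]
  one_mem' := rfl
  inv_mem' := by
    intro a ha
    simp only [Set.mem_setOf_eq] at *
    rw [Prod.fst_inv, Prod.snd_inv, eps_inv, eps_inv, ha]

/-- the diagonal central subgroup -/
def DZ : Subgroup Fib where
  carrier := {p | ∃ a : ZMod 2, (p : Gam × Gam) = (chi a, chi a)}
  mul_mem' := by
    rintro x y ⟨a, ha⟩ ⟨b, hb⟩
    refine ⟨a + b, ?_⟩
    rw [Subgroup.coe_mul, ha, hb, Prod.mk_mul_mk, chi_add]
  one_mem' := ⟨0, rfl⟩
  inv_mem' := by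
    rintro x ⟨a, ha⟩
    refine ⟨a, ?_⟩
    rw [Subgroup.coe_inv, ha, Prod.inv_mk, chi_inv]

instance : DZ.Normal where
  conj_mem := by
    rintro x ⟨a, ha⟩ g
    refine ⟨a, ?_⟩
    rw [Subgroup.coe_mul, Subgroup.coe_mul, Subgroup.coe_inv, ha]
    ext1
    · simp only [Prod.fst_mul, Prod.fst_inv]
      rw [← chi_comm, mul_assoc, mul_inv_cancel, mul_one]
    · simp only [Prod.snd_mul, Prod.snd_inv]
      rw [← chi_comm, mul_assoc, mul_inv_cancel, mul_one]

/-- the finite group: pairs of elements of `Gam` of the same sign, modulo the diagonal centre -/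
abbrev GG : Type := Fib ⧸ DZ

/-- the first coordinate of a representative -/
noncomputable def k1 (g : GG) : Gam := (Quotient.out g : Fib).1.1

/-- the second coordinate of a representative -/
noncomputable def k2 (g : GG) : Gam := (Quotient.out g : Fib).1.2

theorem eps_k (g : GG) : eps (k1 g) = eps (k2 g) := (Quotient.out g : Fib).2

theorem mk_k (g : GG) : (QuotientGroup.mk (⟨(k1 g, k2 g), eps_k g⟩ : Fib) : GG) = g :=
  QuotientGroup.out_eq' g

/-- Evaluating a term in the finite group through representatives. -/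
theorem eval_GG (t : MTerm GG) (x y : ℕ → Gam) (hxy : ∀ i, eps (x i) = eps (y i)) :
    ∃ h : eps (t.eval (gi k1) x) = eps (t.eval (gi k2) y),
      t.eval (star GG) (fun i => QuotientGroup.mk (⟨(x i, y i), hxy i⟩ : Fib))
        = QuotientGroup.mk (⟨(t.eval (gi k1) x, t.eval (gi k2) y), h⟩ : Fib) := by
  have h1 := MTerm.eval_hom (gi (fun g : GG => (Quotient.out g : Fib))) (gi k1)
    (fun p : Fib => p.1.1) (fun _ => rfl) rfl (fun _ _ => rfl) (fun _ => rfl)
    (fun i => (⟨(x i, y i), hxy i⟩ : Fib)) t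
  have h2 := MTerm.eval_hom (gi (fun g : GG => (Quotient.out g : Fib))) (gi k2)
    (fun p : Fib => p.1.2) (fun _ => rfl) rfl (fun _ _ => rfl) (fun _ => rfl)
    (fun i => (⟨(x i, y i), hxy i⟩ : Fib)) t
  have h3 := MTerm.eval_hom (gi (fun g : GG => (Quotient.out g : Fib))) (star GG)
    (fun p : Fib => (QuotientGroup.mk p : GG)) (fun g => QuotientGroup.out_eq' g) rfl
    (fun _ _ => rfl) (fun _ => rfl) (fun i => (⟨(x i, y i), hxy i⟩ : Fib)) t
  set p : Fib := t.eval (gi (fun g : GG => (Quotient.out g : Fib)))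
    (fun i => (⟨(x i, y i), hxy i⟩ : Fib)) with hp
  have hp2 := p.2
  refine ⟨?_, ?_⟩
  · rw [← h1, ← h2]
    exact hp2
  · rw [← h3]
    congr 1
    apply Subtype.ext
    exact Prod.ext h1 h2

/-- An identity of the finite group, read in `Gam`. -/
theorem identity_Gam (e : MTerm GG × MTerm GG) (he : e ∈ mixedIdentities GG)
    (x y : ℕ → Gam) (hxy : ∀ i, eps (x i) = eps (y i)) :
    ∃ a : ZMod 2, e.2.eval (gi k1) x = e.1.eval (gi k1) x * chi a ∧
      e.2.eval (gi k2) y = e.1.eval (gi k2) y * chi a := by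
  obtain ⟨h1, h1'⟩ := eval_GG e.1 x y hxy
  obtain ⟨h2, h2'⟩ := eval_GG e.2 x y hxy
  have h := he (fun i => QuotientGroup.mk (⟨(x i, y i), hxy i⟩ : Fib))
  rw [h1', h2', QuotientGroup.eq] at h
  obtain ⟨a, ha⟩ := h
  rw [Subgroup.coe_mul, Subgroup.coe_inv, Prod.inv_mk, Prod.mk_mul_mk, Prod.mk.injEq] at ha
  refine ⟨a, ?_, ?_⟩
  · rw [← ha.1, mul_inv_cancel_left]
  · rw [← ha.2, mul_inv_cancel_left]

/-! ### The infinite family of models -/

/-- functions on the cube with values in `Gam` and affine sign -/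
def HB (N : ℕ) : Subgroup ((Fin N → ZMod 2) → Gam) where
  carrier := {f | ∃ (c : ZMod 2) (l : (Fin N → ZMod 2) →+ ZMod 2), ∀ e, eps (f e) = c + l e}
  mul_mem' := by
    rintro a b ⟨c, l, h⟩ ⟨c', l', h'⟩
    refine ⟨c + c', l + l', fun e => ?_⟩
    rw [Pi.mul_apply, eps_mul, h, h', AddMonoidHom.add_apply]
    ring
  one_mem' := ⟨0, 0, fun e => by rw [Pi.one_apply, eps_one]; simp⟩
  inv_mem' := by
    rintro a ⟨c, l, h⟩
    exact ⟨c, l, fun e => by rw [Pi.inv_apply, eps_inv, h]⟩

/-- central functions with product one -/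
def Z0 (N : ℕ) : Subgroup (HB N) where
  carrier := {f | ∃ z : (Fin N → ZMod 2) → ZMod 2, (∑ e, z e = 0) ∧ ∀ e, f.1 e = chi (z e)}
  mul_mem' := by
    rintro a b ⟨z, hz, h⟩ ⟨z', hz', h'⟩
    refine ⟨fun e => z e + z' e, ?_, fun e => ?_⟩
    · rw [Finset.sum_add_distrib, hz, hz', add_zero]
    · rw [Subgroup.coe_mul, Pi.mul_apply, h, h', chi_add]
  one_mem' := ⟨fun _ => 0, by simp, fun e => rfl⟩
  inv_mem' := by
    rintro a ⟨z, hz, h⟩
    exact ⟨z, hz, fun e => by rw [Subgroup.coe_inv, Pi.inv_apply, h, chi_inv]⟩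

instance (N : ℕ) : (Z0 N).Normal where
  conj_mem := by
    rintro x ⟨z, hz, h⟩ g
    refine ⟨z, hz, fun e => ?_⟩
    rw [Subgroup.coe_mul, Subgroup.coe_mul, Subgroup.coe_inv, Pi.mul_apply, Pi.mul_apply,
      Pi.inv_apply, h, ← chi_comm, mul_assoc, mul_inv_cancel, mul_one]

/-- the model -/
abbrev HH (N : ℕ) : Type := HB N ⧸ Z0 N

/-- constant functions -/
def cst (N : ℕ) (a : Gam) : HB N := ⟨fun _ => a, eps a, 0, fun e => by simp⟩

/-- the interpretation of the constants in the model -/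
noncomputable def io (N : ℕ) (g : GG) : HH N := QuotientGroup.mk (cst N (k1 g))

theorem eval_HH (N : ℕ) (t : MTerm GG) (f : ℕ → HB N) :
    ∃ p : HB N, (∀ e, p.1 e = t.eval (gi k1) (fun i => (f i).1 e)) ∧
      t.eval (gi (io N)) (fun i => QuotientGroup.mk (f i)) = QuotientGroup.mk p := by
  refine ⟨t.eval (gi (fun g => cst N (k1 g))) f, fun e => ?_, ?_⟩
  · exact MTerm.eval_hom (gi (fun g => cst N (k1 g))) (gi k1) (fun p : HB N => p.1 e)
      (fun _ => rfl) rfl (fun _ _ => rfl) (fun _ => rfl) f t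
  · exact (MTerm.eval_hom (gi (fun g => cst N (k1 g))) (gi (io N))
      (fun p : HB N => (QuotientGroup.mk p : HH N))
      (fun _ => rfl) rfl (fun _ _ => rfl) (fun _ => rfl) f t).symm

theorem exists_period (n N : ℕ) (h : n < N) (l : ℕ → (Fin N → ZMod 2) →+ ZMod 2) :
    ∃ v : Fin N → ZMod 2, v ≠ 0 ∧ ∀ i < n, l i v = 0 := by
  classical
  have hcard : Fintype.card (Fin n → ZMod 2) < Fintype.card (Fin N → ZMod 2) := by
    simp only [Fintype.card_pi, ZMod.card, Finset.prod_const, Finset.card_univ, Fintype.card_fin]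
    exact Nat.pow_lt_pow_right (by norm_num) h
  obtain ⟨x, y, hxy, he⟩ := Fintype.exists_ne_map_eq_of_card_lt
    (fun (x : Fin N → ZMod 2) (i : Fin n) => l i x) hcard
  refine ⟨x - y, sub_ne_zero.mpr hxy, fun i hi => ?_⟩
  have := congrFun he ⟨i, hi⟩
  simp only at this
  rw [map_sub, this, sub_self]

theorem sum_zero_of_period {N : ℕ} (v : Fin N → ZMod 2) (hv : v ≠ 0)
    (z : (Fin N → ZMod 2) → ZMod 2) (hz : ∀ e, z (e + v) = z e) : ∑ e, z e = 0 := by
  classical
  have h2 : v + v = 0 := by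
    funext i
    exact two_add _
  apply Finset.sum_involution (fun e _ => e + v)
  · intro e _
    rw [hz, two_add]
  · intro e _ _ h
    exact hv (by simpa using h)
  · intro e _
    exact Finset.mem_univ _
  · intro e _
    rw [add_assoc, h2, add_zero]

/-- Mixed identities in few variables hold in the model. -/
theorem holds_HH (N : ℕ) (e : MTerm GG × MTerm GG) (he : e ∈ mixedIdentities GG)
    (h1 : e.1.bound < N) (h2 : e.2.bound < N) : Holds (gi (io N)) e := by
  intro ρ
  obtain ⟨f, hf⟩ : ∃ f : ℕ → HB N, ∀ i, QuotientGroup.mk (f i) = ρ i :=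
    ⟨fun i => Quotient.out (ρ i), fun i => QuotientGroup.out_eq' (ρ i)⟩
  obtain rfl : (fun i => (QuotientGroup.mk (f i) : HH N)) = ρ := funext hf
  obtain ⟨p, hp, hp'⟩ := eval_HH N e.1 f
  obtain ⟨q, hq, hq'⟩ := eval_HH N e.2 f
  rw [hp', hq', QuotientGroup.eq]
  have hid : ∀ t, ∃ a : ZMod 2, q.1 t = p.1 t * chi a := by
    intro t
    obtain ⟨a, ha, -⟩ := identity_Gam e he (fun i => (f i).1 t) (fun i => (f i).1 t)
      (fun _ => rfl)
    exact ⟨a, by rw [hp, hq, ha]⟩
  choose z hz using hid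
  choose c l hcl using fun i => (f i).2
  obtain ⟨v, hv, hv'⟩ := exists_period (max e.1.bound e.2.bound) N (max_lt h1 h2) l
  have hper : ∀ t, z (t + v) = z t := by
    intro t
    -- replace the irrelevant variables by those at `t`
    set g : ℕ → Gam := fun i => if i < max e.1.bound e.2.bound then (f i).1 (t + v)
      else (f i).1 t with hg
    have hsame : ∀ i, eps (g i) = eps ((f i).1 t) := by
      intro i
      simp only [hg]
      split_ifs with hi
      · rw [hcl i (t + v), hcl i t, map_add, hv' i hi, add_zero]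
      · rfl
    obtain ⟨a, ha, ha'⟩ := identity_Gam e he g (fun i => (f i).1 t) hsame
    obtain ⟨b, hb, hb'⟩ := identity_Gam e he (fun i => (f i).1 t) (fun i => (f i).1 t)
      (fun _ => rfl)
    have hba : b = a := by
      have : e.1.eval (gi k2) (fun i => (f i).1 t) * chi b
          = e.1.eval (gi k2) (fun i => (f i).1 t) * chi a := by
        rw [← ha', ← hb']
      exact chi_inj (mul_left_cancel this)
    have e1 : e.1.eval (gi k1) g = p.1 (t + v) := by
      rw [hp]
      apply MTerm.eval_congr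
      intro i hi
      simp only [hg]
      rw [if_pos (lt_of_lt_of_le hi (le_max_left _ _))]
    have e2 : e.2.eval (gi k1) g = q.1 (t + v) := by
      rw [hq]
      apply MTerm.eval_congr
      intro i hi
      simp only [hg]
      rw [if_pos (lt_of_lt_of_le hi (le_max_right _ _))]
    have za : z (t + v) = a := by
      rw [e1, e2, hz] at ha
      exact chi_inj (mul_left_cancel ha)
    have zb : z t = b := by
      rw [← hp, ← hq, hz] at hb
      exact chi_inj (mul_left_cancel hb)
    rw [za, zb, hba]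
  refine ⟨z, sum_zero_of_period v hv z hper, fun t => ?_⟩
  rw [Subgroup.coe_mul, Subgroup.coe_inv, Pi.mul_apply, Pi.inv_apply, hz, inv_mul_cancel_left]

/-- the constants of the word in the finite group -/
noncomputable def cG (a : Gam) : GG := QuotientGroup.mk (⟨(a, a), rfl⟩ : Fib)

theorem io_cG (N : ℕ) (hN : 0 < N) (a : Gam) : io N (cG a) = QuotientGroup.mk (cst N a) := by
  have h := mk_k (cG a)
  unfold cG at h
  rw [QuotientGroup.eq] at h
  obtain ⟨b, hb⟩ := h
  rw [Subgroup.coe_mul, Subgroup.coe_inv, Prod.inv_mk, Prod.mk_mul_mk, Prod.mk.injEq] at hb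
  unfold io
  rw [QuotientGroup.eq]
  refine ⟨fun _ => b, ?_, fun e => hb.1⟩
  rw [Finset.sum_const, Finset.card_univ, Fintype.card_pi]
  simp only [ZMod.card, Finset.prod_const, Finset.card_univ, Fintype.card_fin]
  obtain ⟨m, rfl⟩ := Nat.exists_eq_succ_of_ne_zero hN.ne'
  rw [Nat.succ_eq_add_one, pow_succ, mul_comm, mul_smul, two_nsmul, two_add]

/-- the word of length `N` is a mixed identity of the finite group -/
theorem word_mem (N : ℕ) :
    ((wfT (cG c0) (cG d0) (cG s0) N, .one) : MTerm GG × MTerm GG) ∈ mixedIdentities GG := by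
  intro ρ
  change (wfT (cG c0) (cG d0) (cG s0) N).eval (gi (fun g : GG => g)) ρ = 1
  rw [eval_wfT]
  obtain ⟨f, hf⟩ : ∃ f : ℕ → Fib, ∀ i, QuotientGroup.mk (f i) = ρ i :=
    ⟨fun i => Quotient.out (ρ i), fun i => QuotientGroup.out_eq' (ρ i)⟩
  obtain rfl : (fun i => (QuotientGroup.mk (f i) : GG)) = ρ := funext hf
  have h := map_wf (QuotientGroup.mk' DZ) (⟨(c0, c0), rfl⟩ : Fib) (⟨(d0, d0), rfl⟩ : Fib)
    (⟨(s0, s0), rfl⟩ : Fib) f N
  change _ = wf (cG c0) (cG d0) (cG s0) (fun i => (QuotientGroup.mk (f i) : GG)) N at h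
  rw [← h, QuotientGroup.mk'_apply, QuotientGroup.eq_one_iff]
  have hf1 := map_wf ((MonoidHom.fst Gam Gam).comp Fib.subtype) (⟨(c0, c0), rfl⟩ : Fib)
    (⟨(d0, d0), rfl⟩ : Fib) (⟨(s0, s0), rfl⟩ : Fib) f N
  have hf2 := map_wf ((MonoidHom.snd Gam Gam).comp Fib.subtype) (⟨(c0, c0), rfl⟩ : Fib)
    (⟨(d0, d0), rfl⟩ : Fib) (⟨(s0, s0), rfl⟩ : Fib) f N
  refine ⟨∏ i ∈ Finset.range N, eps (f i).1.1, ?_⟩
  apply Prod.ext
  · refine hf1.trans ?_
    exact wf_val (fun i => (f i).1.1) N
  · refine hf2.trans ?_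
    refine (wf_val (fun i => (f i).1.2) N).trans ?_
    congr 1
    exact Finset.prod_congr rfl (fun i _ => ((f i).2).symm)

/-- the word of length `N` fails in the model with parameter `N` -/
theorem word_fails (N : ℕ) (hN : 0 < N) :
    ¬ Holds (gi (io N)) ((wfT (cG c0) (cG d0) (cG s0) N, .one) : MTerm GG × MTerm GG) := by
  classical
  intro h
  -- the functions with value `t0` where the coordinate is one
  let f : ℕ → HB N := fun i =>
    if hi : i < N then ⟨fun e => if e ⟨i, hi⟩ = 1 then t0 else 1, 0,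
      Pi.evalAddMonoidHom (fun _ : Fin N => ZMod 2) ⟨i, hi⟩, fun e => by
        have : ∀ a : ZMod 2, eps (if a = 1 then t0 else 1) = 0 + a := by decide
        exact this _⟩
    else 1
  have h1 := h (fun i => QuotientGroup.mk (f i))
  change (wfT (cG c0) (cG d0) (cG s0) N).eval (gi (io N)) _ = 1 at h1
  rw [eval_wfT, io_cG N hN, io_cG N hN, io_cG N hN] at h1
  have h2 := map_wf (QuotientGroup.mk' (Z0 N)) (cst N c0) (cst N d0) (cst N s0) f N
  change _ = wf (QuotientGroup.mk (cst N c0) : HH N) (QuotientGroup.mk (cst N d0))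
    (QuotientGroup.mk (cst N s0)) (fun i => (QuotientGroup.mk (f i) : HH N)) N at h2
  rw [← h2, QuotientGroup.mk'_apply, QuotientGroup.eq_one_iff] at h1
  obtain ⟨z, hz, hz'⟩ := h1
  have hval : ∀ e, z e = if e = (fun _ => 1) then 1 else 0 := by
    intro e
    have h3 := map_wf ((Pi.evalMonoidHom (fun _ : Fin N → ZMod 2 => Gam) e).comp
      (HB N).subtype) (cst N c0) (cst N d0) (cst N s0) f N
    have h4 : chi (z e) = chi (∏ i ∈ Finset.range N, eps ((f i).1 e)) := by
      rw [← hz' e]
      exact h3.trans (wf_val (fun i => (f i).1 e) N)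
    rw [chi_inj h4]
    have h5 : ∀ i : Fin N, eps ((f i).1 e) = e i := by
      intro i
      have : ∀ a : ZMod 2, eps (if a = 1 then t0 else 1) = a := by decide
      simp only [f, i.2, dif_pos]
      exact this _
    rw [← Fin.prod_univ_eq_prod_range (fun i => eps ((f i).1 e)) N]
    rw [Finset.prod_congr rfl (fun i _ => h5 i)]
    by_cases hc : e = fun _ => 1
    · rw [if_pos hc, hc]; simp
    · rw [if_neg hc]
      obtain ⟨i, hi⟩ : ∃ i, e i ≠ 1 := by
        by_contra hcon
        push_neg at hcon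
        exact hc (funext hcon)
      apply Finset.prod_eq_zero (Finset.mem_univ i)
      have : ∀ a : ZMod 2, a ≠ 1 → a = 0 := by decide
      exact this _ hi
  rw [Finset.sum_congr rfl (fun e _ => hval e), Finset.sum_ite_eq' Finset.univ] at hz
  simp at hz

theorem not_finitelyBased : ¬ MixedFinitelyBased GG := by
  rintro ⟨S, hfin, hS, hb⟩
  obtain ⟨n, hn⟩ : ∃ n : ℕ, ∀ e ∈ S, e.1.bound < n ∧ e.2.bound < n := by
    obtain ⟨n, hn⟩ := (hfin.image (fun e => max e.1.bound e.2.bound)).bddAbove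
    refine ⟨n + 1, fun e he => ?_⟩
    have := hn (Set.mem_image_of_mem _ he)
    simp only [max_le_iff] at this
    omega
  have hN : 0 < n + 1 := Nat.succ_pos n
  apply word_fails (n + 1) hN
  have hmod : ∀ e ∈ S, Holds (gi (io (n + 1))) e := fun e he =>
    holds_HH (n + 1) e (hS he) (by have := (hn e he).1; omega) (by have := (hn e he).2; omega)
  exact Derives.sound (gi (io (n + 1))) hmod (hb _ (word_mem (n + 1)))

end Gam

end Pool.Agent.Helper60.Mixed
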