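import Mathlib

namespace Pool.Agent.Helper60

section Nil3

variable {R : Type*} [NonUnitalRing R]

/-- linearisation of `x ^ 3 = 0` -/
theorem nil_S (h3 : ∀ x : R, x * x * x = 0) (x y z : R) :
    x * y * z + x * z * y + y * x * z + y * z * x + z * x * y + z * y * x = 0 := by
  have e : x * y * z + x * z * y + y * x * z + y * z * x + z * x * y + z * y * x =
      (x + y + z) * (x + y + z) * (x + y + z) - (x + y) * (x + y) * (x + y)
      - (x + z) * (x + z) * (x + z) - (y + z) * (y + z) * (y + z) + x * x * x + y * y * y + z * z * z := by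
    simp only [mul_add, add_mul, mul_assoc]; abel
  rw [e]; simp only [h3]; simp

theorem nil_D (h3 : ∀ x : R, x * x * x = 0) (x y : R) :
    x * x * y + x * y * x + y * x * x + y * y * x + y * x * y + x * y * y = 0 := by
  have e : x * x * y + x * y * x + y * x * x + y * y * x + y * x * y + x * y * y =
      (x + y) * (x + y) * (x + y) - x * x * x - y * y * y := by
    simp only [mul_add, add_mul, mul_assoc]; abel
  rw [e]; simp only [h3]; simp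

theorem nil_D' (h3 : ∀ x : R, x * x * x = 0) (x y : R) :
    x * x * y + x * y * x + y * x * x = y * y * x + y * x * y + x * y * y := by
  have e : x * x * y + x * y * x + y * x * x - (y * y * x + y * x * y + x * y * y) =
      (y - x) * (y - x) * (y - x) + x * x * x - y * y * y := by
    simp only [mul_sub, sub_mul, mul_assoc]; abel
  rw [← sub_eq_zero, e]; simp only [h3]; simp

theorem nil_two_a (h3 : ∀ x : R, x * x * x = 0) (x y : R) :
    (2 : ℤ) • (x * x * y + x * y * x + y * x * x) = 0 := by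
  have h1 := nil_D h3 x y
  have h2 := nil_D' h3 x y
  have : (2 : ℤ) • (x * x * y + x * y * x + y * x * x) =
    (x * x * y + x * y * x + y * x * x + y * y * x + y * x * y + x * y * y) +
    ((x * x * y + x * y * x + y * x * x) - (y * y * x + y * x * y + x * y * y)) := by abel
  rw [this, h1, h2]; simp

/-- Higman: `6 x^2 z y^2 = 0` -/
theorem nil_six (h3 : ∀ x : R, x * x * x = 0) (x z y : R) :
    (6 : ℤ) • (x * x * z * (y * y)) = 0 := by
  have a1 := nil_two_a h3 x z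
  have a2 := nil_two_a h3 x (z * y)
  have a3 := nil_two_a h3 x (z * (y * y))
  have a4 := nil_two_a h3 y x
  have a5 := nil_two_a h3 y (x * x)
  have e : (6 : ℤ) • (x * x * z * (y * y)) =
      ((2 : ℤ) • (x * x * z + x * z * x + z * x * x)) * (y * y) +
      ((2 : ℤ) • (x * x * (z * y) + x * (z * y) * x + (z * y) * x * x)) * y +
      ((2 : ℤ) • (x * x * (z * (y * y)) + x * (z * (y * y)) * x + (z * (y * y)) * x * x)) -
      (x * z) * ((2 : ℤ) • (y * y * x + y * x * y + x * y * y)) -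
      z * ((2 : ℤ) • (y * y * (x * x) + y * (x * x) * y + (x * x) * y * y)) := by
    simp only [mul_add, add_mul, mul_assoc, smul_add, smul_mul_assoc, mul_smul_comm]; abel
  rw [e, a1, a2, a3, a4, a5]; simp

/-- characteristic 2: `x^2 z y^2 = 0` -/
theorem nil_char_two (h2 : ∀ x : R, x + x = 0) (h3 : ∀ x : R, x * x * x = 0) (a c b : R) :
    a * a * c * (b * b) = 0 := by
  have C := h3
  have D := nil_D h3
  have S := nil_S h3
  have e : a * a * c * (b * b) =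
      (a*a*a)*(b*c) + (a)*(b*b*b)*(c) + (a*c)*(b*b*b)
      + (a * a * b + a * b * a + b * a * a + b * b * a + b * a * b + a * b * b)*(b*c)
      + (a * a * b + a * b * a + b * a * a + b * b * a + b * a * b + a * b * b)*(c*b)
      + (a)*(a * a * b + a * b * a + b * a * a + b * b * a + b * a * b + a * b * b)*(c)
      + (a * b * (a*a) + a * (a*a) * b + b * a * (a*a) + b * (a*a) * a + (a*a) * a * b + (a*a) * b * a)*(c)
      + (a * b * (b*c) + a * (b*c) * b + b * a * (b*c) + b * (b*c) * a + (b*c) * a * b + (b*c) * b * a)*(b)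
      + (a)*(a * b * (b*c) + a * (b*c) * b + b * a * (b*c) + b * (b*c) * a + (b*c) * a * b + (b*c) * b * a)
      + (a*b)*(a * b * c + a * c * b + b * a * c + b * c * a + c * a * b + c * b * a)
      + (b)*(a * b * c + a * c * b + b * a * c + b * c * a + c * a * b + c * b * a)*(b)
      + (a * b * (c*b) + a * (c*b) * b + b * a * (c*b) + b * (c*b) * a + (c*b) * a * b + (c*b) * b * a)*(b)
      + (b * c * (a*a) + b * (a*a) * c + c * b * (a*a) + c * (a*a) * b + (a*a) * b * c + (a*a) * c * b)*(b)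
      + (b * c * (a*a*b) + b * (a*a*b) * c + c * b * (a*a*b) + c * (a*a*b) * b + (a*a*b) * b * c + (a*a*b) * c * b)
      + (b * c * (b*a*b) + b * (b*a*b) * c + c * b * (b*a*b) + c * (b*a*b) * b + (b*a*b) * b * c + (b*a*b) * c * b)
      - (((2:ℤ)•(a*a*a*b*c) + (1:ℤ)•(a*b*b*b*c) + (1:ℤ)•(a*c*b*b*b) + (2:ℤ)•(a*a*b*b*c) + (2:ℤ)•(a*b*a*b*c) + (1:ℤ)•(b*a*a*b*c) + (1:ℤ)•(b*b*a*b*c) + (1:ℤ)•(b*a*b*b*c) + (2:ℤ)•(a*a*b*c*b) + (1:ℤ)•(a*b*a*c*b) + (1:ℤ)•(b*a*a*c*b) + (1:ℤ)•(b*b*a*c*b) + (2:ℤ)•(b*a*b*c*b) + (1:ℤ)•(a*b*b*c*b) + (1:ℤ)•(a*a*b*a*c) + (1:ℤ)•(a*b*a*a*c) + (1:ℤ)•(a*b*b*a*c) + (1:ℤ)•(b*a*a*a*c) + (1:ℤ)•(a*b*c*b*b) + (1:ℤ)•(b*b*c*a*b) + (1:ℤ)•(b*c*a*b*b) + (2:ℤ)•(b*c*b*a*b) + (1:ℤ)•(a*b*b*c*a) + (1:ℤ)•(a*b*c*a*b) + (1:ℤ)•(a*b*c*b*a) + (1:ℤ)•(b*a*c*b*b) + (1:ℤ)•(c*b*a*b*b) + (1:ℤ)•(c*b*b*a*b) + (1:ℤ)•(b*c*a*a*b) + (1:ℤ)•(c*b*a*a*b) + (1:ℤ)•(c*a*a*b*b))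
       + ((2:ℤ)•(a*a*a*b*c) + (1:ℤ)•(a*b*b*b*c) + (1:ℤ)•(a*c*b*b*b) + (2:ℤ)•(a*a*b*b*c) + (2:ℤ)•(a*b*a*b*c) + (1:ℤ)•(b*a*a*b*c) + (1:ℤ)•(b*b*a*b*c) + (1:ℤ)•(b*a*b*b*c) + (2:ℤ)•(a*a*b*c*b) + (1:ℤ)•(a*b*a*c*b) + (1:ℤ)•(b*a*a*c*b) + (1:ℤ)•(b*b*a*c*b) + (2:ℤ)•(b*a*b*c*b) + (1:ℤ)•(a*b*b*c*b) + (1:ℤ)•(a*a*b*a*c) + (1:ℤ)•(a*b*a*a*c) + (1:ℤ)•(a*b*b*a*c) + (1:ℤ)•(b*a*a*a*c) + (1:ℤ)•(a*b*c*b*b) + (1:ℤ)•(b*b*c*a*b) + (1:ℤ)•(b*c*a*b*b) + (2:ℤ)•(b*c*b*a*b) + (1:ℤ)•(a*b*b*c*a) + (1:ℤ)•(a*b*c*a*b) + (1:ℤ)•(a*b*c*b*a) + (1:ℤ)•(b*a*c*b*b) + (1:ℤ)•(c*b*a*b*b) + (1:ℤ)•(c*b*b*a*b) + (1:ℤ)•(b*c*a*a*b) + (1:ℤ)•(c*b*a*a*b) + (1:ℤ)•(c*a*a*b*b))) := by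
    simp only [mul_add, add_mul, mul_assoc]; abel
  rw [e, S a b (a*a), S a b (b*c), S a b c, S a b (c*b), S b c (a*a), S b c (a*a*b), S b c (b*a*b),
    D a b, C a, C b, h2]
  simp

def sg (x y : R) : R := x * y + y * x

theorem six_sg (h3 : ∀ x : R, x * x * x = 0) (a b w c d : R) :
    (6 : ℤ) • (sg a b * w * sg c d) = 0 := by
  have h := nil_six h3
  have e : (6 : ℤ) • (sg a b * w * sg c d) =
      (6 : ℤ) • ((a + b) * (a + b) * w * ((c + d) * (c + d))) - (6 : ℤ) • ((a + b) * (a + b) * w * (c * c))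
      - (6 : ℤ) • ((a + b) * (a + b) * w * (d * d))
      - (6 : ℤ) • (a * a * w * ((c + d) * (c + d))) + (6 : ℤ) • (a * a * w * (c * c))
      + (6 : ℤ) • (a * a * w * (d * d))
      - (6 : ℤ) • (b * b * w * ((c + d) * (c + d))) + (6 : ℤ) • (b * b * w * (c * c))
      + (6 : ℤ) • (b * b * w * (d * d)) := by
    simp only [sg, mul_add, add_mul, mul_assoc, smul_add]; abel
  rw [e]; simp only [h]; simp

theorem two_triple (x y z : R) :
    (2 : ℤ) • (x * y * z) = sg x (y * z) - y * sg z x + sg x y * z := by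
  simp only [sg, mul_add, add_mul, mul_assoc]; abel

theorem nil_seven (h3 : ∀ x : R, x * x * x = 0) (x y z w x' y' z' : R) :
    (24 : ℤ) • (x * y * z * w * (x' * y' * z')) = 0 := by
  have H := six_sg h3
  have e : (24 : ℤ) • (x * y * z * w * (x' * y' * z')) =
      (6 : ℤ) • (((2 : ℤ) • (x * y * z)) * w * ((2 : ℤ) • (x' * y' * z'))) := by
    simp only [smul_mul_assoc, mul_smul_comm, smul_smul]; norm_num
  rw [e, two_triple, two_triple]
  have e2 : (6 : ℤ) • ((sg x (y * z) - y * sg z x + sg x y * z) * w *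
      (sg x' (y' * z') - y' * sg z' x' + sg x' y' * z')) =
      (6 : ℤ) • (sg x (y * z) * w * sg x' (y' * z')) - (6 : ℤ) • (sg x (y * z) * (w * y') * sg z' x')
      + ((6 : ℤ) • (sg x (y * z) * w * sg x' y')) * z'
      - y * ((6 : ℤ) • (sg z x * w * sg x' (y' * z'))) + y * ((6 : ℤ) • (sg z x * (w * y') * sg z' x'))
      - y * ((6 : ℤ) • (sg z x * w * sg x' y')) * z'
      + (6 : ℤ) • (sg x y * (z * w) * sg x' (y' * z')) - (6 : ℤ) • (sg x y * (z * w * y') * sg z' x')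
      + ((6 : ℤ) • (sg x y * (z * w) * sg x' y')) * z' := by
    simp only [mul_add, add_mul, mul_sub, sub_mul, mul_assoc, smul_add, smul_sub, smul_mul_assoc,
      mul_smul_comm]; abel
  rw [e2]; simp only [H]; simp

end Nil3

end Pool.Agent.Helper60
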