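import Pool.Agent.Helper60.Nil
import Pool.Agent.Helper60.Char3
import Pool.Agent.Helper60.DivFin

noncomputable section

namespace Pool.Agent.Helper60

section Pw

variable {R S : Type*} [NonUnitalRing R] [NonUnitalRing S]

/-- `pw x k` is `x` to the power `k + 1` -/
def pw (x : R) : ℕ → R
  | 0 => x
  | k + 1 => pw x k * x

theorem pw_mul (x : R) (a b : ℕ) : pw x a * pw x b = pw x (a + b + 1) := by
  induction b with
  | zero => rfl
  | succ b ih =>
    rw [pw, ← mul_assoc, ih]; rfl

theorem pw_map (f : R →ₙ+* S) (x : R) (k : ℕ) : f (pw x k) = pw (f x) k := by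
  induction k with
  | zero => rfl
  | succ k ih => rw [pw, map_mul, ih, pw]

theorem pw_mul_zero {x y : R} (h : x * y = 0) (k : ℕ) : pw x k * y = 0 := by
  induction k with
  | zero => exact h
  | succ k ih => rw [pw, mul_assoc, h, mul_zero]

theorem mul_pw_zero {x y : R} (h : y * x = 0) (k : ℕ) : y * pw x k = 0 := by
  induction k with
  | zero => exact h
  | succ k ih => rw [pw, ← mul_assoc, ih, zero_mul]

theorem pw_of_idem {x : R} (h : x * x = x) (k : ℕ) : pw x k = x := by
  induction k with
  | zero => rfl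
  | succ k ih => rw [pw, ih, h]

theorem pw_per {x : R} {m : ℕ} (h : pw x 2 = pw x (2 + m)) {a : ℕ} (ha : 2 ≤ a) : pw x a = pw x (a + m) := by
  obtain ⟨b, rfl⟩ : ∃ b, a = 2 + b := ⟨a - 2, by omega⟩
  cases b with
  | zero => exact h
  | succ b =>
    have h1 : pw x 2 * pw x b = pw x (2 + m) * pw x b := by rw [h]
    rw [pw_mul, pw_mul] at h1
    rw [show 2 + (b + 1) = 2 + b + 1 by ring, h1]
    congr 1; ring

theorem pw_per_mul {x : R} {m : ℕ} (h : pw x 2 = pw x (2 + m)) {a : ℕ} (ha : 2 ≤ a) (j : ℕ) :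
    pw x a = pw x (a + j * m) := by
  induction j with
  | zero => simp
  | succ j ih =>
    rw [ih, pw_per h (a := a + j * m) (by omega)]
    congr 1; ring

/-- the idempotent attached to `x` -/
def idp (m : ℕ) (x : R) : R := pw x (3 * m - 1)

theorem idp_idem {x : R} {m : ℕ} (hm : 1 ≤ m) (h : pw x 2 = pw x (2 + m)) :
    idp m x * idp m x = idp m x := by
  rw [idp, pw_mul, pw_per_mul h (a := 3 * m - 1) (by omega) 3]
  congr 1; omega

theorem idp_zero {x : R} {m : ℕ} (hm : 1 ≤ m) (h : pw x 2 = pw x (2 + m)) (h0 : idp m x = 0) :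
    x * x * x = 0 := by
  have h1 : x * x * x = pw x 2 := rfl
  rw [h1, pw_per_mul h le_rfl 3]
  have h2 : pw x 2 * idp m x = pw x (2 + 3 * m) := by
    rw [idp, pw_mul]; congr 1; omega
  rw [← h2, h0, mul_zero]

theorem idp_map (f : R →ₙ+* S) (m : ℕ) (x : R) : f (idp m x) = idp m (f x) := pw_map f x _

theorem nil_prod {m : ℕ} (hm : 1 ≤ m) (hper : ∀ x : R, pw x 2 = pw x (2 + m)) {e₁ e₂ e₃ e₄ : R}
    (h2 : e₂ * e₂ = e₂) (h3 : e₃ * e₃ = e₃)
    (h21 : e₂ * e₁ = 0) (h31 : e₃ * e₁ = 0) (h32 : e₃ * e₂ = 0) (h23 : e₂ * e₃ = 0)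
    (h41 : e₄ * e₁ = 0) (h42 : e₄ * e₂ = 0) (h43 : e₄ * e₃ = 0) (x y z : R) :
    e₁ * x * e₂ * y * e₃ * z * e₄ = 0 := by
  have r : ∀ {a b c : R}, a * b = c → ∀ w, a * (b * w) = c * w := fun h w => by rw [← mul_assoc, h]
  set X := e₁ * x * e₂ + e₂ * y * e₃ + e₃ * z * e₄ with hX
  have hX2 : X * X = e₁ * x * e₂ * y * e₃ + e₂ * y * e₃ * z * e₄ := by
    simp only [hX, mul_add, add_mul, mul_assoc, r h2, r h3, r h21, r h31, r h32, r h23, r h41, r h42, r h43,
      zero_mul, mul_zero, add_zero, zero_add]
  have hX3 : X * X * X = e₁ * x * e₂ * y * e₃ * z * e₄ := by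
    rw [hX2]
    simp only [hX, mul_add, add_mul, mul_assoc, r h2, r h3, r h21, r h31, r h32, r h23, r h41, r h42, r h43,
      zero_mul, mul_zero, add_zero, zero_add]
  have hX4 : pw X 3 = 0 := by
    change X * X * X * X = 0
    rw [hX3]
    simp only [hX, mul_add, mul_assoc, r h2, r h3, r h21, r h31, r h32, r h23, r h41, r h42, r h43,
      zero_mul, mul_zero, add_zero, zero_add]
  have h5 : pw X (2 + m) = 0 := by
    obtain ⟨k, rfl⟩ : ∃ k, m = k + 1 := ⟨m - 1, by omega⟩
    cases k with
    | zero => exact hX4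
    | succ k =>
      have : pw X 3 * pw X k = pw X (2 + (k + 1 + 1)) := by rw [pw_mul]; congr 1; omega
      rw [← this, hX4, zero_mul]
  rw [← hX3]
  change pw X 2 = 0
  rw [hper X, h5]

end Pw

section NilPrime

variable {R : Type*} [NonUnitalRing R]

theorem prime_of_sq (h2 : ∀ a : R, a * a = 0) (hP : ∀ a b : R, (∀ x, a * x * b = 0) → a = 0 ∨ b = 0) :
    ∀ x : R, x = 0 := by
  intro x
  have h : ∀ y, x * y * x = 0 := by
    intro y
    have h1 : x * y + y * x = 0 := by
      have := h2 (x + y)
      rw [mul_add, add_mul, add_mul, h2, h2, zero_add, add_zero] at this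
      rw [← this]; abel
    have h3 : y * x = - (x * y) := eq_neg_of_add_eq_zero_right h1
    rw [mul_assoc, h3, mul_neg, ← mul_assoc, h2, zero_mul, neg_zero]
  rcases hP x x h with h | h <;> exact h

theorem nil3_prime_zero {p : ℕ} (hp : p.Prime) (hc : ∀ x : R, (p : ℤ) • x = 0)
    (h3 : ∀ x : R, x * x * x = 0)
    (hP : ∀ a b : R, (∀ x, a * x * b = 0) → a = 0 ∨ b = 0) : ∀ x : R, x = 0 := by
  by_cases h : p = 3
  · subst h
    have hc' : ∀ x : R, x + x + x = 0 := by
      intro x
      have := hc x
      rwa [Nat.cast_ofNat, show (3 : ℤ) = 1 + 1 + 1 by norm_num, add_smul, add_smul, one_smul] at this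
    have hcomm : ∀ x y : R, cm x y = 0 := by
      intro x y
      have h1 : ∀ z, cm x y * z * cm x y = 0 := by
        intro z
        have h2 := cm_F2 hc' h3 x y (z * x)
        have h4 := cm_F2 hc' h3 x y z
        have e : cm x y * cm (z * x) y = cm x y * z * cm x y + cm x y * cm z y * x := by
          simp only [cm, mul_sub, sub_mul, mul_assoc]; abel
        rw [e, h4, zero_mul, add_zero] at h2
        exact h2
      rcases hP _ _ h1 with h | h <;> exact h
    have hco : ∀ x y : R, x * y = y * x := fun x y => sub_eq_zero.mp (hcomm x y)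
    have hsq : ∀ a : R, a * a = 0 := by
      intro a
      have h1 : ∀ x, a * a * x * (a * a) = 0 := by
        intro x
        rw [hco (a * a) x, mul_assoc, ← mul_assoc (a * a), h3, zero_mul, mul_zero]
      rcases hP _ _ h1 with h | h <;> exact h
    exact prime_of_sq hsq hP
  · have key : ∀ a c b : R, a * a * c * (b * b) = 0 := by
      by_cases h2 : p = 2
      · subst h2
        intro a c b
        refine nil_char_two (fun x => ?_) h3 a c b
        have := hc x
        rwa [Nat.cast_ofNat, two_smul] at this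
      · intro a c b
        have h6 := nil_six h3 a c b
        have hnd : ¬ (p : ℤ) ∣ 6 := by
          intro h'
          have h'' : p ∣ 6 := by exact_mod_cast h'
          rw [show 6 = 2 * 3 by norm_num] at h''
          rcases (Nat.Prime.dvd_mul hp).mp h'' with h' | h'
          · exact h2 ((Nat.prime_dvd_prime_iff_eq hp Nat.prime_two).mp h')
          · exact h ((Nat.prime_dvd_prime_iff_eq hp Nat.prime_three).mp h')
        obtain ⟨d, hd⟩ := exists_inv_mod hp hnd
        rw [← inv_smul hc hd (a * a * c * (b * b)), h6, smul_zero]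
    refine prime_of_sq (fun a => ?_) hP
    rcases hP (a * a) (a * a) (fun x => key a x a) with h | h <;> exact h

end NilPrime

section LocalDiv

variable {D : Type*} [Ring D] {p m : ℕ}

theorem local_div (hp : p.Prime) (hm : 1 ≤ m) (hc : ∀ x : D, (p : ℤ) • x = 0)
    (hper : ∀ x : D, x ^ 3 = x ^ (3 + m))
    (hP : ∀ a b : D, (∀ x, a * x * b = 0) → a = 0 ∨ b = 0)
    (hid : ∀ x : D, x * x = x → x = 0 ∨ x = 1) : ∀ x : D, x ≠ 0 → x ^ m = 1 := by
  have hperj : ∀ (x : D) (j : ℕ), x ^ 3 = x ^ (3 + j * m) := by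
    intro x j
    induction j with
    | zero => simp
    | succ j ih =>
      rw [show 3 + (j + 1) * m = (3 + m) + j * m by ring, pow_add, ← hper x, ← pow_add, ← ih]
  have hdich : ∀ x : D, x ^ m = 1 ∨ x ^ 3 = 0 := by
    intro x
    have hidem : x ^ (3 * m) * x ^ (3 * m) = x ^ (3 * m) := by
      obtain ⟨k, hk⟩ : ∃ k, 3 * m = 3 + k := ⟨3 * m - 3, by omega⟩
      calc x ^ (3 * m) * x ^ (3 * m) = x ^ (3 + 3 * m + k) := by rw [← pow_add]; congr 1; omega
        _ = x ^ 3 * x ^ k := by rw [pow_add, ← hperj x 3]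
        _ = x ^ (3 * m) := by rw [← pow_add, hk]
    rcases hid _ hidem with h | h
    · right
      rw [hperj x 3, pow_add, h, mul_zero]
    · left
      have h1 : x ^ (3 * m) * x ^ m = x ^ (3 * m) := by
        obtain ⟨k, hk⟩ : ∃ k, 3 * m = 3 + k := ⟨3 * m - 3, by omega⟩
        rw [← pow_add, hk, show 3 + k + m = (3 + m) + k by ring, pow_add, ← hper x, ← pow_add]
      rw [h, one_mul] at h1
      exact h1
  by_cases hnt : (1 : D) = 0
  · intro x hx
    exact absurd (by rw [← mul_one x, hnt, mul_zero]) hx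
  -- left/right absorbing
  have hunitL : ∀ a x : D, a * x = 1 → x ^ 3 = 0 → False := by
    intro a x h1 h2
    have e1 : x ^ 2 = 0 := by
      have : a * x ^ 3 = x ^ 2 := by rw [pow_succ' x 2, ← mul_assoc, h1, one_mul]
      rw [← this, h2, mul_zero]
    have e2 : x = 0 := by
      have : a * x ^ 2 = x := by rw [pow_succ' x 1, ← mul_assoc, h1, one_mul, pow_one]
      rw [← this, e1, mul_zero]
    apply hnt
    rw [← h1, e2, mul_zero]
  have hunitR : ∀ a x : D, x * a = 1 → x ^ 3 = 0 → False := by
    intro a x h1 h2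
    have e1 : x ^ 2 = 0 := by
      have : x ^ 3 * a = x ^ 2 := by rw [pow_succ x 2, mul_assoc, h1, mul_one]
      rw [← this, h2, zero_mul]
    have e2 : x = 0 := by
      have : x ^ 2 * a = x := by rw [pow_succ x 1, mul_assoc, h1, mul_one, pow_one]
      rw [← this, e1, zero_mul]
    apply hnt
    rw [← h1, e2, zero_mul]
  obtain ⟨k, hk⟩ : ∃ k, m = k + 1 := ⟨m - 1, by omega⟩
  have hL : ∀ d x : D, x ^ 3 = 0 → (d * x) ^ 3 = 0 := by
    intro d x hx
    rcases hdich (d * x) with h | h
    · exfalso
      rw [hk, pow_succ, ← mul_assoc] at h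
      exact hunitL _ _ h hx
    · exact h
  have hR : ∀ d x : D, x ^ 3 = 0 → (x * d) ^ 3 = 0 := by
    intro d x hx
    rcases hdich (x * d) with h | h
    · exfalso
      rw [hk, pow_succ', mul_assoc] at h
      exact hunitR _ _ h hx
    · exact h
  have hadd : ∀ x y : D, x ^ 3 = 0 → y ^ 3 = 0 → (x + y) ^ 3 = 0 := by
    intro x y hx hy
    rcases hdich (x + y) with h | h
    · exfalso
      rw [hk, pow_succ] at h
      set a := (x + y) ^ k
      have hax := hL a x hx
      have hay := hL a y hy
      have e1 : a * y = 1 - a * x := by rw [← h]; noncomm_ring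
      have e2 : (a * y) * (1 + a * x + (a * x) ^ 2) = 1 := by
        have : (1 - a * x) * (1 + a * x + (a * x) ^ 2) = 1 - (a * x) ^ 3 := by noncomm_ring
        rw [e1, this, hax, sub_zero]
      exact hunitR _ _ e2 hay
    · exact h
  let N0 : NonUnitalSubring D :=
    { carrier := {x | x ^ 3 = 0}
      add_mem' := fun ha hb => hadd _ _ ha hb
      zero_mem' := by simp
      neg_mem' := by
        intro x hx
        change (-x) ^ 3 = 0
        rw [neg_pow, show x ^ 3 = 0 from hx, mul_zero]
      mul_mem' := fun {a b} _ hb => hL a b hb }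
  have hzero : ∀ x : N0, x = 0 := by
    refine nil3_prime_zero hp (fun x => Subtype.ext (hc x)) (fun x => ?_) ?_
    · apply Subtype.ext
      have := x.2
      change (x : D) ^ 3 = 0 at this
      change (x : D) * x * x = 0
      rw [← this]; noncomm_ring
    · intro a b hab
      by_cases hb : b = 0
      · right; exact hb
      · left
        have hb' : (b : D) ≠ 0 := fun h => hb (Subtype.ext h)
        have h1 : ∀ c : N0, (a : D) * c = 0 := by
          intro c
          have h2 : ∀ x, ((a : D) * c) * x * b = 0 := by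
            intro x
            have hcx : (c : D) * x ∈ N0 := hR x c c.2
            have := congrArg Subtype.val (hab ⟨(c : D) * x, hcx⟩)
            change (a : D) * ((c : D) * x) * b = 0 at this
            rw [mul_assoc (a : D)]; exact this
          rcases hP _ _ h2 with h | h
          · exact h
          · exact absurd h hb'
        have h2 : ∀ x, (a : D) * x * b = 0 := by
          intro x
          have hxb : x * (b : D) ∈ N0 := hL x b b.2
          rw [mul_assoc]
          exact h1 ⟨_, hxb⟩
        rcases hP _ _ h2 with h | h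
        · exact Subtype.ext h
        · exact absurd h hb'
  intro x hx
  rcases hdich x with h | h
  · exact h
  · exact absurd (congrArg Subtype.val (hzero ⟨x, h⟩)) hx

end LocalDiv

end Pool.Agent.Helper60
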