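import Pool.Agent.Helper60.Prime

noncomputable section

namespace Pool.Agent.Helper60

section Main

variable {R : Type} [NonUnitalRing R]

def Orth (k : ℕ) (e : Fin k → R) : Prop :=
  (∀ i, e i * e i = e i) ∧ (∀ i, e i ≠ 0) ∧ (∀ i j, i ≠ j → e i * e j = 0)

theorem prime_step {a b : R} (hP : ∀ a b : R, (∀ x, a * x * b = 0) → a = 0 ∨ b = 0) (ha : a ≠ 0) (hb : b ≠ 0) :
    ∃ x, a * x * b ≠ 0 := by
  by_contra h
  push Not at h
  rcases hP a b h with h | h
  · exact ha h
  · exact hb h

theorem no_orth4 {m : ℕ} (hm : 1 ≤ m) (hper : ∀ x : R, pw x 2 = pw x (2 + m))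
    (hP : ∀ a b : R, (∀ x, a * x * b = 0) → a = 0 ∨ b = 0) (e : Fin 4 → R) : ¬ Orth 4 e := by
  rintro ⟨h1, h2, h3⟩
  obtain ⟨x, hx⟩ := prime_step hP (h2 0) (h2 1)
  obtain ⟨y, hy⟩ := prime_step hP hx (h2 2)
  obtain ⟨z, hz⟩ := prime_step hP hy (h2 3)
  exact hz (nil_prod hm hper (h1 1) (h1 2) (h3 1 0 (by decide)) (h3 2 0 (by decide)) (h3 2 1 (by decide))
    (h3 1 2 (by decide)) (h3 3 0 (by decide)) (h3 3 1 (by decide)) (h3 3 2 (by decide)) x y z)

theorem exists_max_orth {m : ℕ} (hm : 1 ≤ m) (hper : ∀ x : R, pw x 2 = pw x (2 + m))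
    (hP : ∀ a b : R, (∀ x, a * x * b = 0) → a = 0 ∨ b = 0) :
    ∃ k, k ≤ 3 ∧ (∃ e : Fin k → R, Orth k e) ∧ ∀ e : Fin (k + 1) → R, ¬ Orth (k + 1) e := by
  classical
  have hex : ∃ k, ∀ e : Fin (k + 1) → R, ¬ Orth (k + 1) e := ⟨3, no_orth4 hm hper hP⟩
  refine ⟨Nat.find hex, Nat.find_min' hex (no_orth4 hm hper hP), ?_, Nat.find_spec hex⟩
  rcases Nat.eq_zero_or_pos (Nat.find hex) with h0 | hpos
  · rw [h0]
    exact ⟨fun i => i.elim0, fun i => i.elim0, fun i => i.elim0, fun i => i.elim0⟩
  · have h1 := Nat.find_min hex (m := Nat.find hex - 1) (by omega)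
    push Not at h1
    obtain ⟨e, he⟩ := h1
    have h2 : Nat.find hex - 1 + 1 = Nat.find hex := by omega
    rw [← h2]
    exact ⟨e, he⟩

theorem orth_cons {k : ℕ} {e : Fin k → R} (he : Orth k e) {f : R} (hf : f * f = f) (hf0 : f ≠ 0)
    (hl : ∀ i, f * e i = 0) (hr : ∀ i, e i * f = 0) : Orth (k + 1) (Fin.cons f e) := by
  refine ⟨?_, ?_, ?_⟩
  · intro i
    refine Fin.cases ?_ (fun j => ?_) i
    · simpa using hf
    · simpa using he.1 j
  · intro i
    refine Fin.cases ?_ (fun j => ?_) i
    · simpa using hf0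
    · simpa using he.2.1 j
  · intro i j
    refine Fin.cases ?_ (fun i' => ?_) i <;> refine Fin.cases ?_ (fun j' => ?_) j
    · intro h; exact absurd rfl h
    · intro _; simpa using hl j'
    · intro _; simpa using hr i'
    · intro h
      simpa using he.2.2 i' j' (fun h' => h (by rw [h']))

/-- the corner of an idempotent is a ring with unit; properties -/
theorem corner_fin {p m : ℕ} (hp : p.Prime) (hm : 1 ≤ m) (hc : ∀ x : R, (p : ℤ) • x = 0)
    (hper : ∀ x : R, pw x 2 = pw x (2 + m))
    (hP : ∀ a b : R, (∀ x, a * x * b = 0) → a = 0 ∨ b = 0) {e : R} (he : IsIdempotentElem e) (he0 : e ≠ 0)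
    (hid : ∀ f : R, e * f = f → f * e = f → f * f = f → f = 0 ∨ f = e) :
    Finite he.Corner ∧ Nat.card he.Corner ≤ (m + 1) ^ m ∧
    ∀ x : R, e * x = x → x * e = x → x ≠ 0 → pw x (m - 1) = e := by
  have hmem : ∀ x : he.Corner, e * x.1 = x.1 ∧ x.1 * e = x.1 :=
    fun x => (Subsemigroup.mem_corner_iff he).mp x.2
  have hmk : ∀ x : R, e * x = x → x * e = x → x ∈ Subsemigroup.corner e :=
    fun x h1 h2 => (Subsemigroup.mem_corner_iff he).mpr ⟨h1, h2⟩
  let val : he.Corner →+ R :=
    { toFun := fun x => x.1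
      map_zero' := rfl
      map_add' := fun _ _ => rfl }
  have hval : Function.Injective val := fun x y h => Subtype.ext h
  have hmul : ∀ x y : he.Corner, val (x * y) = val x * val y := fun _ _ => rfl
  have hone : val 1 = e := rfl
  have hpow : ∀ (x : he.Corner) (k : ℕ), val (x ^ (k + 1)) = pw (val x) k := by
    intro x k
    induction k with
    | zero => rw [zero_add, pow_one]; rfl
    | succ k ih => rw [pow_succ, hmul, ih]; rfl
  have hc' : ∀ x : he.Corner, (p : ℤ) • x = 0 := by
    intro x
    apply hval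
    rw [map_zsmul, hc, map_zero]
  have hper' : ∀ x : he.Corner, x ^ 3 = x ^ (3 + m) := by
    intro x
    apply hval
    rw [hpow x 2, show 3 + m = (2 + m) + 1 by ring, hpow, hper]
  have hP' : ∀ a b : he.Corner, (∀ x, a * x * b = 0) → a = 0 ∨ b = 0 := by
    intro a b h
    have h1 : ∀ x, val a * x * val b = 0 := by
      intro x
      have h2 := congrArg val (h ⟨e * x * e, ⟨x, rfl⟩⟩)
      rw [hmul, hmul, map_zero] at h2
      have h3 : val a * x * val b = val a * (e * x * e) * val b := by
        have e1 : val a * e = val a := (hmem a).2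
        have e2 : e * val b = val b := (hmem b).1
        calc val a * x * val b = (val a * e) * x * (e * val b) := by rw [e1, e2]
          _ = _ := by simp only [mul_assoc]
      rw [h3]; exact h2
    rcases hP _ _ h1 with h | h
    · left; apply hval; rw [h, map_zero]
    · right; apply hval; rw [h, map_zero]
  have hid' : ∀ x : he.Corner, x * x = x → x = 0 ∨ x = 1 := by
    intro x hx
    rcases hid x.1 (hmem x).1 (hmem x).2 (congrArg val hx) with h | h
    · left; apply hval; rw [map_zero]; exact h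
    · right; exact hval h
  have hdiv := local_div hp hm hc' hper' hP' hid'
  haveI : Nontrivial he.Corner := ⟨1, 0, fun h => he0 (congrArg val h)⟩
  letI : DivisionRing he.Corner := DivisionRing.ofIsUnitOrEqZero (fun a => by
    by_cases ha : a = 0
    · right; exact ha
    · left
      have h1 := hdiv a ha
      obtain ⟨k, rfl⟩ : ∃ k, m = k + 1 := ⟨m - 1, by omega⟩
      exact ⟨⟨a, a ^ k, by rw [← pow_succ']; exact h1, by rw [← pow_succ]; exact h1⟩, rfl⟩)
  have hchar : (p : he.Corner) = 0 := by
    have := hc' 1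
    rwa [zsmul_eq_mul, mul_one, Int.cast_natCast] at this
  obtain ⟨h1, h2⟩ := div_finite (D := he.Corner) hm hdiv hp hchar
  refine ⟨h1, h2, ?_⟩
  intro x hx1 hx2 hx0
  have h3 := hdiv ⟨x, hmk x hx1 hx2⟩ (fun h => hx0 (congrArg val h))
  have h4 := congrArg val h3
  obtain ⟨k, hk⟩ : ∃ k, m = k + 1 := ⟨m - 1, by omega⟩
  rw [hk, hpow] at h4
  rw [hk, Nat.add_sub_cancel]
  exact h4

/-- Theorem P. -/
theorem prime_finite {p m : ℕ} (hp : p.Prime) (hm : 1 ≤ m) (hc : ∀ x : R, (p : ℤ) • x = 0)
    (hper : ∀ x : R, pw x 2 = pw x (2 + m))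
    (hP : ∀ a b : R, (∀ x, a * x * b = 0) → a = 0 ∨ b = 0) :
    Finite R ∧ Nat.card R ≤ ((m + 1) ^ m) ^ 9 ∧ ∃ s : R, ∀ x, s * x = x ∧ x * s = x := by
  classical
  obtain ⟨k, hk3, ⟨e, he⟩, hmax⟩ := exists_max_orth hm hper hP
  set s := ∑ i, e i with hs
  have hse : ∀ i, s * e i = e i := by
    intro i
    rw [hs, Finset.sum_mul, Finset.sum_eq_single i]
    · exact he.1 i
    · intro j _ hj; exact he.2.2 j i hj
    · intro h; exact absurd (Finset.mem_univ i) h
  have hes : ∀ i, e i * s = e i := by
    intro i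
    rw [hs, Finset.mul_sum, Finset.sum_eq_single i]
    · exact he.1 i
    · intro j _ hj; exact he.2.2 i j (Ne.symm hj)
    · intro h; exact absurd (Finset.mem_univ i) h
  have hss : s * s = s := by
    conv_lhs => rw [hs, Finset.mul_sum]
    rw [Finset.sum_congr rfl (fun i _ => hse i)]
  -- complement corner
  let C : NonUnitalSubring R :=
    { carrier := {x | s * x = 0 ∧ x * s = 0}
      add_mem' := by
        rintro a b ⟨h1, h2⟩ ⟨h3, h4⟩
        exact ⟨by rw [mul_add, h1, h3, add_zero], by rw [add_mul, h2, h4, add_zero]⟩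
      zero_mem' := ⟨mul_zero _, zero_mul _⟩
      neg_mem' := by
        rintro a ⟨h1, h2⟩
        exact ⟨by rw [mul_neg, h1, neg_zero], by rw [neg_mul, h2, neg_zero]⟩
      mul_mem' := by
        rintro a b ⟨h1, h2⟩ ⟨h3, h4⟩
        exact ⟨by rw [← mul_assoc, h1, zero_mul], by rw [mul_assoc, h4, mul_zero]⟩ }
  have hCe : ∀ x : R, x ∈ C → ∀ i, x * e i = 0 ∧ e i * x = 0 := by
    rintro x ⟨h1, h2⟩ i
    refine ⟨?_, ?_⟩
    · rw [← hse i, ← mul_assoc, h2, zero_mul]
    · rw [← hes i, mul_assoc, h1, mul_zero]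
  have hCpw : ∀ x : R, x ∈ C → ∀ j, pw x j ∈ C := by
    intro x hx j
    exact ⟨mul_pw_zero hx.1 j, pw_mul_zero hx.2 j⟩
  have hCproj : ∀ x : R, x - s * x - x * s + s * x * s ∈ C := by
    intro x
    constructor
    · have : s * (x - s * x - x * s + s * x * s) = s * x - s * s * x - s * x * s + s * s * x * s := by
        simp only [mul_add, mul_sub, mul_assoc]
      rw [this, hss]; abel
    · have : (x - s * x - x * s + s * x * s) * s = x * s - s * x * s - x * (s * s) + s * x * (s * s) := by
        simp only [add_mul, sub_mul, mul_assoc]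
      rw [this, hss]; abel
  have hC0 : ∀ x : C, x = 0 := by
    refine nil3_prime_zero hp (fun x => Subtype.ext (hc x)) (fun x => ?_) ?_
    · have hidm := idp_idem hm (hper (x : R))
      have hmemC : idp m (x : R) ∈ C := hCpw _ x.2 _
      have h0 : idp m (x : R) = 0 := by
        by_contra hne
        exact hmax _ (orth_cons he hidm hne (fun i => (hCe _ hmemC i).1) (fun i => (hCe _ hmemC i).2))
      exact Subtype.ext (idp_zero hm (hper (x : R)) h0)
    · intro a b hab
      have h1 : ∀ x, (a : R) * x * b = 0 := by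
        intro x
        have h2 := congrArg Subtype.val (hab ⟨_, hCproj x⟩)
        change (a : R) * (x - s * x - x * s + s * x * s) * b = 0 at h2
        have e1 : (a : R) * s = 0 := a.2.2
        have e2 : s * (b : R) = 0 := b.2.1
        have h3 : (a : R) * (x - s * x - x * s + s * x * s) * b =
            a * x * b - (a * s) * x * b - a * x * (s * b) + (a * s) * x * (s * b) := by
          simp only [mul_add, mul_sub, add_mul, sub_mul, mul_assoc]
        rw [h3, e1, e2] at h2
        simpa using h2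
      rcases hP _ _ h1 with h | h
      · left; exact Subtype.ext h
      · right; exact Subtype.ext h
  have hproj : ∀ x : R, x - s * x - x * s + s * x * s = 0 :=
    fun x => congrArg Subtype.val (hC0 ⟨_, hCproj x⟩)
  -- s is the identity
  have hsl : (∀ x, s * x = x) ∨ (∀ x, x * s = x) := by
    by_contra hcon
    push Not at hcon
    obtain ⟨⟨r, hr⟩, ⟨t, ht⟩⟩ := hcon
    have h1 : ∀ x, (r - s * r) * x * (t - t * s) = 0 := by
      intro x
      have := hproj (r * x * t)
      rw [← this]
      simp only [mul_sub, sub_mul, mul_assoc]; abel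
    rcases hP _ _ h1 with h | h
    · exact hr (sub_eq_zero.mp h).symm
    · exact ht (sub_eq_zero.mp h).symm
  have hid : ∀ x, s * x = x ∧ x * s = x := by
    rcases hsl with h | h
    · intro x
      refine ⟨h x, ?_⟩
      have h1 : ∀ y, (x - x * s) * y * (x - x * s) = 0 := by
        intro y
        have : (x - x * s) * y = 0 := by rw [sub_mul, mul_assoc, h y, sub_self]
        rw [this, zero_mul]
      rcases hP _ _ h1 with h' | h' <;> exact (sub_eq_zero.mp h').symm
    · intro x
      refine ⟨?_, h x⟩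
      have h1 : ∀ y, (x - s * x) * y * (x - s * x) = 0 := by
        intro y
        have : y * (x - s * x) = 0 := by rw [mul_sub, ← mul_assoc, h y, sub_self]
        rw [mul_assoc, this, mul_zero]
      rcases hP _ _ h1 with h' | h' <;> exact (sub_eq_zero.mp h').symm
  -- corners
  have hidem : ∀ i, IsIdempotentElem (e i) := he.1
  have hcor : ∀ i, ∀ f : R, e i * f = f → f * e i = f → f * f = f → f = 0 ∨ f = e i := by
    intro i f h1 h2 h3
    by_contra hcon
    push Not at hcon
    obtain ⟨hf0, hfe⟩ := hcon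
    have hother : ∀ j, j ≠ i → e j * f = 0 ∧ f * e j = 0 := by
      intro j hj
      exact ⟨by rw [← h1, ← mul_assoc, he.2.2 j i hj, zero_mul],
        by rw [← h2, mul_assoc, he.2.2 i j (Ne.symm hj), mul_zero]⟩
    have horth : Orth k (Function.update e i (e i - f)) := by
      have hg : (e i - f) * (e i - f) = e i - f := by
        rw [mul_sub, sub_mul, sub_mul, he.1 i, h1, h2, h3]; abel
      refine ⟨?_, ?_, ?_⟩
      · intro j
        by_cases hj : j = i
        · subst hj; simpa using hg
        · simpa [Function.update_of_ne hj] using he.1 j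
      · intro j
        by_cases hj : j = i
        · subst hj; simpa [sub_eq_zero] using Ne.symm hfe
        · simpa [Function.update_of_ne hj] using he.2.1 j
      · intro j l hjl
        by_cases hj : j = i
        · subst hj
          rw [Function.update_self, Function.update_of_ne (Ne.symm hjl), sub_mul, he.2.2 _ _ hjl,
            (hother l (Ne.symm hjl)).2, sub_zero]
        · by_cases hl : l = i
          · subst hl
            rw [Function.update_self, Function.update_of_ne hj, mul_sub, he.2.2 _ _ hj, (hother j hj).1, sub_zero]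
          · rw [Function.update_of_ne hj, Function.update_of_ne hl]; exact he.2.2 j l hjl
    refine hmax _ (orth_cons horth h3 hf0 ?_ ?_)
    · intro j
      by_cases hj : j = i
      · subst hj; rw [Function.update_self, mul_sub, h2, h3, sub_self]
      · rw [Function.update_of_ne hj]; exact (hother j hj).2
    · intro j
      by_cases hj : j = i
      · subst hj; rw [Function.update_self, sub_mul, h1, h3, sub_self]
      · rw [Function.update_of_ne hj]; exact (hother j hj).1
  have hcf := fun i => corner_fin hp hm hc hper hP (hidem i) (he.2.1 i) (hcor i)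
  -- connecting elements
  have hu : ∀ i j, ∃ u, e j * u = u ∧ u * e i = u ∧ u ≠ 0 := by
    intro i j
    obtain ⟨w, hw⟩ := prime_step hP (he.2.1 j) (he.2.1 i)
    exact ⟨e j * w * e i, by rw [← mul_assoc, ← mul_assoc, he.1], by rw [mul_assoc, he.1], hw⟩
  choose u hu1 hu2 hu3 using hu
  let φ : R → (∀ q : Fin k × Fin k, (hidem q.2).Corner) :=
    fun x q => ⟨u q.1 q.2 * x * e q.2, (Subsemigroup.mem_corner_iff (hidem q.2)).mpr
      ⟨by rw [← mul_assoc, ← mul_assoc, hu1], by rw [mul_assoc, he.1]⟩⟩
  have hφ : Function.Injective φ := by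
    intro x y hxy
    have h1 : ∀ i j, u i j * (x - y) * e j = 0 := by
      intro i j
      have h2 := congrArg Subtype.val (congrFun hxy (i, j))
      change u i j * x * e j = u i j * y * e j at h2
      rw [mul_sub, sub_mul, h2, sub_self]
    have h2 : ∀ i j, e i * (x - y) * e j = 0 := by
      intro i j
      obtain ⟨v, hv⟩ := prime_step hP (he.2.1 i) (hu3 i j)
      have h3 := (hcf i).2.2 (e i * v * u i j) (by rw [← mul_assoc, ← mul_assoc, he.1])
        (by rw [mul_assoc, hu2]) hv
      rw [← h3, mul_assoc]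
      refine pw_mul_zero ?_ _
      rw [mul_assoc, ← mul_assoc (u i j), h1, mul_zero]
    have h3 : x - y = ∑ i, ∑ j, e i * (x - y) * e j := by
      have : s * (x - y) * s = x - y := by rw [(hid _).1, (hid _).2]
      conv_lhs => rw [← this, hs]
      rw [Finset.sum_mul, Finset.sum_mul]
      refine Finset.sum_congr rfl (fun i _ => ?_)
      rw [Finset.mul_sum]
    have h4 : x - y = 0 := by
      rw [h3]
      exact Finset.sum_eq_zero (fun i _ => Finset.sum_eq_zero (fun j _ => h2 i j))
    exact sub_eq_zero.mp h4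
  haveI : ∀ q : Fin k × Fin k, Finite (hidem q.2).Corner := fun q => (hcf q.2).1
  refine ⟨Finite.of_injective φ hφ, ?_, s, hid⟩
  have hB : 1 ≤ (m + 1) ^ m := Nat.one_le_pow _ _ (by omega)
  calc Nat.card R ≤ Nat.card (∀ q : Fin k × Fin k, (hidem q.2).Corner) := Nat.card_le_card_of_injective φ hφ
    _ = ∏ q : Fin k × Fin k, Nat.card (hidem q.2).Corner := Nat.card_pi
    _ ≤ ∏ _q : Fin k × Fin k, (m + 1) ^ m := Finset.prod_le_prod' (fun q _ => (hcf q.2).2.1)
    _ = ((m + 1) ^ m) ^ (k * k) := by simp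
    _ ≤ ((m + 1) ^ m) ^ 9 := Nat.pow_le_pow_right hB (by nlinarith)

end Main

end Pool.Agent.Helper60
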