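import Mathlib

noncomputable section

namespace Pool.Agent.Helper60

section Words

variable {Ch L : Type} [Fintype L]

/-- a letter records, for each channel and each label, a multiplicity at most 2 -/
abbrev Ltr (Ch L : Type) := Ch → L → Fin 3

def base (f : L → Fin 3) : List (ℕ × L) :=
  (Finset.univ : Finset L).toList.flatMap (fun a => List.replicate (f a : ℕ) (0, a))

def shift (t : ℕ × L) : ℕ × L := (t.1 + 1, t.2)

def flat (c : Ch) : List (Ltr Ch L) → List (ℕ × L)
  | [] => []
  | a :: w => base (a c) ++ (flat c w).map shift

variable {A : Type*}

/-- fill the holes of a pattern -/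
def fill : List (Option A) → List A → List A
  | [], _ => []
  | (some c) :: pat, v => c :: fill pat v
  | none :: _, [] => []
  | none :: pat, a :: v => a :: fill pat v

def holes : List (Option A) → ℕ
  | [] => 0
  | (some _) :: pat => holes pat
  | none :: pat => holes pat + 1

/-- position of the `k`-th hole -/
def sig : List (Option A) → ℕ → ℕ
  | [], k => k
  | (some _) :: pat, k => sig pat k + 1
  | none :: _, 0 => 0
  | none :: pat, k + 1 => sig pat k + 1

def ins (c : Ch) : List (Option (Ltr Ch L)) → List (ℕ × L)
  | [] => []
  | (some a) :: pat => base (a c) ++ (ins c pat).map shift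
  | none :: pat => (ins c pat).map shift

theorem sig_strictMono (pat : List (Option A)) : StrictMono (sig pat) := by
  induction pat with
  | nil => exact fun a b h => h
  | cons o pat ih =>
    cases o with
    | some c => intro a b h; simp only [sig]; exact Nat.succ_lt_succ (ih h)
    | none =>
      intro a b h
      cases b with
      | zero => omega
      | succ b =>
        cases a with
        | zero => simp only [sig]; omega
        | succ a => simp only [sig]; exact Nat.succ_lt_succ (ih (by omega))

theorem fill_length (pat : List (Option A)) (v : List A) (h : v.length = holes pat) :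
    (fill pat v).length = pat.length := by
  induction pat generalizing v with
  | nil => simp [fill]
  | cons o pat ih =>
    cases o with
    | some c => simp only [fill, List.length_cons]; rw [ih v (by simpa [holes] using h)]
    | none =>
      cases v with
      | nil => simp [holes] at h
      | cons a v => simp only [fill, List.length_cons]; rw [ih v (by simpa [holes] using h)]

theorem exists_pat {w w' : List A} (h : w.Sublist w') :
    ∃ pat : List (Option A), holes pat = w.length ∧ fill pat w = w' := by
  induction h with
  | slnil => exact ⟨[], rfl, rfl⟩
  | cons a _ ih =>
    obtain ⟨pat, h1, h2⟩ := ih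
    exact ⟨some a :: pat, h1, by simp [fill, h2]⟩
  | cons_cons a _ ih =>
    obtain ⟨pat, h1, h2⟩ := ih
    exact ⟨none :: pat, by simp [holes, h1], by simp [fill, h2]⟩

theorem fill_lt [LinearOrder A] (pat : List (Option A)) (v w : List A) (hv : v.length = holes pat)
    (hw : w.length = holes pat) (h : v < w) : fill pat v < fill pat w := by
  induction pat generalizing v w with
  | nil =>
    simp only [holes, List.length_eq_zero_iff] at hv hw
    subst hv; subst hw
    exact absurd h (lt_irrefl _)
  | cons o pat ih =>
    cases o with
    | some c =>
      simp only [fill]
      exact List.cons_lt_cons_iff.mpr (Or.inr ⟨rfl, ih v w (by simpa [holes] using hv) (by simpa [holes] using hw) h⟩)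
    | none =>
      cases v with
      | nil => simp [holes] at hv
      | cons a v =>
        cases w with
        | nil => simp [holes] at hw
        | cons b w =>
          simp only [fill]
          rcases List.cons_lt_cons_iff.mp h with h1 | ⟨h1, h2⟩
          · exact List.cons_lt_cons_iff.mpr (Or.inl h1)
          · exact List.cons_lt_cons_iff.mpr (Or.inr ⟨h1, ih v w (by simpa [holes] using hv)
              (by simpa [holes] using hw) h2⟩)

def mapSig (pat : List (Option A)) (t : ℕ × L) : ℕ × L := (sig pat t.1, t.2)

theorem base_mapSig_none (pat : List (Option A)) (f : L → Fin 3) :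
    (base f).map (mapSig (none :: pat)) = base f := by
  simp only [base, List.map_flatMap, List.map_replicate, mapSig, sig]

theorem flat_fill (c : Ch) (pat : List (Option (Ltr Ch L))) (v : List (Ltr Ch L))
    (h : v.length = holes pat) :
    (flat c (fill pat v)).Perm ((flat c v).map (mapSig pat) ++ ins c pat) := by
  induction pat generalizing v with
  | nil =>
    simp only [holes, List.length_eq_zero_iff] at h
    subst h
    simp [fill, flat, ins]
  | cons o pat ih =>
    cases o with
    | some a =>
      have hv : v.length = holes pat := by simpa [holes] using h
      have e : (flat c v).map (mapSig (some a :: pat)) = ((flat c v).map (mapSig pat)).map shift := by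
        rw [List.map_map]
        apply List.map_congr_left
        intro t _
        simp [mapSig, sig, shift]
      simp only [fill, flat, ins]
      rw [e]
      have h1 := (ih v hv).map (shift (L := L))
      rw [List.map_append] at h1
      refine (h1.append_left (base (a c))).trans ?_
      rw [← List.append_assoc, ← List.append_assoc]
      exact (List.perm_append_comm).append_right _
    | none =>
      cases v with
      | nil => simp [holes] at h
      | cons a v =>
        have hv : v.length = holes pat := by simpa [holes] using h
        simp only [fill, flat, ins, List.map_append]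
        rw [base_mapSig_none]
        have e : ((flat c v).map shift).map (mapSig (none :: pat)) = ((flat c v).map (mapSig pat)).map shift := by
          rw [List.map_map, List.map_map]
          apply List.map_congr_left
          intro t _
          simp [mapSig, sig, shift]
        rw [e, List.append_assoc]
        have h1 := (ih v hv).map (shift (L := L))
        rw [List.map_append] at h1
        exact h1.append_left _

theorem flat_fill_of_ins_nil (c : Ch) (pat : List (Option (Ltr Ch L))) (v : List (Ltr Ch L))
    (h : v.length = holes pat) (hins : ins c pat = []) :
    flat c (fill pat v) = (flat c v).map (mapSig pat) := by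
  induction pat generalizing v with
  | nil =>
    simp only [holes, List.length_eq_zero_iff] at h
    subst h
    simp [fill, flat]
  | cons o pat ih =>
    cases o with
    | some a =>
      have hv : v.length = holes pat := by simpa [holes] using h
      simp only [ins, List.append_eq_nil_iff, List.map_eq_nil_iff] at hins
      simp only [fill, flat, hins.1, List.nil_append]
      rw [ih v hv hins.2, List.map_map]
      apply List.map_congr_left
      intro t _
      simp [mapSig, sig, shift]
    | none =>
      cases v with
      | nil => simp [holes] at h
      | cons a v =>
        have hv : v.length = holes pat := by simpa [holes] using h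
        simp only [ins, List.map_eq_nil_iff] at hins
        simp only [fill, flat, List.map_append]
        rw [base_mapSig_none, ih v hv hins, List.map_map, List.map_map]
        congr 1

theorem ins_nil_of_length (c : Ch) (pat : List (Option (Ltr Ch L))) (v : List (Ltr Ch L))
    (h : v.length = holes pat) (hlen : (flat c (fill pat v)).length = (flat c v).length) :
    ins c pat = [] := by
  have := (flat_fill c pat v h).length_eq
  rw [List.length_append, List.length_map, hlen] at this
  exact List.length_eq_zero_iff.mp (by omega)

theorem flat_append_zero (c : Ch) (w : List (Ltr Ch L)) : flat c (w ++ [fun _ _ => 0]) = flat c w := by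
  induction w with
  | nil => simp [flat, base]
  | cons a w ih => simp [flat, ih]

theorem count_base [DecidableEq L] (f : L → Fin 3) (t : ℕ × L) :
    (base f).count t = if t.1 = 0 then (f t.2 : ℕ) else 0 := by
  obtain ⟨i, a⟩ := t
  simp only [base, List.count_flatMap]
  have : (List.map (List.count (i, a) ∘ fun b => List.replicate (f b : ℕ) ((0 : ℕ), b)) (Finset.univ : Finset L).toList).sum
      = ∑ b : L, List.count (i, a) (List.replicate (f b : ℕ) ((0 : ℕ), b)) := by
    rw [← Finset.sum_map_toList]; rfl
  rw [this]
  simp only [List.count_replicate]
  by_cases hi : i = 0
  · subst hi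
    simp
  · simp [hi, Ne.symm hi]

theorem count_flat [DecidableEq L] (c : Ch) (w : List (Ltr Ch L)) (t : ℕ × L) :
    (flat c w).count t = match w[t.1]? with
      | some a => (a c t.2 : ℕ)
      | none => 0 := by
  induction w generalizing t with
  | nil => simp [flat]
  | cons a w ih =>
    obtain ⟨i, b⟩ := t
    simp only [flat, List.count_append, count_base]
    cases i with
    | zero =>
      have : (List.map shift (flat c w)).count (0, b) = 0 := by
        rw [List.count_eq_zero]
        simp [shift]
      simp [this]
    | succ i =>
      have hinj : Function.Injective (shift (L := L)) := by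
        rintro ⟨x1, x2⟩ ⟨y1, y2⟩ h
        simp [shift] at h
        ext <;> simp [h]
      have : (List.map shift (flat c w)).count (i + 1, b) = (flat c w).count (i, b) := by
        have := List.count_map_of_injective (flat c w) shift hinj (i, b)
        simpa [shift] using this
      rw [this, ih]
      simp

/-- Existence of a word with prescribed flattenings. -/
theorem exists_word [DecidableEq L] (k : ℕ) (lam : Ch → List (ℕ × L))
    (hk : ∀ c, ∀ t ∈ lam c, t.1 < k) (h2 : ∀ c t, (lam c).count t ≤ 2) :
    ∃ w : List (Ltr Ch L), w.length = k ∧ ∀ c, (flat c w).Perm (lam c) := by
  refine ⟨List.ofFn (fun i : Fin k => fun c b => ⟨(lam c).count ((i : ℕ), b), by have := h2 c (i, b); omega⟩),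
    by simp, ?_⟩
  intro c
  rw [List.perm_iff_count]
  rintro ⟨i, b⟩
  rw [count_flat]
  by_cases hi : i < k
  · simp [List.getElem?_ofFn, hi]
  · have : (lam c).count (i, b) = 0 := by
      rw [List.count_eq_zero]
      intro hmem
      exact hi (hk c _ hmem)
    simp [List.getElem?_ofFn, hi, this]

end Words

section Higman

variable {A : Type} [Finite A]

theorem higman_sublist : WellQuasiOrdered (fun w w' : List A => w.Sublist w') := by
  have h : (Set.univ : Set A).PartiallyWellOrderedOn (· = ·) := by
    have := (Set.finite_univ (α := A)).partiallyWellOrderedOn (r := ((· = ·) : A → A → Prop))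
    exact this
  have h2 := Set.PartiallyWellOrderedOn.partiallyWellOrderedOn_sublistForall₂ (· = ·) h
  intro f
  obtain ⟨m, n, hmn, hr⟩ := h2 (fun n => ⟨f n, by simp⟩)
  refine ⟨m, n, hmn, ?_⟩
  have hr' : List.SublistForall₂ (· = ·) (f m) (f n) := hr
  rw [List.sublistForall₂_iff] at hr'
  obtain ⟨l, h1, h2⟩ := hr'
  rw [List.forall₂_eq_eq_eq] at h1
  rw [h1]; exact h2

theorem higman_class {K : Type} [Finite K] (kap : List A → K) :
    WellQuasiOrdered (fun w w' : List A => w.Sublist w' ∧ kap w = kap w') := by
  have h1 : WellQuasiOrdered (fun w w' : List A => w.Sublist w') := higman_sublist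
  have h2 : WellQuasiOrdered (fun a b : K => a = b) := Finite.wellQuasiOrdered _
  haveI : IsPreorder (List A) (fun w w' : List A => w.Sublist w') :=
    { refl := List.Sublist.refl, trans := fun _ _ _ => List.Sublist.trans }
  intro f
  obtain ⟨m, n, hmn, hr⟩ := (h1.prod h2) (fun n => (f n, kap (f n)))
  exact ⟨m, n, hmn, hr⟩

theorem finite_words (k : ℕ) : {w : List A | w.length = k}.Finite := List.finite_length_eq A k

end Higman

end Pool.Agent.Helper60
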