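import Pool.Agent.Helper60.Engine
import Pool.Agent.Helper60.Words
import Pool.Agent.Helper60.Nil

noncomputable section

namespace Pool.Agent.Helper60

/-- A nil ideal of index three generated by indexed letters, with an increasing chain of
shift-stable ideals. -/
structure Sys (A L : Type) [Ring A] where
  N : AddSubgroup A
  mulL : ∀ a x, x ∈ N → a * x ∈ N
  mulR : ∀ a x, x ∈ N → x * a ∈ N
  cube : ∀ x ∈ N, x * x * x = 0
  y : ℕ × L → A
  hy : ∀ t, y t ∈ N
  gen : ∀ x ∈ N, x ∈ AddSubgroup.closure {z | ∃ l : List (ℕ × L), l ≠ [] ∧ z = (l.map y).prod}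
  rho : (ℕ → ℕ) → (A →+* A)
  hrho : ∀ σ, StrictMono σ → ∀ t, rho σ (y t) = y (σ t.1, t.2)
  U : ℕ → AddSubgroup A
  mono : Monotone U
  UN : ∀ k, U k ≤ N
  UL : ∀ k a x, x ∈ U k → a * x ∈ U k
  UR : ∀ k a x, x ∈ U k → x * a ∈ U k
  Urho : ∀ k σ, StrictMono σ → ∀ x ∈ U k, rho σ x ∈ U k

namespace Sys

variable {A L : Type} [Ring A] (X : Sys A L)

def NS : NonUnitalSubring A where
  carrier := X.N
  add_mem' := fun ha hb => X.N.add_mem ha hb
  zero_mem' := X.N.zero_mem
  neg_mem' := fun ha => X.N.neg_mem ha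
  mul_mem' := fun _ hb => X.mulL _ _ hb

def P (l : List (ℕ × L)) : A := (l.map X.y).prod

@[simp] theorem P_nil : X.P [] = 1 := rfl
@[simp] theorem P_cons (t : ℕ × L) (l : List (ℕ × L)) : X.P (t :: l) = X.y t * X.P l := by simp [P]
theorem P_append (l m : List (ℕ × L)) : X.P (l ++ m) = X.P l * X.P m := by simp [P]

theorem P_mem {l : List (ℕ × L)} (h : l ≠ []) : X.P l ∈ X.N := by
  cases l with
  | nil => exact absurd rfl h
  | cons t l => rw [P_cons]; exact X.mulR _ _ (X.hy t)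

theorem rho_P {σ : ℕ → ℕ} (hσ : StrictMono σ) (l : List (ℕ × L)) :
    X.rho σ (X.P l) = X.P (l.map (fun t => (σ t.1, t.2))) := by
  induction l with
  | nil => simp
  | cons t l ih => simp [ih, X.hrho σ hσ]

theorem rho_P_sig {C : Type} (pat : List (Option (Ltr C L))) (l : List (ℕ × L)) :
    X.rho (sig pat) (X.P l) = X.P (l.map (mapSig pat)) :=
  X.rho_P (sig_strictMono pat) l

end Sys

section
variable {A L Ch : Type} [Ring A] [Fintype L]

theorem span_succ (m : List (Ltr Ch L) → A) (hpad : ∀ w, m (w ++ [fun _ _ => 0]) = m w)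
    (N0 : AddSubgroup A) (k : ℕ) :
    N0 ⊔ AddSubgroup.closure (m '' {w | w.length = k}) ≤
      N0 ⊔ AddSubgroup.closure (m '' {w | w.length = k + 1}) := by
  refine sup_le_sup_left (AddSubgroup.closure_mono ?_) _
  rintro _ ⟨w, hw, rfl⟩
  exact ⟨w ++ [fun _ _ => 0], by simpa using hw, hpad w⟩

theorem span_mono (m : List (Ltr Ch L) → A) (hpad : ∀ w, m (w ++ [fun _ _ => 0]) = m w)
    (N0 : AddSubgroup A) :
    Monotone (fun k => N0 ⊔ AddSubgroup.closure (m '' {w | w.length = k})) :=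
  monotone_nat_of_le_succ (span_succ m hpad N0)

theorem hspan_of_gens (m : List (Ltr Ch L) → A) (hpad : ∀ w, m (w ++ [fun _ _ => 0]) = m w)
    (N0 : AddSubgroup A) (G : Set A)
    (hG : ∀ z ∈ G, ∃ k, z ∈ N0 ⊔ AddSubgroup.closure (m '' {w | w.length = k})) :
    ∀ x ∈ N0 ⊔ AddSubgroup.closure G, ∃ k, x ∈ N0 ⊔ AddSubgroup.closure (m '' {w | w.length = k}) := by
  intro x hx
  obtain ⟨a, ha, b, hb, rfl⟩ := AddSubgroup.mem_sup.mp hx
  have : ∃ k, b ∈ N0 ⊔ AddSubgroup.closure (m '' {w | w.length = k}) := by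
    refine AddSubgroup.closure_induction (p := fun b _ => ∃ k, b ∈ N0 ⊔ AddSubgroup.closure (m '' {w | w.length = k}))
      ?_ ?_ ?_ ?_ hb
    · intro z hz; exact hG z hz
    · exact ⟨0, AddSubgroup.zero_mem _⟩
    · rintro z1 z2 _ _ ⟨k1, h1⟩ ⟨k2, h2⟩
      exact ⟨max k1 k2, AddSubgroup.add_mem _ (span_mono m hpad N0 (le_max_left _ _) h1)
        (span_mono m hpad N0 (le_max_right _ _) h2)⟩
    · rintro z1 _ ⟨k1, h1⟩
      exact ⟨k1, AddSubgroup.neg_mem _ h1⟩
  obtain ⟨k, hk⟩ := this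
  exact ⟨k, AddSubgroup.add_mem _ (AddSubgroup.mem_sup_left ha) hk⟩

/-- engine specialised to exact insertion operations (modulo `N0`) -/
theorem engine_words [Fintype Ch] {p : ℕ} (hp : p.Prime) (hM : ∀ x : A, (p : ℤ) • x = 0)
    (m : List (Ltr Ch L) → A) (N0 : AddSubgroup A)
    {K : Type} [Finite K] (kap : List (Ltr Ch L) → K)
    (U : ℕ → AddSubgroup A) (hmono : Monotone U) (hN : ∀ k, N0 ≤ U k)
    (hspan : ∀ k, ∀ x ∈ U k, ∃ l, x ∈ N0 ⊔ AddSubgroup.closure (m '' {w | w.length = l}))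
    (hop : ∀ (pat : List (Option (Ltr Ch L))) (w : List (Ltr Ch L)), w.length = holes pat →
      kap w = kap (fill pat w) →
      ∃ O : A →+ A, (∀ k, ∀ x ∈ U k, O x ∈ U k) ∧ (∀ x ∈ N0, O x ∈ N0) ∧
        (∀ v, v.length = holes pat → O (m v) ∈ N0 ∨ O (m v) - m (fill pat v) ∈ N0) ∧
        O (m w) - m (fill pat w) ∈ N0) :
    ∃ K, ∀ k, K ≤ k → U k = U K := by
  classical
  haveI : LinearOrder (Ltr Ch L) := LinearOrder.lift' (Fintype.equivFin (Ltr Ch L)) (Equiv.injective _)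
  refine engine hp hM List.length m (fun k => finite_words k) N0
    (fun w w' => w.Sublist w' ∧ kap w = kap w') (higman_class kap) U hmono hN hspan ?_
  rintro w w' ⟨hsub, hk⟩
  obtain ⟨pat, h1, rfl⟩ := exists_pat hsub
  obtain ⟨O, hU, hN0, hv, hw⟩ := hop pat w h1.symm hk
  refine ⟨O, hU, hN0, ?_, 1, ?_, ?_⟩
  · intro v hv1 hlt
    have hvl : v.length = holes pat := by rw [hv1, h1]
    rcases hv v hvl with h | h
    · exact AddSubgroup.mem_sup_left h
    · have h2 : m (fill pat v) ∈ lowSpan List.length m N0 (fill pat w) := by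
        refine AddSubgroup.mem_sup_right (AddSubgroup.subset_closure ⟨fill pat v, ⟨?_, ?_⟩, rfl⟩)
        · rw [fill_length pat v hvl, fill_length pat w h1.symm]
        · exact fill_lt pat v w hvl h1.symm hlt
      have h3 := AddSubgroup.add_mem _ (AddSubgroup.mem_sup_left h :
        O (m v) - m (fill pat v) ∈ lowSpan List.length m N0 (fill pat w)) h2
      rwa [sub_add_cancel] at h3
  · intro h
    have := Int.eq_one_of_dvd_one (by positivity) h
    have h2 := hp.one_lt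
    omega
  · rw [one_smul]
    exact AddSubgroup.mem_sup_left hw

end

end Pool.Agent.Helper60
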